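import Pool.Agent.SHK.RatioB
import Pool.Agent.SHP.Unif

/-!
# Full limits

* `dcnt_small`.  Let `δ > 0` (small with respect to `ε`).  Choose `J` with
  `1 ≤ gf2 (meetPairs t J) zc + δ` (`q_small`), a finite set `F ⊆ meetPairs t J` with
  `∑_F zc^(|u|+|v|) ≥ 1 - 2δ`, `K` the largest length in `F`.  By `ratio_shift` there is `M ≥ K` with
  `h (N - k) ≥ (1 - δ) zc^k h N` for all `N ≥ M`, `k ≤ K`.  For `m, n ≥ M` the words `u ++ r`, `v ++ s` with
  `(u, v) ∈ F`, `r, s ∈ halfs t`, of lengths `m+1`, `n+1`, are pairwise different pairs of half-plane walks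
  which are not `OnlyTwo` (see `SHP/Unif.lean`, the proof of `unif`), so there are at least
  `(1-δ)^2 (1-2δ) h (m+1) h (n+1)` pairs which are not `OnlyTwo`, and
  `dcnt t m n ≤ #OnlyTwo ≤ (1 - (1-δ)^2 (1-2δ)) h (m+1) h (n+1) ≤ 4 δ h (m+1) h (n+1)
  ≤ 16 δ g m g n`.
* `cnt_saws_le`: the injection in the proof of `saws_le_disj`, by lengths.
-/

namespace Pool.Agent.SHK

open Pool.Agent.SHP
open scoped ENNReal NNReal

private theorem LimD_finH (t : Bool) (n : ℕ) : {l | l ∈ halfs t ∧ l.length = n}.Finite :=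
  finite_words (halfs t) (fun _ hl => hl.1.1) n

private theorem LimD_finC (t : Bool) (n : ℕ) : {l | l ∈ chalfs t ∧ l.length = n}.Finite :=
  finite_words (chalfs t) (fun _ hl => hl.1.1) n

private theorem LimD_finS (t : Bool) (n : ℕ) : {l | l ∈ saws t ∧ l.length = n}.Finite :=
  finite_words (saws t) (fun _ hl => hl.1) n

private theorem LimD_finD (t : Bool) (m n : ℕ) :
    {p | p ∈ disjPairs t ∧ p.1.length = m ∧ p.2.length = n}.Finite := by
  refine ((LimD_finC t m).prod (LimD_finC t n)).subset ?_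
  rintro ⟨u, v⟩ ⟨h, h1, h2⟩
  exact ⟨⟨h.1, h1⟩, ⟨h.2.1, h2⟩⟩

/-- A finite part of `meetPairs` of large weight. -/
private theorem LimD_exists (t : Bool) {δ : ℝ} (hδ : 0 < δ) :
    ∃ (J : ℕ) (F : Finset (meetPairs t J)),
      1 - 2 * δ ≤ ∑ p ∈ F, (zc t : ℝ) ^ (p.1.1.length + p.1.2.length) := by
  obtain ⟨J, hJ⟩ := q_small t (ε := ENNReal.ofReal δ) (ENNReal.ofReal_pos.2 hδ)
  rcases le_or_gt (1 - 2 * δ) 0 with h0 | h0
  · exact ⟨J, ∅, by simpa using h0⟩
  refine ⟨J, ?_⟩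
  have hlt : ENNReal.ofReal (1 - 2 * δ) < gf2 (meetPairs t J) (zc t) := by
    by_contra hcon
    push Not at hcon
    have h1 : (1 : ℝ≥0∞) ≤ ENNReal.ofReal (1 - 2 * δ) + ENNReal.ofReal δ :=
      hJ.trans (by gcongr)
    rw [← ENNReal.ofReal_add h0.le hδ.le, ← ENNReal.ofReal_one,
      ENNReal.ofReal_le_ofReal_iff (by linarith)] at h1
    linarith
  unfold gf2 at hlt
  rw [ENNReal.tsum_eq_iSup_sum, lt_iSup_iff] at hlt
  obtain ⟨F, hF⟩ := hlt
  refine ⟨F, ?_⟩
  have h2 : ∑ p ∈ F, (zc t : ℝ≥0∞) ^ (p.1.1.length + p.1.2.length) =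
      ENNReal.ofReal (∑ p ∈ F, (zc t : ℝ) ^ (p.1.1.length + p.1.2.length)) := by
    rw [ENNReal.ofReal_sum_of_nonneg (fun i _ => by positivity)]
    refine Finset.sum_congr rfl fun p _ => ?_
    rw [ENNReal.ofReal_pow (by positivity), ENNReal.ofReal_coe_nnreal]
  rw [h2] at hF
  exact ((ENNReal.ofReal_lt_ofReal_iff_of_nonneg h0.le).1 hF).le

/-- The pairs which are not `OnlyTwo`. -/
private theorem LimD_notOnly (t : Bool) (J : ℕ) (F : Finset (meetPairs t J)) {M N : ℕ}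
    (hM : ∀ p ∈ F, p.1.1.length ≤ M) (hN : ∀ p ∈ F, p.1.2.length ≤ N) :
    ∑ p ∈ F, cnt (halfs t) (M - p.1.1.length) * cnt (halfs t) (N - p.1.2.length) ≤
      Set.ncard {p : List (ℤ × ℤ) × List (ℤ × ℤ) | ((p.1 ∈ halfs t ∧ p.1.length = M) ∧
        (p.2 ∈ halfs t ∧ p.2.length = N)) ∧ ¬ OnlyTwo p.1 p.2} := by
  classical
  have hfin : {p : List (ℤ × ℤ) × List (ℤ × ℤ) | ((p.1 ∈ halfs t ∧ p.1.length = M) ∧
        (p.2 ∈ halfs t ∧ p.2.length = N)) ∧ ¬ OnlyTwo p.1 p.2}.Finite := by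
    refine ((LimD_finH t M).prod (LimD_finH t N)).subset ?_
    rintro ⟨u, v⟩ ⟨⟨h1, h2⟩, _⟩
    exact ⟨h1, h2⟩
  rw [Set.ncard_eq_toFinset_card _ hfin]
  have h1 : ∑ p ∈ F, cnt (halfs t) (M - p.1.1.length) * cnt (halfs t) (N - p.1.2.length) =
      (F.sigma (fun p => (LimD_finH t (M - p.1.1.length)).toFinset ×ˢ
        (LimD_finH t (N - p.1.2.length)).toFinset)).card := by
    rw [Finset.card_sigma]
    refine Finset.sum_congr rfl fun p _ => ?_
    rw [Finset.card_product, cnt, cnt, Set.ncard_eq_toFinset_card _ (LimD_finH t _),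
      Set.ncard_eq_toFinset_card _ (LimD_finH t _)]
  rw [h1]
  refine Finset.card_le_card_of_injOn
    (fun a => (a.1.1.1 ++ a.2.1, a.1.1.2 ++ a.2.2)) ?_ ?_
  · rintro ⟨⟨⟨u, v⟩, ⟨hu, hv⟩, huv⟩, ⟨r, s⟩⟩ ha
    have ha' := Finset.mem_sigma.1 (Finset.mem_coe.1 ha)
    obtain ⟨hp, hq⟩ := ha'
    have hq' := Finset.mem_product.1 hq
    simp only [Set.Finite.mem_toFinset, Set.mem_ofPred_eq] at hq'
    obtain ⟨⟨hr, hrl⟩, ⟨hs, hsl⟩⟩ := hq'
    have hMu := hM _ hp
    have hNv := hN _ hp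
    simp only at hMu hNv
    rw [Finset.mem_coe, Set.Finite.mem_toFinset]
    refine ⟨⟨⟨bridge_append_half (irrPow_subset J hu) hr, ?_⟩,
      ⟨bridge_append_half (irrPow_subset J hv) hs, ?_⟩⟩, ?_⟩
    · show (u ++ r).length = M
      rw [List.length_append, hrl]; omega
    · show (v ++ s).length = N
      rw [List.length_append, hsl]; omega
    · intro hO
      apply huv
      intro p q r' s' hp hq hpq
      refine hO p q (r' ++ r) (s' ++ s) ?_ ?_ hpq
      · have hp' : u = p ++ r' := hp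
        show u ++ r = p ++ (r' ++ r)
        rw [hp', List.append_assoc]
      · have hq' : v = q ++ s' := hq
        show v ++ s = q ++ (s' ++ s)
        rw [hq', List.append_assoc]
  · rintro ⟨⟨⟨u, v⟩, ⟨hu, hv⟩, huv⟩, ⟨r, s⟩⟩ ha ⟨⟨⟨u', v'⟩, ⟨hu', hv'⟩, huv'⟩, ⟨r', s'⟩⟩ ha' h
    obtain ⟨-, hq⟩ := Finset.mem_sigma.1 (Finset.mem_coe.1 ha)
    obtain ⟨-, hq'⟩ := Finset.mem_sigma.1 (Finset.mem_coe.1 ha')
    have hq := Finset.mem_product.1 hq
    have hq' := Finset.mem_product.1 hq'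
    simp only [Set.Finite.mem_toFinset, Set.mem_ofPred_eq] at hq hq'
    have e1 : u ++ r = u' ++ r' := congrArg Prod.fst h
    have e2 : v ++ s = v' ++ s' := congrArg Prod.snd h
    obtain ⟨rfl, rfl⟩ := irrPow_unique hu hu' hq.1.1 hq'.1.1 e1
    obtain ⟨rfl, rfl⟩ := irrPow_unique hv hv' hq.2.1 hq'.2.1 e2
    rfl

/-- The pairs which are `OnlyTwo`. -/
private theorem LimD_only (t : Bool) (m n : ℕ) :
    dcnt t m n ≤ Set.ncard {p : List (ℤ × ℤ) × List (ℤ × ℤ) |
      ((p.1 ∈ halfs t ∧ p.1.length = m + 1) ∧ (p.2 ∈ halfs t ∧ p.2.length = n + 1)) ∧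
        OnlyTwo p.1 p.2} := by
  have hfin : {p : List (ℤ × ℤ) × List (ℤ × ℤ) | ((p.1 ∈ halfs t ∧ p.1.length = m + 1) ∧
        (p.2 ∈ halfs t ∧ p.2.length = n + 1)) ∧ OnlyTwo p.1 p.2}.Finite := by
    refine ((LimD_finH t (m + 1)).prod (LimD_finH t (n + 1))).subset ?_
    rintro ⟨u, v⟩ ⟨⟨h1, h2⟩, _⟩
    exact ⟨h1, h2⟩
  refine Set.ncard_le_ncard_of_injOn (fun p => ((1, 0) :: p.1, (1, 0) :: p.2)) ?_ ?_ hfin
  · rintro ⟨u, v⟩ ⟨h, h1, h2⟩
    refine ⟨⟨⟨cons_mem_halfs h.1, ?_⟩, ⟨cons_mem_halfs h.2.1, ?_⟩⟩, disj_only h⟩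
    · simpa using h1
    · simpa using h2
  · rintro ⟨u, v⟩ _ ⟨u', v'⟩ _ h
    have e1 : (1, 0) :: u = (1, 0) :: u' := congrArg Prod.fst h
    have e2 : (1, 0) :: v = (1, 0) :: v' := congrArg Prod.snd h
    rw [(List.cons.inj e1).2, (List.cons.inj e2).2]

private theorem LimD_split (t : Bool) (M N : ℕ) :
    Set.ncard {p : List (ℤ × ℤ) × List (ℤ × ℤ) |
      ((p.1 ∈ halfs t ∧ p.1.length = M) ∧ (p.2 ∈ halfs t ∧ p.2.length = N)) ∧
        OnlyTwo p.1 p.2} +
    Set.ncard {p : List (ℤ × ℤ) × List (ℤ × ℤ) |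
      ((p.1 ∈ halfs t ∧ p.1.length = M) ∧ (p.2 ∈ halfs t ∧ p.2.length = N)) ∧
        ¬ OnlyTwo p.1 p.2} = cnt (halfs t) M * cnt (halfs t) N := by
  have hA : ({p : List (ℤ × ℤ) × List (ℤ × ℤ) |
      ((p.1 ∈ halfs t ∧ p.1.length = M) ∧ (p.2 ∈ halfs t ∧ p.2.length = N))}).Finite := by
    refine ((LimD_finH t M).prod (LimD_finH t N)).subset ?_
    rintro ⟨u, v⟩ ⟨h1, h2⟩
    exact ⟨h1, h2⟩
  have h1 : cnt (halfs t) M * cnt (halfs t) N = Set.ncard {p : List (ℤ × ℤ) × List (ℤ × ℤ) |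
      ((p.1 ∈ halfs t ∧ p.1.length = M) ∧ (p.2 ∈ halfs t ∧ p.2.length = N))} := by
    rw [cnt, cnt, ← Set.ncard_prod]
    rfl
  rw [h1, ← Set.ncard_union_eq ?_ (hA.subset fun p hp => hp.1) (hA.subset fun p hp => hp.1)]
  · congr 1
    ext p
    constructor
    · rintro (h | h)
      · exact h.1
      · exact h.1
    · intro h
      by_cases hO : OnlyTwo p.1 p.2
      · exact Or.inl ⟨h, hO⟩
      · exact Or.inr ⟨h, hO⟩
  · rw [Set.disjoint_left]
    intro p h1 h2
    exact h2.2 h1.2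

theorem dcnt_small (t : Bool) {ε : ℝ} (hε : 0 < ε) :
    ∃ M : ℕ, ∀ m n, M ≤ m → M ≤ n →
      (dcnt t m n : ℝ) ≤ ε * ((cnt (chalfs t) m : ℝ) * (cnt (chalfs t) n : ℝ)) := by
  set δ : ℝ := min (ε / 16) (1 / 2) with hδdef
  have hδ : 0 < δ := lt_min (by positivity) (by norm_num)
  have hδ1 : δ ≤ ε / 16 := min_le_left _ _
  have hδ2 : δ ≤ 1 / 2 := min_le_right _ _
  obtain ⟨J, F, hF⟩ := LimD_exists t hδ
  have hz : (0 : ℝ) < (zc t : ℝ) := by exact_mod_cast zc_pos t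
  set K : ℕ := F.sup (fun p => max p.1.1.length p.1.2.length) with hK
  have hK1 : ∀ p ∈ F, p.1.1.length ≤ K := fun p hp =>
    (le_max_left _ _).trans (Finset.le_sup (f := fun p : meetPairs t J =>
      max p.1.1.length p.1.2.length) hp)
  have hK2 : ∀ p ∈ F, p.1.2.length ≤ K := fun p hp =>
    (le_max_right _ _).trans (Finset.le_sup (f := fun p : meetPairs t J =>
      max p.1.1.length p.1.2.length) hp)
  have hpos : ∀ N, 0 < (cnt (halfs t) N : ℝ) := fun N => by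
    have := one_le_cnt_halfs t N
    exact_mod_cast this
  have hev : ∀ᶠ N in Filter.atTop, ∀ k ∈ Finset.range (K + 1),
      (1 - δ) * (zc t : ℝ) ^ k ≤ (cnt (halfs t) (N - k) : ℝ) / (cnt (halfs t) N : ℝ) := by
    rw [Finset.eventually_all]
    intro k _
    have hzk : 0 < (zc t : ℝ) ^ k := by positivity
    exact (ratio_shift t k).eventually_const_le (by nlinarith)
  obtain ⟨M₀, hM₀⟩ := Filter.eventually_atTop.1 hev
  have hrat : ∀ N, M₀ ≤ N → ∀ k ≤ K,
      (1 - δ) * (zc t : ℝ) ^ k * (cnt (halfs t) N : ℝ) ≤ (cnt (halfs t) (N - k) : ℝ) := by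
    intro N hN k hk
    have := hM₀ N hN k (Finset.mem_range.2 (Nat.lt_succ_of_le hk))
    rwa [le_div_iff₀ (hpos N)] at this
  refine ⟨max M₀ K, fun m n hm hn => ?_⟩
  have hm1 : M₀ ≤ m + 1 := by have := (le_max_left M₀ K).trans hm; omega
  have hm2 : K ≤ m + 1 := by have := (le_max_right M₀ K).trans hm; omega
  have hn1 : M₀ ≤ n + 1 := by have := (le_max_left M₀ K).trans hn; omega
  have hn2 : K ≤ n + 1 := by have := (le_max_right M₀ K).trans hn; omega
  have h1 := LimD_notOnly t J F (M := m + 1) (N := n + 1)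
    (fun p hp => (hK1 p hp).trans hm2) (fun p hp => (hK2 p hp).trans hn2)
  have h2 := LimD_only t m n
  have h3 := LimD_split t (m + 1) (n + 1)
  set A : ℝ := (cnt (halfs t) (m + 1) : ℝ) with hA
  set B : ℝ := (cnt (halfs t) (n + 1) : ℝ) with hB
  have hApos : 0 < A := hpos _
  have hBpos : 0 < B := hpos _
  have h4 : (1 - 4 * δ) * (A * B) ≤
      ((∑ p ∈ F, cnt (halfs t) (m + 1 - p.1.1.length) * cnt (halfs t) (n + 1 - p.1.2.length) : ℕ) :
        ℝ) := by
    push_cast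
    calc (1 - 4 * δ) * (A * B)
        ≤ ((1 - δ) ^ 2 * (1 - 2 * δ)) * (A * B) := by
          have hAB : 0 < A * B := mul_pos hApos hBpos
          refine mul_le_mul_of_nonneg_right ?_ hAB.le
          nlinarith [sq_nonneg δ, mul_nonneg (sq_nonneg δ) (by linarith : (0 : ℝ) ≤ 1 - 2 * δ)]
      _ ≤ ((1 - δ) ^ 2 * ∑ p ∈ F, (zc t : ℝ) ^ (p.1.1.length + p.1.2.length)) * (A * B) := by
          gcongr
      _ = ∑ p ∈ F, ((1 - δ) * (zc t : ℝ) ^ p.1.1.length * A) *
            ((1 - δ) * (zc t : ℝ) ^ p.1.2.length * B) := by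
          rw [Finset.mul_sum, Finset.sum_mul]
          refine Finset.sum_congr rfl fun p _ => ?_
          rw [pow_add]
          ring
      _ ≤ ∑ p ∈ F, (cnt (halfs t) (m + 1 - p.1.1.length) : ℝ) *
            (cnt (halfs t) (n + 1 - p.1.2.length) : ℝ) := by
          refine Finset.sum_le_sum fun p hp => ?_
          have h5 := hrat (m + 1) hm1 _ (hK1 p hp)
          have h6 := hrat (n + 1) hn1 _ (hK2 p hp)
          have h7 : 0 ≤ (1 - δ) * (zc t : ℝ) ^ p.1.2.length * B := by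
            have : 0 ≤ 1 - δ := by linarith
            positivity
          exact mul_le_mul h5 h6 h7 (Nat.cast_nonneg _)
  have h1' := (Nat.cast_le (α := ℝ)).2 h1
  have h2' := (Nat.cast_le (α := ℝ)).2 h2
  have h3' := congrArg (Nat.cast (R := ℝ)) h3
  push_cast at h3'
  rw [← hA, ← hB] at h3'
  have h5 : (dcnt t m n : ℝ) ≤ 4 * δ * (A * B) := by
    linarith
  have h6 : A ≤ 2 * (cnt (chalfs t) m : ℝ) := by
    have := cnt_halfs_le (t := t) m
    rw [hA]
    exact_mod_cast this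
  have h7 : B ≤ 2 * (cnt (chalfs t) n : ℝ) := by
    have := cnt_halfs_le (t := t) n
    rw [hB]
    exact_mod_cast this
  calc (dcnt t m n : ℝ) ≤ 4 * δ * (A * B) := h5
    _ ≤ 4 * δ * ((2 * (cnt (chalfs t) m : ℝ)) * (2 * (cnt (chalfs t) n : ℝ))) := by
        gcongr
    _ = (16 * δ) * ((cnt (chalfs t) m : ℝ) * (cnt (chalfs t) n : ℝ)) := by ring
    _ ≤ ε * ((cnt (chalfs t) m : ℝ) * (cnt (chalfs t) n : ℝ)) := by
        have : 16 * δ ≤ ε := by linarith
        gcongr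

/-- Existence of a leftmost cut. -/
private theorem LimD_cut_exists (l : List (ℤ × ℤ)) :
    ∃ u v : List (ℤ × ℤ), l = u ++ v ∧
      ∀ a b : List (ℤ × ℤ), l = a ++ b → u.sum.1 ≤ a.sum.1 := by
  obtain ⟨n, hn, hmin⟩ := Finset.exists_min_image (Finset.range (l.length + 1))
    (fun n => (l.take n).sum.1) ⟨0, by simp⟩
  refine ⟨l.take n, l.drop n, (List.take_append_drop n l).symm, ?_⟩
  intro a b hab
  have h1 : a = l.take a.length := by rw [hab]; simp
  have h2 : a.length ∈ Finset.range (l.length + 1) := by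
    rw [Finset.mem_range, hab, List.length_append]; omega
  have h3 := hmin _ h2
  rwa [← h1] at h3

private theorem LimD_cut_factor {t : Bool} {l u v w : List (ℤ × ℤ)} (h : l ∈ saws t)
    (hl : l = u ++ (v ++ w)) : v ∈ saws t := by
  refine ⟨fun s hs => h.1 s (by rw [hl]; simp [hs]), ?_⟩
  intro a b c habc hb
  exact h.2 (u ++ a) b (c ++ w) (by rw [hl, habc]; simp) hb

private theorem LimD_rev_eq_nil {l : List (ℤ × ℤ)} (h : rev l = []) : l = [] := by
  have := rev_length l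
  rw [h] at this
  exact List.length_eq_zero_iff.mp this.symm

private theorem LimD_cut_pair {t : Bool} {l u v : List (ℤ × ℤ)} (hl : l ∈ saws t) (h : l = u ++ v)
    (hmin : ∀ a b : List (ℤ × ℤ), l = a ++ b → u.sum.1 ≤ a.sum.1) :
    (rev u, v) ∈ disjPairs t := by
  refine ⟨⟨?_, ?_⟩, ⟨?_, ?_⟩, ?_⟩
  · exact rev_mem_saws (LimD_cut_factor (u := []) hl (by simpa using h))
  · intro a b hab
    have h1 : u = rev b ++ rev a := by
      have := congrArg rev hab
      rwa [rev_rev, rev_append] at this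
    have h2 := hmin (rev b) (rev a ++ v) (by rw [h, h1]; simp)
    have h3 : u.sum.1 = (rev b).sum.1 + (rev a).sum.1 := by
      rw [h1, List.sum_append]; rfl
    have h4 : (rev a).sum.1 = - a.sum.1 := by rw [rev_sum]; rfl
    omega
  · exact LimD_cut_factor (u := u) (w := []) hl (by simpa using h)
  · intro a b hab
    have hab' : v = a ++ b := hab
    have h2 := hmin (u ++ a) b (by rw [h, hab']; simp)
    have h3 : (u ++ a).sum.1 = u.sum.1 + a.sum.1 := by rw [List.sum_append]; rfl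
    omega
  · intro p q r s hp hq hpq
    have h1 : u = rev r ++ rev p := by
      have := congrArg rev hp
      rwa [rev_rev, rev_append] at this
    simp only at hq
    have h2 : (rev p ++ q).sum = 0 := by
      rw [List.sum_append, rev_sum, hpq]
      exact neg_add_cancel _
    have h3 := hl.2 (rev r) (rev p ++ q) s (by rw [h, h1, hq]; simp) h2
    have h4 := List.append_eq_nil_iff.mp h3
    exact ⟨LimD_rev_eq_nil h4.1, h4.2⟩

theorem cnt_saws_le (t : Bool) (n : ℕ) :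
    cnt (saws t) n ≤ ∑ i ∈ Finset.range (n + 1), dcnt t i (n - i) := by
  classical
  choose U V hUV hmin using LimD_cut_exists
  have h1 : cnt (saws t) n = (LimD_finS t n).toFinset.card :=
    Set.ncard_eq_toFinset_card _ (LimD_finS t n)
  have h2 : ∀ i, dcnt t i (n - i) = (LimD_finD t i (n - i)).toFinset.card := fun i =>
    Set.ncard_eq_toFinset_card _ (LimD_finD t i (n - i))
  rw [h1, Finset.sum_congr rfl (fun i _ => h2 i), ← Finset.card_sigma]
  refine Finset.card_le_card_of_injOn (fun l => ⟨(U l).length, (rev (U l), V l)⟩) ?_ ?_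
  · intro l hl
    have hl' := (LimD_finS t n).mem_toFinset.1 (Finset.mem_coe.1 hl)
    obtain ⟨hls, hln⟩ := hl'
    have hlen := congrArg List.length (hUV l)
    rw [List.length_append] at hlen
    rw [Finset.mem_coe, Finset.mem_sigma, Finset.mem_range, Set.Finite.mem_toFinset]
    refine ⟨?_, LimD_cut_pair hls (hUV l) (hmin l), ?_, ?_⟩
    · show (U l).length < n + 1
      omega
    · exact rev_length _
    · show (V l).length = n - (U l).length
      omega
  · intro l _ l' _ h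
    have h3 : (rev (U l), V l) = (rev (U l'), V l') := by
      simp only [Sigma.mk.injEq] at h
      exact eq_of_heq h.2
    have e1 : rev (U l) = rev (U l') := congrArg Prod.fst h3
    have e2 : V l = V l' := congrArg Prod.snd h3
    have h4 : U l = U l' := by
      have := congrArg rev e1
      rwa [rev_rev, rev_rev] at this
    rw [hUV l, hUV l', h4, e2]

end Pool.Agent.SHK
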