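import Pool.Agent.SHK.MeetK
import Pool.Agent.SHK.LimD

/-!
# Few common vertices

The same proofs as for `onlyTwo_small`, `zlim` (SHP/ZLim.lean) and `dcnt_small` (SHK/LimD.lean), with
`meetPairs t J`, `¬ OnlyTwo` replaced by `meetPairsK t (K+1) J`, `K + 1 < (comm p.1 p.2).card`, and
`q_small` by `q_smallK`:
* if `u`, `v` are prefixes of `u'`, `v'` then `comm u v ⊆ comm u' v'` (`comm_mono`), so pairs
  `(u ++ r, v ++ s)` with `(u, v) ∈ meetPairsK t (K+1) J` have more than `K + 1` common vertices;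
* for closed half-plane walks `u`, `v`: `comm ((1,0) :: u) ((1,0) :: v) = {0} ∪ ((1,0) + comm u v)`, so a
  pair of closed half-plane walks with at most `K` common vertices gives a pair of strict half-plane
  walks with at most `K + 1` common vertices (only this inequality is needed; it holds for all
  words `u`, `v`).
-/

namespace Pool.Agent.SHK

open Pool.Agent.SHP
open scoped ENNReal NNReal

variable {t : Bool}

/-- Pairs of closed half-plane words with at most `K` common vertices. -/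
def fewPairs (t : Bool) (K : ℕ) : Set (List (ℤ × ℤ) × List (ℤ × ℤ)) :=
  {p | (p.1 ∈ chalfs t ∧ p.2 ∈ chalfs t) ∧ (comm p.1 p.2).card ≤ K}

/-- Number of such pairs of lengths `m`, `n`. -/
noncomputable def fcnt (t : Bool) (K m n : ℕ) : ℕ :=
  Set.ncard {p | p ∈ fewPairs t K ∧ p.1.length = m ∧ p.2.length = n}

theorem card_comm_cons_le (u v : List (ℤ × ℤ)) :
    (comm ((1, 0) :: u) ((1, 0) :: v)).card ≤ (comm u v).card + 1 := by
  classical
  have key : ∀ (l : List (ℤ × ℤ)) (p : ℤ × ℤ), p ∈ verts 0 ((1, 0) :: l) →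
      p = 0 ∨ p - (1, 0) ∈ verts 0 l := by
    intro l p hp
    obtain ⟨i, hi, rfl⟩ := mem_verts_iff.1 hp
    rcases i with _ | i
    · left
      simp [pos]
    · right
      refine mem_verts_iff.2 ⟨i, by simpa using hi, ?_⟩
      unfold pos
      rw [List.take_succ_cons, List.sum_cons, add_sub_cancel_left]
  have hsub : comm ((1, 0) :: u) ((1, 0) :: v) ⊆
      insert 0 ((comm u v).image (fun p => p + (1, 0))) := by
    intro p hp
    unfold comm at hp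
    rw [Finset.mem_inter, List.mem_toFinset, List.mem_toFinset] at hp
    rcases key u p hp.1 with h | h
    · rw [h]
      exact Finset.mem_insert_self _ _
    · rcases key v p hp.2 with h' | h'
      · rw [h']
        exact Finset.mem_insert_self _ _
      · refine Finset.mem_insert_of_mem (Finset.mem_image.2 ⟨p - (1, 0), ?_, sub_add_cancel _ _⟩)
        unfold comm
        rw [Finset.mem_inter, List.mem_toFinset, List.mem_toFinset]
        exact ⟨h, h'⟩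
  calc (comm ((1, 0) :: u) ((1, 0) :: v)).card
      ≤ (insert 0 ((comm u v).image (fun p => p + (1, 0)))).card := Finset.card_le_card hsub
    _ ≤ ((comm u v).image (fun p => p + (1, 0))).card + 1 := Finset.card_insert_le _ _
    _ ≤ (comm u v).card + 1 := Nat.add_le_add_right Finset.card_image_le 1

private theorem LimK_few {K : ℕ} {u v : List (ℤ × ℤ)} (h : (comm u v).card ≤ K) :
    ¬ K + 1 < (comm ((1, 0) :: u) ((1, 0) :: v)).card := by
  have := card_comm_cons_le u v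
  omega

private theorem LimK_mul_le (t : Bool) (K J : ℕ) (z : ℝ≥0) :
    gf2 (meetPairsK t K J) z * (gf (halfs t) z) ^ 2 ≤
      gf2 {p | (p.1 ∈ halfs t ∧ p.2 ∈ halfs t) ∧ K < (comm p.1 p.2).card} z := by
  set T : Set (List (ℤ × ℤ) × List (ℤ × ℤ)) :=
    {p | (p.1 ∈ halfs t ∧ p.2 ∈ halfs t) ∧ K < (comm p.1 p.2).card} with hT
  have hmem : ∀ a : (meetPairsK t K J) × (halfs t ×ˢ halfs t : Set _),
      ((a.1 : List (ℤ × ℤ) × List (ℤ × ℤ)).1 ++ (a.2 : List (ℤ × ℤ) × List (ℤ × ℤ)).1,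
        (a.1 : List (ℤ × ℤ) × List (ℤ × ℤ)).2 ++ (a.2 : List (ℤ × ℤ) × List (ℤ × ℤ)).2) ∈ T := by
    rintro ⟨⟨⟨u, v⟩, ⟨hu, hv⟩, huv⟩, ⟨⟨r, s⟩, hr, hs⟩⟩
    refine ⟨⟨bridge_append_half (irrPow_subset J hu) hr,
      bridge_append_half (irrPow_subset J hv) hs⟩, ?_⟩
    exact lt_of_lt_of_le huv (Finset.card_le_card
      (comm_mono (List.prefix_append _ _) (List.prefix_append _ _)))
  set F : (meetPairsK t K J) × (halfs t ×ˢ halfs t : Set _) → T := fun a => ⟨_, hmem a⟩ with hF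
  have hFinj : Function.Injective F := by
    rintro ⟨⟨⟨u, v⟩, ⟨hu, hv⟩, huv⟩, ⟨⟨r, s⟩, hr, hs⟩⟩ ⟨⟨⟨u', v'⟩, ⟨hu', hv'⟩, huv'⟩,
      ⟨⟨r', s'⟩, hr', hs'⟩⟩ h
    have h1 := congrArg Subtype.val h
    have h2 : u ++ r = u' ++ r' := congrArg Prod.fst h1
    have h3 : v ++ s = v' ++ s' := congrArg Prod.snd h1
    obtain ⟨e1, e2⟩ := irrPow_unique hu hu' hr hr' h2
    obtain ⟨e3, e4⟩ := irrPow_unique hv hv' hs hs' h3
    subst e1 e2 e3 e4
    rfl
  rw [pow_two, ← gf2_prod]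
  have h1 : gf2 (meetPairsK t K J) z * gf2 (halfs t ×ˢ halfs t) z =
      ∑' a : (meetPairsK t K J) × (halfs t ×ˢ halfs t : Set _),
        (z : ℝ≥0∞) ^ (((F a : List (ℤ × ℤ) × List (ℤ × ℤ))).1.length +
          ((F a : List (ℤ × ℤ) × List (ℤ × ℤ))).2.length) := by
    have h2 : ∀ (a : meetPairsK t K J) (b : (halfs t ×ˢ halfs t : Set _)),
        (z : ℝ≥0∞) ^ (((F (a, b) : List (ℤ × ℤ) × List (ℤ × ℤ))).1.length +
          ((F (a, b) : List (ℤ × ℤ) × List (ℤ × ℤ))).2.length) =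
        (z : ℝ≥0∞) ^ ((a : List (ℤ × ℤ) × List (ℤ × ℤ)).1.length +
          (a : List (ℤ × ℤ) × List (ℤ × ℤ)).2.length) *
        (z : ℝ≥0∞) ^ ((b : List (ℤ × ℤ) × List (ℤ × ℤ)).1.length +
          (b : List (ℤ × ℤ) × List (ℤ × ℤ)).2.length) := by
      intro a b
      rw [← pow_add]
      congr 1
      show (a.1.1 ++ b.1.1).length + (a.1.2 ++ b.1.2).length = _
      rw [List.length_append, List.length_append]
      ring
    rw [ENNReal.tsum_prod']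
    simp only [h2]
    unfold gf2
    simp only [ENNReal.tsum_mul_left, ENNReal.tsum_mul_right]
  rw [h1]
  exact ENNReal.tsum_comp_le_tsum_of_injective hFinj
    (fun c : T => (z : ℝ≥0∞) ^ ((c : List (ℤ × ℤ) × List (ℤ × ℤ)).1.length +
      (c : List (ℤ × ℤ) × List (ℤ × ℤ)).2.length))

private theorem LimK_small (t : Bool) (K : ℕ) {ε : ℝ≥0} (hε : 0 < ε) :
    ∃ z₀ < zc t, ∀ z, z₀ < z → z < zc t →
      gf2 {p | (p.1 ∈ halfs t ∧ p.2 ∈ halfs t) ∧ ¬ K < (comm p.1 p.2).card} z ≤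
        ε * (gf (halfs t) z) ^ 2 := by
  have hsplit : ∀ z : ℝ≥0, gf2 {p | (p.1 ∈ halfs t ∧ p.2 ∈ halfs t) ∧ ¬ K < (comm p.1 p.2).card} z +
      gf2 {p | (p.1 ∈ halfs t ∧ p.2 ∈ halfs t) ∧ K < (comm p.1 p.2).card} z =
        (gf (halfs t) z) ^ 2 := by
    intro z
    have h := gf2_split (halfs t ×ˢ halfs t) (fun a => ¬ K < (comm a.1 a.2).card) z
    rw [gf2_prod, ← pow_two] at h
    simp only [not_not] at h
    exact h
  by_cases hε1 : 1 ≤ ε
  · refine ⟨0, zc_pos t, fun z _ _ => ?_⟩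
    have h1 : (1 : ℝ≥0∞) ≤ ε := by exact_mod_cast hε1
    calc gf2 {p | (p.1 ∈ halfs t ∧ p.2 ∈ halfs t) ∧ ¬ K < (comm p.1 p.2).card} z
        ≤ (gf (halfs t) z) ^ 2 := by
          rw [← hsplit z]
          exact le_self_add
      _ = 1 * (gf (halfs t) z) ^ 2 := (one_mul _).symm
      _ ≤ ε * (gf (halfs t) z) ^ 2 := by gcongr
  · have hε1' : (ε : ℝ≥0∞) ≤ 1 := by
      exact_mod_cast (not_le.1 hε1).le
    have hε0 : (ε : ℝ≥0∞) ≠ 0 := by
      exact_mod_cast hε.ne'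
    have hεt : (ε : ℝ≥0∞) ≠ ⊤ := ENNReal.coe_ne_top
    obtain ⟨J, hJ⟩ := q_smallK t K (ε := (ε : ℝ≥0∞) / 2) (ENNReal.div_pos hε0 (by norm_num))
    have hlt : 1 - (ε : ℝ≥0∞) < gf2 (meetPairsK t K J) (zc t) := by
      by_contra hcon
      push Not at hcon
      have h1 : (1 : ℝ≥0∞) ≤ (1 - ε) + ε / 2 := hJ.trans (by gcongr)
      have h2 : (1 - (ε : ℝ≥0∞)) + ε / 2 < (1 - ε) + ε := by
        refine ENNReal.add_lt_add_left (ne_top_of_le_ne_top ENNReal.one_ne_top tsub_le_self) ?_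
        exact ENNReal.half_lt_self hε0 hεt
      rw [tsub_add_cancel_of_le hε1'] at h2
      exact absurd h1 (not_le.2 h2)
    obtain ⟨z₀, hz₀, hz⟩ := gf2_lsc (meetPairsK t K J) (zc_pos t) hlt
    refine ⟨z₀, hz₀, fun z h1 h2 => ?_⟩
    have h3 := hz z h1 h2
    have hG : (gf (halfs t) z) ^ 2 ≠ ⊤ := ENNReal.pow_ne_top (gf_halfs_ne_top t h2)
    have h4 := LimK_mul_le t K J z
    have h5 : (1 - (ε : ℝ≥0∞)) * (gf (halfs t) z) ^ 2 ≤
        gf2 {p | (p.1 ∈ halfs t ∧ p.2 ∈ halfs t) ∧ K < (comm p.1 p.2).card} z :=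
      le_trans (by gcongr) h4
    have h6 : (1 - (ε : ℝ≥0∞)) * (gf (halfs t) z) ^ 2 ≠ ⊤ :=
      ENNReal.mul_ne_top (ne_top_of_le_ne_top ENNReal.one_ne_top tsub_le_self) hG
    refine ENNReal.le_of_add_le_add_right h6 ?_
    calc gf2 {p | (p.1 ∈ halfs t ∧ p.2 ∈ halfs t) ∧ ¬ K < (comm p.1 p.2).card} z +
          (1 - (ε : ℝ≥0∞)) * (gf (halfs t) z) ^ 2
        ≤ gf2 {p | (p.1 ∈ halfs t ∧ p.2 ∈ halfs t) ∧ ¬ K < (comm p.1 p.2).card} z +
          gf2 {p | (p.1 ∈ halfs t ∧ p.2 ∈ halfs t) ∧ K < (comm p.1 p.2).card} z := by gcongr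
      _ = (gf (halfs t) z) ^ 2 := hsplit z
      _ = (ε + (1 - ε)) * (gf (halfs t) z) ^ 2 := by
          rw [add_tsub_cancel_of_le hε1', one_mul]
      _ = ε * (gf (halfs t) z) ^ 2 + (1 - ε) * (gf (halfs t) z) ^ 2 := add_mul _ _ _

theorem zlimK (t : Bool) (K : ℕ) {ε : ℝ≥0} (hε : 0 < ε) :
    ∃ z₀ < zc t, ∀ z, z₀ < z → z < zc t →
      gf2 (fewPairs t K) z ≤ ε * (gf (chalfs t) z) ^ 2 := by
  obtain ⟨z₀, hz₀, h0⟩ := LimK_small t (K + 1) (ε := ε / 9) (by positivity)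
  obtain ⟨z₁, hz₁, h1⟩ := gf_halfs_large t 3
  refine ⟨max z₀ z₁, max_lt hz₀ hz₁, fun z hz hzc => ?_⟩
  have hA := h0 z ((le_max_left _ _).trans_lt hz) hzc
  have hB := h1 z ((le_max_right _ _).trans_lt hz) hzc
  have hC := halfs_le (t := t) z
  have hz0 : 0 < z := (zero_le).trans_lt hz
  have hD : (z : ℝ≥0∞) ^ 2 * gf2 (fewPairs t K) z ≤
      gf2 {p | (p.1 ∈ halfs t ∧ p.2 ∈ halfs t) ∧ ¬ K + 1 < (comm p.1 p.2).card} z := by
    refine gf2_le_of_inj z 2 (fun p => ((1, 0) :: p.1, (1, 0) :: p.2)) ?_ ?_ ?_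
    · rintro ⟨u, v⟩ h
      exact ⟨⟨cons_mem_halfs h.1.1, cons_mem_halfs h.1.2⟩, LimK_few h.2⟩
    · rintro ⟨u, v⟩ _ ⟨u', v'⟩ _ h
      have e1 : (1, 0) :: u = (1, 0) :: u' := congrArg Prod.fst h
      have e2 : (1, 0) :: v = (1, 0) :: v' := congrArg Prod.snd h
      rw [(List.cons.inj e1).2, (List.cons.inj e2).2]
    · rintro ⟨u, v⟩ _
      simp only [List.length_cons]
      ring
  have hGt := gf_halfs_ne_top t hzc
  have hDt := gf_chalfs_ne_top t hzc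
  have hzt : (z : ℝ≥0∞) ≠ ⊤ := ENNReal.coe_ne_top
  have hGD : gf (halfs t) z ≤ 3 * ((z : ℝ≥0∞) * gf (chalfs t) z) := by
    generalize gf (halfs t) z = G at *
    generalize gf (chalfs t) z = D at *
    lift G to ℝ≥0 using hGt
    lift D to ℝ≥0 using hDt
    have hB' : (3 : ℝ≥0) ≤ G := by exact_mod_cast hB
    have hC' : G ≤ 1 + 2 * z * D := by exact_mod_cast hC
    have hgoal : G ≤ 3 * (z * D) := by
      rw [← NNReal.coe_le_coe] at hB' hC' ⊢
      push_cast at hB' hC' ⊢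
      linarith
    exact_mod_cast hgoal
  have h9 : ((ε / 9 : ℝ≥0) : ℝ≥0∞) * 9 = ε := by
    have : (ε / 9 : ℝ≥0) * 9 = ε := by field_simp
    exact_mod_cast this
  have hfin : (z : ℝ≥0∞) ^ 2 * gf2 (fewPairs t K) z ≤
      (z : ℝ≥0∞) ^ 2 * (ε * (gf (chalfs t) z) ^ 2) := by
    calc (z : ℝ≥0∞) ^ 2 * gf2 (fewPairs t K) z
        ≤ ((ε / 9 : ℝ≥0) : ℝ≥0∞) * (gf (halfs t) z) ^ 2 := hD.trans hA
      _ ≤ ((ε / 9 : ℝ≥0) : ℝ≥0∞) * (3 * ((z : ℝ≥0∞) * gf (chalfs t) z)) ^ 2 := by gcongr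
      _ = (z : ℝ≥0∞) ^ 2 * ((((ε / 9 : ℝ≥0) : ℝ≥0∞) * 9) * (gf (chalfs t) z) ^ 2) := by ring
      _ = (z : ℝ≥0∞) ^ 2 * (ε * (gf (chalfs t) z) ^ 2) := by rw [h9]
  have hz2 : (z : ℝ≥0∞) ^ 2 ≠ 0 := pow_ne_zero 2 (by exact_mod_cast hz0.ne')
  exact (ENNReal.mul_le_mul_iff_right hz2 (ENNReal.pow_ne_top hzt)).1 hfin

private theorem LimK_finH (t : Bool) (n : ℕ) : {l | l ∈ halfs t ∧ l.length = n}.Finite :=
  finite_words (halfs t) (fun _ hl => hl.1.1) n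

private theorem LimK_finC (t : Bool) (n : ℕ) : {l | l ∈ chalfs t ∧ l.length = n}.Finite :=
  finite_words (chalfs t) (fun _ hl => hl.1.1) n

private theorem LimK_finD (t : Bool) (K m n : ℕ) :
    {p | p ∈ fewPairs t K ∧ p.1.length = m ∧ p.2.length = n}.Finite := by
  refine ((LimK_finC t m).prod (LimK_finC t n)).subset ?_
  rintro ⟨u, v⟩ ⟨h, h1, h2⟩
  exact ⟨⟨h.1.1, h1⟩, ⟨h.1.2, h2⟩⟩

/-- A finite part of `meetPairs` of large weight. -/
private theorem LimK_exists (t : Bool) (K : ℕ) {δ : ℝ} (hδ : 0 < δ) :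
    ∃ (J : ℕ) (F : Finset (meetPairsK t K J)),
      1 - 2 * δ ≤ ∑ p ∈ F, (zc t : ℝ) ^ (p.1.1.length + p.1.2.length) := by
  obtain ⟨J, hJ⟩ := q_smallK t K (ε := ENNReal.ofReal δ) (ENNReal.ofReal_pos.2 hδ)
  rcases le_or_gt (1 - 2 * δ) 0 with h0 | h0
  · exact ⟨J, ∅, by simpa using h0⟩
  refine ⟨J, ?_⟩
  have hlt : ENNReal.ofReal (1 - 2 * δ) < gf2 (meetPairsK t K J) (zc t) := by
    by_contra hcon
    push Not at hcon
    have h1 : (1 : ℝ≥0∞) ≤ ENNReal.ofReal (1 - 2 * δ) + ENNReal.ofReal δ :=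
      hJ.trans (by gcongr)
    rw [← ENNReal.ofReal_add h0.le hδ.le, ← ENNReal.ofReal_one,
      ENNReal.ofReal_le_ofReal_iff (by linarith)] at h1
    linarith
  unfold gf2 at hlt
  rw [ENNReal.tsum_eq_iSup_sum, lt_iSup_iff] at hlt
  obtain ⟨F, hF⟩ := hlt
  refine ⟨F, ?_⟩
  have h2 : ∑ p ∈ F, (zc t : ℝ≥0∞) ^ (p.1.1.length + p.1.2.length) =
      ENNReal.ofReal (∑ p ∈ F, (zc t : ℝ) ^ (p.1.1.length + p.1.2.length)) := by
    rw [ENNReal.ofReal_sum_of_nonneg (fun i _ => by positivity)]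
    refine Finset.sum_congr rfl fun p _ => ?_
    rw [ENNReal.ofReal_pow (by positivity), ENNReal.ofReal_coe_nnreal]
  rw [h2] at hF
  exact ((ENNReal.ofReal_lt_ofReal_iff_of_nonneg h0.le).1 hF).le

/-- The pairs which are not `OnlyTwo`. -/
private theorem LimK_notOnly (t : Bool) (K J : ℕ) (F : Finset (meetPairsK t K J)) {M N : ℕ}
    (hM : ∀ p ∈ F, p.1.1.length ≤ M) (hN : ∀ p ∈ F, p.1.2.length ≤ N) :
    ∑ p ∈ F, cnt (halfs t) (M - p.1.1.length) * cnt (halfs t) (N - p.1.2.length) ≤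
      Set.ncard {p : List (ℤ × ℤ) × List (ℤ × ℤ) | ((p.1 ∈ halfs t ∧ p.1.length = M) ∧
        (p.2 ∈ halfs t ∧ p.2.length = N)) ∧ K < (comm p.1 p.2).card} := by
  classical
  have hfin : {p : List (ℤ × ℤ) × List (ℤ × ℤ) | ((p.1 ∈ halfs t ∧ p.1.length = M) ∧
        (p.2 ∈ halfs t ∧ p.2.length = N)) ∧ K < (comm p.1 p.2).card}.Finite := by
    refine ((LimK_finH t M).prod (LimK_finH t N)).subset ?_
    rintro ⟨u, v⟩ ⟨⟨h1, h2⟩, _⟩
    exact ⟨h1, h2⟩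
  rw [Set.ncard_eq_toFinset_card _ hfin]
  have h1 : ∑ p ∈ F, cnt (halfs t) (M - p.1.1.length) * cnt (halfs t) (N - p.1.2.length) =
      (F.sigma (fun p => (LimK_finH t (M - p.1.1.length)).toFinset ×ˢ
        (LimK_finH t (N - p.1.2.length)).toFinset)).card := by
    rw [Finset.card_sigma]
    refine Finset.sum_congr rfl fun p _ => ?_
    rw [Finset.card_product, cnt, cnt, Set.ncard_eq_toFinset_card _ (LimK_finH t _),
      Set.ncard_eq_toFinset_card _ (LimK_finH t _)]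
  rw [h1]
  refine Finset.card_le_card_of_injOn
    (fun a => (a.1.1.1 ++ a.2.1, a.1.1.2 ++ a.2.2)) ?_ ?_
  · rintro ⟨⟨⟨u, v⟩, ⟨hu, hv⟩, huv⟩, ⟨r, s⟩⟩ ha
    have ha' := Finset.mem_sigma.1 (Finset.mem_coe.1 ha)
    obtain ⟨hp, hq⟩ := ha'
    have hq' := Finset.mem_product.1 hq
    simp only [Set.Finite.mem_toFinset, Set.mem_ofPred_eq] at hq'
    obtain ⟨⟨hr, hrl⟩, ⟨hs, hsl⟩⟩ := hq'
    have hMu := hM _ hp
    have hNv := hN _ hp
    simp only at hMu hNv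
    rw [Finset.mem_coe, Set.Finite.mem_toFinset]
    refine ⟨⟨⟨bridge_append_half (irrPow_subset J hu) hr, ?_⟩,
      ⟨bridge_append_half (irrPow_subset J hv) hs, ?_⟩⟩, ?_⟩
    · show (u ++ r).length = M
      rw [List.length_append, hrl]; omega
    · show (v ++ s).length = N
      rw [List.length_append, hsl]; omega
    · exact lt_of_lt_of_le huv (Finset.card_le_card
        (comm_mono (List.prefix_append _ _) (List.prefix_append _ _)))
  · rintro ⟨⟨⟨u, v⟩, ⟨hu, hv⟩, huv⟩, ⟨r, s⟩⟩ ha ⟨⟨⟨u', v'⟩, ⟨hu', hv'⟩, huv'⟩, ⟨r', s'⟩⟩ ha' h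
    obtain ⟨-, hq⟩ := Finset.mem_sigma.1 (Finset.mem_coe.1 ha)
    obtain ⟨-, hq'⟩ := Finset.mem_sigma.1 (Finset.mem_coe.1 ha')
    have hq := Finset.mem_product.1 hq
    have hq' := Finset.mem_product.1 hq'
    simp only [Set.Finite.mem_toFinset, Set.mem_ofPred_eq] at hq hq'
    have e1 : u ++ r = u' ++ r' := congrArg Prod.fst h
    have e2 : v ++ s = v' ++ s' := congrArg Prod.snd h
    obtain ⟨rfl, rfl⟩ := irrPow_unique hu hu' hq.1.1 hq'.1.1 e1
    obtain ⟨rfl, rfl⟩ := irrPow_unique hv hv' hq.2.1 hq'.2.1 e2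
    rfl

/-- The pairs which are `OnlyTwo`. -/
private theorem LimK_only (t : Bool) (K m n : ℕ) :
    fcnt t K m n ≤ Set.ncard {p : List (ℤ × ℤ) × List (ℤ × ℤ) |
      ((p.1 ∈ halfs t ∧ p.1.length = m + 1) ∧ (p.2 ∈ halfs t ∧ p.2.length = n + 1)) ∧
        ¬ K + 1 < (comm p.1 p.2).card} := by
  have hfin : {p : List (ℤ × ℤ) × List (ℤ × ℤ) | ((p.1 ∈ halfs t ∧ p.1.length = m + 1) ∧
        (p.2 ∈ halfs t ∧ p.2.length = n + 1)) ∧ ¬ K + 1 < (comm p.1 p.2).card}.Finite := by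
    refine ((LimK_finH t (m + 1)).prod (LimK_finH t (n + 1))).subset ?_
    rintro ⟨u, v⟩ ⟨⟨h1, h2⟩, _⟩
    exact ⟨h1, h2⟩
  refine Set.ncard_le_ncard_of_injOn (fun p => ((1, 0) :: p.1, (1, 0) :: p.2)) ?_ ?_ hfin
  · rintro ⟨u, v⟩ ⟨h, h1, h2⟩
    refine ⟨⟨⟨cons_mem_halfs h.1.1, ?_⟩, ⟨cons_mem_halfs h.1.2, ?_⟩⟩, LimK_few h.2⟩
    · simpa using h1
    · simpa using h2
  · rintro ⟨u, v⟩ _ ⟨u', v'⟩ _ h
    have e1 : (1, 0) :: u = (1, 0) :: u' := congrArg Prod.fst h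
    have e2 : (1, 0) :: v = (1, 0) :: v' := congrArg Prod.snd h
    rw [(List.cons.inj e1).2, (List.cons.inj e2).2]

private theorem LimK_split (t : Bool) (K M N : ℕ) :
    Set.ncard {p : List (ℤ × ℤ) × List (ℤ × ℤ) |
      ((p.1 ∈ halfs t ∧ p.1.length = M) ∧ (p.2 ∈ halfs t ∧ p.2.length = N)) ∧
        ¬ K < (comm p.1 p.2).card} +
    Set.ncard {p : List (ℤ × ℤ) × List (ℤ × ℤ) |
      ((p.1 ∈ halfs t ∧ p.1.length = M) ∧ (p.2 ∈ halfs t ∧ p.2.length = N)) ∧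
        K < (comm p.1 p.2).card} = cnt (halfs t) M * cnt (halfs t) N := by
  have hA : ({p : List (ℤ × ℤ) × List (ℤ × ℤ) |
      ((p.1 ∈ halfs t ∧ p.1.length = M) ∧ (p.2 ∈ halfs t ∧ p.2.length = N))}).Finite := by
    refine ((LimK_finH t M).prod (LimK_finH t N)).subset ?_
    rintro ⟨u, v⟩ ⟨h1, h2⟩
    exact ⟨h1, h2⟩
  have h1 : cnt (halfs t) M * cnt (halfs t) N = Set.ncard {p : List (ℤ × ℤ) × List (ℤ × ℤ) |
      ((p.1 ∈ halfs t ∧ p.1.length = M) ∧ (p.2 ∈ halfs t ∧ p.2.length = N))} := by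
    rw [cnt, cnt, ← Set.ncard_prod]
    rfl
  rw [h1, ← Set.ncard_union_eq ?_ (hA.subset fun p hp => hp.1) (hA.subset fun p hp => hp.1)]
  · congr 1
    ext p
    constructor
    · rintro (h | h)
      · exact h.1
      · exact h.1
    · intro h
      by_cases hO : ¬ K < (comm p.1 p.2).card
      · exact Or.inl ⟨h, hO⟩
      · exact Or.inr ⟨h, not_not.1 hO⟩
  · rw [Set.disjoint_left]
    intro p h1 h2
    exact h1.2 h2.2

theorem fcnt_small (t : Bool) (K : ℕ) {ε : ℝ} (hε : 0 < ε) :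
    ∃ M : ℕ, ∀ m n, M ≤ m → M ≤ n →
      (fcnt t K m n : ℝ) ≤ ε * ((cnt (chalfs t) m : ℝ) * (cnt (chalfs t) n : ℝ)) := by
  set δ : ℝ := min (ε / 16) (1 / 2) with hδdef
  have hδ : 0 < δ := lt_min (by positivity) (by norm_num)
  have hδ1 : δ ≤ ε / 16 := min_le_left _ _
  have hδ2 : δ ≤ 1 / 2 := min_le_right _ _
  obtain ⟨J, F, hF⟩ := LimK_exists t (K + 1) hδ
  have hz : (0 : ℝ) < (zc t : ℝ) := by exact_mod_cast zc_pos t
  set L : ℕ := F.sup (fun p => max p.1.1.length p.1.2.length) with hL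
  have hK1 : ∀ p ∈ F, p.1.1.length ≤ L := fun p hp =>
    (le_max_left _ _).trans (Finset.le_sup (f := fun p : meetPairsK t (K + 1) J =>
      max p.1.1.length p.1.2.length) hp)
  have hK2 : ∀ p ∈ F, p.1.2.length ≤ L := fun p hp =>
    (le_max_right _ _).trans (Finset.le_sup (f := fun p : meetPairsK t (K + 1) J =>
      max p.1.1.length p.1.2.length) hp)
  have hpos : ∀ N, 0 < (cnt (halfs t) N : ℝ) := fun N => by
    have := one_le_cnt_halfs t N
    exact_mod_cast this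
  have hev : ∀ᶠ N in Filter.atTop, ∀ k ∈ Finset.range (L + 1),
      (1 - δ) * (zc t : ℝ) ^ k ≤ (cnt (halfs t) (N - k) : ℝ) / (cnt (halfs t) N : ℝ) := by
    rw [Finset.eventually_all]
    intro k _
    have hzk : 0 < (zc t : ℝ) ^ k := by positivity
    exact (ratio_shift t k).eventually_const_le (by nlinarith)
  obtain ⟨M₀, hM₀⟩ := Filter.eventually_atTop.1 hev
  have hrat : ∀ N, M₀ ≤ N → ∀ k ≤ L,
      (1 - δ) * (zc t : ℝ) ^ k * (cnt (halfs t) N : ℝ) ≤ (cnt (halfs t) (N - k) : ℝ) := by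
    intro N hN k hk
    have := hM₀ N hN k (Finset.mem_range.2 (Nat.lt_succ_of_le hk))
    rwa [le_div_iff₀ (hpos N)] at this
  refine ⟨max M₀ L, fun m n hm hn => ?_⟩
  have hm1 : M₀ ≤ m + 1 := by have := (le_max_left M₀ L).trans hm; omega
  have hm2 : L ≤ m + 1 := by have := (le_max_right M₀ L).trans hm; omega
  have hn1 : M₀ ≤ n + 1 := by have := (le_max_left M₀ L).trans hn; omega
  have hn2 : L ≤ n + 1 := by have := (le_max_right M₀ L).trans hn; omega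
  have h1 := LimK_notOnly t (K + 1) J F (M := m + 1) (N := n + 1)
    (fun p hp => (hK1 p hp).trans hm2) (fun p hp => (hK2 p hp).trans hn2)
  have h2 := LimK_only t K m n
  have h3 := LimK_split t (K + 1) (m + 1) (n + 1)
  set A : ℝ := (cnt (halfs t) (m + 1) : ℝ) with hA
  set B : ℝ := (cnt (halfs t) (n + 1) : ℝ) with hB
  have hApos : 0 < A := hpos _
  have hBpos : 0 < B := hpos _
  have h4 : (1 - 4 * δ) * (A * B) ≤
      ((∑ p ∈ F, cnt (halfs t) (m + 1 - p.1.1.length) * cnt (halfs t) (n + 1 - p.1.2.length) : ℕ) :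
        ℝ) := by
    push_cast
    calc (1 - 4 * δ) * (A * B)
        ≤ ((1 - δ) ^ 2 * (1 - 2 * δ)) * (A * B) := by
          have hAB : 0 < A * B := mul_pos hApos hBpos
          refine mul_le_mul_of_nonneg_right ?_ hAB.le
          nlinarith [sq_nonneg δ, mul_nonneg (sq_nonneg δ) (by linarith : (0 : ℝ) ≤ 1 - 2 * δ)]
      _ ≤ ((1 - δ) ^ 2 * ∑ p ∈ F, (zc t : ℝ) ^ (p.1.1.length + p.1.2.length)) * (A * B) := by
          gcongr
      _ = ∑ p ∈ F, ((1 - δ) * (zc t : ℝ) ^ p.1.1.length * A) *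
            ((1 - δ) * (zc t : ℝ) ^ p.1.2.length * B) := by
          rw [Finset.mul_sum, Finset.sum_mul]
          refine Finset.sum_congr rfl fun p _ => ?_
          rw [pow_add]
          ring
      _ ≤ ∑ p ∈ F, (cnt (halfs t) (m + 1 - p.1.1.length) : ℝ) *
            (cnt (halfs t) (n + 1 - p.1.2.length) : ℝ) := by
          refine Finset.sum_le_sum fun p hp => ?_
          have h5 := hrat (m + 1) hm1 _ (hK1 p hp)
          have h6 := hrat (n + 1) hn1 _ (hK2 p hp)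
          have h7 : 0 ≤ (1 - δ) * (zc t : ℝ) ^ p.1.2.length * B := by
            have : 0 ≤ 1 - δ := by linarith
            positivity
          exact mul_le_mul h5 h6 h7 (Nat.cast_nonneg _)
  have h1' := (Nat.cast_le (α := ℝ)).2 h1
  have h2' := (Nat.cast_le (α := ℝ)).2 h2
  have h3' := congrArg (Nat.cast (R := ℝ)) h3
  push_cast at h3'
  rw [← hA, ← hB] at h3'
  have h5 : (fcnt t K m n : ℝ) ≤ 4 * δ * (A * B) := by
    linarith
  have h6 : A ≤ 2 * (cnt (chalfs t) m : ℝ) := by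
    have := cnt_halfs_le (t := t) m
    rw [hA]
    exact_mod_cast this
  have h7 : B ≤ 2 * (cnt (chalfs t) n : ℝ) := by
    have := cnt_halfs_le (t := t) n
    rw [hB]
    exact_mod_cast this
  calc (fcnt t K m n : ℝ) ≤ 4 * δ * (A * B) := h5
    _ ≤ 4 * δ * ((2 * (cnt (chalfs t) m : ℝ)) * (2 * (cnt (chalfs t) n : ℝ))) := by
        gcongr
    _ = (16 * δ) * ((cnt (chalfs t) m : ℝ) * (cnt (chalfs t) n : ℝ)) := by ring
    _ ≤ ε * ((cnt (chalfs t) m : ℝ) * (cnt (chalfs t) n : ℝ)) := by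
        have : 16 * δ ≤ ε := by linarith
        gcongr

end Pool.Agent.SHK
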