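import Pool.Agent.SHK.LimC
import Pool.Agent.SHK.LimK
import Pool.Agent.SHP.Final

/-!
# Final statements with full limits
-/

namespace Pool.Agent.SHP.Plane

open Pool.Agent.SHP Pool.Agent.SHK
open scoped ENNReal NNReal

/-- Pairs `(w, w')` of paths of lengths `m`, `n` in the closed half-plane with at most `K` common
vertices (the origin is one of them). -/
def FewPairs (L : Set ℂ) (K m n : ℕ) : Set ((Fin (m + 1) → ℂ) × (Fin (n + 1) → ℂ)) :=
  {p | p.1 ∈ HalfOmega L m ∧ p.2 ∈ HalfOmega L n ∧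
    (Set.range p.1 ∩ Set.range p.2).ncard ≤ K}

/-- The number of these pairs. -/
noncomputable def f (L : Set ℂ) (K m n : ℕ) : ℝ := (FewPairs L K m n).ncard

theorem range_eq {n : ℕ} {w : Fin (n + 1) → ℤ × ℤ} (h : w 0 = 0) :
    Set.range w = {p | p ∈ verts 0 (word w)} := by
  ext p
  rw [Set.mem_range, Set.mem_ofPred_eq, mem_verts_iff]
  constructor
  · rintro ⟨i, rfl⟩
    refine ⟨i, by rw [length_word]; omega, ?_⟩
    unfold pos
    exact take_word h i
  · rintro ⟨i, hi, rfl⟩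
    rw [length_word] at hi
    refine ⟨⟨i, by omega⟩, ?_⟩
    unfold pos
    exact (take_word h ⟨i, by omega⟩).symm

theorem ncard_inter {m n : ℕ} {w : Fin (m + 1) → ℤ × ℤ} {w' : Fin (n + 1) → ℤ × ℤ}
    (h : w 0 = 0) (h' : w' 0 = 0) :
    (Set.range w ∩ Set.range w').ncard = (SHK.comm (word w) (word w')).card := by
  have : Set.range w ∩ Set.range w' = ((comm (word w) (word w') : Finset (ℤ × ℤ)) : Set (ℤ × ℤ)) := by
    ext p
    rw [range_eq h, range_eq h']
    unfold SHK.comm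
    simp
  rw [this, Set.ncard_coe_finset]

/-- Integer version. -/
def FewZ (t : Bool) (K m n : ℕ) : Set ((Fin (m + 1) → ℤ × ℤ) × (Fin (n + 1) → ℤ × ℤ)) :=
  {p | p.1 ∈ OmPlus t m ∧ p.2 ∈ OmPlus t n ∧ (Set.range p.1 ∩ Set.range p.2).ncard ≤ K}

theorem few_iff {t : Bool} {K m n : ℕ} {w : Fin (m + 1) → ℤ × ℤ} {w' : Fin (n + 1) → ℤ × ℤ} :
    (w, w') ∈ FewZ t K m n ↔ w 0 = 0 ∧ w' 0 = 0 ∧ (word w, word w') ∈ fewPairs t K := by
  constructor
  · rintro ⟨h1, h2, h3⟩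
    obtain ⟨h10, h11⟩ := mem_OmPlus_iff.mp h1
    obtain ⟨h20, h21⟩ := mem_OmPlus_iff.mp h2
    rw [ncard_inter h10 h20] at h3
    exact ⟨h10, h20, ⟨h11, h21⟩, h3⟩
  · rintro ⟨h10, h20, ⟨h1, h2⟩, h3⟩
    refine ⟨mem_OmPlus_iff.mpr ⟨h10, h1⟩, mem_OmPlus_iff.mpr ⟨h20, h2⟩, ?_⟩
    rw [ncard_inter h10 h20]
    exact h3

theorem ncard_FewZ (t : Bool) (K m n : ℕ) : (FewZ t K m n).ncard = fcnt t K m n := by
  unfold fcnt
  have himg : (Prod.map (word (n := m)) (word (n := n))) '' (FewZ t K m n) =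
      {p | p ∈ fewPairs t K ∧ p.1.length = m ∧ p.2.length = n} := by
    ext ⟨a, b⟩
    constructor
    · rintro ⟨⟨w, w'⟩, hw, he⟩
      rw [Prod.map_apply, Prod.mk.injEq] at he
      obtain ⟨rfl, rfl⟩ := he
      exact ⟨(few_iff.mp hw).2.2, length_word w, length_word w'⟩
    · rintro ⟨h1, h2, h3⟩
      refine ⟨(unword m a, unword n b), ?_, ?_⟩
      · rw [few_iff, word_unword h2, word_unword h3]
        exact ⟨unword_zero _ _, unword_zero _ _, h1⟩
      · rw [Prod.map_apply, word_unword h2, word_unword h3]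
  rw [← himg, Set.InjOn.ncard_image]
  rintro ⟨w, w'⟩ hw ⟨x, x'⟩ hx he
  rw [Prod.map_apply, Prod.map_apply, Prod.mk.injEq] at he
  have h1 := few_iff.mp hw
  have h2 := few_iff.mp hx
  rw [word_injOn h1.1 h2.1 he.1, word_injOn h1.2.1 h2.2.1 he.2]

theorem ncard_range_pt (t : Bool) {m n : ℕ} (w : Fin (m + 1) → ℤ × ℤ)
    (w' : Fin (n + 1) → ℤ × ℤ) :
    (Set.range (fun i => pt t (w i)) ∩ Set.range (fun i => pt t (w' i))).ncard =
      (Set.range w ∩ Set.range w').ncard := by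
  have h1 : Set.range (fun i => pt t (w i)) = pt t '' Set.range w := by
    rw [← Set.range_comp]; rfl
  have h2 : Set.range (fun i => pt t (w' i)) = pt t '' Set.range w' := by
    rw [← Set.range_comp]; rfl
  rw [h1, h2, ← Set.image_inter (pt_injective t), Set.ncard_image_of_injective _ (pt_injective t)]

theorem FewPairs_eq (t : Bool) (K m n : ℕ) :
    FewPairs (lat t) K m n =
      (fun p : (Fin (m + 1) → ℤ × ℤ) × (Fin (n + 1) → ℤ × ℤ) =>
        ((fun i => pt t (p.1 i)), (fun i => pt t (p.2 i)))) '' FewZ t K m n := by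
  ext ⟨w, v⟩
  constructor
  · rintro ⟨h1, h2, h3⟩
    obtain ⟨w', rfl⟩ := exists_of_mem_Omega h1.1
    obtain ⟨v', rfl⟩ := exists_of_mem_Omega h2.1
    refine ⟨(w', v'), ⟨comp_mem_HalfOmega.1 h1, comp_mem_HalfOmega.1 h2, ?_⟩, rfl⟩
    rw [← ncard_range_pt t]
    exact h3
  · rintro ⟨⟨w', v'⟩, ⟨h1, h2, h3⟩, h⟩
    simp only [Prod.mk.injEq] at h
    obtain ⟨rfl, rfl⟩ := h
    refine ⟨comp_mem_HalfOmega.2 h1, comp_mem_HalfOmega.2 h2, ?_⟩
    rw [ncard_range_pt t]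
    exact h3

theorem f_eq (t : Bool) (K m n : ℕ) : f (lat t) K m n = (fcnt t K m n : ℝ) := by
  unfold f
  rw [FewPairs_eq, Set.ncard_image_of_injective, ncard_FewZ]
  rintro ⟨w, v⟩ ⟨w', v'⟩ h
  simp only [Prod.mk.injEq] at h
  rw [comp_injective t m h.1, comp_injective t n h.2]

theorem g_pos (t : Bool) (n : ℕ) : 0 < g (lat t) n := by
  rw [g_eq]
  have h1 := cnt_halfs_le (t := t) n
  have h2 := cnt_halfs_pos t (n + 1)
  have : 0 < cnt (chalfs t) n := by omega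
  exact_mod_cast this

/-- (B) for at most `K` common vertices. -/
theorem partBK (t : Bool) (K : ℕ) :
    Filter.Tendsto (fun n => f (lat t) K n n / g (lat t) n ^ 2) Filter.atTop (nhds 0) := by
  rw [Metric.tendsto_atTop]
  intro ε hε
  obtain ⟨M, hM⟩ := fcnt_small t K (half_pos hε)
  refine ⟨M, fun n hn => ?_⟩
  have h := hM n n hn hn
  have hg := g_pos t n
  have h0 : 0 ≤ f (lat t) K n n / g (lat t) n ^ 2 := by
    rw [f_eq]; positivity
  rw [Real.dist_0_eq_abs, abs_of_nonneg h0, div_lt_iff₀ (by positivity), f_eq]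
  rw [g_eq] at hg ⊢
  have : ε / 2 * ((cnt (chalfs t) n : ℝ) * (cnt (chalfs t) n : ℝ)) <
      ε * (cnt (chalfs t) n : ℝ) ^ 2 := by
    have : 0 < (cnt (chalfs t) n : ℝ) ^ 2 := by positivity
    nlinarith
  linarith

/-- (B) for disjoint pairs. -/
theorem partB' (t : Bool) :
    Filter.Tendsto (fun n => d (lat t) n n / g (lat t) n ^ 2) Filter.atTop (nhds 0) := by
  rw [Metric.tendsto_atTop]
  intro ε hε
  obtain ⟨M, hM⟩ := dcnt_small t (half_pos hε)
  refine ⟨M, fun n hn => ?_⟩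
  have h := hM n n hn hn
  have hg := g_pos t n
  have h0 : 0 ≤ d (lat t) n n / g (lat t) n ^ 2 := by
    rw [d_eq]; positivity
  rw [Real.dist_0_eq_abs, abs_of_nonneg h0, div_lt_iff₀ (by positivity), d_eq]
  rw [g_eq] at hg ⊢
  have : ε / 2 * ((cnt (chalfs t) n : ℝ) * (cnt (chalfs t) n : ℝ)) <
      ε * (cnt (chalfs t) n : ℝ) ^ 2 := by
    have : 0 < (cnt (chalfs t) n : ℝ) ^ 2 := by positivity
    nlinarith
  linarith

/-- (C) -/
theorem partC' (t : Bool) :
    Filter.Tendsto (fun n => ((CutPairs (lat t) n).ncard : ℝ) / a (lat t) n)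
      Filter.atTop Filter.atTop := by
  rw [Filter.tendsto_atTop]
  intro K
  obtain ⟨N, hN⟩ := conv_lim t K
  filter_upwards [Filter.eventually_ge_atTop N] with n hn
  have h := hN n hn
  rw [cut_eq, a_eq]
  have : (0 : ℝ) < cnt (saws t) n := by
    exact_mod_cast one_le_cnt t n
  rwa [le_div_iff₀ this]

theorem lat_cases {L : Set ℂ} (hL : L = square ∨ L = triangular) : ∃ t, L = lat t := by
  rcases hL with rfl | rfl
  · exact ⟨false, rfl⟩
  · exact ⟨true, rfl⟩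

theorem finite_few (t : Bool) (K m n : ℕ) :
    {p | p ∈ fewPairs t K ∧ p.1.length = m ∧ p.2.length = n}.Finite := by
  apply ((finite_chalfs t m).prod (finite_chalfs t n)).subset
  rintro ⟨u, v⟩ ⟨⟨⟨h1, h2⟩, -⟩, h4, h5⟩
  exact ⟨⟨h1, h4⟩, ⟨h2, h5⟩⟩

theorem gf2_few (t : Bool) (K : ℕ) (z : ℝ≥0) :
    gf2 (fewPairs t K) z =
      ∑' p : ℕ × ℕ, (fcnt t K p.1 p.2 : ℝ≥0∞) * (z : ℝ≥0∞) ^ (p.1 + p.2) := by
  unfold gf2
  let f : fewPairs t K → ℕ × ℕ := fun l =>
    ((l : List (ℤ × ℤ) × List (ℤ × ℤ)).1.length, (l : List (ℤ × ℤ) × List (ℤ × ℤ)).2.length)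
  rw [← (Equiv.sigmaFiberEquiv f).tsum_eq, ENNReal.tsum_sigma']
  apply tsum_congr
  rintro ⟨m, n⟩
  have h2 : ∀ x : {x : fewPairs t K // f x = (m, n)},
      (z : ℝ≥0∞) ^ ((((Equiv.sigmaFiberEquiv f) ⟨(m, n), x⟩ : fewPairs t K) :
        List (ℤ × ℤ) × List (ℤ × ℤ)).1.length + (((Equiv.sigmaFiberEquiv f) ⟨(m, n), x⟩ :
          fewPairs t K) : List (ℤ × ℤ) × List (ℤ × ℤ)).2.length) = (z : ℝ≥0∞) ^ (m + n) := by
    rintro ⟨x, hx⟩
    have h3 : (x : List (ℤ × ℤ) × List (ℤ × ℤ)).1.length = m := congrArg Prod.fst hx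
    have h4 : (x : List (ℤ × ℤ) × List (ℤ × ℤ)).2.length = n := congrArg Prod.snd hx
    have h5 : ((Equiv.sigmaFiberEquiv f) ⟨(m, n), ⟨x, hx⟩⟩ : fewPairs t K) = x := rfl
    rw [h5, h3, h4]
  rw [tsum_congr h2, ENNReal.tsum_const]
  congr 1
  let e : {x : fewPairs t K // f x = (m, n)} ≃
      ↥{p | p ∈ fewPairs t K ∧ p.1.length = m ∧ p.2.length = n} :=
    { toFun := fun x => ⟨x.1.1, x.1.2, congrArg Prod.fst x.2, congrArg Prod.snd x.2⟩
      invFun := fun x => ⟨⟨x.1, x.2.1⟩, Prod.ext x.2.2.1 x.2.2.2⟩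
      left_inv := fun x => rfl
      right_inv := fun x => rfl }
  rw [ENat.card_congr e]
  have hfin := finite_few t K m n
  have : Finite ↥{p | p ∈ fewPairs t K ∧ p.1.length = m ∧ p.2.length = n} := hfin
  rw [ENat.card_eq_coe_natCard]
  simp only [fcnt]
  rfl

theorem gf2_few_ne_top (t : Bool) (K : ℕ) {z : ℝ≥0} (hz : z < zc t) :
    gf2 (fewPairs t K) z ≠ ⊤ := by
  have h1 : gf2 (fewPairs t K) z ≤ gf (chalfs t) z * gf (chalfs t) z := by
    rw [← gf2_prod]
    apply gf2_mono_set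
    rintro ⟨u, v⟩ ⟨⟨h1, h2⟩, -⟩
    exact ⟨h1, h2⟩
  exact ne_top_of_le_ne_top (ENNReal.mul_ne_top (gf_chalfs_ne_top t hz) (gf_chalfs_ne_top t hz)) h1

theorem real_gf2K (t : Bool) (K : ℕ) {z : ℝ≥0} (hz : z < zc t) :
    Summable (fun p : ℕ × ℕ => (fcnt t K p.1 p.2 : ℝ) * (z : ℝ) ^ (p.1 + p.2)) ∧
      ∑' p : ℕ × ℕ, (fcnt t K p.1 p.2 : ℝ) * (z : ℝ) ^ (p.1 + p.2) =
        (gf2 (fewPairs t K) z).toReal := by
  have h1 := gf2_few t K z
  have h2 := gf2_few_ne_top t K hz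
  rw [h1] at h2
  constructor
  · have := ENNReal.summable_toReal h2
    simpa using this
  · rw [h1, ENNReal.tsum_toReal_eq (fun n => ENNReal.ne_top_of_tsum_ne_top h2 n)]
    simp

/-- (A) for at most `K` common vertices. -/
theorem partAK (t : Bool) (K : ℕ) {ε : ℝ} (hε : 0 < ε) :
    ∃ z₀ : ℝ, 0 ≤ z₀ ∧ z₀ < 1 / muL (lat t) ∧ ∀ z : ℝ, z₀ < z → z < 1 / muL (lat t) →
      Summable (fun n : ℕ => g (lat t) n * z ^ n) ∧
      Summable (fun p : ℕ × ℕ => f (lat t) K p.1 p.2 * z ^ (p.1 + p.2)) ∧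
      ∑' p : ℕ × ℕ, f (lat t) K p.1 p.2 * z ^ (p.1 + p.2) ≤
        ε * (∑' n : ℕ, g (lat t) n * z ^ n) ^ 2 := by
  obtain ⟨z₀, hz₀, h⟩ := zlimK t K (ε := ⟨ε, hε.le⟩) (by exact_mod_cast hε)
  refine ⟨z₀, z₀.2, ?_, ?_⟩
  · rw [muL_eq, ← zc_eq]
    exact_mod_cast hz₀
  · intro z hz hz'
    rw [muL_eq, ← zc_eq] at hz'
    have hz0 : 0 ≤ z := le_trans z₀.2 hz.le
    lift z to ℝ≥0 using hz0
    have hz1 : z₀ < z := by exact_mod_cast hz
    have hz2 : z < zc t := by exact_mod_cast hz'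
    have h3 := h z hz1 hz2
    obtain ⟨h4, h5⟩ := real_gf t hz2
    obtain ⟨h6, h7⟩ := real_gf2K t K hz2
    simp only [g_eq, f_eq]
    refine ⟨h4, h6, ?_⟩
    rw [h5, h7]
    have h8 : (ε : ℝ) = ((⟨ε, hε.le⟩ : ℝ≥0) : ℝ) := rfl
    have h9 := ENNReal.toReal_mono (ENNReal.mul_ne_top ENNReal.coe_ne_top
      (ENNReal.pow_ne_top (gf_chalfs_ne_top t hz2))) h3
    rw [ENNReal.toReal_mul, ENNReal.toReal_pow, ENNReal.coe_toReal] at h9
    exact h9

/-- (B) for at most `K` common vertices, two lengths. -/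
theorem partBK2 (t : Bool) (K : ℕ) :
    Filter.Tendsto (fun p : ℕ × ℕ => f (lat t) K p.1 p.2 / (g (lat t) p.1 * g (lat t) p.2))
      Filter.atTop (nhds 0) := by
  rw [Metric.tendsto_atTop]
  intro ε hε
  obtain ⟨M, hM⟩ := fcnt_small t K (half_pos hε)
  refine ⟨(M, M), fun n hn => ?_⟩
  have h := hM n.1 n.2 hn.1 hn.2
  have hg := g_pos t n.1
  have hg' := g_pos t n.2
  have h0 : 0 ≤ f (lat t) K n.1 n.2 / (g (lat t) n.1 * g (lat t) n.2) := by
    rw [f_eq]; positivity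
  rw [Real.dist_0_eq_abs, abs_of_nonneg h0, div_lt_iff₀ (by positivity), f_eq]
  rw [g_eq] at hg hg' ⊢
  rw [g_eq]
  have : ε / 2 * ((cnt (chalfs t) n.1 : ℝ) * (cnt (chalfs t) n.2 : ℝ)) <
      ε * ((cnt (chalfs t) n.1 : ℝ) * (cnt (chalfs t) n.2 : ℝ)) := by
    have : 0 < (cnt (chalfs t) n.1 : ℝ) * (cnt (chalfs t) n.2 : ℝ) := by positivity
    nlinarith
  linarith

theorem cons_halfs {t : Bool} {s : ℤ × ℤ} {g : List (ℤ × ℤ)} (hs : s ∈ steps t) (hs1 : s.1 = 1)
    (h : g ∈ chalfs t) : s :: g ∈ halfs t := by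
  refine ⟨⟨?_, ?_⟩, ?_⟩
  · intro s' hs'
    rcases List.mem_cons.mp hs' with rfl | hs'
    · exact hs
    · exact h.1.1 s' hs'
  · intro u v w huvw hv
    cases u with
    | nil =>
      cases v with
      | nil => rfl
      | cons a v =>
        simp only [List.nil_append, List.cons_append, List.cons.injEq] at huvw
        obtain ⟨rfl, hg⟩ := huvw
        exfalso
        have h1 := h.2 v w hg
        have h2 := congrArg Prod.fst hv
        rw [List.sum_cons] at h2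
        simp only [Prod.fst_add, Prod.fst_zero] at h2
        omega
    | cons a u =>
      simp only [List.cons_append, List.cons.injEq] at huvw
      exact h.1.2 u v w huvw.2 hv
  · intro u v huv hu
    cases u with
    | nil => exact absurd rfl hu
    | cons a u =>
      simp only [List.cons_append, List.cons.injEq] at huv
      obtain ⟨rfl, hg⟩ := huv
      have h1 := h.2 u v hg
      rw [List.sum_cons]
      simp only [Prod.fst_add]
      omega

theorem halfs_succ (t : Bool) (n : ℕ) :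
    cnt (halfs t) (n + 1) = (if t then 2 else 1) * cnt (chalfs t) n := by
  have key : ∀ s : ℤ × ℤ, ((fun g => s :: g) '' {l | l ∈ chalfs t ∧ l.length = n}).ncard =
      cnt (chalfs t) n := by
    intro s
    rw [Set.ncard_image_of_injective]
    · rfl
    · intro x y h
      exact (List.cons.inj h).2
  have hfin : {l | l ∈ chalfs t ∧ l.length = n}.Finite := finite_chalfs t n
  have hset : {l : List (ℤ × ℤ) | l ∈ halfs t ∧ l.length = n + 1} =
      ⋃ s ∈ (steps t).filter (fun s => s.1 = 1),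
        (fun g => s :: g) '' {l | l ∈ chalfs t ∧ l.length = n} := by
    ext l
    simp only [Set.mem_iUnion, Finset.mem_filter]
    constructor
    · rintro ⟨hl, hn⟩
      cases l with
      | nil => simp at hn
      | cons s g =>
        obtain ⟨h1, h2⟩ := halfs_cons hl
        refine ⟨s, ⟨hl.1.1 s (by simp), h1⟩, g, ⟨h2, by simpa using hn⟩, rfl⟩
    · rintro ⟨s, ⟨h1, h2⟩, g, ⟨h3, h4⟩, rfl⟩
      exact ⟨cons_halfs h1 h2 h3, by simp [h4]⟩
  unfold cnt
  rw [hset]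
  cases t with
  | false =>
    have : (steps false).filter (fun s => s.1 = 1) = {(1, 0)} := by decide
    rw [this]
    simp only [Finset.mem_singleton, Set.iUnion_iUnion_eq_left]
    rw [key]
    simp [cnt]
  | true =>
    have : (steps true).filter (fun s => s.1 = 1) = {(1, 0), (1, -1)} := by decide
    rw [this]
    simp only [Finset.mem_insert, Finset.mem_singleton, Set.iUnion_iUnion_eq_or_left,
      Set.iUnion_iUnion_eq_left]
    rw [Set.ncard_union_eq _ (hfin.image _) (hfin.image _), key, key]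
    · simp only [if_true, cnt]
      ring
    · rw [Set.disjoint_left]
      rintro _ ⟨g, -, rfl⟩ ⟨g', -, h⟩
      simp at h

/-- The ratio limit theorem for the half-plane. -/
theorem ratio_g (t : Bool) :
    Filter.Tendsto (fun n => g (lat t) (n + 1) / g (lat t) n) Filter.atTop
      (nhds (muL (lat t))) := by
  have h := (Filter.tendsto_add_atTop_iff_nat 1).2 (ratio_one t)
  rw [muL_eq]
  refine h.congr fun n => ?_
  rw [halfs_succ, halfs_succ, g_eq, g_eq]
  have h1 : (((if t then 2 else 1 : ℕ) : ℕ) : ℝ) ≠ 0 := by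
    split_ifs <;> norm_num
  push_cast at h1 ⊢
  rw [mul_div_mul_left _ _ h1]

end Pool.Agent.SHP.Plane
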