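import Pool.Agent.SHK.Defs

/-!
# Small sets and the block lemma

* `small_subset`, `small_union`, `small_of_eventually` are immediate (words of length `n` in `saws t`
  form a finite set, `finite_words`).

* `block_small`.  Paper proof.  Let `c n = cnt (saws t) n`, `f = cnt F m`, where `m ≥ 1` is chosen with
  `f ≤ mu^m / 4` (possible: `f ≤ C θ^m` and `θ < mu`).  Let `0 < y ≤ 1` with `y * c m ≤ mu^m / 4`, and
  `S n = ∑ y ^ (badBlocks F m l)`, sum over `l ∈ saws t` of length `n`.  For `n ≥ m` write `l = b ++ l'`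
  with `|b| = m`; `b, l' ∈ saws t` (`saws_infix`), and `badBlocks F m l = [b ∉ F] + badBlocks F m l'`
  (the block `q + 1` of `l` is the block `q` of `l'`).  So `S n ≤ (f + y c m) S (n - m) ≤
  (mu^m / 2) S (n - m)`, hence `S n ≤ C₁ (1/2)^(n/m) mu^n` with `C₁` depending on `m` only
  (`mu ≥ 1`; for `n < m`, `S n ≤ c n`).  If `badBlocks F m l < a n` then `y ^ badBlocks ≥ y ^ (a n)`, so
  the number of such `l` is at most `y^(-a n) S n`.  With `a > 0` so small that
  `y^(-a) ≤ (3/2)^(1/m)` the number is at most `C₂ (mu (3/4)^(1/m))^n`.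
-/

namespace Pool.Agent.SHK

open Pool.Agent.SHP

variable {t : Bool}

private theorem Block_fin {A : Set (List (ℤ × ℤ))} (hA : A ⊆ saws t) (n : ℕ) :
    {l | l ∈ A ∧ l.length = n}.Finite :=
  finite_words (t := t) A (fun _ hl => (hA hl).1) n

private theorem Block_mono {A B : Set (List (ℤ × ℤ))} (hB : B ⊆ saws t) (n : ℕ)
    (h : ∀ l ∈ A, l.length = n → l ∈ B) : cnt A n ≤ cnt B n := by
  unfold cnt
  exact Set.ncard_le_ncard (fun l hl => ⟨h l hl.1 hl.2, hl.2⟩) (Block_fin hB n)

theorem small_subset {A B : Set (List (ℤ × ℤ))} (hB : B ⊆ saws t) (h : A ⊆ B)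
    (hs : Small t B) : Small t A := by
  obtain ⟨θ, h0, h1, C, hC, hc⟩ := hs
  refine ⟨θ, h0, h1, C, hC, fun n => le_trans ?_ (hc n)⟩
  exact_mod_cast Block_mono hB n (fun l hl _ => h hl)

theorem small_union {A B : Set (List (ℤ × ℤ))} (hA : A ⊆ saws t) (hB : B ⊆ saws t)
    (h : Small t A) (h' : Small t B) : Small t (A ∪ B) := by
  obtain ⟨θ, h0, h1, C, hC, hc⟩ := h
  obtain ⟨θ', h0', h1', C', hC', hc'⟩ := h'
  refine ⟨max θ θ', lt_max_of_lt_left h0, max_lt h1 h1', C + C', by positivity, fun n => ?_⟩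
  have h2 : cnt (A ∪ B) n ≤ cnt A n + cnt B n := by
    unfold cnt
    have h3 : {l | l ∈ A ∪ B ∧ l.length = n} =
        {l | l ∈ A ∧ l.length = n} ∪ {l | l ∈ B ∧ l.length = n} := by
      ext l
      simp only [Set.mem_union, Set.mem_ofPred_eq]
      tauto
    rw [h3]
    exact Set.ncard_union_le _ _
  have h4 : (cnt (A ∪ B) n : ℝ) ≤ (cnt A n : ℝ) + (cnt B n : ℝ) := by exact_mod_cast h2
  have h5 : θ ^ n ≤ (max θ θ') ^ n := pow_le_pow_left₀ h0.le (le_max_left _ _) n
  have h6 : θ' ^ n ≤ (max θ θ') ^ n := pow_le_pow_left₀ h0'.le (le_max_right _ _) n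
  calc (cnt (A ∪ B) n : ℝ) ≤ C * θ ^ n + C' * θ' ^ n := by linarith [hc n, hc' n]
    _ ≤ C * (max θ θ') ^ n + C' * (max θ θ') ^ n := by
        have := mul_le_mul_of_nonneg_left h5 hC.le
        have := mul_le_mul_of_nonneg_left h6 hC'.le
        linarith
    _ = _ := by ring

/-- Finitely many lengths do not matter. -/
theorem small_of_eventually {A B : Set (List (ℤ × ℤ))} (hA : A ⊆ saws t) (hB : B ⊆ saws t)
    (N : ℕ) (h : ∀ l ∈ A, N ≤ l.length → l ∈ B) (hs : Small t B) : Small t A := by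
  obtain ⟨θ, h0, h1, C, hC, hc⟩ := hs
  have hnn : ∀ k : ℕ, 0 ≤ (cnt A k : ℝ) / θ ^ k := fun k => by positivity
  refine ⟨θ, h0, h1, C + ∑ k ∈ Finset.range N, (cnt A k : ℝ) / θ ^ k, ?_, fun n => ?_⟩
  · have := Finset.sum_nonneg (s := Finset.range N) (fun k _ => hnn k)
    linarith
  · have hpos : 0 < θ ^ n := pow_pos h0 n
    have hs0 := Finset.sum_nonneg (s := Finset.range N) (fun k _ => hnn k)
    by_cases hn : N ≤ n
    · have h2 : (cnt A n : ℝ) ≤ (cnt B n : ℝ) := by
        exact_mod_cast Block_mono hB n (fun l hl hl' => h l hl (by omega))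
      calc (cnt A n : ℝ) ≤ C * θ ^ n := h2.trans (hc n)
        _ ≤ _ := by
          apply mul_le_mul_of_nonneg_right _ hpos.le
          linarith
    · have h3 : (cnt A n : ℝ) / θ ^ n ≤ ∑ k ∈ Finset.range N, (cnt A k : ℝ) / θ ^ k :=
        Finset.single_le_sum (f := fun k => (cnt A k : ℝ) / θ ^ k) (fun k _ => hnn k)
          (Finset.mem_range.2 (by omega))
      have h4 : (cnt A n : ℝ) = (cnt A n : ℝ) / θ ^ n * θ ^ n := by
        field_simp
      rw [h4]
      apply mul_le_mul_of_nonneg_right _ hpos.le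
      linarith

theorem small_empty (t : Bool) : Small t ∅ := by
  have hmu := one_le_mu t
  refine ⟨mu t / 2, by linarith, by linarith, 1, one_pos, fun n => ?_⟩
  have h : cnt (∅ : Set (List (ℤ × ℤ))) n = 0 := by
    unfold cnt
    simp
  rw [h]
  have : 0 < (mu t / 2) ^ n := by positivity
  push_cast
  linarith

private theorem Block_take {l : List (ℤ × ℤ)} (hl : l ∈ saws t) (m : ℕ) : l.take m ∈ saws t := by
  refine ⟨fun s hs => hl.1 s (List.mem_of_mem_take hs), ?_⟩
  intro u v w h hv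
  refine hl.2 u v (w ++ l.drop m) ?_ hv
  calc l = l.take m ++ l.drop m := (List.take_append_drop m l).symm
    _ = _ := by rw [h]; simp

private theorem Block_drop {l : List (ℤ × ℤ)} (hl : l ∈ saws t) (m : ℕ) : l.drop m ∈ saws t := by
  refine ⟨fun s hs => hl.1 s (List.mem_of_mem_drop hs), ?_⟩
  intro u v w h hv
  refine hl.2 (l.take m ++ u) v w ?_ hv
  calc l = l.take m ++ l.drop m := (List.take_append_drop m l).symm
    _ = _ := by rw [h]; simp

open Classical in
private theorem Block_bad (F : Set (List (ℤ × ℤ))) {m : ℕ} (hm : 1 ≤ m) {l : List (ℤ × ℤ)}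
    (hl : m ≤ l.length) :
    badBlocks F m l = (if l.take m ∉ F then 1 else 0) + badBlocks F m (l.drop m) := by
  unfold badBlocks
  have h1 : l.length / m = (l.drop m).length / m + 1 := by
    rw [List.length_drop]
    have h2 : l.length = (l.length - m) + m := by omega
    conv_lhs => rw [h2]
    exact Nat.add_div_right _ (by omega)
  rw [h1, Finset.card_filter, Finset.card_filter, Finset.sum_range_succ', add_comm]
  congr 1
  · simp
  · refine Finset.sum_congr rfl fun q _ => ?_
    have h3 : l.drop ((q + 1) * m) = (l.drop m).drop (q * m) := by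
      rw [List.drop_drop]
      congr 1
      ring
    rw [h3]

open Classical in
private noncomputable def BW (t : Bool) (n : ℕ) : Finset (List (ℤ × ℤ)) :=
  (Block_fin (t := t) (A := saws t) (subset_refl _) n).toFinset

private theorem mem_BW {n : ℕ} {l : List (ℤ × ℤ)} : l ∈ BW t n ↔ l ∈ saws t ∧ l.length = n := by
  unfold BW
  rw [Set.Finite.mem_toFinset]
  rfl

private theorem card_BW (n : ℕ) : (BW t n).card = cnt (saws t) n := by
  unfold BW cnt
  rw [Set.ncard_eq_toFinset_card _ (Block_fin (t := t) (A := saws t) (subset_refl _) n)]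

private noncomputable def BS (t : Bool) (F : Set (List (ℤ × ℤ))) (m : ℕ) (y : ℝ) (n : ℕ) : ℝ :=
  ∑ l ∈ BW t n, y ^ (badBlocks F m l)

private theorem BS_le {F : Set (List (ℤ × ℤ))} {m : ℕ} {y : ℝ} (hy : 0 ≤ y) (hy1 : y ≤ 1) (n : ℕ) :
    BS t F m y n ≤ (cnt (saws t) n : ℝ) := by
  unfold BS
  rw [← card_BW, Finset.card_eq_sum_ones, Nat.cast_sum]
  refine Finset.sum_le_sum fun l _ => ?_
  push_cast
  exact pow_le_one₀ hy hy1

open Classical in
private theorem BS_rec {F : Set (List (ℤ × ℤ))} (hF : F ⊆ saws t) {m : ℕ} (hm : 1 ≤ m) {y : ℝ}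
    (hy : 0 ≤ y) (k : ℕ) :
    BS t F m y (m + k) ≤ ((cnt F m : ℝ) + y * (cnt (saws t) m : ℝ)) * BS t F m y k := by
  have h1 : BS t F m y (m + k) ≤
      ∑ p ∈ BW t m ×ˢ BW t k, (y ^ (if p.1 ∉ F then 1 else 0) * y ^ (badBlocks F m p.2)) := by
    unfold BS
    have h2 : ∀ l ∈ BW t (m + k), y ^ (badBlocks F m l) =
        (fun p : List (ℤ × ℤ) × List (ℤ × ℤ) =>
          y ^ (if p.1 ∉ F then 1 else 0) * y ^ (badBlocks F m p.2)) (l.take m, l.drop m) := by
      intro l hl
      have h3 := (mem_BW.1 hl).2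
      simp only
      rw [Block_bad F hm (by omega), pow_add]
    rw [Finset.sum_congr rfl h2]
    have hinj : Set.InjOn (fun l : List (ℤ × ℤ) => (l.take m, l.drop m))
        (BW t (m + k) : Set (List (ℤ × ℤ))) := by
      intro l _ l' _ h
      have h1 := congrArg Prod.fst h
      have h2 := congrArg Prod.snd h
      simp only at h1 h2
      rw [← List.take_append_drop m l, ← List.take_append_drop m l', h1, h2]
    rw [← Finset.sum_image (f := fun p : List (ℤ × ℤ) × List (ℤ × ℤ) =>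
          y ^ (if p.1 ∉ F then 1 else 0) * y ^ (badBlocks F m p.2)) hinj]
    refine Finset.sum_le_sum_of_subset_of_nonneg ?_ ?_
    · intro p hp
      obtain ⟨l, hl, rfl⟩ := Finset.mem_image.1 hp
      obtain ⟨h3, h4⟩ := mem_BW.1 hl
      rw [Finset.mem_product, mem_BW, mem_BW]
      refine ⟨⟨Block_take h3 m, ?_⟩, Block_drop h3 m, ?_⟩
      · simp only [List.length_take]; omega
      · simp only [List.length_drop]; omega
    · intro p _ _
      positivity
  refine h1.trans (le_of_eq_of_le (Finset.sum_product _ _ _) ?_)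
  simp only
  have h5 : ∀ b ∈ BW t m, (∑ l ∈ BW t k, (y ^ (if b ∉ F then 1 else 0) * y ^ (badBlocks F m l))) =
      y ^ (if b ∉ F then 1 else 0) * BS t F m y k := by
    intro b _
    unfold BS
    rw [Finset.mul_sum]
  rw [Finset.sum_congr rfl h5, ← Finset.sum_mul]
  have hnn : 0 ≤ BS t F m y k := Finset.sum_nonneg fun l _ => by positivity
  refine mul_le_mul_of_nonneg_right ?_ hnn
  have h6 : ∀ b ∈ BW t m, y ^ (if b ∉ F then 1 else 0) ≤ (if b ∈ F then 1 else 0) + y := by
    intro b _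
    by_cases hb : b ∈ F
    · simp [hb, hy]
    · simp [hb]
  refine (Finset.sum_le_sum h6).trans ?_
  rw [Finset.sum_add_distrib, Finset.sum_const, card_BW, nsmul_eq_mul, mul_comm y]
  refine add_le_add ?_ le_rfl
  rw [Finset.sum_boole]
  have h7 : ((BW t m).filter (fun b => b ∈ F) : Finset (List (ℤ × ℤ))).card = cnt F m := by
    unfold cnt
    rw [← Set.ncard_coe_finset]
    congr 1
    ext l
    simp only [Finset.coe_filter, Set.mem_ofPred_eq, mem_BW]
    constructor
    · rintro ⟨⟨_, h8⟩, h9⟩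
      exact ⟨h9, h8⟩
    · rintro ⟨h8, h9⟩
      exact ⟨⟨hF h8, h9⟩, h8⟩
  rw [h7]

theorem block_small {F : Set (List (ℤ × ℤ))} (hF : F ⊆ saws t) (hs : Small t F) :
    ∃ m : ℕ, 1 ≤ m ∧ ∃ a : ℝ, 0 < a ∧
      Small t {l | l ∈ saws t ∧ (badBlocks F m l : ℝ) < a * l.length} := by
  obtain ⟨θ, h0, h1, C, hC, hc⟩ := hs
  have hmu := one_le_mu t
  have hmu0 : 0 < mu t := by linarith
  -- the choice of `m`
  obtain ⟨m, hm, hfm⟩ : ∃ m : ℕ, 1 ≤ m ∧ (cnt F m : ℝ) ≤ (mu t) ^ m / 4 := by
    have hr0 : 0 < θ / mu t := by positivity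
    have hr : θ / mu t < 1 := (div_lt_one hmu0).2 h1
    obtain ⟨k, hk⟩ := exists_pow_lt_of_lt_one (show 0 < 1 / (4 * C) by positivity) hr
    refine ⟨k + 1, by omega, (hc (k + 1)).trans ?_⟩
    have h2 : (θ / mu t) ^ (k + 1) ≤ 1 / (4 * C) :=
      (pow_le_pow_of_le_one hr0.le hr.le (Nat.le_succ k)).trans hk.le
    have h3 : θ ^ (k + 1) = (θ / mu t) ^ (k + 1) * (mu t) ^ (k + 1) := by
      rw [div_pow]
      field_simp
    rw [h3]
    have h4 : 0 < (mu t) ^ (k + 1) := by positivity
    calc C * ((θ / mu t) ^ (k + 1) * (mu t) ^ (k + 1))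
        ≤ C * (1 / (4 * C) * (mu t) ^ (k + 1)) := by gcongr
      _ = (mu t) ^ (k + 1) / 4 := by field_simp
  -- the choice of `M`
  obtain ⟨M, hM, hyM⟩ : ∃ M : ℕ, 1 ≤ M ∧ (2 / 3 : ℝ) ^ M * (cnt (saws t) m : ℝ) ≤ (mu t) ^ m / 4 := by
    have hcp : 0 < (cnt (saws t) m : ℝ) := by exact_mod_cast one_le_cnt t m
    obtain ⟨k, hk⟩ := exists_pow_lt_of_lt_one
      (show 0 < (mu t) ^ m / 4 / (cnt (saws t) m : ℝ) by positivity)
      (show (2 / 3 : ℝ) < 1 by norm_num)
    refine ⟨k + 1, by omega, ?_⟩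
    have h2 : (2 / 3 : ℝ) ^ (k + 1) ≤ (mu t) ^ m / 4 / (cnt (saws t) m : ℝ) :=
      (pow_le_pow_of_le_one (by norm_num) (by norm_num) (Nat.le_succ k)).trans hk.le
    rwa [le_div_iff₀ hcp] at h2
  set y : ℝ := (2 / 3 : ℝ) ^ M with hydef
  have hy0 : 0 < y := by positivity
  have hy1 : y ≤ 1 := pow_le_one₀ (by norm_num) (by norm_num)
  set K : ℝ := ∑ r ∈ Finset.range m, (cnt (saws t) r : ℝ) with hKdef
  have hK : 0 < K := by
    refine Finset.sum_pos (fun r _ => ?_) ⟨0, by simp; omega⟩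
    exact_mod_cast one_le_cnt t r
  have hS : ∀ q r : ℕ, r < m → BS t F m y (q * m + r) ≤ ((mu t) ^ m / 2) ^ q * K := by
    intro q r hr
    induction q with
    | zero =>
      rw [pow_zero, one_mul, Nat.zero_mul, Nat.zero_add]
      refine (BS_le hy0.le hy1 r).trans ?_
      exact Finset.single_le_sum (f := fun r => (cnt (saws t) r : ℝ)) (fun r _ => by positivity)
        (Finset.mem_range.2 hr)
    | succ q ih =>
      have h5 : (q + 1) * m + r = m + (q * m + r) := by ring
      rw [h5]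
      have hnn : 0 ≤ BS t F m y (q * m + r) := Finset.sum_nonneg fun l _ => by positivity
      calc BS t F m y (m + (q * m + r))
          ≤ ((cnt F m : ℝ) + y * (cnt (saws t) m : ℝ)) * BS t F m y (q * m + r) :=
            BS_rec hF hm hy0.le _
        _ ≤ ((mu t) ^ m / 2) * BS t F m y (q * m + r) := by
            apply mul_le_mul_of_nonneg_right _ hnn
            linarith
        _ ≤ ((mu t) ^ m / 2) * (((mu t) ^ m / 2) ^ q * K) := by
            apply mul_le_mul_of_nonneg_left ih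
            positivity
        _ = _ := by ring
  -- the root
  set η : ℝ := (3 / 4 : ℝ) ^ ((m : ℝ)⁻¹) with hηdef
  have hη0 : 0 < η := by positivity
  have hmne : m ≠ 0 := by omega
  have hηm : η ^ m = 3 / 4 := Real.rpow_inv_natCast_pow (by norm_num) hmne
  have hη1 : η < 1 := by
    by_contra hcon
    push Not at hcon
    have := one_le_pow₀ hcon (n := m)
    rw [hηm] at this
    norm_num at this
  have hmR : (0 : ℝ) < m := by exact_mod_cast (by omega : 0 < m)
  have hMR : (0 : ℝ) < M := by exact_mod_cast (by omega : 0 < M)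
  refine ⟨m, hm, 1 / ((m : ℝ) * M), by positivity, mu t * η, by positivity, ?_,
    K * (4 / 3), by positivity, fun n => ?_⟩
  · calc mu t * η < mu t * 1 := by gcongr
      _ = mu t := mul_one _
  · set A : Set (List (ℤ × ℤ)) :=
      {l | l ∈ saws t ∧ (badBlocks F m l : ℝ) < 1 / ((m : ℝ) * M) * l.length} with hAdef
    have hA : A ⊆ saws t := fun l hl => hl.1
    set Q : ℕ := n / m with hQdef
    have hnQ : n = Q * m + n % m := (Nat.div_add_mod' n m).symm
    have hnm : n % m < m := Nat.mod_lt _ (by omega)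
    -- lower bound for the weights
    have hw : (cnt A n : ℝ) * (2 / 3) ^ Q ≤ BS t F m y n := by
      have hfin := Block_fin hA n
      have hcA : cnt A n = hfin.toFinset.card := by
        unfold cnt
        rw [Set.ncard_eq_toFinset_card _ hfin]
      rw [hcA, ← nsmul_eq_mul, ← Finset.sum_const]
      unfold BS
      have hsub : hfin.toFinset ⊆ BW t n := by
        intro l hl
        rw [Set.Finite.mem_toFinset] at hl
        exact mem_BW.2 ⟨hA hl.1, hl.2⟩
      refine le_trans ?_ (Finset.sum_le_sum_of_subset_of_nonneg hsub fun l _ _ => by positivity)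
      refine Finset.sum_le_sum fun l hl => ?_
      rw [Set.Finite.mem_toFinset] at hl
      obtain ⟨⟨_, hb⟩, hln⟩ := hl
      rw [hln] at hb
      have hb2 : (badBlocks F m l : ℝ) * ((m : ℝ) * M) < n := by
        rw [one_div, inv_mul_eq_div, lt_div_iff₀ (by positivity)] at hb
        exact hb
      have hb3 : badBlocks F m l * (m * M) < n := by exact_mod_cast hb2
      have hb4 : M * badBlocks F m l ≤ Q := by
        rw [hQdef, Nat.le_div_iff_mul_le (by omega)]
        calc M * badBlocks F m l * m = badBlocks F m l * (m * M) := by ring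
          _ ≤ n := hb3.le
      rw [hydef, ← pow_mul]
      exact pow_le_pow_of_le_one (by norm_num) (by norm_num) hb4
    have h8 : BS t F m y n ≤ ((mu t) ^ m / 2) ^ Q * K := by
      have h9 := hS Q (n % m) hnm
      rwa [← hnQ] at h9
    have h10 : ((mu t) ^ m / 2) ^ Q ≤ (mu t) ^ n * (1 / 2) ^ Q := by
      have h11 : ((mu t) ^ m / 2) ^ Q = (mu t) ^ (Q * m) * (1 / 2) ^ Q := by
        rw [div_eq_mul_one_div, mul_pow, ← pow_mul, mul_comm m Q]
      rw [h11]
      apply mul_le_mul_of_nonneg_right _ (by positivity)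
      exact pow_le_pow_right₀ hmu (by omega)
    have h12 : (3 / 4 : ℝ) ^ Q ≤ 4 / 3 * η ^ n := by
      have h13 : (3 / 4 : ℝ) ^ Q = η ^ (m * Q) := by rw [pow_mul, hηm]
      have h14 : η ^ (m * Q + m) ≤ η ^ n :=
        pow_le_pow_of_le_one hη0.le hη1.le (by rw [mul_comm m Q]; omega)
      rw [pow_add, hηm] at h14
      rw [h13]
      linarith
    have h15 : (cnt A n : ℝ) ≤ (mu t) ^ n * K * (3 / 4) ^ Q := by
      have h16 : (0 : ℝ) < (2 / 3) ^ Q := by positivity
      have h17 : (cnt A n : ℝ) * (2 / 3) ^ Q ≤ (mu t) ^ n * (1 / 2) ^ Q * K :=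
        hw.trans (h8.trans (mul_le_mul_of_nonneg_right h10 hK.le))
      have h18 : (1 / 2 : ℝ) ^ Q = (3 / 4) ^ Q * (2 / 3) ^ Q := by
        rw [← mul_pow]
        norm_num
      rw [h18] at h17
      have h19 : (cnt A n : ℝ) * (2 / 3) ^ Q ≤ ((mu t) ^ n * K * (3 / 4) ^ Q) * (2 / 3) ^ Q := by
        calc (cnt A n : ℝ) * (2 / 3) ^ Q
            ≤ (mu t) ^ n * ((3 / 4) ^ Q * (2 / 3) ^ Q) * K := h17
          _ = _ := by ring
      exact le_of_mul_le_mul_right h19 h16
    calc (cnt A n : ℝ) ≤ (mu t) ^ n * K * (3 / 4) ^ Q := h15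
      _ ≤ (mu t) ^ n * K * (4 / 3 * η ^ n) := by
          apply mul_le_mul_of_nonneg_left h12
          positivity
      _ = K * (4 / 3) * (mu t * η) ^ n := by
          rw [mul_pow]
          ring

end Pool.Agent.SHK
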