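import Pool.Agent.SHK.Turn

/-!
# Counting the derivations over a given vertex list

A derivation is a list of admissible marks together with a last piece.  For a fixed target list `L'`
the derivations `(D, C)` with `tgt D C = L'` are weighted with `y ^ (number of marks)`.

Paper proof of `count_der`.  Let `W` be a bound for the number of chains `B` of at most `2m+1` vertices
with a given first vertex (e.g. `W = (2m+1) * 6^(2m+1)`), and `K = 625 W` (any larger constant will
do).  Claim: `∑_{(D,C) over L'} y^|D| ≤ (1 + K y)^(turnsV t L')` for every list `L'`.  Strong induction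
on `|L'|`.  A derivation over `L'` is `([], L')` or `((A, B, B') :: D₁, C)` with
`L' = A ++ B' ++ L''`, `(D₁, C)` a derivation over `L''`, which is shorter.  Put `i = |A|`, `j = |B'|`;
`B' = (L'.drop i).take j` contains a turn, so the first turn index `τ ≥ i` of `L'` satisfies
`τ + tl t < i + j ≤ i + 25`, and the turns of `L''` are turns of `L'` with index `> τ`.  For a given
turn `τ` which has `v` turns of `L'` after it (`0 ≤ v < T = turnsV t L'`) there are at most `25` values
of `i`, `25` values of `j`, `W` choices of `B`, and then `turnsV t L'' ≤ v`.  So the sum is at most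
`1 + ∑_{v < T} K y (1 + K y)^v = (1 + K y)^T`.

(Alternatively: a derivation over `L'` is determined by the partial function which maps the first turn
`τ` of each `B'` to `(τ - |A...|, |B'|, B)`, i.e. by a function from the turns of `L'` to
`Option (data)`, and the sum over all such functions of `y ^ (number of values ≠ none)` is
`(1 + |data| y)^T`.)
-/

namespace Pool.Agent.SHK

open Pool.Agent.SHP
open scoped ENNReal NNReal

variable {t : Bool}

/-- Derivations over a given target. -/
def DerOver (t : Bool) (m : ℕ) (L' : List (ℤ × ℤ)) : Set (List Mark × List (ℤ × ℤ)) :=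
  {d | (∀ x ∈ d.1, Adm t m x) ∧ tgt d.1 d.2 = L'}

private noncomputable def Count_gs (y : ℝ≥0) (X : Set (List Mark × List (ℤ × ℤ))) : ℝ≥0∞ :=
  ∑' d : X, (y : ℝ≥0∞) ^ (d : List Mark × List (ℤ × ℤ)).1.length

private theorem Count_inj (y : ℝ≥0) {X Y : Set (List Mark × List (ℤ × ℤ))}
    (φ : List Mark × List (ℤ × ℤ) → List Mark × List (ℤ × ℤ)) (c : ℝ≥0∞)
    (hmap : ∀ d ∈ X, φ d ∈ Y) (hinj : Set.InjOn φ X)
    (hw : ∀ d ∈ X, (y : ℝ≥0∞) ^ d.1.length = c * (y : ℝ≥0∞) ^ (φ d).1.length) :
    Count_gs y X ≤ c * Count_gs y Y := by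
  unfold Count_gs
  calc ∑' d : X, (y : ℝ≥0∞) ^ (d : List Mark × List (ℤ × ℤ)).1.length
      = ∑' d : X, c * (y : ℝ≥0∞) ^ (φ d).1.length := tsum_congr fun d => hw d.1 d.2
    _ = c * ∑' d : X, (y : ℝ≥0∞) ^ (φ d).1.length := ENNReal.tsum_mul_left
    _ ≤ _ := by
      gcongr
      let f : X → Y := fun d => ⟨φ d.1, hmap d.1 d.2⟩
      have hf : Function.Injective f := by
        intro d d' h
        exact Subtype.ext (hinj d.2 d'.2 (congrArg Subtype.val h))
      exact ENNReal.tsum_comp_le_tsum_of_injective hf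
        (fun e : Y => (y : ℝ≥0∞) ^ (e : List Mark × List (ℤ × ℤ)).1.length)

/-- Chains with a given first vertex and bounded length. -/
private def Count_cs (t : Bool) : ℕ → ℤ × ℤ → Finset (List (ℤ × ℤ))
  | 0, _ => ∅
  | n + 1, a => insert [a] ((steps t).biUnion (fun s => (Count_cs t n (a + s)).image (List.cons a)))

private def Count_cb : ℕ → ℕ
  | 0 => 0
  | n + 1 => 1 + 6 * Count_cb n

private theorem Count_steps (t : Bool) : (steps t).card ≤ 6 := by
  cases t <;> decide

private theorem Count_cs_card (t : Bool) (n : ℕ) (a : ℤ × ℤ) :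
    (Count_cs t n a).card ≤ Count_cb n := by
  induction n generalizing a with
  | zero => simp [Count_cs, Count_cb]
  | succ n ih =>
    unfold Count_cs Count_cb
    refine (Finset.card_insert_le _ _).trans ?_
    have h1 : ((steps t).biUnion (fun s => (Count_cs t n (a + s)).image (List.cons a))).card ≤
        (steps t).card * Count_cb n := by
      refine Finset.card_biUnion_le_card_mul _ _ _ fun s _ => ?_
      exact Finset.card_image_le.trans (ih _)
    have h2 := Nat.mul_le_mul_right (Count_cb n) (Count_steps t)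
    omega

private theorem Count_mem_cs {n : ℕ} {a : ℤ × ℤ} {B : List (ℤ × ℤ)} (hB : B.IsChain (Adj t))
    (ha : B.head? = some a) (hl : B.length ≤ n) : B ∈ Count_cs t n a := by
  induction n generalizing a B with
  | zero =>
    have : B = [] := List.eq_nil_of_length_eq_zero (by omega)
    rw [this] at ha
    simp at ha
  | succ n ih =>
    unfold Count_cs
    rw [Finset.mem_insert, Finset.mem_biUnion]
    rcases B with _ | ⟨b, B⟩
    · simp at ha
    · rw [List.head?_cons, Option.some_inj] at ha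
      subst ha
      rcases B with _ | ⟨c, B⟩
      · exact Or.inl rfl
      · right
        rw [List.isChain_cons_cons] at hB
        refine ⟨c - b, hB.1, ?_⟩
        rw [Finset.mem_image]
        refine ⟨c :: B, ?_, rfl⟩
        rw [add_sub_cancel]
        refine ih hB.2 rfl ?_
        simpa using hl

/-- There is a turn at the index `0`. -/
private def Count_t0 (t : Bool) (L : List (ℤ × ℤ)) : Prop :=
  ∃ a b, L[0]? = some a ∧ L[tl t]? = some b ∧ Adj t a b

private theorem Count_tl_pos (t : Bool) : 0 < tl t := by cases t <;> decide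

private theorem Count_cons (a : ℤ × ℤ) (L : List (ℤ × ℤ)) :
    (Count_t0 t (a :: L) → turnsV t (a :: L) = turnsV t L + 1) ∧
      (¬ Count_t0 t (a :: L) → turnsV t (a :: L) = turnsV t L) := by
  obtain ⟨k, hk⟩ : ∃ k, tl t = k + 1 := ⟨tl t - 1, by have := Count_tl_pos t; omega⟩
  unfold turnsV Count_t0
  rw [hk]
  simp only [List.drop_succ_cons, List.getElem?_cons_succ, List.getElem?_cons_zero]
  rcases h : L.drop k with _ | ⟨b, M⟩
  · have h1 : L.drop (k + 1) = [] := by
      rw [← List.drop_drop, h]; rfl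
    have h2 : L[k]? = none := by
      rw [List.getElem?_eq_none_iff]
      exact List.drop_eq_nil_iff.1 h
    rw [h1, h2]
    simp
  · have h1 : L.drop (k + 1) = M := by
      rw [← List.drop_drop, h]; rfl
    have h2 : L[k]? = some b := by
      have h3 : (L.drop k)[0]? = some b := by rw [h]; rfl
      rw [List.getElem?_drop] at h3
      simpa using h3
    rw [h1, h2, List.zip_cons_cons, List.countP_cons]
    constructor
    · rintro ⟨a', b', h3, h4, h5⟩
      rw [Option.some_inj] at h3 h4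
      subst h3 h4
      simp [h5]
    · intro h3
      have h4 : ¬ Adj t a b := fun h5 => h3 ⟨a, b, rfl, rfl, h5⟩
      simp [h4]

private theorem Count_exists {L : List (ℤ × ℤ)} (h : 0 < turnsV t L) :
    ∃ i, i + tl t < L.length ∧ Count_t0 t (L.drop i) := by
  induction L with
  | nil => simp [turnsV] at h
  | cons a L ih =>
    by_cases h0 : Count_t0 t (a :: L)
    · refine ⟨0, ?_, h0⟩
      obtain ⟨-, b, -, h1, -⟩ := h0
      rw [zero_add]
      exact (List.getElem?_eq_some_iff.1 h1).1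
    · rw [(Count_cons a L).2 h0] at h
      obtain ⟨i, h1, h2⟩ := ih h
      refine ⟨i + 1, ?_, h2⟩
      rw [List.length_cons]
      omega

private theorem Count_t0_take {L : List (ℤ × ℤ)} {i j : ℕ} (h : Count_t0 t ((L.take j).drop i)) :
    Count_t0 t (L.drop i) := by
  obtain ⟨a, b, h1, h2, h3⟩ := h
  refine ⟨a, b, ?_, ?_, h3⟩
  · rw [List.getElem?_drop] at h1 ⊢
    rw [List.getElem?_take] at h1
    split_ifs at h1
    exact h1
  · rw [List.getElem?_drop] at h2 ⊢
    rw [List.getElem?_take] at h2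
    split_ifs at h2
    exact h2

/-- Removing the first entry of the target. -/
private theorem Count_mono_cons (t : Bool) (m : ℕ) (y : ℝ≥0) (a : ℤ × ℤ) (L : List (ℤ × ℤ)) :
    Count_gs y (DerOver t m L) ≤ Count_gs y (DerOver t m (a :: L)) := by
  have h := Count_inj y (X := DerOver t m L) (Y := DerOver t m (a :: L))
    (fun d => match d.1 with
      | [] => ([], a :: d.2)
      | x :: D => ((a :: x.1, x.2) :: D, d.2)) 1 ?_ ?_ ?_
  · rwa [one_mul] at h
  · rintro ⟨D, C⟩ ⟨h1, h2⟩
    rcases D with _ | ⟨x, D⟩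
    · refine ⟨by simp, ?_⟩
      simp only [tgt] at h2 ⊢
      rw [h2]
    · simp only [tgt] at h2
      refine ⟨?_, ?_⟩
      · intro z hz
        simp only [List.mem_cons] at hz
        rcases hz with rfl | hz
        · exact h1 x (by simp)
        · exact h1 z (by simp [hz])
      · simp only [tgt, List.cons_append]
        rw [h2]
  · rintro ⟨D, C⟩ _ ⟨D', C'⟩ _ h1
    rcases D with _ | ⟨x, D⟩ <;> rcases D' with _ | ⟨x', D'⟩
    · simpa using h1
    · simp at h1
    · simp at h1
    · simp only [Prod.mk.injEq, List.cons.injEq, true_and] at h1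
      obtain ⟨⟨⟨h3, h4⟩, h5⟩, h6⟩ := h1
      rw [Prod.mk.injEq, List.cons.injEq]
      exact ⟨⟨Prod.ext h3 h4, h5⟩, h6⟩
  · rintro ⟨D, C⟩ _
    rcases D with _ | ⟨x, D⟩ <;> simp

private theorem Count_mono (t : Bool) (m : ℕ) (y : ℝ≥0) (L : List (ℤ × ℤ)) {i j : ℕ}
    (hij : i ≤ j) : Count_gs y (DerOver t m (L.drop j)) ≤ Count_gs y (DerOver t m (L.drop i)) := by
  obtain ⟨k, rfl⟩ := Nat.exists_eq_add_of_le hij
  clear hij
  induction k with
  | zero => simp
  | succ k ih =>
    refine le_trans ?_ ih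
    rcases h : L.drop (i + k) with _ | ⟨a, M⟩
    · have h1 : L.drop (i + (k + 1)) = [] := by
        rw [← add_assoc, ← List.drop_drop, h]; rfl
      rw [h1]
    · have h1 : L.drop (i + (k + 1)) = M := by
        rw [← add_assoc, ← List.drop_drop, h]; rfl
      rw [h1]
      exact Count_mono_cons t m y a M

private theorem Count_part0 (t : Bool) (m : ℕ) (y : ℝ≥0) (a : ℤ × ℤ) (L : List (ℤ × ℤ)) :
    Count_gs y {d | d ∈ DerOver t m (a :: L) ∧ (d.1 = [] ∨ ∃ A x D, d.1 = (a :: A, x) :: D)} ≤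
      Count_gs y (DerOver t m L) := by
  have h := Count_inj y
    (X := {d | d ∈ DerOver t m (a :: L) ∧ (d.1 = [] ∨ ∃ A x D, d.1 = (a :: A, x) :: D)})
    (Y := DerOver t m L)
    (fun d => match d.1 with
      | [] => ([], d.2.tail)
      | x :: D => ((x.1.tail, x.2) :: D, d.2)) 1 ?_ ?_ ?_
  · rwa [one_mul] at h
  · rintro ⟨D, C⟩ ⟨⟨h1, h2⟩, h3⟩
    rcases D with _ | ⟨x, D⟩
    · refine ⟨by simp, ?_⟩
      simp only [tgt] at h2 ⊢
      rw [h2]
      rfl
    · simp only [tgt] at h2
      simp only [List.cons.injEq, reduceCtorEq, false_or] at h3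
      obtain ⟨A, z, D', h4, h5⟩ := h3
      subst h4
      simp only [List.cons_append, List.cons.injEq, true_and] at h2
      refine ⟨?_, ?_⟩
      · intro w hw
        simp only [List.mem_cons] at hw
        rcases hw with rfl | hw
        · exact h1 (a :: A, z) (by simp)
        · exact h1 w (by simp [hw])
      · simp only [tgt, List.tail_cons]
        exact h2
  · rintro ⟨D, C⟩ ⟨⟨-, h2⟩, h3⟩ ⟨D', C'⟩ ⟨⟨-, h2'⟩, h3'⟩ h1
    rcases D with _ | ⟨x, D⟩ <;> rcases D' with _ | ⟨x', D'⟩
    · simp only [tgt] at h2 h2'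
      rw [h2, h2']
    · simp at h1
    · simp at h1
    · simp only [List.cons.injEq, reduceCtorEq, false_or] at h3 h3'
      obtain ⟨A, z, D₁, h4, h5⟩ := h3
      obtain ⟨A', z', D₁', h4', h5'⟩ := h3'
      subst h4 h4'
      simp only [List.tail_cons, Prod.mk.injEq, List.cons.injEq] at h1
      obtain ⟨⟨⟨h6, h7⟩, h8⟩, h9⟩ := h1
      subst h6 h7 h8 h9
      rfl
  · rintro ⟨D, C⟩ _
    rcases D with _ | ⟨x, D⟩ <;> simp

private theorem Count_part1 (t : Bool) (m : ℕ) (y : ℝ≥0) (L : List (ℤ × ℤ)) (j : ℕ)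
    (B : List (ℤ × ℤ)) :
    Count_gs y {d | d ∈ DerOver t m L ∧ ∃ B' D, d.1 = ([], B, B') :: D ∧ B'.length = j} ≤
      y * Count_gs y (DerOver t m (L.drop j)) := by
  refine Count_inj y (fun d => (d.1.tail, d.2)) y ?_ ?_ ?_
  · rintro ⟨D, C⟩ ⟨⟨h1, h2⟩, B', D', h3, h4⟩
    simp only at h3
    subst h3
    simp only [tgt, List.nil_append] at h2
    refine ⟨fun x hx => h1 x (List.mem_cons_of_mem _ hx), ?_⟩
    simp only [List.tail_cons]
    rw [← h2, ← h4, List.drop_left]
  · rintro ⟨D, C⟩ ⟨⟨h1, h2⟩, B', D', h3, h4⟩ ⟨E, C'⟩ ⟨⟨-, h2'⟩, B'', D'', h3', h4'⟩ h5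
    simp only at h3 h3'
    subst h3 h3'
    simp only [tgt, List.nil_append] at h2 h2'
    simp only [List.tail_cons, Prod.mk.injEq] at h5
    obtain ⟨h6, h7⟩ := h5
    have h8 : B' = B'' := by
      have e1 : L.take j = B' := by rw [← h2, ← h4, List.take_left]
      have e2 : L.take j = B'' := by rw [← h2', ← h4', List.take_left]
      rw [← e1, e2]
    subst h6 h7 h8
    rfl
  · rintro ⟨D, C⟩ ⟨-, B', D', h3, h4⟩
    simp only at h3
    subst h3
    simp [pow_succ, mul_comm]

private theorem Count_rec (t : Bool) (m : ℕ) (y : ℝ≥0) (a : ℤ × ℤ) (L : List (ℤ × ℤ)) :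
    Count_gs y (DerOver t m (a :: L)) ≤ Count_gs y (DerOver t m L) +
      ∑ j ∈ (Finset.range 26).filter (fun j => 0 < turnsV t ((a :: L).take j)),
        (Count_cb (2 * m + 1) : ℝ≥0∞) * (y * Count_gs y (DerOver t m ((a :: L).drop j))) := by
  classical
  set X₀ := {d | d ∈ DerOver t m (a :: L) ∧ (d.1 = [] ∨ ∃ A x D, d.1 = (a :: A, x) :: D)}
  set X₁ : ℕ → List (ℤ × ℤ) → Set (List Mark × List (ℤ × ℤ)) := fun j B =>
    {d | d ∈ DerOver t m (a :: L) ∧ ∃ B' D, d.1 = ([], B, B') :: D ∧ B'.length = j} with hX₁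
  have hsub : DerOver t m (a :: L) ⊆ X₀ ∪
      ⋃ j ∈ (Finset.range 26).filter (fun j => 0 < turnsV t ((a :: L).take j)),
        ⋃ B ∈ Count_cs t (2 * m + 1) a, X₁ j B := by
    rintro ⟨D, C⟩ h
    rcases D with _ | ⟨⟨A, B, B'⟩, D⟩
    · exact Or.inl ⟨h, Or.inl rfl⟩
    · have h2 := h.2
      simp only [tgt] at h2
      rcases A with _ | ⟨b, A⟩
      · right
        obtain ⟨h3, h4, h5, h6, h7, h8⟩ := h.1 ([], B, B') (by simp)
        simp only at h3 h4 h5 h6 h7 h8
        rw [List.nil_append] at h2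
        have h9 : (a :: L).take B'.length = B' := by rw [← h2, List.take_left]
        have h10 : B.head? = some a := by
          rw [h7]
          rcases B' with _ | ⟨b', B'⟩
          · simp [turnsV] at h8
          · simp only [List.cons_append, List.cons.injEq] at h2
            rw [List.head?_cons, h2.1]
        simp only [Set.mem_iUnion]
        refine ⟨B'.length, ?_, B, Count_mem_cs h5 h10 h4, h, B', D, rfl, rfl⟩
        rw [Finset.mem_filter, Finset.mem_range, h9]
        exact ⟨by omega, h8⟩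
      · left
        simp only [List.cons_append, List.cons.injEq] at h2
        refine ⟨h, Or.inr ⟨A, (B, B'), D, ?_⟩⟩
        rw [h2.1]
  refine le_trans (b := Count_gs y (X₀ ∪
      ⋃ j ∈ (Finset.range 26).filter (fun j => 0 < turnsV t ((a :: L).take j)),
        ⋃ B ∈ Count_cs t (2 * m + 1) a, X₁ j B)) (ENNReal.tsum_mono_subtype
    (fun d : List Mark × List (ℤ × ℤ) => (y : ℝ≥0∞) ^ d.1.length) hsub) ?_
  refine le_trans (ENNReal.tsum_union_le
    (fun d : List Mark × List (ℤ × ℤ) => (y : ℝ≥0∞) ^ d.1.length) _ _) ?_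
  refine add_le_add (Count_part0 t m y a L) ?_
  refine le_trans (ENNReal.tsum_biUnion_le
    (fun d : List Mark × List (ℤ × ℤ) => (y : ℝ≥0∞) ^ d.1.length) _ _) ?_
  refine Finset.sum_le_sum fun j _ => ?_
  refine le_trans (ENNReal.tsum_biUnion_le
    (fun d : List Mark × List (ℤ × ℤ) => (y : ℝ≥0∞) ^ d.1.length) _ _) ?_
  calc ∑ B ∈ Count_cs t (2 * m + 1) a, ∑' d : X₁ j B,
        (y : ℝ≥0∞) ^ (d : List Mark × List (ℤ × ℤ)).1.length
      ≤ ∑ B ∈ Count_cs t (2 * m + 1) a, y * Count_gs y (DerOver t m ((a :: L).drop j)) :=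
        Finset.sum_le_sum fun B _ => Count_part1 t m y (a :: L) j B
    _ = (Count_cs t (2 * m + 1) a).card * (y * Count_gs y (DerOver t m ((a :: L).drop j))) := by
        rw [Finset.sum_const, nsmul_eq_mul]
    _ ≤ _ := by
        gcongr
        exact Count_cs_card t _ a

/-- No turns: only the trivial derivation. -/
private theorem Count_zero (t : Bool) (m : ℕ) (y : ℝ≥0) (L : List (ℤ × ℤ))
    (h : turnsV t L = 0) : Count_gs y (DerOver t m L) ≤ 1 := by
  induction L with
  | nil =>
    have hX : DerOver t m [] ⊆ {(([] : List Mark), ([] : List (ℤ × ℤ)))} := by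
      rintro ⟨D, C⟩ ⟨h1, h2⟩
      rcases D with _ | ⟨⟨A, B, B'⟩, D⟩
      · simp only [tgt] at h2
        rw [h2]
        rfl
      · exfalso
        simp only [tgt, List.append_eq_nil_iff] at h2
        have h3 := (h1 (A, B, B') (by simp)).2.2.2.2.2
        simp only at h3
        rw [h2.2.1] at h3
        simp [turnsV] at h3
    refine le_trans (ENNReal.tsum_mono_subtype
      (fun d : List Mark × List (ℤ × ℤ) => (y : ℝ≥0∞) ^ d.1.length) hX) ?_
    rw [tsum_singleton (([] : List Mark), ([] : List (ℤ × ℤ)))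
      (fun d : List Mark × List (ℤ × ℤ) => (y : ℝ≥0∞) ^ d.1.length)]
    simp
  | cons a L ih =>
    refine (Count_rec t m y a L).trans ?_
    have h1 : turnsV t L = 0 := by
      by_cases h0 : Count_t0 t (a :: L)
      · rw [(Count_cons a L).1 h0] at h
        omega
      · rw [(Count_cons a L).2 h0] at h
        exact h
    have h2 : (Finset.range 26).filter (fun j => 0 < turnsV t ((a :: L).take j)) = ∅ := by
      rw [Finset.filter_eq_empty_iff]
      intro j _
      have h3 := turnsV_append_ge t ((a :: L).take j) ((a :: L).drop j)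
      rw [List.take_append_drop] at h3
      omega
    rw [h2, Finset.sum_empty, add_zero]
    exact ih h1

private theorem Count_J {τ : ℕ} {L : List (ℤ × ℤ)}
    (h1 : ∀ i, i < τ → ¬ Count_t0 t (L.drop i)) {j : ℕ} (hj : 0 < turnsV t (L.take j)) :
    τ + 1 < j := by
  obtain ⟨i, h2, h3⟩ := Count_exists hj
  have h4 : τ ≤ i := by
    by_contra hcon
    exact h1 i (not_le.1 hcon) (Count_t0_take h3)
  have h5 : (L.take j).length ≤ j := by
    rw [List.length_take]
    exact min_le_left _ _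
  have := Count_tl_pos t
  omega

private theorem Count_sumJ (t : Bool) (m : ℕ) (y : ℝ≥0) (τ : ℕ) (L : List (ℤ × ℤ))
    (h1 : ∀ i, i < τ → ¬ Count_t0 t (L.drop i)) :
    ∑ j ∈ (Finset.range 26).filter (fun j => 0 < turnsV t (L.take j)),
        (Count_cb (2 * m + 1) : ℝ≥0∞) * (y * Count_gs y (DerOver t m (L.drop j))) ≤
      (((if τ < 25 then 1 else 0) * (26 * Count_cb (2 * m + 1)) : ℕ) : ℝ≥0∞) * y *
        Count_gs y (DerOver t m (L.drop (τ + 1))) := by
  split_ifs with hτ
  · calc ∑ j ∈ (Finset.range 26).filter (fun j => 0 < turnsV t (L.take j)),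
        (Count_cb (2 * m + 1) : ℝ≥0∞) * (y * Count_gs y (DerOver t m (L.drop j)))
        ≤ ∑ j ∈ (Finset.range 26).filter (fun j => 0 < turnsV t (L.take j)),
          (Count_cb (2 * m + 1) : ℝ≥0∞) * (y * Count_gs y (DerOver t m (L.drop (τ + 1)))) := by
          refine Finset.sum_le_sum fun j hj => ?_
          rw [Finset.mem_filter] at hj
          have h2 := Count_J h1 hj.2
          gcongr
          exact Count_mono t m y L (by omega)
      _ = (((Finset.range 26).filter (fun j => 0 < turnsV t (L.take j))).card : ℝ≥0∞) *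
          ((Count_cb (2 * m + 1) : ℝ≥0∞) * (y * Count_gs y (DerOver t m (L.drop (τ + 1))))) := by
          rw [Finset.sum_const, nsmul_eq_mul]
      _ ≤ ((26 : ℕ) : ℝ≥0∞) *
          ((Count_cb (2 * m + 1) : ℝ≥0∞) * (y * Count_gs y (DerOver t m (L.drop (τ + 1))))) := by
          gcongr
          exact (Finset.card_filter_le _ _).trans (by simp)
      _ = _ := by
          push_cast
          ring
  · have h2 : (Finset.range 26).filter (fun j => 0 < turnsV t (L.take j)) = ∅ := by
      rw [Finset.filter_eq_empty_iff]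
      intro j hj h3
      have h4 := Count_J h1 h3
      rw [Finset.mem_range] at hj
      omega
    rw [h2, Finset.sum_empty]
    exact bot_le

/-- The sum over the positions before the first turn. -/
private theorem Count_first (t : Bool) (m : ℕ) (y : ℝ≥0) (τ : ℕ) (L : List (ℤ × ℤ))
    (h0 : Count_t0 t (L.drop τ)) (h1 : ∀ i, i < τ → ¬ Count_t0 t (L.drop i)) :
    Count_gs y (DerOver t m L) ≤ (1 + ((min (τ + 1) 25 * (26 * Count_cb (2 * m + 1)) : ℕ) : ℝ≥0∞) * y)
      * Count_gs y (DerOver t m (L.drop (τ + 1))) := by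
  induction τ generalizing L with
  | zero =>
    rcases L with _ | ⟨a, L⟩
    · obtain ⟨a, b, h2, -⟩ := h0
      simp at h2
    refine (Count_rec t m y a L).trans ?_
    refine (add_le_add le_rfl (Count_sumJ t m y 0 (a :: L) h1)).trans ?_
    rw [add_mul, one_mul]
    exact le_rfl
  | succ τ ih =>
    rcases L with _ | ⟨a, L⟩
    · obtain ⟨a, b, h2, -⟩ := h0
      simp at h2
    refine (Count_rec t m y a L).trans ?_
    have h2 := ih L h0 (fun i hi => h1 (i + 1) (by omega))
    refine (add_le_add h2 (Count_sumJ t m y (τ + 1) (a :: L) h1)).trans ?_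
    rw [List.drop_succ_cons, ← add_mul, add_assoc, ← add_mul, ← Nat.cast_add, ← add_mul]
    gcongr
    split_ifs with h3 <;> omega

private theorem Count_drop {τ : ℕ} {L : List (ℤ × ℤ)} (h0 : Count_t0 t (L.drop τ)) :
    turnsV t (L.drop (τ + 1)) + 1 ≤ turnsV t L := by
  have h1 : turnsV t (L.drop (τ + 1)) + 1 = turnsV t (L.drop τ) := by
    rcases h : L.drop τ with _ | ⟨a, M⟩
    · rw [h] at h0
      obtain ⟨a, b, h2, -⟩ := h0
      simp at h2
    · rw [h] at h0
      have h2 : L.drop (τ + 1) = M := by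
        rw [← List.drop_drop, h]; rfl
      rw [h2]
      exact ((Count_cons a M).1 h0).symm
  have h3 := turnsV_append_ge t (L.take τ) (L.drop τ)
  rw [List.take_append_drop] at h3
  omega

private theorem Count_all (t : Bool) (m : ℕ) (y : ℝ≥0) (n : ℕ) : ∀ L : List (ℤ × ℤ),
    turnsV t L ≤ n → Count_gs y (DerOver t m L) ≤
      (1 + ((25 * (26 * Count_cb (2 * m + 1)) + 1 : ℕ) : ℝ≥0∞) * y) ^ (turnsV t L) := by
  induction n with
  | zero =>
    intro L hL
    have h : turnsV t L = 0 := by omega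
    rw [h, pow_zero]
    exact Count_zero t m y L h
  | succ n ih =>
    intro L hL
    rcases Nat.eq_zero_or_pos (turnsV t L) with h | h
    · rw [h, pow_zero]
      exact Count_zero t m y L h
    · classical
      obtain ⟨i, -, hi⟩ := Count_exists h
      have hex : ∃ i, Count_t0 t (L.drop i) := ⟨i, hi⟩
      have h2 := Count_first t m y (Nat.find hex) L (Nat.find_spec hex)
        (fun i hi => Nat.find_min hex hi)
      have h3 := Count_drop (Nat.find_spec hex)
      refine h2.trans ?_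
      have h4 := ih (L.drop (Nat.find hex + 1)) (by omega)
      have h5 : (1 : ℝ≥0∞) ≤ 1 + ((25 * (26 * Count_cb (2 * m + 1)) + 1 : ℕ) : ℝ≥0∞) * y :=
        le_self_add
      calc _ ≤ (1 + ((25 * (26 * Count_cb (2 * m + 1)) + 1 : ℕ) : ℝ≥0∞) * y) *
            (1 + ((25 * (26 * Count_cb (2 * m + 1)) + 1 : ℕ) : ℝ≥0∞) * y) ^
              (turnsV t (L.drop (Nat.find hex + 1))) := by
            gcongr
            exact (Nat.mul_le_mul_right _ (min_le_right _ _)).trans (Nat.le_succ _)
        _ = (1 + ((25 * (26 * Count_cb (2 * m + 1)) + 1 : ℕ) : ℝ≥0∞) * y) ^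
              (turnsV t (L.drop (Nat.find hex + 1)) + 1) := by rw [pow_succ, mul_comm]
        _ ≤ _ := pow_le_pow_right₀ h5 h3

theorem count_der (t : Bool) (m : ℕ) : ∃ K : ℕ, 1 ≤ K ∧ ∀ (y : ℝ≥0) (L' : List (ℤ × ℤ)),
    ∑' d : DerOver t m L', (y : ℝ≥0∞) ^ (d : List Mark × List (ℤ × ℤ)).1.length ≤
      (1 + (K : ℝ≥0∞) * y) ^ (turnsV t L') :=
  ⟨25 * (26 * Count_cb (2 * m + 1)) + 1, by omega,
    fun y L' => Count_all t m y (turnsV t L') L' le_rfl⟩

/-- With the restriction `turnsV ≤ 27 * (number of marks)` the sum is at most one for small `y`: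
`y ^ k ≤ (1 / K) ^ k * 2^(-27 k) ≤ (1 / K) ^ k * 2 ^ (-turnsV)`. -/
theorem count_der' (t : Bool) (m : ℕ) : ∃ y : ℝ≥0, 0 < y ∧ ∀ L' : List (ℤ × ℤ),
    ∑' d : {d | d ∈ DerOver t m L' ∧ turnsV t L' ≤ 27 * d.1.length},
      (y : ℝ≥0∞) ^ (d : List Mark × List (ℤ × ℤ)).1.length ≤ 1 := by
  obtain ⟨K, hK, h⟩ := count_der t m
  have hK0 : (K : ℝ≥0) ≠ 0 := by
    have : (0 : ℝ≥0) < K := by exact_mod_cast hK
    exact this.ne'
  refine ⟨(K : ℝ≥0)⁻¹ * (2⁻¹) ^ 27, by positivity, ?_⟩
  intro L'
  have h1 := h (K : ℝ≥0)⁻¹ L'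
  have h2 : (1 : ℝ≥0∞) + (K : ℝ≥0∞) * (((K : ℝ≥0)⁻¹ : ℝ≥0) : ℝ≥0∞) = 2 := by
    rw [ENNReal.coe_inv hK0, ENNReal.coe_natCast, ENNReal.mul_inv_cancel]
    · norm_num
    · exact_mod_cast (show K ≠ 0 by omega)
    · exact ENNReal.natCast_ne_top K
  rw [h2] at h1
  calc ∑' d : {d | d ∈ DerOver t m L' ∧ turnsV t L' ≤ 27 * d.1.length},
        (((K : ℝ≥0)⁻¹ * (2⁻¹) ^ 27 : ℝ≥0) : ℝ≥0∞) ^
          (d : List Mark × List (ℤ × ℤ)).1.length
      ≤ ∑' d : {d | d ∈ DerOver t m L' ∧ turnsV t L' ≤ 27 * d.1.length},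
        (2⁻¹ : ℝ≥0∞) ^ (turnsV t L') * (((K : ℝ≥0)⁻¹ : ℝ≥0) : ℝ≥0∞) ^
          (d : List Mark × List (ℤ × ℤ)).1.length := by
        refine ENNReal.tsum_le_tsum fun d => ?_
        have h3 : (((2⁻¹ : ℝ≥0)) : ℝ≥0∞) = (2⁻¹ : ℝ≥0∞) := by
          rw [ENNReal.coe_inv two_ne_zero]
          rfl
        rw [ENNReal.coe_mul, mul_pow, mul_comm, ENNReal.coe_pow, h3, ← pow_mul]
        refine mul_le_mul' ?_ le_rfl
        exact pow_le_pow_right_of_le_one' (by norm_num) d.2.2
    _ = (2⁻¹ : ℝ≥0∞) ^ (turnsV t L') *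
        ∑' d : {d | d ∈ DerOver t m L' ∧ turnsV t L' ≤ 27 * d.1.length},
          (((K : ℝ≥0)⁻¹ : ℝ≥0) : ℝ≥0∞) ^ (d : List Mark × List (ℤ × ℤ)).1.length :=
        ENNReal.tsum_mul_left
    _ ≤ (2⁻¹ : ℝ≥0∞) ^ (turnsV t L') * 2 ^ (turnsV t L') := by
        gcongr
        refine le_trans (ENNReal.tsum_mono_subtype
          (fun d : List Mark × List (ℤ × ℤ) =>
            (((K : ℝ≥0)⁻¹ : ℝ≥0) : ℝ≥0∞) ^ d.1.length) ?_) h1
        exact fun d hd => hd.1
    _ = 1 := by
        rw [← mul_pow, ENNReal.inv_mul_cancel (by norm_num) (by norm_num), one_pow]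

end Pool.Agent.SHK
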