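import Pool.Agent.SHP.Crit

/-!
# Kesten's pattern theorem for turns: definitions

A turn is the smallest local detour: in the square lattice three consecutive steps `u, s, -u` (the
path makes three sides of a unit square), in the triangular lattice two consecutive steps
`s₁, s₂` whose sum is again a step.  For a list of vertices a turn is an index `i` such that the
vertices with the indices `i` and `i + tl t` are adjacent.
-/

namespace Pool.Agent.SHK

open Pool.Agent.SHP

/-- Number of steps of a turn. -/
def tl (t : Bool) : ℕ := if t then 2 else 3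

/-- Adjacency of vertices. -/
def Adj (t : Bool) (p q : ℤ × ℤ) : Prop := q - p ∈ steps t

instance (t : Bool) (p q : ℤ × ℤ) : Decidable (Adj t p q) := by unfold Adj; infer_instance

/-- Number of turns of a list of vertices. -/
def turnsV (t : Bool) (L : List (ℤ × ℤ)) : ℕ :=
  (L.zip (L.drop (tl t))).countP (fun pq => decide (Adj t pq.1 pq.2))

/-- The list of vertices of the walk with start `p` and steps `l`. -/
def verts (p : ℤ × ℤ) (l : List (ℤ × ℤ)) : List (ℤ × ℤ) := l.scanl (· + ·) p

/-- Number of turns of a word. -/
def turns (t : Bool) (l : List (ℤ × ℤ)) : ℕ := turnsV t (verts 0 l)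

/-- Position after `i` steps. -/
def pos (l : List (ℤ × ℤ)) (i : ℕ) : ℤ × ℤ := (l.take i).sum

/-- The box of radius two around `c`. -/
def InBox (c p : ℤ × ℤ) : Prop := |p.1 - c.1| ≤ 2 ∧ |p.2 - c.2| ≤ 2

instance (c p : ℤ × ℤ) : Decidable (InBox c p) := by unfold InBox; infer_instance

/-- Number of vertices of the walk in the box around its `j`-th vertex. -/
def visits (l : List (ℤ × ℤ)) (j : ℕ) : ℕ :=
  ((Finset.range (l.length + 1)).filter (fun i => InBox (pos l j) (pos l i))).card

/-- `j` is `m`-good: the walk visits the box around its `j`-th vertex only at times at distance at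
most `m` from `j`, and `j` is not too close to the ends. -/
def Good (m : ℕ) (l : List (ℤ × ℤ)) (j : ℕ) : Prop :=
  m < j ∧ j + m < l.length ∧
    ∀ i ≤ l.length, InBox (pos l j) (pos l i) → j ≤ i + m ∧ i ≤ j + m

open Classical in
/-- Number of `m`-good indices. -/
noncomputable def goods (m : ℕ) (l : List (ℤ × ℤ)) : ℕ :=
  ((Finset.range (l.length + 1)).filter (fun j => Good m l j)).card

/-- A set of words is small: exponentially fewer words than `mu ^ n`. -/
def Small (t : Bool) (A : Set (List (ℤ × ℤ))) : Prop :=
  ∃ θ : ℝ, 0 < θ ∧ θ < mu t ∧ ∃ C : ℝ, 0 < C ∧ ∀ n : ℕ, (cnt A n : ℝ) ≤ C * θ ^ n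

open Classical in
/-- Among the consecutive blocks of length `m` of `l`, the number of those outside `F`. -/
noncomputable def badBlocks (F : Set (List (ℤ × ℤ))) (m : ℕ) (l : List (ℤ × ℤ)) : ℕ :=
  ((Finset.range (l.length / m)).filter (fun q => (l.drop (q * m)).take m ∉ F)).card

/-- A mark `(A, B, B')`: after the piece `A` the piece `B` of the walk is replaced by `B'`. -/
abbrev Mark := List (ℤ × ℤ) × List (ℤ × ℤ) × List (ℤ × ℤ)

/-- The vertex list before the surgery. -/
def src : List Mark → List (ℤ × ℤ) → List (ℤ × ℤ)
  | [], C => C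
  | x :: D, C => x.1 ++ (x.2.1 ++ src D C)

/-- The vertex list after the surgery. -/
def tgt : List Mark → List (ℤ × ℤ) → List (ℤ × ℤ)
  | [], C => C
  | x :: D, C => x.1 ++ (x.2.2 ++ tgt D C)

/-- The starting indices, in the list before the surgery, of the replaced pieces (`o` is the offset
of the list). -/
def starts : ℕ → List Mark → List ℕ
  | _, [] => []
  | o, x :: D => (o + x.1.length) :: starts (o + x.1.length + x.2.1.length) D

/-- Admissible marks: `B` is a nonempty chain of at most `2m+1` vertices, `B'` has at most `25`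
vertices, contains a turn, and starts at the same vertex as `B`. -/
def Adm (t : Bool) (m : ℕ) (x : Mark) : Prop :=
  x.2.1 ≠ [] ∧ x.2.1.length ≤ 2 * m + 1 ∧ x.2.1.IsChain (Adj t) ∧
    x.2.2.length ≤ 25 ∧ x.2.1.head? = x.2.2.head? ∧ 0 < turnsV t x.2.2

end Pool.Agent.SHK
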