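import Pool.Agent.SHK.Verts

/-!
# Many pairwise independent good indices

Two indices `j ≠ j'` of a self-avoiding word are in conflict if `|j - j'| ≤ 2m + 2` or the boxes of
radius two around `pos l j`, `pos l j'` intersect, i.e. the two vertices have distance at most four in
both coordinates.  For fixed `j` at most `(4m + 5) + 81` indices `j'` are in conflict (distinct indices
have distinct positions), so a maximal subset without conflicts of the set of the good indices has at
least `goods m l / (4m + 90)` elements (greedy choice / induction on the cardinality).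
-/

namespace Pool.Agent.SHK

open Pool.Agent.SHP

variable {t : Bool}

/-- General greedy lemma. -/
theorem exists_indep {α : Type*} [DecidableEq α] (s : Finset α) (R : α → α → Prop)
    (hsymm : ∀ a b, R a b → R b a) (Δ : ℕ)
    (hΔ : ∀ a ∈ s, ∀ u : Finset α, u ⊆ s → (∀ b ∈ u, R a b) → u.card ≤ Δ) :
    ∃ P ⊆ s, (∀ a ∈ P, ∀ b ∈ P, a ≠ b → ¬ R a b) ∧ s.card ≤ (Δ + 1) * P.card := by
  classical
  induction s using Finset.strongInduction with
  | H s ih =>
    rcases s.eq_empty_or_nonempty with rfl | ⟨a, ha⟩
    · exact ⟨∅, Finset.Subset.refl _, fun a ha => absurd ha (Finset.notMem_empty a), by simp⟩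
    · have hsub : s.filter (fun b => b ≠ a ∧ ¬ R a b) ⊆ s := Finset.filter_subset _ _
      have hss : s.filter (fun b => b ≠ a ∧ ¬ R a b) ⊂ s := by
        refine (Finset.ssubset_iff_of_subset hsub).2 ⟨a, ha, ?_⟩
        intro h
        exact (Finset.mem_filter.1 h).2.1 rfl
      obtain ⟨P, hP, hind, hcard⟩ := ih _ hss
        (fun x hx u hu hb => hΔ x (hsub hx) u (hu.trans hsub) hb)
      have haP : a ∉ P := fun h => (Finset.mem_filter.1 (hP h)).2.1 rfl
      refine ⟨insert a P, ?_, ?_, ?_⟩
      · intro x hx
        rcases Finset.mem_insert.1 hx with h1 | h1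
        · rw [h1]
          exact ha
        · exact hsub (hP h1)
      · intro x hx y hy hxy
        rcases Finset.mem_insert.1 hx with h1 | h1
        · rcases Finset.mem_insert.1 hy with h2 | h2
          · exact absurd (h1.trans h2.symm) hxy
          · rw [h1]
            exact (Finset.mem_filter.1 (hP h2)).2.2
        · rcases Finset.mem_insert.1 hy with h2 | h2
          · rw [h2]
            exact fun h => (Finset.mem_filter.1 (hP h1)).2.2 (hsymm _ _ h)
          · exact hind x h1 y h2 hxy
      · have h1 : (s.filter (fun b => R a b)).card ≤ Δ :=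
          hΔ a ha _ (Finset.filter_subset _ _) (fun b hb => (Finset.mem_filter.1 hb).2)
        have h2 : s ⊆ insert a (s.filter (fun b => b ≠ a ∧ ¬ R a b) ∪ s.filter (fun b => R a b)) := by
          intro x hx
          by_cases hxa : x = a
          · exact Finset.mem_insert.2 (Or.inl hxa)
          · refine Finset.mem_insert.2 (Or.inr (Finset.mem_union.2 ?_))
            by_cases hR : R a x
            · exact Or.inr (Finset.mem_filter.2 ⟨hx, hR⟩)
            · exact Or.inl (Finset.mem_filter.2 ⟨hx, hxa, hR⟩)
        have h3 := Finset.card_le_card h2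
        have h4 := Finset.card_insert_le a
          (s.filter (fun b => b ≠ a ∧ ¬ R a b) ∪ s.filter (fun b => R a b))
        have h5 := Finset.card_union_le (s.filter (fun b => b ≠ a ∧ ¬ R a b))
          (s.filter (fun b => R a b))
        rw [Finset.card_insert_of_notMem haP]
        have h6 : (Δ + 1) * (P.card + 1) = (Δ + 1) * P.card + (Δ + 1) := by ring
        omega

/-- The boxes around two points are disjoint. -/
def FarPts (c c' : ℤ × ℤ) : Prop := ∀ p, ¬ (InBox c p ∧ InBox c' p)

theorem exists_places (m : ℕ) {l : List (ℤ × ℤ)} (hl : l ∈ saws t) :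
    ∃ P : Finset ℕ, (∀ j ∈ P, Good m l j) ∧
      (∀ j ∈ P, ∀ j' ∈ P, j < j' → j + (2 * m + 2) < j' ∧ FarPts (pos l j) (pos l j')) ∧
      goods m l ≤ (4 * m + 90) * P.card := by
  classical
  obtain ⟨P, hP, hind, hcard⟩ := exists_indep
    ((Finset.range (l.length + 1)).filter (fun j => Good m l j))
    (fun j j' => (j ≤ j' + (2 * m + 2) ∧ j' ≤ j + (2 * m + 2)) ∨
      ∃ p, InBox (pos l j) p ∧ InBox (pos l j') p)
    (by
      rintro a b (h | ⟨p, h1, h2⟩)
      · exact Or.inl ⟨h.2, h.1⟩
      · exact Or.inr ⟨p, h2, h1⟩)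
    (4 * m + 86) (by
      intro a ha u hu hR
      have h1 : u ⊆ Finset.Icc (a - (2 * m + 2)) (a + (2 * m + 2)) ∪
          u.filter (fun b => pos l b ∈ Finset.Icc ((pos l a).1 - 4) ((pos l a).1 + 4) ×ˢ
            Finset.Icc ((pos l a).2 - 4) ((pos l a).2 + 4)) := by
        intro b hb
        rcases hR b hb with h | ⟨p, hp, hq⟩
        · refine Finset.mem_union.2 (Or.inl (Finset.mem_Icc.2 ⟨?_, ?_⟩))
          · omega
          · omega
        · refine Finset.mem_union.2 (Or.inr (Finset.mem_filter.2 ⟨hb, ?_⟩))
          obtain ⟨hp1, hp2⟩ := hp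
          obtain ⟨hq1, hq2⟩ := hq
          rw [abs_le] at hp1 hp2 hq1 hq2
          rw [Finset.mem_product, Finset.mem_Icc, Finset.mem_Icc]
          refine ⟨⟨?_, ?_⟩, ?_, ?_⟩ <;> omega
      have h2 : (u.filter (fun b => pos l b ∈ Finset.Icc ((pos l a).1 - 4) ((pos l a).1 + 4) ×ˢ
            Finset.Icc ((pos l a).2 - 4) ((pos l a).2 + 4))).card ≤ 81 := by
        have h3 : (Finset.Icc ((pos l a).1 - 4) ((pos l a).1 + 4) ×ˢ
            Finset.Icc ((pos l a).2 - 4) ((pos l a).2 + 4)).card = 81 := by
          rw [Finset.card_product, Int.card_Icc, Int.card_Icc]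
          have e1 : ((pos l a).1 + 4 + 1 - ((pos l a).1 - 4)).toNat = 9 := by
            rw [show (pos l a).1 + 4 + 1 - ((pos l a).1 - 4) = 9 by ring]
            rfl
          have e2 : ((pos l a).2 + 4 + 1 - ((pos l a).2 - 4)).toNat = 9 := by
            rw [show (pos l a).2 + 4 + 1 - ((pos l a).2 - 4) = 9 by ring]
            rfl
          rw [e1, e2]
        rw [← h3]
        refine Finset.card_le_card_of_injOn (pos l) ?_ ?_
        · intro b hb
          exact (Finset.mem_filter.1 hb).2
        · intro b hb c hc hbc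
          have hb1 : b ∈ u := (Finset.mem_filter.1 hb).1
          have hc1 : c ∈ u := (Finset.mem_filter.1 hc).1
          have hb2 := Finset.mem_range.1 (Finset.mem_filter.1 (hu hb1)).1
          have hc2 := Finset.mem_range.1 (Finset.mem_filter.1 (hu hc1)).1
          exact pos_injOn hl (by omega) (by omega) hbc
      have h4 := Finset.card_le_card h1
      have h5 := Finset.card_union_le (Finset.Icc (a - (2 * m + 2)) (a + (2 * m + 2)))
        (u.filter (fun b => pos l b ∈ Finset.Icc ((pos l a).1 - 4) ((pos l a).1 + 4) ×ˢ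
            Finset.Icc ((pos l a).2 - 4) ((pos l a).2 + 4)))
      have h6 : (Finset.Icc (a - (2 * m + 2)) (a + (2 * m + 2))).card ≤ 4 * m + 5 := by
        rw [Nat.card_Icc]
        omega
      omega)
  refine ⟨P, fun j hj => (Finset.mem_filter.1 (hP hj)).2, ?_, ?_⟩
  · intro j hj j' hj' hjj
    have h := hind j hj j' hj' (by omega)
    rw [not_or] at h
    obtain ⟨h1, h2⟩ := h
    refine ⟨?_, fun p hp => h2 ⟨p, hp⟩⟩
    by_contra h3
    exact h1 ⟨by omega, by omega⟩
  · unfold goods
    refine le_trans (le_of_eq ?_) (hcard.trans (Nat.mul_le_mul_right _ (by omega)))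
    congr

end Pool.Agent.SHK
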