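import Pool.Agent.SHK.NoTurn

/-!
# Kesten's pattern theorem for turns

`pattern`: apply `block_small` to `F = {l ∈ saws t | turns t l = 0}`: a block outside `F` contains a turn
(blocks of `l` are in `saws t`), and different blocks contain different turns
(`turns_append_ge`), so `turns t l ≥ badBlocks F m l`.
-/

namespace Pool.Agent.SHK

open Pool.Agent.SHP

variable {t : Bool}

/-- The blocks outside `F` (up to block `N`) are at most as many as the turns of the first `N`
blocks. -/
private theorem Pattern_blocks (t : Bool) (l : List (ℤ × ℤ)) (m N : ℕ) :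
    ((Finset.range N).filter (fun q => turns t ((l.drop (q * m)).take m) ≠ 0)).card ≤
      turns t (l.take (N * m)) := by
  induction N with
  | zero => simp
  | succ N ih =>
    have h1 : l.take ((N + 1) * m) = l.take (N * m) ++ (l.drop (N * m)).take m := by
      rw [Nat.succ_mul, List.take_add]
    rw [h1]
    refine le_trans ?_ (turns_append_ge t _ _)
    rw [Finset.range_add_one, Finset.filter_insert]
    split_ifs with h
    · rw [Finset.card_insert_of_notMem (by simp)]
      have : 1 ≤ turns t ((l.drop (N * m)).take m) := Nat.one_le_iff_ne_zero.2 h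
      omega
    · omega

/-- Kesten's pattern theorem for turns. -/
theorem pattern (t : Bool) : ∃ a : ℝ, 0 < a ∧
    Small t {l | l ∈ saws t ∧ (turns t l : ℝ) < a * l.length} := by
  obtain ⟨m, hm, a, ha, hs⟩ := block_small (F := {l | l ∈ saws t ∧ turns t l = 0})
    (fun l hl => hl.1) (noturn_small t)
  refine ⟨a, ha, small_subset (fun l hl => hl.1) ?_ hs⟩
  intro l hl
  refine ⟨hl.1, lt_of_le_of_lt ?_ hl.2⟩
  have h1 : badBlocks {l | l ∈ saws t ∧ turns t l = 0} m l ≤ turns t l := by
    have h2 : l = [] ++ (l.take (l.length / m * m) ++ l.drop (l.length / m * m)) := by simp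
    have h3 := turns_factor_le t [] (l.take (l.length / m * m)) (l.drop (l.length / m * m))
    rw [← h2] at h3
    refine le_trans ?_ ((Pattern_blocks t l m (l.length / m)).trans h3)
    unfold badBlocks
    apply Finset.card_le_card
    intro q hq
    have hq' := (@Finset.mem_filter _ _ (_) _ _).1 hq
    rw [Finset.mem_filter]
    refine ⟨hq'.1, fun h0 => hq'.2 ⟨?_, h0⟩⟩
    apply saws_infix (u := l.take (q * m)) (w := (l.drop (q * m)).drop m)
    rw [List.take_append_drop, List.take_append_drop]
    exact hl.1
  exact_mod_cast h1

end Pool.Agent.SHK
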