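import Pool.Agent.SHK.MoveB
import Pool.Agent.SHK.Pattern

/-!
# Kesten's second-order inequality for half-plane walks

Paper proof.  Write `h n = cnt (halfs t) n`, `c = tl t - 1`, `T = turns t`, `I l = (InsF t l).card`, and
let `a` be from `pattern`.  Let `e₀ = |{l ∈ HF t n | T l < a n}|`, `e₁ = |{l' ∈ HF t (n+c) | T l' = 0}|`.  By
`pattern` and `halfs_low` both are exponentially small with respect to `h n` (for `n ≥ 1`, `T l' = 0`
implies `T l' < a |l'|`; and `h (n+c) ≤ 36 h n`), so `E := e₁ + 216 n e₀ ≤ h n / n` for large `n`.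

(1) `move_sum` with `φ = 1 / T` (and `0` where `T = 0`): `h (n+c) - e₁ = ∑_l ∑_x 1 / T (insr l x)`, and
`T (insr l x) ≥ T l - 8`; with `X l := I l / (T l - 8)` for the good `l` (`T l ≥ a n`, `n` large):
`h (n+c) ≤ ∑_{l good} X l + E`.

(2) `move_sum` at level `n + c` with `φ = 1/T`, then at level `n` with `φ = (1/T) (I / (T + 8))`:
`h (n+2c) ≥ ∑_{l'} ∑_x 1 / T (insr l' x) ≥ ∑_{l' : T l' ≥ 1} I l' / (T l' + 8)
= ∑_l ∑_x (1 / T (insr l x)) (I (insr l x) / (T (insr l x) + 8))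
≥ ∑_{l good} I l (I l - 2000) / ((T l + 8) (T l + 16))` (terms with `I l < 2000` are replaced by zero,
i.e. use `max (I l - 2000) 0`).

(3) For good `l`, `I l ≤ 216 n`, `T l ≥ a n`: `X l ≤ 432 / a` for large `n`, and
`I l * max (I l - 2000) 0 / ((T l + 8)(T l + 16)) ≥ (X l)^2 - D₁ / n` with `D₁` depending on `a` only.

(4) Cauchy-Schwarz: `∑_{good} (X l)^2 ≥ (∑_{good} X l)^2 / h n ≥ (h (n+c) - E)^2 / h n` (note
`h (n+c) ≥ h n ≥ E`), and `(h (n+c) - E)^2 ≥ h (n+c)^2 - 2 E h (n+c) ≥ h (n+c)^2 - (72 / n) (h n)^2`.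
Together `h (n+2c) h n ≥ h (n+c)^2 - (D / n) (h n)^2`, `D = D₁ + 72`.
-/

namespace Pool.Agent.SHK

open Pool.Agent.SHP

open Classical in
private lemma Ineq_split (t : Bool) (m : ℕ) :
    (cnt (halfs t) m : ℝ) = ∑ l ∈ HF t m, (turns t l : ℝ) * (1 / (turns t l : ℝ)) +
      (((HF t m).filter (fun l => turns t l = 0)).card : ℝ) := by
  rw [← card_HF, Finset.card_filter]
  push_cast
  rw [← Finset.sum_add_distrib, Finset.card_eq_sum_ones]
  push_cast
  refine Finset.sum_congr rfl (fun l _ => ?_)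
  by_cases h : turns t l = 0
  · simp [h]
  · have : (turns t l : ℝ) ≠ 0 := by exact_mod_cast h
    simp [h]

private lemma Ineq_low (t : Bool) (m : ℕ) (a : ℝ) (F : Finset (List (ℤ × ℤ))) (hF : F ⊆ HF t m)
    (hP : ∀ l ∈ F, (turns t l : ℝ) < a * m) :
    F.card ≤ cnt {l | l ∈ saws t ∧ (turns t l : ℝ) < a * l.length} m := by
  unfold cnt
  rw [← Set.ncard_coe_finset]
  refine Set.ncard_le_ncard ?_ ?_
  · intro l hl
    have hl' : l ∈ F := hl
    obtain ⟨h1, h2⟩ := mem_HF.1 (hF hl')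
    refine ⟨⟨h1.1, ?_⟩, h2⟩
    rw [h2]
    exact hP l hl'
  · exact finite_words (t := t) _ (fun l hl => hl.1.1) m

open Classical in
private lemma Ineq_up (t : Bool) (n : ℕ) (G : Finset (List (ℤ × ℤ))) (hG : G ⊆ HF t n)
    (hT : ∀ l ∈ G, 8 < (turns t l : ℝ)) :
    (cnt (halfs t) (n + (tl t - 1)) : ℝ) ≤
      ∑ l ∈ G, ((InsF t l).card : ℝ) / ((turns t l : ℝ) - 8) +
      ((((HF t (n + (tl t - 1))).filter (fun l => turns t l = 0)).card : ℝ) +
        216 * n * (((HF t n) \ G).card : ℝ)) := by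
  rw [Ineq_split t (n + (tl t - 1)), ← move_sum t n (fun l => 1 / (turns t l : ℝ))]
  have h1 : ∑ l ∈ HF t n, ∑ x ∈ InsF t l, 1 / (turns t (insr l x) : ℝ) =
      ∑ l ∈ HF t n \ G, ∑ x ∈ InsF t l, 1 / (turns t (insr l x) : ℝ) +
      ∑ l ∈ G, ∑ x ∈ InsF t l, 1 / (turns t (insr l x) : ℝ) := (Finset.sum_sdiff hG).symm
  have h2 : ∀ l ∈ G, ∑ x ∈ InsF t l, 1 / (turns t (insr l x) : ℝ) ≤
      ((InsF t l).card : ℝ) / ((turns t l : ℝ) - 8) := by
    intro l hl
    have hl' := (mem_HF.1 (hG hl)).1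
    have h3 := hT l hl
    rw [div_eq_mul_one_div ((InsF t l).card : ℝ), ← nsmul_eq_mul]
    refine Finset.sum_le_card_nsmul _ _ _ (fun x hx => ?_)
    have h4 : (turns t l : ℝ) ≤ (turns t (insr l x) : ℝ) + 8 := by
      exact_mod_cast (turns_insr hl' hx).2
    exact one_div_le_one_div_of_le (by linarith) (by linarith)
  have h3 : ∀ l ∈ HF t n \ G, ∑ x ∈ InsF t l, 1 / (turns t (insr l x) : ℝ) ≤ 216 * n := by
    intro l hl
    have hl' := mem_HF.1 (Finset.mem_sdiff.1 hl).1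
    calc ∑ x ∈ InsF t l, 1 / (turns t (insr l x) : ℝ) ≤ (InsF t l).card • (1 : ℝ) := by
          refine Finset.sum_le_card_nsmul _ _ _ (fun x hx => ?_)
          have h5 := one_le_turns_insr hl'.1 hx
          have h6 : (1 : ℝ) ≤ turns t (insr l x) := by exact_mod_cast h5
          rw [div_le_one (by linarith)]
          exact h6
      _ = (InsF t l).card := by simp
      _ ≤ 216 * n := by
          have h5 := insN_le (t := t) l
          rw [hl'.2] at h5
          exact_mod_cast h5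
  have h4 := Finset.sum_le_sum h2
  have h5 := Finset.sum_le_card_nsmul _ _ _ h3
  rw [nsmul_eq_mul] at h5
  rw [h1]
  linarith

private lemma Ineq_down (t : Bool) (n : ℕ) (G : Finset (List (ℤ × ℤ))) (hG : G ⊆ HF t n) :
    ∑ l ∈ G, ((InsF t l).card : ℝ) * max (((InsF t l).card : ℝ) - 2000) 0 /
      (((turns t l : ℝ) + 8) * ((turns t l : ℝ) + 16)) ≤
      (cnt (halfs t) (n + 2 * (tl t - 1)) : ℝ) := by
  classical
  have e : n + 2 * (tl t - 1) = (n + (tl t - 1)) + (tl t - 1) := by ring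
  rw [e, Ineq_split t ((n + (tl t - 1)) + (tl t - 1)),
    ← move_sum t (n + (tl t - 1)) (fun l => 1 / (turns t l : ℝ))]
  refine le_trans ?_ (le_add_of_nonneg_right (by positivity))
  set φ : List (ℤ × ℤ) → ℝ := fun l => 1 / (turns t l : ℝ) *
    (((InsF t l).card : ℝ) / ((turns t l : ℝ) + 8)) with hφ
  have hφ0 : ∀ l, 0 ≤ φ l := fun l => by rw [hφ]; positivity
  have h1 : ∑ l' ∈ HF t (n + (tl t - 1)), (turns t l' : ℝ) * φ l' ≤
      ∑ l' ∈ HF t (n + (tl t - 1)), ∑ x ∈ InsF t l', 1 / (turns t (insr l' x) : ℝ) := by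
    refine Finset.sum_le_sum (fun l' hl' => ?_)
    have hl := (mem_HF.1 hl').1
    have h2 : (InsF t l').card • (1 / ((turns t l' : ℝ) + 8)) ≤
        ∑ x ∈ InsF t l', 1 / (turns t (insr l' x) : ℝ) := by
      refine Finset.card_nsmul_le_sum _ _ _ (fun x hx => ?_)
      have h3 : (turns t (insr l' x) : ℝ) ≤ (turns t l' : ℝ) + 8 := by
        exact_mod_cast (turns_insr hl hx).1
      have h4 : (1 : ℝ) ≤ turns t (insr l' x) := by exact_mod_cast one_le_turns_insr hl hx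
      exact one_div_le_one_div_of_le (by linarith) h3
    refine le_trans ?_ h2
    rw [nsmul_eq_mul, hφ]
    by_cases h : turns t l' = 0
    · simp [h]
    · have h5 : (turns t l' : ℝ) ≠ 0 := by exact_mod_cast h
      have h6 : (turns t l' : ℝ) * (1 / (turns t l' : ℝ) *
          (((InsF t l').card : ℝ) / ((turns t l' : ℝ) + 8))) =
          ((InsF t l').card : ℝ) * (1 / ((turns t l' : ℝ) + 8)) := by
        field_simp
      exact le_of_eq h6
  refine le_trans ?_ h1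
  rw [← move_sum t n φ]
  have h2 : ∑ l ∈ G, ∑ x ∈ InsF t l, φ (insr l x) ≤ ∑ l ∈ HF t n, ∑ x ∈ InsF t l, φ (insr l x) :=
    Finset.sum_le_sum_of_subset_of_nonneg hG
      (fun l _ _ => Finset.sum_nonneg (fun x _ => hφ0 _))
  refine le_trans (Finset.sum_le_sum (fun l hl => ?_)) h2
  have hl' := (mem_HF.1 (hG hl)).1
  have h3 : (InsF t l).card • (1 / ((turns t l : ℝ) + 8) *
      (max (((InsF t l).card : ℝ) - 2000) 0 / ((turns t l : ℝ) + 16))) ≤
      ∑ x ∈ InsF t l, φ (insr l x) := by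
    refine Finset.card_nsmul_le_sum _ _ _ (fun x hx => ?_)
    have h4 : (turns t (insr l x) : ℝ) ≤ (turns t l : ℝ) + 8 := by
      exact_mod_cast (turns_insr hl' hx).1
    have h5 : (1 : ℝ) ≤ turns t (insr l x) := by exact_mod_cast one_le_turns_insr hl' hx
    have h6 : ((InsF t l).card : ℝ) ≤ ((InsF t (insr l x)).card : ℝ) + 2000 := by
      exact_mod_cast insN_insr hl' hx
    have h7 : max (((InsF t l).card : ℝ) - 2000) 0 ≤ ((InsF t (insr l x)).card : ℝ) :=
      max_le (by linarith) (by positivity)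
    have h8 : (1 : ℝ) / ((turns t l : ℝ) + 8) ≤ 1 / (turns t (insr l x) : ℝ) :=
      one_div_le_one_div_of_le (by linarith) h4
    have h9 : max (((InsF t l).card : ℝ) - 2000) 0 / ((turns t l : ℝ) + 16) ≤
        ((InsF t (insr l x)).card : ℝ) / ((turns t (insr l x) : ℝ) + 8) :=
      div_le_div₀ (by positivity) h7 (by positivity) (by linarith)
    rw [hφ]
    exact mul_le_mul h8 h9 (by positivity) (by positivity)
  refine le_trans (le_of_eq ?_) h3
  rw [nsmul_eq_mul]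
  field_simp

private lemma Ineq_real {I T n a : ℝ} (hI0 : 0 ≤ I) (hI : I ≤ 216 * n) (hn : 0 < n) (ha : 0 < a)
    (hT : a * n ≤ T) (h16 : 16 ≤ a * n) :
    (I / (T - 8)) ^ 2 - (40 * 432 ^ 2 / a ^ 3 + 432000 / a ^ 2) / n ≤
      I * max (I - 2000) 0 / ((T + 8) * (T + 16)) := by
  have hT8 : 0 < T - 8 := by linarith
  have hT16 : 16 ≤ T := by linarith
  have hT0 : 0 < (T + 8) * (T + 16) := by positivity
  have h1 : I * (I - 2000) / ((T + 8) * (T + 16)) ≤
      I * max (I - 2000) 0 / ((T + 8) * (T + 16)) :=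
    div_le_div_of_nonneg_right (mul_le_mul_of_nonneg_left (le_max_left _ _) hI0) hT0.le
  refine le_trans ?_ h1
  have hX : I / (T - 8) ≤ 432 / a := by
    rw [div_le_div_iff₀ hT8 ha]
    nlinarith
  have hX0 : 0 ≤ I / (T - 8) := by positivity
  have e : (I / (T - 8)) ^ 2 - I * (I - 2000) / ((T + 8) * (T + 16)) =
      (I / (T - 8)) ^ 2 * ((40 * T + 64) / ((T + 8) * (T + 16))) +
        2000 * I / ((T + 8) * (T + 16)) := by
    field_simp
    ring
  have h2 : (40 * T + 64) / ((T + 8) * (T + 16)) ≤ 40 / (a * n) := by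
    rw [div_le_div_iff₀ hT0 (by positivity)]
    have h3 : (40 * T + 64) * (a * n) ≤ (40 * T + 64) * T :=
      mul_le_mul_of_nonneg_left hT (by linarith)
    nlinarith
  have h3 : 2000 * I / ((T + 8) * (T + 16)) ≤ 432000 / a ^ 2 / n := by
    rw [div_div, div_le_div_iff₀ hT0 (by positivity)]
    have h4 : (a * n) ^ 2 ≤ T ^ 2 := pow_le_pow_left₀ (by positivity) hT 2
    have h5 : 2000 * I * (a ^ 2 * n) ≤ 2000 * (216 * n) * (a ^ 2 * n) := by gcongr
    have h6 : 2000 * (216 * n) * (a ^ 2 * n) = 432000 * (a * n) ^ 2 := by ring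
    nlinarith
  have h4 : (I / (T - 8)) ^ 2 ≤ (432 / a) ^ 2 := pow_le_pow_left₀ hX0 hX 2
  have h5 : (I / (T - 8)) ^ 2 * ((40 * T + 64) / ((T + 8) * (T + 16))) ≤
      (432 / a) ^ 2 * (40 / (a * n)) :=
    mul_le_mul h4 h2 (by positivity) (by positivity)
  have h6 : (432 / a) ^ 2 * (40 / (a * n)) = 40 * 432 ^ 2 / a ^ 3 / n := by
    field_simp
  rw [add_div]
  linarith

private lemma Ineq_ev {θ ν C C' : ℝ} (c : ℕ) (hθ : 0 < θ) (hν : θ < ν) (hC' : 0 < C') :
    ∃ n₀ : ℕ, ∀ n ≥ n₀,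
      (n : ℝ) * (C * θ ^ (n + c) + 216 * n * (C * θ ^ n)) ≤ C' * ν ^ n := by
  have hν0 : 0 < ν := hθ.trans hν
  have hr : |θ / ν| < 1 := by
    rw [abs_of_pos (by positivity), div_lt_one hν0]
    exact hν
  have h1 := (tendsto_pow_const_mul_const_pow_of_abs_lt_one 1 hr).const_mul (C * θ ^ c)
  have h2 := (tendsto_pow_const_mul_const_pow_of_abs_lt_one 2 hr).const_mul (216 * C)
  have h3 := h1.add h2
  simp only [mul_zero, add_zero] at h3
  have h4 := h3.eventually (ge_mem_nhds hC')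
  obtain ⟨n₀, hn₀⟩ := Filter.eventually_atTop.1 h4
  refine ⟨n₀, fun n hn => ?_⟩
  have h5 := hn₀ n hn
  have h6 : 0 < ν ^ n := by positivity
  have h7 := mul_le_mul_of_nonneg_right h5 h6.le
  refine le_trans (le_of_eq ?_) h7
  rw [div_pow]
  field_simp
  ring

theorem second_order (t : Bool) : ∃ (D : ℝ) (n₀ : ℕ), ∀ n ≥ n₀,
    (cnt (halfs t) (n + (tl t - 1)) : ℝ) ^ 2 - D / n * (cnt (halfs t) n : ℝ) ^ 2 ≤
      (cnt (halfs t) (n + 2 * (tl t - 1)) : ℝ) * (cnt (halfs t) n : ℝ) := by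
  classical
  obtain ⟨a, ha, θ, hθ, hθμ, C, hC, hcnt⟩ := pattern t
  obtain ⟨C', hC', hlow⟩ := halfs_low t (δ := (mu t - θ) / 2) (by linarith) (by linarith)
  obtain ⟨n₁, hn₁⟩ := Ineq_ev (θ := θ) (ν := mu t - (mu t - θ) / 2) (C := C) (tl t - 1) hθ
    (by linarith) hC'
  obtain ⟨n₂, hn₂⟩ := exists_nat_ge (16 / a)
  refine ⟨(40 * 432 ^ 2 / a ^ 3 + 432000 / a ^ 2) + 72, max (max n₁ n₂) 1, fun n hn => ?_⟩
  have hn1 : n₁ ≤ n := le_trans (le_trans (le_max_left _ _) (le_max_left _ _)) hn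
  have hn2 : n₂ ≤ n := le_trans (le_trans (le_max_right _ _) (le_max_left _ _)) hn
  have hn3 : 1 ≤ n := le_trans (le_max_right _ _) hn
  have hnR : (1 : ℝ) ≤ n := by exact_mod_cast hn3
  have h16 : 16 ≤ a * n := by
    have h1 : 16 / a ≤ n := hn₂.trans (by exact_mod_cast hn2)
    rw [div_le_iff₀ ha] at h1
    linarith
  set c := tl t - 1 with hc
  set h0 : ℝ := (cnt (halfs t) n : ℝ) with hh0
  set h1 : ℝ := (cnt (halfs t) (n + c) : ℝ) with hh1
  set h2 : ℝ := (cnt (halfs t) (n + 2 * c) : ℝ) with hh2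
  set G := (HF t n).filter (fun l => a * n ≤ (turns t l : ℝ)) with hGdef
  have hG : G ⊆ HF t n := Finset.filter_subset _ _
  have hGT : ∀ l ∈ G, a * n ≤ (turns t l : ℝ) := fun l hl => (Finset.mem_filter.1 hl).2
  -- the error term
  set E : ℝ := (((HF t (n + c)).filter (fun l => turns t l = 0)).card : ℝ) +
        216 * n * (((HF t n) \ G).card : ℝ) with hE
  have hE0 : 0 ≤ E := by positivity
  have hb1 : (((HF t (n + c)).filter (fun l => turns t l = 0)).card : ℝ) ≤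
      C * θ ^ (n + c) := by
    refine le_trans ?_ (hcnt (n + c))
    exact_mod_cast Ineq_low t (n + c) a _ (Finset.filter_subset _ _) (fun l hl => by
      rw [(Finset.mem_filter.1 hl).2]
      push_cast
      positivity)
  have hb2 : (((HF t n) \ G).card : ℝ) ≤ C * θ ^ n := by
    refine le_trans ?_ (hcnt n)
    exact_mod_cast Ineq_low t n a _ Finset.sdiff_subset (fun l hl => by
      obtain ⟨h3, h4⟩ := Finset.mem_sdiff.1 hl
      by_contra h5
      exact h4 (Finset.mem_filter.2 ⟨h3, not_lt.1 h5⟩))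
  have hEn : (n : ℝ) * E ≤ h0 := by
    have h3 : E ≤ C * θ ^ (n + c) + 216 * n * (C * θ ^ n) := by
      rw [hE]
      gcongr
    calc (n : ℝ) * E ≤ n * (C * θ ^ (n + c) + 216 * n * (C * θ ^ n)) := by gcongr
      _ ≤ _ := hn₁ n hn1
      _ ≤ h0 := hlow n
  -- monotonicity and growth of the number of half-plane walks
  have hmono : h0 ≤ h1 := by
    have h3 : Monotone (fun m => cnt (halfs t) m) := monotone_nat_of_le_succ (cnt_halfs_mono t)
    have h4 : cnt (halfs t) n ≤ cnt (halfs t) (n + c) := h3 (Nat.le_add_right n c)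
    rw [hh0, hh1]
    exact_mod_cast h4
  have hgrow : h1 ≤ 36 * h0 := by
    have h3 : cnt (halfs t) (n + c) ≤ 36 * cnt (halfs t) n := by
      have h4 := cnt_halfs_succ_le t n
      have h5 := cnt_halfs_succ_le t (n + 1)
      rcases t with _ | _
      · have h6 : c = 2 := by rw [hc]; rfl
        rw [h6]
        have h7 : n + 2 = n + 1 + 1 := rfl
        rw [h7]
        omega
      · have h6 : c = 1 := by rw [hc]; rfl
        rw [h6]
        omega
    rw [hh0, hh1]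
    exact_mod_cast h3
  have hh0pos : 0 < h0 := by
    have := cnt_halfs_pos t n
    rw [hh0]
    exact_mod_cast this
  -- step one
  have hup := Ineq_up t n G hG (fun l hl => by have := hGT l hl; linarith)
  set X : List (ℤ × ℤ) → ℝ := fun l => ((InsF t l).card : ℝ) / ((turns t l : ℝ) - 8) with hX
  have hup' : h1 - E ≤ ∑ l ∈ G, X l := by
    have h3 : h1 ≤ ∑ l ∈ G, X l + E := hup
    linarith
  -- steps two and three
  have hdown := Ineq_down t n G hG
  set D₁ : ℝ := 40 * 432 ^ 2 / a ^ 3 + 432000 / a ^ 2 with hD₁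
  have hD₁0 : 0 ≤ D₁ := by positivity
  have hsum : ∑ l ∈ G, (X l) ^ 2 - D₁ / n * (G.card : ℝ) ≤ h2 := by
    refine le_trans ?_ hdown
    have h3 : ∑ l ∈ G, (X l) ^ 2 - D₁ / n * (G.card : ℝ) = ∑ l ∈ G, ((X l) ^ 2 - D₁ / n) := by
      rw [Finset.sum_sub_distrib, Finset.sum_const, nsmul_eq_mul]
      ring
    rw [h3]
    refine Finset.sum_le_sum (fun l hl => ?_)
    have h4 : ((InsF t l).card : ℝ) ≤ 216 * n := by
      have h5 := insN_le (t := t) l
      rw [(mem_HF.1 (hG hl)).2] at h5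
      exact_mod_cast h5
    exact Ineq_real (by positivity) h4 (by linarith) ha (hGT l hl) h16
  have hGcard : (G.card : ℝ) ≤ h0 := by
    have h3 : G.card ≤ cnt (halfs t) n := by
      rw [← card_HF]
      exact Finset.card_le_card hG
    rw [hh0]
    exact_mod_cast h3
  -- step four
  have hCS : (∑ l ∈ G, X l) ^ 2 ≤ h0 * ∑ l ∈ G, (X l) ^ 2 := by
    have h3 := sq_sum_le_card_mul_sum_sq (s := G) (f := X)
    refine h3.trans ?_
    exact mul_le_mul_of_nonneg_right hGcard (Finset.sum_nonneg (fun l _ => sq_nonneg _))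
  have hEh0 : E ≤ h0 := by nlinarith
  have hE1 : E ≤ h0 / n := by
    rw [le_div_iff₀ (by linarith)]
    linarith
  have hsq : (h1 - E) ^ 2 ≤ (∑ l ∈ G, X l) ^ 2 :=
    pow_le_pow_left₀ (by linarith) hup' 2
  have hA : h1 ^ 2 - 72 / n * h0 ^ 2 ≤ (h1 - E) ^ 2 := by
    have h3 : 2 * E * h1 ≤ 2 * (h0 / n) * (36 * h0) := by
      have : 0 ≤ h0 / n := by positivity
      have : 0 ≤ h1 := by linarith
      gcongr
    have h4 : 2 * (h0 / n) * (36 * h0) = 72 / n * h0 ^ 2 := by ring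
    nlinarith [sq_nonneg E]
  have hB : h0 * (∑ l ∈ G, (X l) ^ 2) - D₁ / n * h0 ^ 2 ≤ h2 * h0 := by
    have h3 : D₁ / n * (G.card : ℝ) ≤ D₁ / n * h0 :=
      mul_le_mul_of_nonneg_left hGcard (by positivity)
    have h4 := mul_le_mul_of_nonneg_left hsum hh0pos.le
    nlinarith
  have hfin : (D₁ + 72) / n * h0 ^ 2 = D₁ / n * h0 ^ 2 + 72 / n * h0 ^ 2 := by ring
  rw [hfin]
  linarith

end Pool.Agent.SHK
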