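import Mathlib

/-!
# Kesten's analytic lemma

Paper proof of `kesten_lemma`.  Put `φ n = h (n+c) / h n ≥ 1`.  The inequality says
`φ (n+c) φ n ≥ φ n ^ 2 - D / n`, so `φ (n+c) ≥ φ n - D / (n φ n) ≥ φ n - D / n` for `n ≥ n₀` (`D ≥ 0`
without loss of generality).  Let `ε > 0`.

* Suppose `φ n ≥ μ^c + ε` for arbitrarily large `n`.  Let `η > 0` with `η D ≤ ε / 2`.  For
  `0 ≤ k ≤ η n`: `φ (n + k c) ≥ φ n - k D / n ≥ μ^c + ε / 2`.  With `K = ⌊η n⌋`:
  `h (n + K c) ≥ (μ^c + ε/2)^K h n ≥ (μ^c + ε/2)^K C (μ - δ)^n`, while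
  `h (n + K c) ≤ C' (μ + δ)^(n + K c)`.  Dividing: `(C / C') ((μ^c + ε/2) / (μ+δ)^c)^K ≤
  ((μ + δ) / (μ - δ))^n`.  As `K ≥ η n - 1`, for small `δ` (depending on `ε, η, μ, c`) the left side
  grows exponentially faster: contradiction for large `n`.
* Suppose `φ n ≤ μ^c - ε` for arbitrarily large `n`.  For `k c ≤ n / 2`: `φ (n - k c) ≤ φ n + k D /
  (n - k c) ≤ μ^c - ε + 2 k D / n ≤ μ^c - ε/2` for `k ≤ K := ⌊η n⌋`, `η ≤ 1 / (2c)` and `2 η D ≤ ε/2`.
  Then `h n ≤ (μ^c - ε/2)^K h (n - K c)` and the growth bounds give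
  `C (μ - δ)^n ≤ (μ^c - ε/2)^K C' (μ + δ)^(n - K c)`, a contradiction for small `δ` and large `n`.
-/

set_option linter.all false

open Filter Topology

namespace Pool.Agent.SHK

lemma kl_growth (h : ℕ → ℝ) (μ : ℝ) (hμ : 0 < μ)
    (hpos : ∀ n, 0 < h n)
    (hup : ∀ δ : ℝ, 0 < δ → ∃ C : ℝ, 0 < C ∧ ∀ n : ℕ, h n ≤ C * (μ + δ) ^ n)
    (hlow : ∀ δ : ℝ, 0 < δ → δ < μ → ∃ C : ℝ, 0 < C ∧ ∀ n : ℕ, C * (μ - δ) ^ n ≤ h n) :
    Tendsto (fun n : ℕ => Real.log (h n) / n) atTop (𝓝 (Real.log μ)) := by
  have hdiv : ∀ c : ℝ, Tendsto (fun n : ℕ => c / (n : ℝ)) atTop (𝓝 0) := fun c =>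
    tendsto_const_div_atTop_nhds_zero_nat c
  rw [tendsto_order]
  constructor
  · intro a ha
    have h1 : Real.exp a < μ := by
      rwa [Real.lt_log_iff_exp_lt hμ] at ha
    have hea := Real.exp_pos a
    obtain ⟨C, hC, hCn⟩ := hlow ((μ - Real.exp a) / 2) (by linarith) (by linarith)
    have hb : μ - (μ - Real.exp a) / 2 = (μ + Real.exp a) / 2 := by ring
    rw [hb] at hCn
    have hbpos : 0 < (μ + Real.exp a) / 2 := by linarith
    have hab : a < Real.log ((μ + Real.exp a) / 2) := by
      rw [Real.lt_log_iff_exp_lt hbpos]; linarith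
    have hlim : Tendsto (fun n : ℕ => Real.log C / n + Real.log ((μ + Real.exp a) / 2))
        atTop (𝓝 (0 + Real.log ((μ + Real.exp a) / 2))) := (hdiv _).add tendsto_const_nhds
    rw [zero_add] at hlim
    filter_upwards [hlim.eventually (lt_mem_nhds hab), eventually_gt_atTop 0] with n hn hn0
    have hn0' : (0:ℝ) < n := by exact_mod_cast hn0
    refine lt_of_lt_of_le hn ?_
    have h3 : Real.log (C * ((μ + Real.exp a) / 2) ^ n) ≤ Real.log (h n) :=
      Real.log_le_log (by positivity) (hCn n)
    rw [Real.log_mul (by positivity) (by positivity), Real.log_pow] at h3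
    rw [div_add' _ _ _ hn0'.ne', div_le_div_iff_of_pos_right hn0']
    linarith
  · intro a ha
    have h1 : μ < Real.exp a := by
      exact (Real.log_lt_iff_lt_exp hμ).mp ha
    have hea := Real.exp_pos a
    obtain ⟨C, hC, hCn⟩ := hup ((Real.exp a - μ) / 2) (by linarith)
    have hb : μ + (Real.exp a - μ) / 2 = (μ + Real.exp a) / 2 := by ring
    rw [hb] at hCn
    have hbpos : 0 < (μ + Real.exp a) / 2 := by linarith
    have hab : Real.log ((μ + Real.exp a) / 2) < a := by
      rw [Real.log_lt_iff_lt_exp hbpos]; linarith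
    have hlim : Tendsto (fun n : ℕ => Real.log C / n + Real.log ((μ + Real.exp a) / 2))
        atTop (𝓝 (0 + Real.log ((μ + Real.exp a) / 2))) := (hdiv _).add tendsto_const_nhds
    rw [zero_add] at hlim
    filter_upwards [hlim.eventually (gt_mem_nhds hab), eventually_gt_atTop 0] with n hn hn0
    have hn0' : (0:ℝ) < n := by exact_mod_cast hn0
    refine lt_of_le_of_lt ?_ hn
    have h3 : Real.log (h n) ≤ Real.log (C * ((μ + Real.exp a) / 2) ^ n) :=
      Real.log_le_log (hpos n) (hCn n)
    rw [Real.log_mul (by positivity) (by positivity), Real.log_pow] at h3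
    rw [div_add' _ _ _ hn0'.ne', div_le_div_iff_of_pos_right hn0']
    linarith

lemma kl_shift (L : ℕ → ℝ) (l θ : ℝ) (hθ : 0 < θ) (m : ℕ → ℕ)
    (hm : Tendsto (fun n : ℕ => (m n : ℝ) / n) atTop (𝓝 θ))
    (hL : Tendsto (fun n : ℕ => L n / n) atTop (𝓝 l)) :
    Tendsto (fun n : ℕ => L (m n) / n) atTop (𝓝 (l * θ)) := by
  have hmt : Tendsto m atTop atTop := by
    have h1 : Tendsto (fun n : ℕ => (m n : ℝ) / n * n) atTop atTop :=
      hm.pos_mul_atTop hθ tendsto_natCast_atTop_atTop
    have h2 : Tendsto (fun n : ℕ => (m n : ℝ)) atTop atTop := by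
      refine h1.congr' ?_
      filter_upwards [eventually_gt_atTop 0] with n hn
      have : (n:ℝ) ≠ 0 := by positivity
      field_simp
    exact tendsto_natCast_atTop_iff.mp h2
  have h3 := (hL.comp hmt).mul hm
  refine h3.congr' ?_
  filter_upwards [eventually_gt_atTop 0, hmt.eventually (eventually_gt_atTop 0)] with n hn hmn
  have : (n:ℝ) ≠ 0 := by positivity
  have : (m n:ℝ) ≠ 0 := by positivity
  simp only [Function.comp]
  field_simp

lemma kl_floor (η : ℝ) (hη : 0 ≤ η) :
    Tendsto (fun n : ℕ => ((⌊η * n⌋₊ : ℕ) : ℝ) / n) atTop (𝓝 η) := by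
  have := (tendsto_nat_floor_mul_div_atTop (R := ℝ) hη).comp
    (tendsto_natCast_atTop_atTop (R := ℝ))
  simpa [Function.comp_def] using this

theorem kesten_lemma (h : ℕ → ℝ) (μ : ℝ) (hμ : 0 < μ) (c : ℕ) (hc : 1 ≤ c)
    (hpos : ∀ n, 0 < h n) (hmono : ∀ n, h n ≤ h (n + c))
    (hup : ∀ δ : ℝ, 0 < δ → ∃ C : ℝ, 0 < C ∧ ∀ n : ℕ, h n ≤ C * (μ + δ) ^ n)
    (hlow : ∀ δ : ℝ, 0 < δ → δ < μ → ∃ C : ℝ, 0 < C ∧ ∀ n : ℕ, C * (μ - δ) ^ n ≤ h n)
    (hineq : ∃ (D : ℝ) (n₀ : ℕ), ∀ n ≥ n₀,
      h (n + c) ^ 2 - D / n * h n ^ 2 ≤ h (n + 2 * c) * h n) :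
    Filter.Tendsto (fun n => h (n + c) / h n) Filter.atTop (nhds (μ ^ c)) := by
  have hL := kl_growth h μ hμ hpos hup hlow
  obtain ⟨D', n₀, hD'⟩ := hineq
  set D : ℝ := |D'| + 1 with hDdef
  have hDpos : 0 < D := by positivity
  have hD'D : D' ≤ D := by rw [hDdef]; linarith [le_abs_self D']
  set φ : ℕ → ℝ := fun n => h (n + c) / h n with hφ
  have hφ1 : ∀ n, 1 ≤ φ n := fun n => by
    rw [hφ]; simp only; rw [le_div_iff₀ (hpos n)]; linarith [hmono n]
  have hφh : ∀ n, h (n + c) = φ n * h n := fun n => by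
    rw [hφ]; simp only; rw [div_mul_cancel₀ _ (hpos n).ne']
  -- one step
  have hstep : ∀ n, max n₀ 1 ≤ n → φ n - D / n ≤ φ (n + c) := by
    intro n hn
    have hn1 : 1 ≤ n := le_trans (le_max_right _ _) hn
    have hn0 : n₀ ≤ n := le_trans (le_max_left _ _) hn
    have hnpos : (0:ℝ) < n := by exact_mod_cast hn1
    have h1 := hD' n hn0
    have h2 : h (n + 2 * c) = φ (n + c) * h (n + c) := by
      rw [← hφh (n + c)]; congr 1; ring
    rw [h2, hφh n] at h1
    have hp := hpos n
    have hp2 : 0 < h n ^ 2 := by positivity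
    have h3 : φ n ^ 2 - D' / n ≤ φ (n + c) * φ n := by
      have : (φ n ^ 2 - D' / n) * h n ^ 2 ≤ (φ (n + c) * φ n) * h n ^ 2 := by
        nlinarith [h1]
      exact le_of_mul_le_mul_right this hp2
    have h4 : D' / n ≤ D / n := by gcongr
    have h5 : 0 < φ n := lt_of_lt_of_le one_pos (hφ1 n)
    have h6 : D / n ≤ D / n * φ n := by
      have : 0 < D / n := by positivity
      nlinarith [hφ1 n]
    have h7 : (φ n - D / n) * φ n ≤ φ (n + c) * φ n := by nlinarith
    exact le_of_mul_le_mul_right h7 h5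
  have hsteps : ∀ n, max n₀ 1 ≤ n → ∀ k : ℕ, φ n - k * (D / n) ≤ φ (n + k * c) := by
    intro n hn k
    have hn1 : 1 ≤ n := le_trans (le_max_right _ _) hn
    have hnpos : (0:ℝ) < n := by exact_mod_cast hn1
    induction k with
    | zero => simp
    | succ k ih =>
      have h1 := hstep (n + k * c) (le_trans hn (Nat.le_add_right _ _))
      have h2 : D / ((n + k * c : ℕ) : ℝ) ≤ D / n := by
        apply div_le_div_of_nonneg_left hDpos.le hnpos
        push_cast
        have : (0:ℝ) ≤ k * c := by positivity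
        linarith
      have h3 : n + (k + 1) * c = n + k * c + c := by ring
      rw [h3]
      push_cast at *
      linarith
  have hμc : 0 < μ ^ c := by positivity
  rw [tendsto_order]
  constructor
  · -- liminf
    intro a ha
    by_contra hcon
    rw [not_eventually] at hcon
    set ε : ℝ := μ ^ c - a with hε
    have hεpos : 0 < ε := by linarith
    -- frequently φ n ≤ a = μ^c - ε
    set η : ℝ := min (1 / (2 * c)) (ε / (4 * D)) with hη
    have hcpos : (0:ℝ) < c := by exact_mod_cast hc
    have hηpos : 0 < η := by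
      rw [hη]; apply lt_min <;> positivity
    have hη1 : η * c ≤ 1 / 2 := by
      have : η ≤ 1 / (2 * c) := min_le_left _ _
      calc η * c ≤ 1 / (2 * c) * c := by gcongr
        _ = 1 / 2 := by field_simp
    have hη2 : η * D ≤ ε / 4 := by
      have : η ≤ ε / (4 * D) := min_le_right _ _
      calc η * D ≤ ε / (4 * D) * D := by gcongr
        _ = ε / 4 := by field_simp
    set A : ℝ := μ ^ c - ε / 2 with hA
    set K : ℕ → ℕ := fun n => ⌊η * n⌋₊ with hK
    have hKle : ∀ n : ℕ, (K n : ℝ) ≤ η * n := fun n => Nat.floor_le (by positivity)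
    have hKc : ∀ n : ℕ, (K n : ℝ) * c ≤ n / 2 := fun n => by
      calc (K n : ℝ) * c ≤ η * n * c := by gcongr; exact hKle n
        _ = (η * c) * n := by ring
        _ ≤ (1/2) * n := by gcongr
        _ = n / 2 := by ring
    have hKcn : ∀ n : ℕ, K n * c ≤ n := fun n => by
      have h1 := hKc n
      have h2 : ((K n * c : ℕ) : ℝ) ≤ n := by
        push_cast
        have : (0:ℝ) ≤ n := by positivity
        linarith
      exact_mod_cast h2
    have hApos : ∃ᶠ n : ℕ in atTop, 1 ≤ A ∧ Real.log (h n) / n ≤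
        (K n : ℝ) / n * Real.log A + Real.log (h (n - K n * c)) / n := by
      refine (hcon.and_eventually (eventually_ge_atTop (2 * (max n₀ 1)))).mono ?_
      rintro n ⟨hn1, hn2⟩
      rw [not_lt] at hn1
      have hn1' : φ n ≤ a := hn1
      have hnpos : (0:ℝ) < n := by
        have : 1 ≤ max n₀ 1 := le_max_right _ _
        have : 0 < n := by omega
        exact_mod_cast this
      have hA1 : 1 ≤ A := by
        have := hφ1 n
        rw [hA]; linarith
      refine ⟨hA1, ?_⟩
      -- for k ≤ K: φ (n - k c) ≤ A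
      have hk : ∀ k : ℕ, k ≤ K n → φ (n - k * c) ≤ A := by
        intro k hk
        have h1 : k * c ≤ K n * c := Nat.mul_le_mul_right _ hk
        have h2 : k * c ≤ n := h1.trans (hKcn n)
        have h3 : ((k * c : ℕ) : ℝ) ≤ n / 2 := by
          have : ((k * c : ℕ) : ℝ) ≤ ((K n * c : ℕ) : ℝ) := by exact_mod_cast h1
          push_cast at *
          linarith [hKc n]
        have h4 : (n:ℝ) / 2 ≤ ((n - k * c : ℕ) : ℝ) := by
          rw [Nat.cast_sub h2]; linarith
        have h5 : max n₀ 1 ≤ n - k * c := by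
          have h6 : ((max n₀ 1 : ℕ) : ℝ) ≤ ((n - k * c : ℕ) : ℝ) := by
            have : ((2 * max n₀ 1 : ℕ) : ℝ) ≤ n := by exact_mod_cast hn2
            push_cast at *
            linarith
          exact_mod_cast h6
        have h6 := hsteps (n - k * c) h5 k
        rw [Nat.sub_add_cancel h2] at h6
        have h7 : (k:ℝ) * (D / ((n - k * c : ℕ) : ℝ)) ≤ ε / 2 := by
          have h8 : D / ((n - k * c : ℕ) : ℝ) ≤ D / (n / 2) :=
            div_le_div_of_nonneg_left hDpos.le (by positivity) h4
          have h9 : (k:ℝ) ≤ η * n := le_trans (by exact_mod_cast hk) (hKle n)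
          calc (k:ℝ) * (D / ((n - k * c : ℕ) : ℝ)) ≤ (η * n) * (D / (n / 2)) := by
                apply mul_le_mul h9 h8 (by positivity) (by positivity)
            _ = 2 * (η * D) := by field_simp
            _ ≤ ε / 2 := by linarith
        rw [hA]; linarith
      -- product
      have hprod : ∀ k : ℕ, k ≤ K n → h n ≤ A ^ k * h (n - k * c) := by
        intro k
        induction k with
        | zero => intro _; simp
        | succ k ih =>
          intro hk1
          have h1 := ih (by omega)
          have h2 : (k + 1) * c ≤ n := (Nat.mul_le_mul_right _ hk1).trans (hKcn n)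
          have h3 : n - k * c = (n - (k + 1) * c) + c := by
            have : (k + 1) * c = k * c + c := by ring
            omega
          rw [h3, hφh] at h1
          have h4 := hk (k + 1) hk1
          have h5 := hpos (n - (k + 1) * c)
          have h6 : 0 < A ^ k := by positivity
          calc h n ≤ A ^ k * (φ (n - (k + 1) * c) * h (n - (k + 1) * c)) := h1
            _ ≤ A ^ k * (A * h (n - (k + 1) * c)) := by gcongr
            _ = A ^ (k + 1) * h (n - (k + 1) * c) := by ring
      have h1 := hprod (K n) le_rfl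
      have h2 := Real.log_le_log (hpos n) h1
      rw [Real.log_mul (by positivity) (hpos _).ne', Real.log_pow] at h2
      rw [div_mul_eq_mul_div, ← add_div, div_le_div_iff_of_pos_right hnpos]
      exact h2
    obtain ⟨n1, hA1, -⟩ := hApos.exists
    have hlim1 : Tendsto (fun n : ℕ => ((n - K n * c : ℕ) : ℝ) / n) atTop (𝓝 (1 - η * c)) := by
      have h1 := (kl_floor η hηpos.le).mul_const (c:ℝ)
      have h2 := (tendsto_const_nhds (x := (1:ℝ))).sub h1
      refine h2.congr' ?_
      filter_upwards [eventually_gt_atTop 0] with n hn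
      have : (n:ℝ) ≠ 0 := by positivity
      rw [Nat.cast_sub (hKcn n)]
      push_cast
      rw [hK]
      field_simp
    have hlim2 := kl_shift (fun n => Real.log (h n)) (Real.log μ) (1 - η * c) (by linarith)
      (fun n => n - K n * c) hlim1 hL
    have hlim3 := (((kl_floor η hηpos.le).mul_const (Real.log A)).add hlim2)
    have h1 := le_of_tendsto_of_tendsto_of_frequently hL hlim3 (hApos.mono fun n hn => hn.2)
    -- log μ ≤ η log A + log μ (1 - η c)
    have h2 : η * (c * Real.log μ) ≤ η * Real.log A := by nlinarith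
    have h3 : c * Real.log μ ≤ Real.log A := le_of_mul_le_mul_left h2 hηpos
    rw [← Real.log_pow] at h3
    have h4 : μ ^ c ≤ A := (Real.log_le_log_iff hμc (by linarith)).mp h3
    rw [hA] at h4
    linarith
  · -- limsup
    intro a ha
    by_contra hcon
    rw [not_eventually] at hcon
    set ε : ℝ := a - μ ^ c with hε
    have hεpos : 0 < ε := by linarith
    set η : ℝ := ε / (2 * D) with hη
    have hcpos : (0:ℝ) < c := by exact_mod_cast hc
    have hηpos : 0 < η := by rw [hη]; positivity
    have hη2 : η * D = ε / 2 := by rw [hη]; field_simp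
    set A : ℝ := μ ^ c + ε / 2 with hA
    have hApos : 0 < A := by rw [hA]; positivity
    set K : ℕ → ℕ := fun n => ⌊η * n⌋₊ with hK
    have hKle : ∀ n : ℕ, (K n : ℝ) ≤ η * n := fun n => Nat.floor_le (by positivity)
    have hfreq : ∃ᶠ n : ℕ in atTop, (K n : ℝ) / n * Real.log A + Real.log (h n) / n ≤
        Real.log (h (n + K n * c)) / n := by
      refine (hcon.and_eventually (eventually_ge_atTop (max n₀ 1))).mono ?_
      rintro n ⟨hn1, hn2⟩
      rw [not_lt] at hn1
      have hn1' : a ≤ φ n := hn1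
      have hnpos : (0:ℝ) < n := by
        have : 1 ≤ max n₀ 1 := le_max_right _ _
        have : 0 < n := by omega
        exact_mod_cast this
      have hk : ∀ k : ℕ, k ≤ K n → A ≤ φ (n + k * c) := by
        intro k hk
        have h6 := hsteps n hn2 k
        have h9 : (k:ℝ) ≤ η * n := le_trans (by exact_mod_cast hk) (hKle n)
        have h7 : (k:ℝ) * (D / n) ≤ ε / 2 := by
          calc (k:ℝ) * (D / n) ≤ (η * n) * (D / n) := by gcongr
            _ = η * D := by field_simp
            _ = ε / 2 := hη2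
        rw [hA]; linarith
      have hprod : ∀ k : ℕ, k ≤ K n → A ^ k * h n ≤ h (n + k * c) := by
        intro k
        induction k with
        | zero => intro _; simp
        | succ k ih =>
          intro hk1
          have h1 := ih (by omega)
          have h3 : n + (k + 1) * c = (n + k * c) + c := by ring
          rw [h3, hφh]
          have h4 := hk k (by omega)
          have h5 := hpos (n + k * c)
          calc A ^ (k + 1) * h n = A * (A ^ k * h n) := by ring
            _ ≤ A * h (n + k * c) := by gcongr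
            _ ≤ φ (n + k * c) * h (n + k * c) := by gcongr
      have h1 := hprod (K n) le_rfl
      have h2 := Real.log_le_log (by have := hpos n; positivity) h1
      rw [Real.log_mul (by positivity) (hpos _).ne', Real.log_pow] at h2
      rw [div_mul_eq_mul_div, ← add_div, div_le_div_iff_of_pos_right hnpos]
      exact h2
    have hlim1 : Tendsto (fun n : ℕ => ((n + K n * c : ℕ) : ℝ) / n) atTop (𝓝 (1 + η * c)) := by
      have h1 := (kl_floor η hηpos.le).mul_const (c:ℝ)
      have h2 := (tendsto_const_nhds (x := (1:ℝ))).add h1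
      refine h2.congr' ?_
      filter_upwards [eventually_gt_atTop 0] with n hn
      have : (n:ℝ) ≠ 0 := by positivity
      push_cast
      rw [hK]
      field_simp
    have hlim2 := kl_shift (fun n => Real.log (h n)) (Real.log μ) (1 + η * c) (by positivity)
      (fun n => n + K n * c) hlim1 hL
    have hlim3 := (((kl_floor η hηpos.le).mul_const (Real.log A)).add hL)
    have h1 := le_of_tendsto_of_tendsto_of_frequently hlim3 hlim2 hfreq
    have h2 : η * Real.log A ≤ η * (c * Real.log μ) := by nlinarith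
    have h3 : Real.log A ≤ c * Real.log μ := le_of_mul_le_mul_left h2 hηpos
    rw [← Real.log_pow] at h3
    have h4 : A ≤ μ ^ c := (Real.log_le_log_iff hApos hμc).mp h3
    rw [hA] at h4
    linarith

end Pool.Agent.SHK
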