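import Pool.Agent.SHK.LimD
import Pool.Agent.SHP.Conv

/-!
# The expected number of cut points tends to infinity

* `conv_lim`.  `dcnt t i j ≤ g i g j`, `g i ≤ h (i+1) ≤ 6 h i`.  With `M` from `dcnt_small` for `ε`:
  `a n ≤ ∑_{i+j=n} dcnt i j ≤ 36 ε conv n + 72 ∑_{i<M} h i h (n-i) ≤ 36 ε conv n + C_M h n`
  (`h` is nondecreasing).  Since `∑ h i zc^i = ∞` (`gf_halfs_large`: if it converged to `S` then
  `gf halfs z ≤ S` for `z < zc`) there is `M'` with `∑_{i≤M'} h i zc^i ≥ 2 C_M / ε`, and by `ratio_shift`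
  `conv n ≥ ∑_{i ≤ M'} h i h (n-i) ≥ (1/2) ∑_{i ≤ M'} h i zc^i h n ≥ (C_M / ε) h n` for large `n`.  So
  `a n ≤ 37 ε conv n`.
-/

namespace Pool.Agent.SHK

open Pool.Agent.SHP

open scoped ENNReal NNReal

private theorem limc_halfs_sub (t : Bool) : halfs t ⊆ chalfs t := by
  intro l hl
  refine ⟨hl.1, fun u v huv => ?_⟩
  by_cases hu : u = []
  · rw [hu]; exact le_refl _
  · exact (hl.2 u v huv hu).le

private theorem limc_fin_chalfs (t : Bool) (n : ℕ) : {l | l ∈ chalfs t ∧ l.length = n}.Finite :=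
  finite_words (t := t) (chalfs t) (fun _ hl => hl.1.1) n

private theorem limc_fin_halfs (t : Bool) (n : ℕ) : {l | l ∈ halfs t ∧ l.length = n}.Finite :=
  finite_words (t := t) (halfs t) (fun _ hl => hl.1.1) n

private theorem limc_chalfs_le (t : Bool) (n : ℕ) :
    cnt (chalfs t) n ≤ cnt (halfs t) (n + 1) := by
  unfold cnt
  refine Set.ncard_le_ncard_of_injOn (fun l => ((1, 0) : ℤ × ℤ) :: l) ?_ ?_
    (limc_fin_halfs t (n + 1))
  · rintro l ⟨hl, hn⟩
    exact ⟨cons_mem_halfs hl, by simp [hn]⟩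
  · intro l _ l' _ h
    exact (List.cons.inj h).2

private theorem limc_halfs_le_chalfs (t : Bool) (n : ℕ) :
    cnt (halfs t) n ≤ cnt (chalfs t) n := by
  unfold cnt
  exact Set.ncard_le_ncard (fun l hl => ⟨limc_halfs_sub t hl.1, hl.2⟩) (limc_fin_chalfs t n)

private theorem limc_mono (t : Bool) : Monotone (fun n => cnt (halfs t) n) :=
  monotone_nat_of_le_succ fun n => (limc_halfs_le_chalfs t n).trans (limc_chalfs_le t n)

private theorem limc_take {t : Bool} {l : List (ℤ × ℤ)} (hl : l ∈ halfs t) (m : ℕ) :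
    l.take m ∈ halfs t := by
  have hsplit : l = l.take m ++ l.drop m := (List.take_append_drop m l).symm
  refine ⟨⟨fun s hs => hl.1.1 s (List.mem_of_mem_take hs), ?_⟩, ?_⟩
  · intro u v w h hv
    refine hl.1.2 u v (w ++ l.drop m) ?_ hv
    calc l = l.take m ++ l.drop m := hsplit
      _ = _ := by rw [h]; simp
  · intro u v h hu
    refine hl.2 u (v ++ l.drop m) ?_ hu
    calc l = l.take m ++ l.drop m := hsplit
      _ = _ := by rw [h]; simp

private theorem limc_steps_card (t : Bool) : (steps t).card ≤ 6 := by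
  cases t <;> decide

private theorem limc_succ_le (t : Bool) (n : ℕ) :
    cnt (halfs t) (n + 1) ≤ 6 * cnt (halfs t) n := by
  have hS : ((fun s : ℤ × ℤ => [s]) '' (steps t : Set (ℤ × ℤ))).Finite :=
    (Finset.finite_toSet (steps t)).image _
  have hSc : ((fun s : ℤ × ℤ => [s]) '' (steps t : Set (ℤ × ℤ))).ncard ≤ 6 := by
    refine (Set.ncard_image_le (Finset.finite_toSet (steps t))).trans ?_
    rw [Set.ncard_coe_finset]
    exact limc_steps_card t
  have h1 : cnt (halfs t) (n + 1) ≤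
      ({l | l ∈ halfs t ∧ l.length = n} ×ˢ
        ((fun s : ℤ × ℤ => [s]) '' (steps t : Set (ℤ × ℤ)))).ncard := by
    unfold cnt
    refine Set.ncard_le_ncard_of_injOn (fun l => (l.take n, l.drop n)) ?_ ?_
      ((limc_fin_halfs t n).prod hS)
    · rintro l ⟨hl, hn⟩
      refine ⟨⟨limc_take hl n, ?_⟩, ?_⟩
      · rw [List.length_take, hn]; omega
      · have h2 : (l.drop n).length = 1 := by rw [List.length_drop, hn]; omega
        obtain ⟨a, ha⟩ := List.length_eq_one_iff.mp h2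
        refine ⟨a, ?_, ha.symm⟩
        have h3 : a ∈ l.drop n := by rw [ha]; simp
        exact hl.1.1 a (List.mem_of_mem_drop h3)
    · intro l _ l' _ h
      have h1 := congrArg Prod.fst h
      have h2 := congrArg Prod.snd h
      simp only at h1 h2
      rw [← List.take_append_drop n l, ← List.take_append_drop n l', h1, h2]
  rw [Set.ncard_prod] at h1
  refine h1.trans ?_
  rw [mul_comm]
  exact Nat.mul_le_mul_right _ hSc

private theorem limc_g_le (t : Bool) (n : ℕ) : cnt (chalfs t) n ≤ 6 * cnt (halfs t) n :=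
  (limc_chalfs_le t n).trans (limc_succ_le t n)

private theorem limc_dcnt_le (t : Bool) (m n : ℕ) :
    dcnt t m n ≤ cnt (chalfs t) m * cnt (chalfs t) n := by
  unfold dcnt cnt
  rw [← Set.ncard_prod]
  refine Set.ncard_le_ncard ?_ ((limc_fin_chalfs t m).prod (limc_fin_chalfs t n))
  rintro p ⟨hp, h1, h2⟩
  exact ⟨⟨hp.1, h1⟩, ⟨hp.2.1, h2⟩⟩

private theorem limc_psum (t : Bool) (L : ℝ≥0) :
    ∃ M : ℕ, (L : ℝ) < ∑ i ∈ Finset.range M, (cnt (halfs t) i : ℝ) * (zc t : ℝ) ^ i := by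
  obtain ⟨z₀, hz₀, H⟩ := gf_halfs_large t (L + 1)
  obtain ⟨z, hz, hz'⟩ := exists_between hz₀
  have h1 := H z hz hz'
  rw [gf_eq_cnt (halfs_steps t) z, ENNReal.tsum_eq_iSup_nat] at h1
  have h2 : (L : ℝ≥0∞) < ⨆ i : ℕ, ∑ a ∈ Finset.range i,
      (cnt (halfs t) a : ℝ≥0∞) * (z : ℝ≥0∞) ^ a := by
    refine lt_of_lt_of_le ?_ h1
    have : L < L + 1 := lt_add_one L
    exact_mod_cast this
  obtain ⟨M, hM⟩ := lt_iSup_iff.mp h2
  refine ⟨M, ?_⟩
  have h3 : (L : ℝ≥0∞) < ((∑ a ∈ Finset.range M, (cnt (halfs t) a : ℝ≥0) * z ^ a : ℝ≥0) : ℝ≥0∞) := by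
    push_cast
    exact hM
  have h4 : L < ∑ a ∈ Finset.range M, (cnt (halfs t) a : ℝ≥0) * z ^ a := by exact_mod_cast h3
  have h5 : (L : ℝ) < ∑ a ∈ Finset.range M, (cnt (halfs t) a : ℝ) * (z : ℝ) ^ a := by
    exact_mod_cast h4
  refine h5.trans_le (Finset.sum_le_sum fun i _ => ?_)
  refine mul_le_mul_of_nonneg_left ?_ (Nat.cast_nonneg _)
  exact pow_le_pow_left₀ z.2 (by exact_mod_cast hz'.le) i

private theorem limc_conv_ge (t : Bool) (L : ℝ≥0) :
    ∃ N : ℕ, ∀ n, N ≤ n → (L : ℝ) * (cnt (halfs t) n : ℝ) ≤ (conv t n : ℝ) := by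
  obtain ⟨M, hM⟩ := limc_psum t L
  have hlim : Filter.Tendsto (fun n => ∑ i ∈ Finset.range M,
      (cnt (halfs t) i : ℝ) * ((cnt (halfs t) (n - i) : ℝ) / (cnt (halfs t) n : ℝ)))
      Filter.atTop (nhds (∑ i ∈ Finset.range M, (cnt (halfs t) i : ℝ) * (zc t : ℝ) ^ i)) :=
    tendsto_finsetSum _ fun i _ => (ratio_shift t i).const_mul _
  obtain ⟨N, hN⟩ := Filter.eventually_atTop.mp (hlim.eventually (lt_mem_nhds hM))
  refine ⟨max N M, fun n hn => ?_⟩
  have h1 := hN n ((le_max_left _ _).trans hn)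
  have hMn : M ≤ n := (le_max_right _ _).trans hn
  have hpos : (0 : ℝ) < cnt (halfs t) n := by exact_mod_cast one_le_cnt_halfs t n
  have h2 : (L : ℝ) * (cnt (halfs t) n : ℝ) ≤
      ∑ i ∈ Finset.range M, (cnt (halfs t) i : ℝ) * (cnt (halfs t) (n - i) : ℝ) := by
    have h3 := (mul_le_mul_of_nonneg_right h1.le hpos.le)
    refine h3.trans (le_of_eq ?_)
    rw [Finset.sum_mul]
    refine Finset.sum_congr rfl fun i _ => ?_
    rw [mul_assoc, div_mul_cancel₀ _ hpos.ne']
  refine h2.trans ?_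
  unfold conv
  push_cast
  refine Finset.sum_le_sum_of_subset_of_nonneg ?_ fun i _ _ => by positivity
  intro i hi
  rw [Finset.mem_range] at hi ⊢
  omega

theorem conv_lim (t : Bool) (K : ℝ) :
    ∃ N : ℕ, ∀ n, N ≤ n → K * (cnt (saws t) n : ℝ) ≤ (conv t n : ℝ) := by
  -- a positive constant
  obtain ⟨L, hL0, hLK⟩ : ∃ L : ℝ, 0 < L ∧ K ≤ L :=
    ⟨|K| + 1, by positivity, by linarith [le_abs_self K]⟩
  have hε : 0 < 1 / (72 * L) := by positivity
  obtain ⟨M, hM⟩ := dcnt_small t hε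
  obtain ⟨S, hS⟩ : ∃ S : ℝ≥0, (S : ℝ) = ∑ i ∈ Finset.range M, (cnt (halfs t) i : ℝ) :=
    ⟨∑ i ∈ Finset.range M, (cnt (halfs t) i : ℝ≥0), by push_cast; rfl⟩
  obtain ⟨L', hL'⟩ : ∃ L' : ℝ≥0, (L' : ℝ) = L := ⟨⟨L, hL0.le⟩, rfl⟩
  obtain ⟨N, hN⟩ := limc_conv_ge t (144 * L' * S)
  refine ⟨max N (2 * M), fun n hn => ?_⟩
  have hn1 : N ≤ n := (le_max_left _ _).trans hn
  have hn2 : 2 * M ≤ n := (le_max_right _ _).trans hn
  have hconv := hN n hn1
  push_cast at hconv
  rw [hL'] at hconv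
  set h : ℕ → ℝ := fun i => (cnt (halfs t) i : ℝ) with hh
  have hh0 : ∀ i, 0 ≤ h i := fun i => Nat.cast_nonneg _
  have hmono : ∀ i j, i ≤ j → h i ≤ h j := fun i j hij => by
    have h1 : cnt (halfs t) i ≤ cnt (halfs t) j := limc_mono t hij
    show (cnt (halfs t) i : ℝ) ≤ (cnt (halfs t) j : ℝ)
    exact_mod_cast h1
  have hg : ∀ i, (cnt (chalfs t) i : ℝ) ≤ 6 * h i := fun i => by
    have h1 := limc_g_le t i
    show (cnt (chalfs t) i : ℝ) ≤ 6 * (cnt (halfs t) i : ℝ)
    exact_mod_cast h1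
  have hgg : ∀ i j, (cnt (chalfs t) i : ℝ) * (cnt (chalfs t) j : ℝ) ≤ 36 * (h i * h j) := by
    intro i j
    calc (cnt (chalfs t) i : ℝ) * (cnt (chalfs t) j : ℝ) ≤ (6 * h i) * (6 * h j) :=
          mul_le_mul (hg i) (hg j) (Nat.cast_nonneg _) (by have := hh0 i; positivity)
      _ = 36 * (h i * h j) := by ring
  -- termwise bound
  have hterm : ∀ i ∈ Finset.range (n + 1), (dcnt t i (n - i) : ℝ) ≤
      36 * (1 / (72 * L)) * (h i * h (n - i)) + (if i < M then 36 * h i * h n else 0) +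
        (if n - i < M then 36 * h (n - i) * h n else 0) := by
    intro i hi
    have hi' : i ≤ n := Nat.lt_succ_iff.mp (Finset.mem_range.mp hi)
    have hp0 : 0 ≤ 36 * (1 / (72 * L)) * (h i * h (n - i)) := by
      have := mul_nonneg (hh0 i) (hh0 (n - i))
      positivity
    have hbase : (dcnt t i (n - i) : ℝ) ≤ 36 * (h i * h (n - i)) := by
      have h1 : (dcnt t i (n - i) : ℝ) ≤
          (cnt (chalfs t) i : ℝ) * (cnt (chalfs t) (n - i) : ℝ) := by
        exact_mod_cast limc_dcnt_le t i (n - i)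
      exact h1.trans (hgg _ _)
    by_cases h1 : i < M
    · have h2 : ¬ n - i < M := by omega
      rw [if_pos h1, if_neg h2, add_zero]
      have h3 : h i * h (n - i) ≤ h i * h n :=
        mul_le_mul_of_nonneg_left (hmono _ _ (Nat.sub_le n i)) (hh0 i)
      linarith
    · by_cases h2 : n - i < M
      · rw [if_neg h1, if_pos h2, add_zero]
        have h3 : h i * h (n - i) ≤ h n * h (n - i) :=
          mul_le_mul_of_nonneg_right (hmono _ _ hi') (hh0 _)
        linarith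
      · rw [if_neg h1, if_neg h2, add_zero, add_zero]
        have h3 := hM i (n - i) (not_lt.mp h1) (not_lt.mp h2)
        refine h3.trans ?_
        calc 1 / (72 * L) * ((cnt (chalfs t) i : ℝ) * (cnt (chalfs t) (n - i) : ℝ))
            ≤ 1 / (72 * L) * (36 * (h i * h (n - i))) :=
              mul_le_mul_of_nonneg_left (hgg _ _) hε.le
          _ = 36 * (1 / (72 * L)) * (h i * h (n - i)) := by ring
  have hsum : (cnt (saws t) n : ℝ) ≤ ∑ i ∈ Finset.range (n + 1), (dcnt t i (n - i) : ℝ) := by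
    exact_mod_cast cnt_saws_le t n
  have hA : ∑ i ∈ Finset.range (n + 1), (if i < M then 36 * h i * h n else 0) = 36 * S * h n := by
    rw [← Finset.sum_filter]
    have : (Finset.range (n + 1)).filter (fun i => i < M) = Finset.range M := by
      ext i
      simp only [Finset.mem_filter, Finset.mem_range]
      omega
    rw [this, ← Finset.sum_mul, ← Finset.mul_sum, hS]
  have hB : ∑ i ∈ Finset.range (n + 1), (if n - i < M then 36 * h (n - i) * h n else 0) =
      36 * S * h n := by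
    rw [← hA]
    have := Finset.sum_range_reflect (fun i => if i < M then 36 * h i * h n else 0) (n + 1)
    simpa using this
  have hC : ∑ i ∈ Finset.range (n + 1), 36 * (1 / (72 * L)) * (h i * h (n - i)) =
      36 * (1 / (72 * L)) * (conv t n : ℝ) := by
    rw [← Finset.mul_sum]
    unfold conv
    push_cast
    rfl
  have hfin : (cnt (saws t) n : ℝ) ≤ 36 * (1 / (72 * L)) * (conv t n : ℝ) +
      72 * S * h n := by
    refine hsum.trans ((Finset.sum_le_sum hterm).trans (le_of_eq ?_))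
    rw [Finset.sum_add_distrib, Finset.sum_add_distrib, hA, hB, hC]
    ring
  have hfin2 : L * (cnt (saws t) n : ℝ) ≤ (conv t n : ℝ) / 2 + 72 * L * S * h n := by
    calc L * (cnt (saws t) n : ℝ) ≤ L * (36 * (1 / (72 * L)) * (conv t n : ℝ) + 72 * S * h n) :=
          mul_le_mul_of_nonneg_left hfin hL0.le
      _ = (conv t n : ℝ) / 2 + 72 * L * S * h n := by
          field_simp
          ring
  have ha0 : (0 : ℝ) ≤ cnt (saws t) n := Nat.cast_nonneg _
  have hK : K * (cnt (saws t) n : ℝ) ≤ L * (cnt (saws t) n : ℝ) :=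
    mul_le_mul_of_nonneg_right hLK ha0
  have hconv' : 144 * L * S * h n ≤ (conv t n : ℝ) := hconv
  linarith

end Pool.Agent.SHK
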