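import Pool.Agent.SHP.Kesten

/-!
# The number of half-plane walks has growth rate `mu`

Paper proof of `halfs_low`.  Let `b n = cnt (bridges t) n`, `h n = cnt (halfs t) n`.  `b (m+n) ≥ b m * b n`
(`bridge_append`; for fixed lengths the concatenation is injective), `h n ≥ b n`, and `h (n+1) ≥ h n`
(put `(1,0)` in front: a strict half-plane walk is a closed one, `cons_mem_halfs`).  If
`b n ≤ (mu - δ)^n` for all `n ≥ 1`, then for `z < zc`
`gf (bridges t) z ≤ ∑ ((mu - δ) zc)^n = 1 / (1 - (mu - δ) zc) < ∞`, contradicting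
`gf_bridges_large` (use `gf_eq_cnt`).  So `b m > (mu - δ)^m` for some `m ≥ 1`, and for `n = q m + r`,
`r < m`: `h n ≥ h (q m) ≥ (b m)^q ≥ (mu - δ)^(q m) ≥ C (mu - δ)^n` with `C = min 1 (mu - δ)^(-m)`.
-/

namespace Pool.Agent.SHK

open Pool.Agent.SHP
open scoped ENNReal NNReal

variable {t : Bool}

private theorem Low_fin_halfs (t : Bool) (n : ℕ) : {l | l ∈ halfs t ∧ l.length = n}.Finite :=
  finite_words (t := t) (halfs t) (fun _ hl => hl.1.1) n

private theorem Low_fin_bridges (t : Bool) (n : ℕ) : {l | l ∈ bridges t ∧ l.length = n}.Finite :=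
  finite_words (t := t) (bridges t) (fun _ hl => hl.1.1.1) n

private theorem Low_halfs_chalfs (t : Bool) : halfs t ⊆ chalfs t := by
  intro l hl
  refine ⟨hl.1, fun u v h => ?_⟩
  rcases eq_or_ne u [] with rfl | hu
  · simp
  · exact (hl.2 u v h hu).le

theorem cnt_halfs_mono (t : Bool) (n : ℕ) : cnt (halfs t) n ≤ cnt (halfs t) (n + 1) := by
  unfold cnt
  refine Set.ncard_le_ncard_of_injOn (fun l => ((1, 0) : ℤ × ℤ) :: l) ?_ ?_ (Low_fin_halfs t (n + 1))
  · rintro l ⟨hl, hn⟩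
    exact ⟨cons_mem_halfs (Low_halfs_chalfs t hl), by simp [hn]⟩
  · intro l _ l' _ h
    exact (List.cons.inj h).2

private theorem Low_steps_card (t : Bool) : (steps t).card ≤ 6 := by
  cases t <;> decide

theorem cnt_halfs_succ_le (t : Bool) (n : ℕ) : cnt (halfs t) (n + 1) ≤ 6 * cnt (halfs t) n := by
  unfold cnt
  have hS : ((fun s : ℤ × ℤ => [s]) '' (steps t : Set (ℤ × ℤ))).Finite :=
    (steps t).finite_toSet.image _
  have h1 : {l | l ∈ halfs t ∧ l.length = n + 1}.ncard ≤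
      (((fun s : ℤ × ℤ => [s]) '' (steps t : Set (ℤ × ℤ))) ×ˢ
        {l | l ∈ halfs t ∧ l.length = n}).ncard := by
    refine Set.ncard_le_ncard_of_injOn (fun l => (l.drop n, l.take n)) ?_ ?_
      (hS.prod (Low_fin_halfs t n))
    · rintro l ⟨hl, hn⟩
      refine ⟨?_, ?_, ?_⟩
      · have h2 : (l.drop n).length = 1 := by rw [List.length_drop, hn]; omega
        obtain ⟨s, hs⟩ := List.length_eq_one_iff.1 h2
        refine ⟨s, ?_, hs.symm⟩
        refine hl.1.1 s (List.mem_of_mem_drop (i := n) ?_)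
        rw [hs]
        simp
      · refine halfs_prefix (v := l.drop n) ?_
        rw [List.take_append_drop]
        exact hl
      · rw [List.length_take, hn]; omega
    · intro l _ l' _ h
      have h1 := congrArg Prod.fst h
      have h2 := congrArg Prod.snd h
      simp only at h1 h2
      rw [← List.take_append_drop n l, ← List.take_append_drop n l', h1, h2]
  rw [Set.ncard_prod] at h1
  refine h1.trans (Nat.mul_le_mul_right _ ?_)
  refine (Set.ncard_image_le (steps t).finite_toSet).trans ?_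
  rw [Set.ncard_coe_finset]
  exact Low_steps_card t

theorem cnt_halfs_pos (t : Bool) (n : ℕ) : 0 < cnt (halfs t) n := by
  induction n with
  | zero =>
    unfold cnt
    refine (Set.ncard_pos (Low_fin_halfs t 0)).2 ⟨[], ?_, rfl⟩
    exact (nil_mem_bridges (t := t)).1
  | succ n ih => exact ih.trans_le (cnt_halfs_mono t n)

theorem halfs_up (t : Bool) {δ : ℝ} (hδ : 0 < δ) :
    ∃ C : ℝ, 0 < C ∧ ∀ n : ℕ, (cnt (halfs t) n : ℝ) ≤ C * (mu t + δ) ^ n := by
  obtain ⟨C, hC, h⟩ := cnt_le t hδ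
  refine ⟨C, hC, fun n => le_trans ?_ (h n)⟩
  have h1 : cnt (halfs t) n ≤ cnt (saws t) n := by
    unfold cnt
    exact Set.ncard_le_ncard (fun l hl => ⟨hl.1.1, hl.2⟩)
      (finite_words (t := t) (saws t) (fun _ hl => hl.1) n)
  exact_mod_cast h1

private theorem Low_mono (t : Bool) {m n : ℕ} (h : m ≤ n) : cnt (halfs t) m ≤ cnt (halfs t) n :=
  monotone_nat_of_le_succ (cnt_halfs_mono t) h

private theorem Low_bridges_le (t : Bool) (n : ℕ) : cnt (bridges t) n ≤ cnt (halfs t) n := by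
  unfold cnt
  exact Set.ncard_le_ncard (fun l hl => ⟨hl.1.1, hl.2⟩) (Low_fin_halfs t n)

private theorem Low_super (t : Bool) (m n : ℕ) :
    cnt (bridges t) m * cnt (bridges t) n ≤ cnt (bridges t) (m + n) := by
  unfold cnt
  rw [← Set.ncard_prod]
  refine Set.ncard_le_ncard_of_injOn (fun p => p.1 ++ p.2) ?_ ?_ (Low_fin_bridges t (m + n))
  · rintro ⟨u, v⟩ ⟨⟨hu, hu'⟩, ⟨hv, hv'⟩⟩
    simp only at hu hu' hv hv'
    exact ⟨bridge_append hu hv, by simp [hu', hv']⟩
  · rintro ⟨u, v⟩ ⟨⟨hu, hu'⟩, ⟨hv, hv'⟩⟩ ⟨u', v'⟩ ⟨⟨hw, hw'⟩, ⟨hx, hx'⟩⟩ h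
    simp only at hu hu' hv hv' hw hw' hx hx' h
    obtain ⟨h1, h2⟩ := List.append_inj h (hu'.trans hw'.symm)
    rw [h1, h2]

private theorem Low_pow (t : Bool) (m q : ℕ) :
    cnt (bridges t) m ^ q ≤ cnt (bridges t) (q * m) := by
  induction q with
  | zero =>
    rw [pow_zero, Nat.zero_mul]
    unfold cnt
    exact (Set.ncard_pos (Low_fin_bridges t 0)).2 ⟨[], nil_mem_bridges, rfl⟩
  | succ q ih =>
    rw [pow_succ, Nat.succ_mul]
    exact (Nat.mul_le_mul_right _ ih).trans (Low_super t _ _)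

private theorem Low_zero (A : Set (List (ℤ × ℤ))) : cnt A 0 ≤ 1 := by
  unfold cnt
  have h : {l | l ∈ A ∧ l.length = 0} ⊆ {([] : List (ℤ × ℤ))} := by
    rintro l ⟨_, hl⟩
    exact List.length_eq_zero_iff.1 hl
  exact (Set.ncard_le_ncard h (Set.finite_singleton _)).trans (Set.ncard_singleton _).le

private theorem Low_exists (t : Bool) {δ : ℝ} (hδ : 0 < δ) (hδ' : δ < mu t) :
    ∃ m : ℕ, 0 < m ∧ (mu t - δ) ^ m ≤ (cnt (bridges t) m : ℝ) := by
  by_contra hcon
  push Not at hcon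
  set a : ℝ≥0 := ⟨mu t - δ, by linarith⟩ with ha
  have hac : (a : ℝ) = mu t - δ := rfl
  have hcnt : ∀ n, ((cnt (bridges t) n : ℕ) : ℝ≥0) ≤ a ^ n := by
    intro n
    rcases Nat.eq_zero_or_pos n with rfl | hn
    · rw [pow_zero]
      exact_mod_cast Low_zero (bridges t)
    · rw [← NNReal.coe_le_coe]
      push_cast
      rw [hac]
      exact (hcon n hn).le
  have hzc := zc_pos t
  have hr : a * zc t < 1 := by
    rw [← NNReal.coe_lt_coe]
    push_cast
    rw [hac]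
    have h1 := zc_mul_mu t
    have h2 : (0 : ℝ) < zc t := by exact_mod_cast hzc
    nlinarith
  set r : ℝ≥0 := a * zc t with hr'
  have hfin : (1 - (r : ℝ≥0∞))⁻¹ ≠ ⊤ := by
    rw [ENNReal.inv_ne_top, ← ENNReal.coe_one, ← ENNReal.coe_sub]
    intro h
    rw [ENNReal.coe_eq_zero, tsub_eq_zero_iff_le] at h
    exact absurd hr (not_lt.2 h)
  obtain ⟨K, hK, -⟩ := ENNReal.lt_iff_exists_nnreal_btwn.1 (lt_top_iff_ne_top.2 hfin)
  obtain ⟨z0, hz0, hz⟩ := gf_bridges_large t K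
  obtain ⟨z, hz1, hz2⟩ := exists_between hz0
  have h1 := hz z hz1 hz2
  have h2 : gf (bridges t) z ≤ (1 - (r : ℝ≥0∞))⁻¹ := by
    rw [gf_eq_cnt (t := t) (fun l hl => hl.1.1.1), ← ENNReal.tsum_geometric]
    refine ENNReal.tsum_le_tsum fun n => ?_
    have h3 : ((cnt (bridges t) n : ℕ) : ℝ≥0) * z ^ n ≤ r ^ n := by
      rw [hr', mul_pow]
      exact mul_le_mul' (hcnt n) (pow_le_pow_left' hz2.le n)
    exact_mod_cast h3
  exact absurd (h1.trans h2) (not_le.2 hK)

theorem halfs_low (t : Bool) {δ : ℝ} (hδ : 0 < δ) (hδ' : δ < mu t) :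
    ∃ C : ℝ, 0 < C ∧ ∀ n : ℕ, C * (mu t - δ) ^ n ≤ (cnt (halfs t) n : ℝ) := by
  obtain ⟨m, hm, hb⟩ := Low_exists t hδ hδ'
  have ha : 0 < mu t - δ := by linarith
  set a : ℝ := mu t - δ with ha'
  have hM : 0 < ∑ r ∈ Finset.range m, a ^ r :=
    Finset.sum_pos (fun r _ => by positivity) ⟨0, by simpa using hm⟩
  refine ⟨(∑ r ∈ Finset.range m, a ^ r)⁻¹, by positivity, fun n => ?_⟩
  have h1 : a ^ (n % m) ≤ ∑ r ∈ Finset.range m, a ^ r :=
    Finset.single_le_sum (f := fun r => a ^ r) (fun r _ => by positivity)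
      (Finset.mem_range.2 (Nat.mod_lt _ hm))
  have h2 : a ^ (n / m * m) ≤ (cnt (halfs t) n : ℝ) := by
    have h3 : cnt (bridges t) m ^ (n / m) ≤ cnt (halfs t) n :=
      (Low_pow t m (n / m)).trans ((Low_bridges_le t _).trans
        (Low_mono t (Nat.div_mul_le_self n m)))
    calc a ^ (n / m * m) = (a ^ m) ^ (n / m) := by rw [← pow_mul, Nat.mul_comm]
      _ ≤ (cnt (bridges t) m : ℝ) ^ (n / m) := pow_le_pow_left₀ (by positivity) hb _
      _ ≤ (cnt (halfs t) n : ℝ) := by exact_mod_cast h3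
  calc (∑ r ∈ Finset.range m, a ^ r)⁻¹ * a ^ n
      = (∑ r ∈ Finset.range m, a ^ r)⁻¹ * (a ^ (n % m) * a ^ (n / m * m)) := by
        rw [← pow_add, Nat.mod_add_div']
    _ ≤ (∑ r ∈ Finset.range m, a ^ r)⁻¹ *
        ((∑ r ∈ Finset.range m, a ^ r) * (cnt (halfs t) n : ℝ)) := by
        refine mul_le_mul_of_nonneg_left ?_ (by positivity)
        exact mul_le_mul h1 h2 (by positivity) hM.le
    _ = (cnt (halfs t) n : ℝ) := by
        rw [← mul_assoc, inv_mul_cancel₀ hM.ne', one_mul]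

end Pool.Agent.SHK
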