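import Pool.Agent.SHK.Defs

/-!
# Words and vertex lists

* `verts p l` has length `l.length + 1` and its `i`-th entry is `p + pos l i`.
* `mem_saws_iff`: a zero-sum factor `v ≠ []` of `l = u ++ v ++ w` is the same as
  `pos l |u| = pos l (|u| + |v|)`.
* `verts_bij`: `verts 0` is a bijection from the self-avoiding words onto the self-avoiding vertex
  lists starting at `0` (the steps are the differences).
-/

namespace Pool.Agent.SHK

open Pool.Agent.SHP

variable {t : Bool}

private theorem Verts_nil (p : ℤ × ℤ) : verts p [] = [p] := rfl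

private theorem Verts_cons (p a : ℤ × ℤ) (l : List (ℤ × ℤ)) :
    verts p (a :: l) = p :: verts (p + a) l := by
  unfold verts
  rw [List.scanl_cons]

private theorem Verts_head (p : ℤ × ℤ) (l : List (ℤ × ℤ)) :
    verts p l = p :: (verts p l).tail := by
  cases l with
  | nil => rfl
  | cons a l => rw [Verts_cons, List.tail_cons]

private theorem Verts_chain (p : ℤ × ℤ) (l : List (ℤ × ℤ)) (h : ∀ s ∈ l, s ∈ steps t) :
    (verts p l).IsChain (Adj t) := by
  induction l generalizing p with
  | nil =>
    rw [Verts_nil]
    exact List.isChain_singleton p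
  | cons a l ih =>
    have h1 := ih (p + a) (fun s hs => h s (List.mem_cons_of_mem _ hs))
    rw [Verts_cons]
    rw [Verts_head] at h1 ⊢
    rw [List.isChain_cons_cons]
    refine ⟨?_, h1⟩
    unfold Adj
    rw [add_sub_cancel_left]
    exact h a List.mem_cons_self

private theorem Verts_exists (L : List (ℤ × ℤ)) (p : ℤ × ℤ) (h : (p :: L).IsChain (Adj t)) :
    ∃ l : List (ℤ × ℤ), (∀ s ∈ l, s ∈ steps t) ∧ verts p l = p :: L := by
  induction L generalizing p with
  | nil => exact ⟨[], fun s hs => absurd hs List.not_mem_nil, rfl⟩
  | cons q L ih =>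
    rw [List.isChain_cons_cons] at h
    obtain ⟨l, hl, hv⟩ := ih q h.2
    refine ⟨(q - p) :: l, ?_, ?_⟩
    · intro s hs
      rcases List.mem_cons.1 hs with h1 | h1
      · rw [h1]
        exact h.1
      · exact hl s h1
    · rw [Verts_cons, add_sub_cancel, hv]

private theorem Verts_pos_append (u v : List (ℤ × ℤ)) (k : ℕ) :
    pos (u ++ v) (u.length + k) = u.sum + pos v k := by
  unfold pos
  rw [List.take_length_add_append, List.sum_append]

theorem length_verts (p : ℤ × ℤ) (l : List (ℤ × ℤ)) : (verts p l).length = l.length + 1 := by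
  unfold verts
  rw [List.length_scanl]

theorem getElem?_verts (p : ℤ × ℤ) (l : List (ℤ × ℤ)) {i : ℕ} (hi : i ≤ l.length) :
    (verts p l)[i]? = some (p + pos l i) := by
  induction l generalizing p i with
  | nil =>
    have h0 : i = 0 := by simpa using hi
    subst h0
    simp [Verts_nil, pos]
  | cons a l ih =>
    rw [Verts_cons]
    cases i with
    | zero => simp [pos]
    | succ i =>
      rw [List.getElem?_cons_succ, ih (p + a) (by simpa using hi)]
      unfold pos
      rw [List.take_succ_cons, List.sum_cons, add_assoc]

theorem verts_append (p : ℤ × ℤ) (u v : List (ℤ × ℤ)) :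
    verts p (u ++ v) = verts p u ++ (verts (p + u.sum) v).tail := by
  induction u generalizing p with
  | nil =>
    rw [List.nil_append, List.sum_nil, add_zero, Verts_nil, List.singleton_append]
    exact Verts_head p v
  | cons a u ih =>
    rw [List.cons_append, Verts_cons, Verts_cons, ih, List.cons_append, List.sum_cons, add_assoc]

theorem mem_saws_iff (l : List (ℤ × ℤ)) :
    l ∈ saws t ↔ (∀ s ∈ l, s ∈ steps t) ∧ (verts 0 l).Nodup := by
  have hpos : ∀ {i : ℕ}, i ≤ l.length → (verts 0 l)[i]? = some (pos l i) := by
    intro i hi
    rw [getElem?_verts 0 l hi, zero_add]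
  constructor
  · rintro ⟨h1, h2⟩
    refine ⟨h1, ?_⟩
    rw [List.nodup_iff_getElem?_ne_getElem?]
    intro i j hij hj heq
    rw [length_verts] at hj
    rw [hpos (by omega), hpos (by omega)] at heq
    have heq' : pos l i = pos l j := Option.some.inj heq
    have hl : l = l.take i ++ ((l.drop i).take (j - i) ++ l.drop j) := by
      have e1 : l.drop j = (l.drop i).drop (j - i) := by
        rw [List.drop_drop]
        congr 1
        omega
      rw [e1, List.take_append_drop, List.take_append_drop]
    have hj' : l.take j = l.take i ++ (l.drop i).take (j - i) := by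
      have e1 : j = i + (j - i) := by omega
      conv_lhs => rw [e1]
      rw [List.take_add]
    have hsum : ((l.drop i).take (j - i)).sum = 0 := by
      unfold pos at heq'
      rw [hj', List.sum_append] at heq'
      exact left_eq_add.1 heq'
    have h3 := congrArg List.length (h2 _ _ _ hl hsum)
    rw [List.length_take, List.length_drop, List.length_nil] at h3
    omega
  · rintro ⟨h1, h2⟩
    refine ⟨h1, fun u v w hl hv => ?_⟩
    rw [List.nodup_iff_getElem?_ne_getElem?] at h2
    by_contra hne
    have hlen : 0 < v.length := List.length_pos_iff.2 hne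
    have hll : l.length = u.length + (v.length + w.length) := by
      rw [hl, List.length_append, List.length_append]
    refine h2 u.length (u.length + v.length) (by omega) (by rw [length_verts]; omega) ?_
    rw [hpos (by omega), hpos (by omega)]
    congr 1
    have e1 := Verts_pos_append u (v ++ w) 0
    have e2 := Verts_pos_append u (v ++ w) v.length
    rw [add_zero] at e1
    rw [hl, e1, e2]
    unfold pos
    rw [List.take_zero, List.sum_nil, List.take_left, hv]

/-- Self-avoiding vertex lists from the origin. -/
def VS (t : Bool) : Set (List (ℤ × ℤ)) :=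
  {L | L.head? = some 0 ∧ L.IsChain (Adj t) ∧ L.Nodup}

theorem verts_mem_VS {l : List (ℤ × ℤ)} (h : l ∈ saws t) : verts 0 l ∈ VS t := by
  obtain ⟨h1, h2⟩ := (mem_saws_iff l).1 h
  refine ⟨?_, Verts_chain 0 l h1, h2⟩
  rw [Verts_head]
  rfl

theorem exists_verts {L : List (ℤ × ℤ)} (h : L ∈ VS t) : ∃ l ∈ saws t, verts 0 l = L := by
  obtain ⟨h1, h2, h3⟩ := h
  cases L with
  | nil => exact absurd h1 (by simp)
  | cons q L =>
    have hq : q = 0 := by simpa using h1
    subst hq
    obtain ⟨l, hl, hv⟩ := Verts_exists L 0 h2
    refine ⟨l, (mem_saws_iff l).2 ⟨hl, ?_⟩, hv⟩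
    rw [hv]
    exact h3

theorem verts_injective (p : ℤ × ℤ) : Function.Injective (verts p) := by
  intro l
  induction l generalizing p with
  | nil =>
    intro l' h
    have h1 := congrArg List.length h
    rw [length_verts, length_verts] at h1
    exact (List.length_eq_zero_iff.1 (by simpa using h1.symm)).symm
  | cons a l ih =>
    intro l' h
    cases l' with
    | nil =>
      have h1 := congrArg List.length h
      rw [length_verts, length_verts] at h1
      simp at h1
    | cons b l' =>
      rw [Verts_cons, Verts_cons] at h
      have h1 := (List.cons.inj h).2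
      have h2 : a = b := by
        rw [Verts_head (p + a), Verts_head (p + b)] at h1
        exact add_left_cancel (List.cons.inj h1).1
      subst h2
      rw [ih (p + a) h1]

theorem pos_injOn {l : List (ℤ × ℤ)} (h : l ∈ saws t) {i j : ℕ} (hi : i ≤ l.length)
    (hj : j ≤ l.length) (hij : pos l i = pos l j) : i = j := by
  have h2 := ((mem_saws_iff l).1 h).2
  rw [List.nodup_iff_getElem?_ne_getElem?] at h2
  have hpos : ∀ {i : ℕ}, i ≤ l.length → (verts 0 l)[i]? = some (pos l i) := by
    intro i hi
    rw [getElem?_verts 0 l hi, zero_add]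
  rcases lt_trichotomy i j with h3 | h3 | h3
  · exact absurd (by rw [hpos hi, hpos hj, hij]) (h2 i j h3 (by rw [length_verts]; omega))
  · exact h3
  · exact absurd (by rw [hpos hi, hpos hj, hij]) (h2 j i h3 (by rw [length_verts]; omega))

end Pool.Agent.SHK
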