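import Pool.Agent.SHP.Meet
import Pool.Agent.SHK.Verts

/-!
# The number of common vertices of two independent bridge walks is unbounded
-/

namespace Pool.Agent.SHK

open Pool.Agent.SHP
open scoped ENNReal NNReal
open MeasureTheory

variable {t : Bool}

/-- The common vertices of two walks from the origin. -/
def comm (u v : List (ℤ × ℤ)) : Finset (ℤ × ℤ) := (verts 0 u).toFinset ∩ (verts 0 v).toFinset

theorem mem_verts_iff {l : List (ℤ × ℤ)} {p : ℤ × ℤ} :
    p ∈ verts 0 l ↔ ∃ i ≤ l.length, pos l i = p := by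
  constructor
  · intro h
    obtain ⟨i, hi, h2⟩ := List.mem_iff_getElem.1 h
    have hi' : i ≤ l.length := by rw [length_verts] at hi; omega
    refine ⟨i, hi', ?_⟩
    have h3 := getElem?_verts 0 l hi'
    rw [List.getElem?_eq_getElem hi, h2, zero_add] at h3
    exact (Option.some.inj h3).symm
  · rintro ⟨i, hi, rfl⟩
    have h3 := getElem?_verts 0 l hi
    rw [zero_add] at h3
    exact List.mem_of_getElem? h3

theorem comm_mono {u v u' v' : List (ℤ × ℤ)} (hu : u <+: u') (hv : v <+: v') :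
    comm u v ⊆ comm u' v' := by
  have key : ∀ {a b : List (ℤ × ℤ)}, a <+: b → ∀ p ∈ verts 0 a, p ∈ verts 0 b := by
    rintro a b ⟨c, rfl⟩ p hp
    rw [verts_append]
    exact List.mem_append_left _ hp
  intro p hp
  unfold comm at hp ⊢
  rw [Finset.mem_inter, List.mem_toFinset, List.mem_toFinset] at hp ⊢
  exact ⟨key hu p hp.1, key hv p hp.2⟩

theorem pre_prefix (ω : ℕ → List (ℤ × ℤ)) {k m : ℕ} (h : k ≤ m) : pre ω k <+: pre ω m := by
  obtain ⟨j, rfl⟩ := Nat.exists_eq_add_of_le h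
  rw [Inf_pre_add]
  exact List.prefix_append _ _

theorem path_mem_verts {ω : ℕ → List (ℤ × ℤ)} (hω : ∀ k, ω k ∈ irrs t) {i k : ℕ}
    (h : i ≤ (pre ω k).length) : path ω i ∈ verts 0 (pre ω k) := by
  rw [mem_verts_iff]
  exact ⟨i, h, (path_eq hω h).symm⟩

theorem path_notMem_verts {ω : ℕ → List (ℤ × ℤ)} (hω : ∀ k, ω k ∈ irrs t) {i k : ℕ}
    (h : (pre ω k).length < i) : path ω i ∉ verts 0 (pre ω k) := by
  rw [mem_verts_iff]
  rintro ⟨j, hj, h2⟩
  have h3 := path_eq hω hj
  unfold pos at h2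
  rw [h2] at h3
  have := path_injective hω h3
  omega

theorem ae_meetK (t : Bool) (K : ℕ) :
    ∀ᵐ ω ∂(PP t), ∃ J, K < (comm (pre (X ω) J) (pre (Y ω) J)).card := by
  obtain ⟨h1, h2⟩ := PP_Gev_zero t
  have h1' : ∀ᵐ ω ∂(PP t), ω ∉ Gev t := measure_eq_zero_iff_ae_notMem.mp h1
  have h2' : ∀ᵐ ω ∂(PP t), ω ∉ Gev' t := measure_eq_zero_iff_ae_notMem.mp h2
  filter_upwards [h1', h2'] with ω hω1 hω2
  have hmeet : ∀ N, ∃ i j, N ≤ i ∧ N ≤ j ∧ path (X ω) i = path (Y ω) j := by
    intro N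
    by_contra hcon
    push Not at hcon
    rcases order_eventually (path (X ω)) (path (Y ω))
      (fun i => steps_subset (path_step (X_mem ω) i))
      (fun i => steps_subset (path_step (Y_mem ω) i))
      (path_tendsto (X_mem ω)) (path_tendsto (Y_mem ω)) N
      (fun i j hi hj => hcon i j hi hj) with h | h
    · exact hω1 h
    · exact hω2 h
  induction K with
  | zero =>
    refine ⟨0, Finset.card_pos.2 ⟨0, ?_⟩⟩
    unfold comm
    rw [Finset.mem_inter, List.mem_toFinset, List.mem_toFinset]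
    exact ⟨mem_verts_iff.2 ⟨0, le_rfl, rfl⟩, mem_verts_iff.2 ⟨0, le_rfl, rfl⟩⟩
  | succ K ih =>
    obtain ⟨J, hJ⟩ := ih
    obtain ⟨i, j, hi, hj, hij⟩ := hmeet ((pre (X ω) J).length + 1)
    refine ⟨J + i + j, ?_⟩
    have hi' : i ≤ (pre (X ω) (J + i + j)).length :=
      le_trans (by omega) (le_length_pre (X_mem ω) (J + i + j))
    have hj' : j ≤ (pre (Y ω) (J + i + j)).length :=
      le_trans (by omega) (le_length_pre (Y_mem ω) (J + i + j))
    have hsub : insert (path (X ω) i) (comm (pre (X ω) J) (pre (Y ω) J)) ⊆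
        comm (pre (X ω) (J + i + j)) (pre (Y ω) (J + i + j)) := by
      intro p hp
      rcases Finset.mem_insert.1 hp with rfl | hp
      · unfold comm
        rw [Finset.mem_inter, List.mem_toFinset, List.mem_toFinset]
        refine ⟨path_mem_verts (X_mem ω) hi', ?_⟩
        rw [hij]
        exact path_mem_verts (Y_mem ω) hj'
      · exact comm_mono (pre_prefix _ (by omega)) (pre_prefix _ (by omega)) hp
    have hnot : path (X ω) i ∉ comm (pre (X ω) J) (pre (Y ω) J) := by
      unfold comm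
      rw [Finset.mem_inter, List.mem_toFinset]
      rintro ⟨h3, -⟩
      exact path_notMem_verts (X_mem ω) (by omega) h3
    have hcard := Finset.card_le_card hsub
    rw [Finset.card_insert_of_notMem hnot] at hcard
    omega

/-- Pairs of products of `J` irreducible bridges with more than `K` common vertices. -/
def meetPairsK (t : Bool) (K J : ℕ) : Set (List (ℤ × ℤ) × List (ℤ × ℤ)) :=
  {p | (p.1 ∈ irrPow t J ∧ p.2 ∈ irrPow t J) ∧ K < (comm p.1 p.2).card}

theorem q_smallK (t : Bool) (K : ℕ) {ε : ℝ≥0∞} (hε : 0 < ε) :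
    ∃ J, 1 ≤ gf2 (meetPairsK t K J) (zc t) + ε := by
  let A : ℕ → Set (ℕ → irrs t × irrs t) := fun J =>
    {ω | K < (comm (pre (X ω) J) (pre (Y ω) J)).card}
  have hmono : Monotone A := by
    refine monotone_nat_of_le_succ fun J ω hω => ?_
    have hω' : K < (comm (pre (X ω) J) (pre (Y ω) J)).card := hω
    exact lt_of_lt_of_le hω' (Finset.card_le_card
      (comm_mono (pre_prefix _ (Nat.le_succ J)) (pre_prefix _ (Nat.le_succ J))))
  have hU : PP t (⋃ J, A J) = 1 := by
    have h1 : ∀ᵐ ω ∂(PP t), ω ∈ ⋃ J, A J := by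
      filter_upwards [ae_meetK t K] with ω hω
      rw [Set.mem_iUnion]
      exact hω
    have h2 : (⋃ J, A J) =ᵐ[PP t] Set.univ := Filter.eventuallyEq_univ.mpr h1
    rw [measure_congr h2, measure_univ]
  have hlim := tendsto_measure_iUnion_atTop (μ := PP t) hmono
  rw [hU] at hlim
  have hev : ∀ᶠ J in Filter.atTop, 1 - ε < (PP t ∘ A) J :=
    hlim.eventually_const_lt (ENNReal.sub_lt_self ENNReal.one_ne_top one_ne_zero hε.ne')
  obtain ⟨J, hJ⟩ := hev.exists
  refine ⟨J, ?_⟩
  have h1 : (1 : ℝ≥0∞) ≤ PP t (A J) + ε := tsub_le_iff_right.mp hJ.le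
  refine h1.trans ?_
  gcongr
  exact PP_pre_le t J {p | K < (comm p.1 p.2).card}

end Pool.Agent.SHK
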