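import Pool.Agent.SHK.Turn
import Pool.Agent.SHK.Low

/-!
# Insertion and deletion of turns in half-plane walks

A turn of `l'` at the step index `i` is deleted by replacing the `tl t` steps
`(l'.drop i).take (tl t)` by their sum, which is one step.  The vertices of the new walk are a subset
of the old ones, in the same order, so it is again a self-avoiding strict half-plane walk.
Conversely `x = (i, f)` is an insertion for `l` if `f` is a word of `tl t` steps whose sum is the step
`l[i]` and the result `insr l x` is a half-plane walk.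

* `move_sum`: `(l, x) ↦ (insr l x, x.1)` is a bijection from the pairs (`l ∈ HF t n`, `x ∈ InsF t l`) onto
  the pairs (`l' ∈ HF t (n + tl t - 1)`, turn index of `l'`); the number of turn indices is
  `turns t l'` by `turns_eq`.
-/

namespace Pool.Agent.SHK

open Pool.Agent.SHP

variable {t : Bool}

/-- Words of length `n`. -/
def wordsF (t : Bool) : ℕ → Finset (List (ℤ × ℤ))
  | 0 => {[]}
  | n + 1 => (steps t ×ˢ wordsF t n).image (fun x => x.1 :: x.2)

theorem mem_wordsF (n : ℕ) (l : List (ℤ × ℤ)) :
    l ∈ wordsF t n ↔ l.length = n ∧ ∀ s ∈ l, s ∈ steps t := by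
  induction n generalizing l with
  | zero =>
    rw [wordsF, Finset.mem_singleton, List.length_eq_zero_iff]
    constructor
    · rintro rfl
      exact ⟨rfl, by simp⟩
    · exact fun h => h.1
  | succ n ih =>
    rw [wordsF, Finset.mem_image]
    constructor
    · rintro ⟨⟨s, v⟩, hx, rfl⟩
      rw [Finset.mem_product] at hx
      have h2 := (ih v).1 hx.2
      refine ⟨by simp [h2.1], ?_⟩
      intro r hr
      rcases List.mem_cons.1 hr with h | h
      · rw [h]
        exact hx.1
      · exact h2.2 r h
    · rintro ⟨h1, h2⟩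
      cases l with
      | nil => simp at h1
      | cons s v =>
        refine ⟨(s, v), ?_, rfl⟩
        rw [Finset.mem_product]
        refine ⟨h2 s (by simp), (ih v).2 ⟨by simpa using h1, fun r hr => h2 r (by simp [hr])⟩⟩

theorem card_wordsF_le (n : ℕ) : (wordsF t n).card ≤ 6 ^ n := by
  induction n with
  | zero => simp [wordsF]
  | succ n ih =>
    rw [wordsF]
    refine Finset.card_image_le.trans ?_
    rw [Finset.card_product, pow_succ, mul_comm]
    have : (steps t).card ≤ 6 := by cases t <;> decide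
    exact Nat.mul_le_mul ih this

/-- Half-plane walks of length `n` as a finite set. -/
noncomputable def HF (t : Bool) (n : ℕ) : Finset (List (ℤ × ℤ)) :=
  (finite_words (t := t) (halfs t) (fun _ hl => hl.1.1) n).toFinset

theorem mem_HF {n : ℕ} {l : List (ℤ × ℤ)} : l ∈ HF t n ↔ l ∈ halfs t ∧ l.length = n := by
  unfold HF
  rw [Set.Finite.mem_toFinset]
  rfl

theorem card_HF (t : Bool) (n : ℕ) : (HF t n).card = cnt (halfs t) n := by
  unfold HF cnt
  rw [Set.ncard_eq_toFinset_card _ (finite_words (t := t) (halfs t) (fun _ hl => hl.1.1) n)]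

/-- The result of an insertion. -/
def insr (l : List (ℤ × ℤ)) (x : ℕ × List (ℤ × ℤ)) : List (ℤ × ℤ) :=
  l.take x.1 ++ (x.2 ++ l.drop (x.1 + 1))

open Classical in
/-- The insertions of a walk. -/
noncomputable def InsF (t : Bool) (l : List (ℤ × ℤ)) : Finset (ℕ × List (ℤ × ℤ)) :=
  ((Finset.range l.length) ×ˢ wordsF t (tl t)).filter
    (fun x => x.2.sum = l.getD x.1 0 ∧ insr l x ∈ halfs t)

/-- The turn indices. -/
private def Move_TI (t : Bool) (l : List (ℤ × ℤ)) : Finset ℕ :=
  (Finset.range l.length).filter (fun i => i + tl t ≤ l.length ∧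
      ((l.drop i).take (tl t)).sum ∈ steps t)

private theorem Move_tl (t : Bool) : 1 ≤ tl t := by
  unfold tl
  split_ifs <;> omega

private theorem Move_split {l : List (ℤ × ℤ)} {i : ℕ} (hi : i < l.length) :
    ∃ A s C, l = A ++ (s :: C) ∧ A.length = i := by
  refine ⟨l.take i, l[i], l.drop (i + 1), ?_, ?_⟩
  · rw [List.getElem_cons_drop, List.take_append_drop]
  · rw [List.length_take]
    omega

private theorem Move_insr (A : List (ℤ × ℤ)) (s : ℤ × ℤ) (C f : List (ℤ × ℤ)) :
    insr (A ++ (s :: C)) (A.length, f) = A ++ (f ++ C) := by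
  unfold insr
  change (A ++ (s :: C)).take A.length ++ (f ++ (A ++ (s :: C)).drop (A.length + 1)) = _
  rw [List.take_left, ← List.drop_drop, List.drop_left]
  rfl

private theorem Move_mem_InsF {t : Bool} {l : List (ℤ × ℤ)} {i : ℕ} {f : List (ℤ × ℤ)} :
    (i, f) ∈ InsF t l ↔ (i < l.length ∧ (f.length = tl t ∧ ∀ s ∈ f, s ∈ steps t)) ∧
      f.sum = l.getD i 0 ∧ insr l (i, f) ∈ halfs t := by
  classical
  unfold InsF
  simp only [Finset.mem_filter, Finset.mem_product, Finset.mem_range, mem_wordsF]

private theorem Move_InsF {t : Bool} {l : List (ℤ × ℤ)} {i : ℕ} {f : List (ℤ × ℤ)}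
    (hx : (i, f) ∈ InsF t l) : i < l.length ∧ (f.length = tl t ∧ ∀ s ∈ f, s ∈ steps t) ∧
      f.sum = l.getD i 0 ∧ insr l (i, f) ∈ halfs t := by
  have h := Move_mem_InsF.1 hx
  exact ⟨h.1.1, h.1.2, h.2.1, h.2.2⟩

private theorem Move_collapse {t : Bool} {A f C : List (ℤ × ℤ)} (hf : f ≠ [])
    (hs : f.sum ∈ steps t) (h : A ++ (f ++ C) ∈ halfs t) : A ++ (f.sum :: C) ∈ halfs t := by
  obtain ⟨⟨h1, h2⟩, h3⟩ := h
  refine ⟨⟨?_, ?_⟩, ?_⟩
  · intro s hsm
    rcases List.mem_append.1 hsm with h | h
    · exact h1 s (by simp [h])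
    · rcases List.mem_cons.1 h with h | h
      · rw [h]
        exact hs
      · exact h1 s (by simp [h])
  · intro u v w he hv
    rcases List.append_eq_append_iff.1 he with ⟨c, hc1, hc2⟩ | ⟨a', ha1, ha2⟩
    · -- u = A ++ c
      cases c with
      | nil =>
        rw [List.append_nil] at hc1
        rw [List.nil_append] at hc2
        cases v with
        | nil => rfl
        | cons x v1 =>
          exfalso
          rw [List.cons_append, List.cons.injEq] at hc2
          have h4 := h2 A (f ++ v1) w (by rw [hc2.2]; simp) (by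
            rw [List.sum_append]
            rw [List.sum_cons, ← hc2.1] at hv
            exact hv)
          exact hf (List.append_eq_nil_iff.1 h4).1
      | cons x c1 =>
        rw [List.cons_append, List.cons.injEq] at hc2
        exact h2 (A ++ (f ++ c1)) v w (by rw [hc2.2]; simp) hv
    · -- A = u ++ a'
      rcases List.append_eq_append_iff.1 ha2 with ⟨b', hb1, hb2⟩ | ⟨c', hc1, hc2⟩
      · exact h2 u v (b' ++ (f ++ C)) (by rw [ha1, hb1]; simp) hv
      · cases c' with
        | nil =>
          rw [List.append_nil] at hc1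
          exact h2 u v (f ++ C) (by rw [ha1, hc1]; simp) hv
        | cons x c1 =>
          exfalso
          rw [List.cons_append, List.cons.injEq] at hc2
          have h4 := h2 u (a' ++ (f ++ c1)) w (by rw [ha1, hc2.2]; simp) (by
            rw [hc1, List.sum_append, List.sum_cons, ← hc2.1] at hv
            rw [List.sum_append, List.sum_append]
            exact hv)
          exact hf (List.append_eq_nil_iff.1 (List.append_eq_nil_iff.1 h4).2).1
  · intro u v he hu
    rcases List.append_eq_append_iff.1 he with ⟨c, hc1, hc2⟩ | ⟨a', ha1, ha2⟩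
    · cases c with
      | nil =>
        rw [List.append_nil] at hc1
        exact h3 u (f ++ C) (by rw [hc1]) hu
      | cons x c1 =>
        rw [List.cons_append, List.cons.injEq] at hc2
        have h4 := h3 (A ++ (f ++ c1)) v (by rw [hc2.2]; simp) (by
          intro h0
          exact hf (List.append_eq_nil_iff.1 (List.append_eq_nil_iff.1 h0).2).1)
        rw [hc1, List.sum_append, List.sum_cons, ← hc2.1]
        rw [List.sum_append, List.sum_append] at h4
        exact h4
    · exact h3 u (a' ++ (f ++ C)) (by rw [ha1]; simp) hu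

theorem move_sum (t : Bool) (n : ℕ) (φ : List (ℤ × ℤ) → ℝ) :
    ∑ l ∈ HF t n, ∑ x ∈ InsF t l, φ (insr l x) =
      ∑ l' ∈ HF t (n + (tl t - 1)), (turns t l' : ℝ) * φ l' := by
  have hR : ∀ l' ∈ HF t (n + (tl t - 1)), (turns t l' : ℝ) * φ l' =
      ∑ i ∈ Move_TI t l', φ l' := by
    intro l' _
    rw [turns_eq, Finset.sum_const, nsmul_eq_mul]
    rfl
  rw [Finset.sum_congr rfl hR, Finset.sum_sigma', Finset.sum_sigma']
  refine Finset.sum_bij' (fun x _ => ⟨insr x.1 x.2, x.2.1⟩)
    (fun x _ => ⟨x.1.take x.2 ++ (((x.1.drop x.2).take (tl t)).sum :: x.1.drop (x.2 + tl t)),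
      (x.2, (x.1.drop x.2).take (tl t))⟩) ?_ ?_ ?_ ?_ ?_
  · rintro ⟨l, i, f⟩ hx
    rw [Finset.mem_sigma] at hx ⊢
    obtain ⟨hx1, hx2⟩ : l ∈ HF t n ∧ (i, f) ∈ InsF t l := hx
    have h1 : l ∈ halfs t ∧ l.length = n := mem_HF.1 hx1
    obtain ⟨hi, hf, hfs, hfh⟩ := Move_InsF hx2
    obtain ⟨A, s, C, hl, hA⟩ := Move_split hi
    have h2 : insr l (i, f) = A ++ (f ++ C) := by
      rw [hl, ← hA]
      exact Move_insr A s C f
    refine ⟨?_, ?_⟩
    · rw [mem_HF]
      refine ⟨hfh, ?_⟩
      have h3 := congrArg List.length h2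
      have h4 := congrArg List.length hl
      simp only [List.length_append, List.length_cons] at h3 h4
      have h5 := Move_tl t
      have h6 := h1.2
      change (insr l (i, f)).length = n + (tl t - 1)
      rw [h3, hf.1]
      omega
    · unfold Move_TI
      rw [Finset.mem_filter, Finset.mem_range]
      change i < (insr l (i, f)).length ∧ i + tl t ≤ (insr l (i, f)).length ∧
        (((insr l (i, f)).drop i).take (tl t)).sum ∈ steps t
      rw [h2, ← hA, List.drop_left, List.take_append_of_le_length (by rw [hf.1]),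
        ← hf.1, List.take_length, List.length_append, List.length_append]
      have h5 := Move_tl t
      refine ⟨by omega, by omega, ?_⟩
      rw [hfs, hl, ← hA]
      have h7 : s ∈ l := by rw [hl]; simp
      have h8 := h1.1.1.1 s h7
      rw [List.getD_append_right _ _ _ _ le_rfl, Nat.sub_self]
      exact h8
  · rintro ⟨l', i⟩ hx
    rw [Finset.mem_sigma] at hx ⊢
    obtain ⟨hx1, h2⟩ : l' ∈ HF t (n + (tl t - 1)) ∧ i ∈ Move_TI t l' := hx
    have h1 : l' ∈ halfs t ∧ l'.length = n + (tl t - 1) := mem_HF.1 hx1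
    unfold Move_TI at h2
    rw [Finset.mem_filter, Finset.mem_range] at h2
    obtain ⟨h3, h4, h5⟩ := h2
    have ht := Move_tl t
    set A := l'.take i with hAd
    set f := (l'.drop i).take (tl t) with hfd
    set C := l'.drop (i + tl t) with hCd
    have hl' : l' = A ++ (f ++ C) := by
      rw [hAd, hfd, hCd, ← List.drop_drop, List.take_append_drop, List.take_append_drop]
    have hA : A.length = i := by rw [hAd, List.length_take]; omega
    have hf : f.length = tl t := by rw [hfd, List.length_take, List.length_drop]; omega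
    have hC : C.length = l'.length - (i + tl t) := by rw [hCd, List.length_drop]
    have hfne : f ≠ [] := by
      intro h0
      rw [h0, List.length_nil] at hf
      omega
    have hh : A ++ (f.sum :: C) ∈ halfs t := Move_collapse hfne h5 (by rw [← hl']; exact h1.1)
    refine ⟨?_, ?_⟩
    · rw [mem_HF]
      refine ⟨hh, ?_⟩
      change (A ++ (f.sum :: C)).length = n
      rw [List.length_append, List.length_cons, hA, hC]
      have := h1.2
      change l'.length = _ at this
      omega
    · change (i, f) ∈ InsF t (A ++ (f.sum :: C))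
      rw [Move_mem_InsF]
      have h6 : insr (A ++ (f.sum :: C)) (i, f) = l' := by
        rw [← hA, Move_insr, ← hl']
      refine ⟨⟨?_, hf, ?_⟩, ?_, ?_⟩
      · rw [List.length_append, List.length_cons]
        change i < _
        omega
      · intro s hs
        refine h1.1.1.1 s ?_
        change s ∈ l'
        rw [hl']
        simp [hs]
      · change f.sum = (A ++ (f.sum :: C)).getD i 0
        rw [← hA, List.getD_append_right _ _ _ _ le_rfl, Nat.sub_self]
        rfl
      · rw [h6]
        exact h1.1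
  · rintro ⟨l, i, f⟩ hx
    rw [Finset.mem_sigma] at hx
    obtain ⟨hx1, hx2⟩ : l ∈ HF t n ∧ (i, f) ∈ InsF t l := hx
    obtain ⟨hi, hf, hfs, hfh⟩ := Move_InsF hx2
    obtain ⟨A, s, C, hl, hA⟩ := Move_split hi
    have h2 : insr l (i, f) = A ++ (f ++ C) := by
      rw [hl, ← hA]
      exact Move_insr A s C f
    have hs : f.sum = s := by
      rw [hfs, hl, ← hA, List.getD_append_right _ _ _ _ le_rfl, Nat.sub_self]
      rfl
    have h3 : (insr l (i, f)).take i = A := by
      rw [h2, ← hA, List.take_left]
    have h4 : ((insr l (i, f)).drop i).take (tl t) = f := by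
      rw [h2, ← hA, List.drop_left, List.take_append_of_le_length (by rw [hf.1]),
        ← hf.1, List.take_length]
    have h5 : (insr l (i, f)).drop (i + tl t) = C := by
      rw [h2, ← hA, ← List.drop_drop, List.drop_left, ← hf.1, List.drop_left]
    change (⟨(insr l (i, f)).take i ++ ((((insr l (i, f)).drop i).take (tl t)).sum ::
      (insr l (i, f)).drop (i + tl t)), (i, ((insr l (i, f)).drop i).take (tl t))⟩ :
        Σ _ : List (ℤ × ℤ), ℕ × List (ℤ × ℤ)) = ⟨l, i, f⟩
    rw [h3, h4, h5, hs, ← hl]
  · rintro ⟨l', i⟩ hx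
    rw [Finset.mem_sigma] at hx
    obtain ⟨hx1, h2⟩ : l' ∈ HF t (n + (tl t - 1)) ∧ i ∈ Move_TI t l' := hx
    unfold Move_TI at h2
    rw [Finset.mem_filter, Finset.mem_range] at h2
    obtain ⟨h3, h4, h5⟩ := h2
    set A := l'.take i with hAd
    set f := (l'.drop i).take (tl t) with hfd
    set C := l'.drop (i + tl t) with hCd
    have hl' : l' = A ++ (f ++ C) := by
      rw [hAd, hfd, hCd, ← List.drop_drop, List.take_append_drop, List.take_append_drop]
    have hA : A.length = i := by rw [hAd, List.length_take]; omega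
    change (⟨insr (A ++ (f.sum :: C)) (i, f), i⟩ : Σ _ : List (ℤ × ℤ), ℕ) = ⟨l', i⟩
    have h6 : insr (A ++ (f.sum :: C)) (i, f) = l' := by
      rw [← hA, Move_insr, ← hl']
    rw [h6]
  · rintro ⟨l, i, f⟩ _
    rfl

/-- An insertion produces a turn. -/
theorem one_le_turns_insr {l : List (ℤ × ℤ)} {x : ℕ × List (ℤ × ℤ)} (hl : l ∈ halfs t)
    (hx : x ∈ InsF t l) : 1 ≤ turns t (insr l x) := by
  obtain ⟨i, f⟩ := x
  obtain ⟨hi, hf, hfs, hfh⟩ := Move_InsF hx
  obtain ⟨A, s, C, hl', hA⟩ := Move_split hi
  have h2 : insr l (i, f) = A ++ (f ++ C) := by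
    rw [hl', ← hA]
    exact Move_insr A s C f
  rw [turns_eq]
  refine Finset.card_pos.2 ⟨i, ?_⟩
  rw [Finset.mem_filter, Finset.mem_range, h2, ← hA, List.drop_left,
    List.take_append_of_le_length (by rw [hf.1]), ← hf.1, List.take_length, List.length_append,
    List.length_append]
  have h5 := Move_tl t
  refine ⟨by omega, by omega, ?_⟩
  rw [hfs, hl', ← hA]
  have h7 : s ∈ l := by rw [hl']; simp
  have h8 := hl.1.1 s h7
  rw [List.getD_append_right _ _ _ _ le_rfl, Nat.sub_self]
  exact h8

theorem insr_mem_HF {n : ℕ} {l : List (ℤ × ℤ)} {x : ℕ × List (ℤ × ℤ)} (hl : l ∈ HF t n)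
    (hx : x ∈ InsF t l) : insr l x ∈ HF t (n + (tl t - 1)) := by
  obtain ⟨i, f⟩ := x
  obtain ⟨hi, hf, hfs, hfh⟩ := Move_InsF hx
  obtain ⟨A, s, C, hl', hA⟩ := Move_split hi
  have h2 : insr l (i, f) = A ++ (f ++ C) := by
    rw [hl', ← hA]
    exact Move_insr A s C f
  rw [mem_HF]
  refine ⟨hfh, ?_⟩
  have h3 := congrArg List.length h2
  have h4 := congrArg List.length hl'
  simp only [List.length_append, List.length_cons] at h3 h4
  have h5 := Move_tl t
  have h6 := (mem_HF.1 hl).2
  rw [h3, hf.1]
  omega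

end Pool.Agent.SHK
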