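import Pool.Agent.SHK.Move

/-!
# Bounds for insertions

* `turns_insr`: `l = a ++ (s :: b)`, `insr l x = a ++ (f ++ b)`; both numbers of turns are at least
  `turns a + turns b` and at most `turns a + turns b + 5` (turns which are not inside `a` or inside `b`
  cover a step of the middle part, which has at most `3` steps: at most `3 + 2` positions).
* `insN_le`: at most `|l| * 6^3` pairs.
* `insN_insr`: let `x = (i, f)`, `y = (i', f')` insertions of `l` with `i' ≠ i`; `y` gives the pair
  `(i'', f')`, `i'' = i'` if `i' < i` and `i' + (tl t - 1)` if `i' > i`, which is an insertion of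
  `insr l x` unless one of the new vertices of `insr l y` (at most two, of the form `pos l i'` + sum of a
  proper nonempty prefix of `f'`) is one of the new vertices of `insr l x` (at most two).  For given
  `f'`, prefix and new vertex of `insr l x` this determines `pos l i'`, hence `i'` (`pos_injOn`): at most
  `216 * 2 * 2` exceptions, and at most `216` pairs with `i' = i`.
-/

namespace Pool.Agent.SHK

open Pool.Agent.SHP

variable {t : Bool}

private theorem moveB_tl (t : Bool) : tl t = 2 ∨ tl t = 3 := by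
  cases t <;> simp [tl]

private theorem moveB_turns_le (t : Bool) (u w v : List (ℤ × ℤ)) :
    turns t (u ++ (w ++ v)) ≤ turns t u + turns t v + (w.length + tl t) := by
  have htl := moveB_tl t
  rw [turns_eq, turns_eq, turns_eq]
  set Su := (Finset.range u.length).filter (fun i => i + tl t ≤ u.length ∧
      ((u.drop i).take (tl t)).sum ∈ steps t) with hSu
  set Sv := (Finset.range v.length).filter (fun i => i + tl t ≤ v.length ∧
      ((v.drop i).take (tl t)).sum ∈ steps t) with hSv
  have hsub : (Finset.range (u ++ (w ++ v)).length).filter (fun i =>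
      i + tl t ≤ (u ++ (w ++ v)).length ∧
      (((u ++ (w ++ v)).drop i).take (tl t)).sum ∈ steps t) ⊆
      (Su ∪ Sv.image (fun i => i + (u.length + w.length))) ∪
        Finset.Ico (u.length - tl t) (u.length + w.length) := by
    intro i hi
    rw [Finset.mem_filter, Finset.mem_range] at hi
    obtain ⟨h1, h2, h3⟩ := hi
    rw [List.length_append, List.length_append] at h1 h2
    rw [Finset.mem_union, Finset.mem_union]
    by_cases hA : i + tl t ≤ u.length
    · left; left
      rw [hSu, Finset.mem_filter, Finset.mem_range]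
      refine ⟨by omega, hA, ?_⟩
      have : ((u ++ (w ++ v)).drop i).take (tl t) = (u.drop i).take (tl t) := by
        rw [List.drop_append_of_le_length (by omega), List.take_append_of_le_length]
        rw [List.length_drop]; omega
      rwa [this] at h3
    · by_cases hB : u.length + w.length ≤ i
      · left; right
        rw [Finset.mem_image]
        refine ⟨i - (u.length + w.length), ?_, by omega⟩
        rw [hSv, Finset.mem_filter, Finset.mem_range]
        refine ⟨by omega, by omega, ?_⟩
        have : (u ++ (w ++ v)).drop i = v.drop (i - (u.length + w.length)) := by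
          rw [← List.append_assoc]
          have e : i = (u ++ w).length + (i - (u.length + w.length)) := by
            rw [List.length_append]; omega
          conv_lhs => rw [e]
          rw [List.drop_length_add_append]
        rwa [this] at h3
      · right
        rw [Finset.mem_Ico]
        omega
  refine (Finset.card_le_card hsub).trans ?_
  refine (Finset.card_union_le _ _).trans ?_
  have h1 := Finset.card_union_le Su (Sv.image (fun i => i + (u.length + w.length)))
  have h2 : (Sv.image (fun i => i + (u.length + w.length))).card ≤ Sv.card :=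
    Finset.card_image_le
  have h3 : (Finset.Ico (u.length - tl t) (u.length + w.length)).card ≤ w.length + tl t := by
    rw [Nat.card_Ico]; omega
  omega

private theorem moveB_turns_ge (t : Bool) (u w v : List (ℤ × ℤ)) :
    turns t u + turns t v ≤ turns t (u ++ (w ++ v)) := by
  have h1 := turns_append_ge t u (w ++ v)
  have h2 := turns_append_ge t w v
  omega

private theorem moveB_mem {l : List (ℤ × ℤ)} {x : ℕ × List (ℤ × ℤ)} :
    x ∈ InsF t l ↔ x.1 < l.length ∧ x.2.length = tl t ∧ (∀ s ∈ x.2, s ∈ steps t) ∧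
      x.2.sum = l.getD x.1 0 ∧ insr l x ∈ halfs t := by
  classical
  unfold InsF
  rw [Finset.mem_filter, Finset.mem_product, Finset.mem_range, mem_wordsF]
  tauto

private theorem moveB_split {l : List (ℤ × ℤ)} {i : ℕ} (hi : i < l.length) :
    l = l.take i ++ ([l.getD i 0] ++ l.drop (i + 1)) := by
  conv_lhs => rw [← List.take_append_drop i l]
  rw [List.drop_eq_getElem_cons hi, List.getD_eq_getElem _ _ hi]
  rfl

theorem turns_insr {l : List (ℤ × ℤ)} {x : ℕ × List (ℤ × ℤ)} (hl : l ∈ halfs t)
    (hx : x ∈ InsF t l) :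
    turns t (insr l x) ≤ turns t l + 8 ∧ turns t l ≤ turns t (insr l x) + 8 := by
  obtain ⟨h1, h2, _, _, _⟩ := moveB_mem.mp hx
  have htl := moveB_tl t
  have e := moveB_split h1
  have a1 := moveB_turns_le t (l.take x.1) x.2 (l.drop (x.1 + 1))
  have a2 := moveB_turns_ge t (l.take x.1) x.2 (l.drop (x.1 + 1))
  have a3 := moveB_turns_le t (l.take x.1) [l.getD x.1 0] (l.drop (x.1 + 1))
  have a4 := moveB_turns_ge t (l.take x.1) [l.getD x.1 0] (l.drop (x.1 + 1))
  rw [← e] at a3 a4
  have e2 : insr l x = l.take x.1 ++ (x.2 ++ l.drop (x.1 + 1)) := rfl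
  rw [← e2] at a1 a2
  rw [List.length_singleton] at a3
  omega

private theorem moveB_card_words (t : Bool) : (wordsF t (tl t)).card ≤ 216 := by
  refine (card_wordsF_le (t := t) (tl t)).trans ?_
  rcases moveB_tl t with h | h <;> rw [h] <;> norm_num

theorem insN_le (l : List (ℤ × ℤ)) : (InsF t l).card ≤ 216 * l.length := by
  classical
  unfold InsF
  refine (Finset.card_filter_le _ _).trans ?_
  rw [Finset.card_product, Finset.card_range, mul_comm]
  exact Nat.mul_le_mul_right _ (moveB_card_words t)

private theorem moveB_verts_map (p : ℤ × ℤ) (l : List (ℤ × ℤ)) :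
    verts p l = (List.range (l.length + 1)).map (fun k => p + pos l k) := by
  apply List.ext_getElem?
  intro i
  by_cases hi : i ≤ l.length
  · rw [getElem?_verts p l hi, List.getElem?_map, List.getElem?_range (by omega)]
    rfl
  · rw [List.getElem?_eq_none (by rw [length_verts]; omega),
      List.getElem?_eq_none (by rw [List.length_map, List.length_range]; omega)]

private theorem moveB_mem_verts {p v : ℤ × ℤ} {l : List (ℤ × ℤ)} :
    v ∈ verts p l ↔ ∃ k ≤ l.length, p + pos l k = v := by
  rw [moveB_verts_map, List.mem_map]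
  constructor
  · rintro ⟨k, hk, rfl⟩
    exact ⟨k, by rw [List.mem_range] at hk; omega, rfl⟩
  · rintro ⟨k, hk, rfl⟩
    exact ⟨k, by rw [List.mem_range]; omega, rfl⟩

/-- The inner vertices of the word `g` starting at `q`. -/
private def moveB_inn (q : ℤ × ℤ) (g : List (ℤ × ℤ)) : List (ℤ × ℤ) :=
  (List.range (g.length - 1)).map (fun k => q + pos g (k + 1))

private theorem moveB_tail (q : ℤ × ℤ) {g : List (ℤ × ℤ)} (hg : g ≠ []) :
    (verts q g).tail = moveB_inn q g ++ [q + g.sum] := by
  have hl : 0 < g.length := List.length_pos_iff.mpr hg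
  obtain ⟨m, hm⟩ : ∃ m, g.length = m + 1 := ⟨g.length - 1, by omega⟩
  rw [moveB_verts_map, List.range_succ_eq_map, List.map_cons, List.tail_cons, List.map_map,
    moveB_inn, hm, Nat.add_sub_cancel, List.range_succ, List.map_append]
  congr 1
  rw [List.map_singleton]
  have : g.take (m + 1) = g := by rw [← hm]; exact List.take_length
  simp only [Function.comp, pos, Nat.succ_eq_add_one]
  rw [this]

private theorem moveB_tail_append (q : ℤ × ℤ) (g r : List (ℤ × ℤ)) :
    (verts q (g ++ r)).tail = (verts q g).tail ++ (verts (q + g.sum) r).tail := by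
  rw [verts_append]
  have : verts q g ≠ [] := by
    intro h
    have := length_verts q g
    rw [h, List.length_nil] at this
    omega
  exact List.tail_append_of_ne_nil this

private theorem moveB_perm {w : List (ℤ × ℤ)} {y : ℕ × List (ℤ × ℤ)} (hy : y.1 < w.length)
    (hne : y.2 ≠ []) (hs : y.2.sum = w.getD y.1 0) :
    (verts 0 (insr w y)).Perm (moveB_inn (pos w y.1) y.2 ++ verts 0 w) := by
  have e1 : verts 0 (insr w y) = verts 0 (w.take y.1) ++
      ((moveB_inn (pos w y.1) y.2 ++ [pos w y.1 + y.2.sum]) ++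
        (verts (pos w y.1 + y.2.sum) (w.drop (y.1 + 1))).tail) := by
    unfold insr
    rw [verts_append, moveB_tail_append, zero_add]
    rw [show (w.take y.1).sum = pos w y.1 from rfl, moveB_tail _ hne]
  have e2 : verts 0 w = verts 0 (w.take y.1) ++
      ([pos w y.1 + y.2.sum] ++
        (verts (pos w y.1 + y.2.sum) (w.drop (y.1 + 1))).tail) := by
    conv_lhs => rw [moveB_split hy]
    rw [verts_append, moveB_tail_append, zero_add]
    rw [show (w.take y.1).sum = pos w y.1 from rfl, moveB_tail _ (by simp)]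
    rw [List.sum_singleton, hs]
    simp [moveB_inn]
  rw [e1, e2]
  rw [List.append_assoc (moveB_inn (pos w y.1) y.2)]
  exact List.perm_append_comm_assoc _ _ _

private theorem moveB_halfs (l : List (ℤ × ℤ)) :
    l ∈ halfs t ↔ (∀ s ∈ l, s ∈ steps t) ∧ (verts 0 l).Nodup ∧
      ∀ v ∈ verts 0 l, v = 0 ∨ 0 < v.1 := by
  constructor
  · rintro ⟨h1, h2⟩
    obtain ⟨h3, h4⟩ := (mem_saws_iff l).mp h1
    refine ⟨h3, h4, ?_⟩
    intro v hv
    obtain ⟨k, hk, rfl⟩ := moveB_mem_verts.mp hv
    rw [zero_add]
    rcases Nat.eq_zero_or_pos k with h | h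
    · left
      rw [h]
      simp [pos]
    · right
      refine h2 (l.take k) (l.drop k) (List.take_append_drop _ _).symm ?_
      intro he
      have := congrArg List.length he
      rw [List.length_take, List.length_nil] at this
      omega
  · rintro ⟨h1, h2, h3⟩
    have hs : l ∈ saws t := (mem_saws_iff l).mpr ⟨h1, h2⟩
    refine ⟨hs, ?_⟩
    intro u v huv hu
    have hle : u.length ≤ l.length := by rw [huv, List.length_append]; omega
    have e : pos l u.length = u.sum := by
      unfold pos
      rw [huv, List.take_left]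
    rcases h3 u.sum (moveB_mem_verts.mpr ⟨u.length, hle, by rw [e, zero_add]⟩) with h | h
    · exfalso
      have := pos_injOn hs (i := u.length) (j := 0) hle (Nat.zero_le _) (by
        rw [e, h]; simp [pos])
      exact hu (List.length_eq_zero_iff.mp this)
    · exact h

private theorem moveB_key {l : List (ℤ × ℤ)} {x y : ℕ × List (ℤ × ℤ)} {j : ℕ}
    (hx : x ∈ InsF t l) (hy : y ∈ InsF t l)
    (hj : j < (insr l x).length) (hg : (insr l x).getD j 0 = l.getD y.1 0)
    (hp : pos (insr l x) j = pos l y.1)
    (hd : List.Disjoint (moveB_inn (pos l y.1) y.2) (moveB_inn (pos l x.1) x.2)) :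
    (j, y.2) ∈ InsF t (insr l x) := by
  obtain ⟨x1, x2, x3, x4, x5⟩ := moveB_mem.mp hx
  obtain ⟨y1, y2, y3, y4, y5⟩ := moveB_mem.mp hy
  have htl := moveB_tl t
  have hxne : x.2 ≠ [] := by
    intro h; rw [h, List.length_nil] at x2; omega
  have hyne : y.2 ≠ [] := by
    intro h; rw [h, List.length_nil] at y2; omega
  rw [moveB_mem]
  refine ⟨hj, y2, y3, by rw [hg]; exact y4, ?_⟩
  obtain ⟨a1, a2, a3⟩ := (moveB_halfs _).mp x5
  obtain ⟨b1, b2, b3⟩ := (moveB_halfs _).mp y5
  have Px := moveB_perm x1 hxne x4
  have Py := moveB_perm y1 hyne y4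
  have Pz := moveB_perm (w := insr l x) (y := (j, y.2)) hj hyne (by rw [hg]; exact y4)
  simp only [hp] at Pz
  rw [moveB_halfs]
  refine ⟨?_, ?_, ?_⟩
  · intro s hs
    simp only [insr] at hs
    rw [List.mem_append, List.mem_append] at hs
    rcases hs with hs | hs | hs
    · exact a1 s (List.mem_of_mem_take hs)
    · exact y3 s hs
    · exact a1 s (List.mem_of_mem_drop hs)
  · rw [Pz.nodup_iff]
    have hy' := Py.nodup_iff.mp b2
    rw [List.nodup_append] at hy' ⊢
    refine ⟨hy'.1, a2, ?_⟩
    intro c hc d hd' hcd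
    have hd2 := Px.mem_iff.mp hd'
    rw [List.mem_append] at hd2
    rcases hd2 with h | h
    · exact hd hc (hcd ▸ h)
    · exact hy'.2.2 c hc d h hcd
  · intro v hv
    have hv2 := Pz.mem_iff.mp hv
    rw [List.mem_append] at hv2
    rcases hv2 with h | h
    · exact b3 v (Py.mem_iff.mpr (List.mem_append.mpr (Or.inl h)))
    · exact a3 v h

private theorem moveB_len {l : List (ℤ × ℤ)} {x : ℕ × List (ℤ × ℤ)} (hx : x ∈ InsF t l) :
    (insr l x).length = l.length + (tl t - 1) := by
  obtain ⟨x1, x2, x3, x4, x5⟩ := moveB_mem.mp hx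
  have htl := moveB_tl t
  unfold insr
  rw [List.length_append, List.length_append, List.length_take, List.length_drop, x2]
  omega

private theorem moveB_lt {l : List (ℤ × ℤ)} {x : ℕ × List (ℤ × ℤ)} {i : ℕ} (hx : x ∈ InsF t l)
    (hi : i < x.1) : (insr l x).getD i 0 = l.getD i 0 ∧ pos (insr l x) i = pos l i := by
  obtain ⟨x1, x2, x3, x4, x5⟩ := moveB_mem.mp hx
  have hlen : (l.take x.1).length = x.1 := by rw [List.length_take]; omega
  constructor
  · unfold insr
    rw [List.getD_append _ _ _ _ (by omega)]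
    rw [List.getD_eq_getElem _ _ (by omega), List.getD_eq_getElem _ _ (by omega),
      List.getElem_take]
  · unfold insr pos
    rw [List.take_append_of_le_length (by omega), List.take_take, min_eq_left hi.le]

private theorem moveB_gt {l : List (ℤ × ℤ)} {x : ℕ × List (ℤ × ℤ)} {i : ℕ} (hx : x ∈ InsF t l)
    (hi : x.1 < i) (hil : i < l.length) : (insr l x).getD (i + (tl t - 1)) 0 = l.getD i 0 ∧
      pos (insr l x) (i + (tl t - 1)) = pos l i := by
  obtain ⟨x1, x2, x3, x4, x5⟩ := moveB_mem.mp hx
  have htl := moveB_tl t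
  have hlen : (l.take x.1 ++ x.2).length = x.1 + tl t := by
    rw [List.length_append, List.length_take, x2]; omega
  have hlen2 : (l.take x.1 ++ [l.getD x.1 0]).length = x.1 + 1 := by
    rw [List.length_append, List.length_take, List.length_singleton]; omega
  have e1 : insr l x = (l.take x.1 ++ x.2) ++ l.drop (x.1 + 1) := by
    unfold insr; rw [List.append_assoc]
  have e2 : l = (l.take x.1 ++ [l.getD x.1 0]) ++ l.drop (x.1 + 1) := by
    rw [List.append_assoc]; exact moveB_split x1
  obtain ⟨k, hk⟩ : ∃ k, i = x.1 + 1 + k := ⟨i - (x.1 + 1), by omega⟩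
  have hk2 : i + (tl t - 1) = (l.take x.1 ++ x.2).length + k := by omega
  have hk3 : i = (l.take x.1 ++ [l.getD x.1 0]).length + k := by omega
  constructor
  · rw [e1]
    rw [List.getD_append_right _ _ _ _ (by omega), hk2, Nat.add_sub_cancel_left]
    rw [List.getD_eq_getElem?_getD, List.getElem?_drop, ← List.getD_eq_getElem?_getD, hk]
  · rw [e1, hk2]
    unfold pos
    rw [List.take_length_add_append, List.sum_append, List.sum_append]
    conv_rhs => rw [hk3]
    conv_rhs => rw [e2]
    have e3 : (l.take x.1 ++ [l.getD x.1 0] ++ l.drop (x.1 + 1)) = l := e2.symm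
    rw [e3]
    have e4 : List.take ((l.take x.1 ++ [l.getD x.1 0]).length + k) l =
        List.take ((l.take x.1 ++ [l.getD x.1 0]).length + k)
          ((l.take x.1 ++ [l.getD x.1 0]) ++ l.drop (x.1 + 1)) := by rw [e3]
    rw [e4, List.take_length_add_append, List.sum_append, List.sum_append, List.sum_singleton, x4]

private noncomputable def moveB_shift (t : Bool) (x y : ℕ × List (ℤ × ℤ)) :
    ℕ × List (ℤ × ℤ) :=
  (if y.1 < x.1 then y.1 else y.1 + (tl t - 1), y.2)

private theorem moveB_shift_mem {l : List (ℤ × ℤ)} {x y : ℕ × List (ℤ × ℤ)}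
    (hx : x ∈ InsF t l) (hy : y ∈ InsF t l) (hne : y.1 ≠ x.1)
    (hd : List.Disjoint (moveB_inn (pos l y.1) y.2) (moveB_inn (pos l x.1) x.2)) :
    moveB_shift t x y ∈ InsF t (insr l x) := by
  have hlen := moveB_len hx
  obtain ⟨y1, y2, y3, y4, y5⟩ := moveB_mem.mp hy
  unfold moveB_shift
  by_cases h : y.1 < x.1
  · rw [if_pos h]
    obtain ⟨h1, h2⟩ := moveB_lt hx h
    exact moveB_key hx hy (by omega) h1 h2 hd
  · rw [if_neg h]
    obtain ⟨h1, h2⟩ := moveB_gt hx (i := y.1) (by omega) y1
    exact moveB_key hx hy (by omega) h1 h2 hd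

theorem insN_insr {l : List (ℤ × ℤ)} {x : ℕ × List (ℤ × ℤ)} (hl : l ∈ halfs t)
    (hx : x ∈ InsF t l) : (InsF t l).card ≤ (InsF t (insr l x)).card + 2000 := by
  classical
  obtain ⟨x1, x2, x3, x4, x5⟩ := moveB_mem.mp hx
  have htl := moveB_tl t
  set S := InsF t l with hS
  set S1 := S.filter (fun y => y.1 = x.1) with hS1
  set S2 := S.filter (fun y => y.1 ≠ x.1 ∧
    ¬ List.Disjoint (moveB_inn (pos l y.1) y.2) (moveB_inn (pos l x.1) x.2)) with hS2
  set S3 := S.filter (fun y => y.1 ≠ x.1 ∧
    List.Disjoint (moveB_inn (pos l y.1) y.2) (moveB_inn (pos l x.1) x.2)) with hS3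
  have hcov : S ⊆ (S1 ∪ S2) ∪ S3 := by
    intro y hy
    rw [Finset.mem_union, Finset.mem_union, hS1, hS2, hS3, Finset.mem_filter, Finset.mem_filter,
      Finset.mem_filter]
    tauto
  have h1 : S1.card ≤ 216 := by
    refine le_trans (Finset.card_le_card_of_injOn (fun y => y.2) (t := wordsF t (tl t)) ?_ ?_)
      (moveB_card_words t)
    · intro y hy
      have hy' := (Finset.mem_filter.mp (Finset.mem_coe.mp hy)).1
      obtain ⟨y1, y2, y3, y4, y5⟩ := moveB_mem.mp hy'
      exact (mem_wordsF _ _).mpr ⟨y2, y3⟩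
    · intro y hy z hz hyz
      have hy' := (Finset.mem_filter.mp (Finset.mem_coe.mp hy)).2
      have hz' := (Finset.mem_filter.mp (Finset.mem_coe.mp hz)).2
      exact Prod.ext (hy'.trans hz'.symm) hyz
  have h3 : S3.card ≤ (InsF t (insr l x)).card := by
    refine Finset.card_le_card_of_injOn (moveB_shift t x) ?_ ?_
    · intro y hy
      obtain ⟨hy1, hy2, hy3⟩ := Finset.mem_filter.mp (Finset.mem_coe.mp hy)
      exact moveB_shift_mem hx hy1 hy2 hy3
    · intro y hy z hz hyz
      obtain ⟨hy1, hy2, hy3⟩ := Finset.mem_filter.mp (Finset.mem_coe.mp hy)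
      obtain ⟨hz1, hz2, hz3⟩ := Finset.mem_filter.mp (Finset.mem_coe.mp hz)
      unfold moveB_shift at hyz
      rw [Prod.mk.injEq] at hyz
      refine Prod.ext ?_ hyz.2
      have h := hyz.1
      by_cases ha : y.1 < x.1
      · by_cases hb : z.1 < x.1
        · rw [if_pos ha, if_pos hb] at h; exact h
        · rw [if_pos ha, if_neg hb] at h; omega
      · by_cases hb : z.1 < x.1
        · rw [if_neg ha, if_pos hb] at h; omega
        · rw [if_neg ha, if_neg hb] at h; omega
  have h2 : S2.card ≤ 216 * 4 := by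
    have hex : ∀ y ∈ S2, ∃ c : ℕ × ℕ, c.1 < 2 ∧ c.2 < 2 ∧
        pos l y.1 + pos y.2 (c.1 + 1) = pos l x.1 + pos x.2 (c.2 + 1) := by
      intro y hy
      obtain ⟨hy1, hy2, hy3⟩ := Finset.mem_filter.mp hy
      obtain ⟨y1, y2, y3, y4, y5⟩ := moveB_mem.mp hy1
      obtain ⟨v, hv1, hv2⟩ : ∃ v, v ∈ moveB_inn (pos l y.1) y.2 ∧
          v ∈ moveB_inn (pos l x.1) x.2 := by
        by_contra hcon
        exact hy3 (fun a h1 h2 => hcon ⟨a, h1, h2⟩)
      unfold moveB_inn at hv1 hv2
      rw [List.mem_map] at hv1 hv2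
      obtain ⟨k1, hk1, hv1⟩ := hv1
      obtain ⟨k2, hk2, hv2⟩ := hv2
      rw [List.mem_range] at hk1 hk2
      exact ⟨(k1, k2), by simp only; omega, by simp only; omega, hv1.trans hv2.symm⟩
    choose! c hc1 hc2 hc3 using hex
    have hcard : (wordsF t (tl t) ×ˢ (Finset.range 2 ×ˢ Finset.range 2)).card ≤ 216 * 4 := by
      rw [Finset.card_product, Finset.card_product, Finset.card_range]
      exact Nat.mul_le_mul_right _ (moveB_card_words t)
    refine le_trans (Finset.card_le_card_of_injOn (fun y => (y.2, c y))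
      (t := wordsF t (tl t) ×ˢ (Finset.range 2 ×ˢ Finset.range 2)) ?_ ?_) hcard
    · intro y hy
      have hy0 := Finset.mem_coe.mp hy
      obtain ⟨hy1, hy2, hy3⟩ := Finset.mem_filter.mp hy0
      obtain ⟨y1, y2, y3, y4, y5⟩ := moveB_mem.mp hy1
      rw [Finset.mem_coe, Finset.mem_product, Finset.mem_product, Finset.mem_range,
        Finset.mem_range]
      exact ⟨(mem_wordsF _ _).mpr ⟨y2, y3⟩, hc1 y hy0, hc2 y hy0⟩
    · intro y hy z hz hyz
      have hy0 := Finset.mem_coe.mp hy
      have hz0 := Finset.mem_coe.mp hz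
      obtain ⟨hy1, _, _⟩ := Finset.mem_filter.mp hy0
      obtain ⟨hz1, _, _⟩ := Finset.mem_filter.mp hz0
      obtain ⟨y1, _, _, _, _⟩ := moveB_mem.mp hy1
      obtain ⟨z1, _, _, _, _⟩ := moveB_mem.mp hz1
      simp only [Prod.mk.injEq] at hyz
      have e1 := hc3 y hy0
      have e2 := hc3 z hz0
      rw [hyz.1, hyz.2, ← e2] at e1
      have e3 := add_right_cancel e1
      exact Prod.ext (pos_injOn hl.1 y1.le z1.le e3) hyz.1
  have hA := Finset.card_le_card hcov
  have hB := Finset.card_union_le (S1 ∪ S2) S3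
  have hC := Finset.card_union_le S1 S2
  omega

end Pool.Agent.SHK
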