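import Pool.Agent.SHK.SurgSmall

/-!
# Walks without turns are rare

`noturn_small`: let `F k = {l ∈ saws t | turns t l = 0, visits l j < k for all j ≤ |l|}`.  `F 1 = ∅`
(`visits l 0 ≥ 1`) is small.  Suppose `F k` is small, and let `m, a` be given by `block_small`.  Let
`l ∈ F (k+1)` with at least `a |l|` blocks of length `m` outside `F k`, `|l|` large.  A block
`b = (l.drop (q m)).take m` outside `F k` is in `saws t`, has no turn (`turns_factor_le`), so there is
`j' ≤ m` with `visits b j' ≥ k`; for `j = q m + j'` the walk `l` visits the box around `pos l j` at least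
`k` times in the time interval `[q m, (q+1) m]`, and at most `k` times in total as `l ∈ F (k+1)`; so all
visits are in `[q m, (q+1) m] ⊆ [j - m, j + m]` and `j` is `m`-good provided `q ≥ 2` and `q` is not among the
last three blocks.  An index `j` belongs to at most two blocks, so
`goods m l ≥ (a |l| - 5) / 2 ≥ (a / 4) |l|` for large `|l|`.  So for large `|l|` `F (k+1)` is contained in
the union of the small set of `block_small` and the small set of `surg_small`.  Hence `F 26` is small,
and `F 26` is the set of all words without turn since a box has `25` vertices.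
-/

namespace Pool.Agent.SHK

open Pool.Agent.SHP

variable {t : Bool}

/-- Walks without turns whose boxes are all visited less than `k` times. -/
def NTF (t : Bool) (k : ℕ) : Set (List (ℤ × ℤ)) :=
  {l | l ∈ saws t ∧ turns t l = 0 ∧ ∀ j ≤ l.length, visits l j < k}

theorem NTF_sub (t : Bool) (k : ℕ) : NTF t k ⊆ saws t := fun _ h => h.1

theorem NTF_pos_block (l : List (ℤ × ℤ)) {m q i : ℕ} (hi : i ≤ m) :
    pos l (q * m + i) = pos l (q * m) + pos ((l.drop (q * m)).take m) i := by
  unfold pos
  rw [List.take_take, min_eq_left hi, List.take_add, List.sum_append]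

theorem NTF_inBox_add (c p v : ℤ × ℤ) : InBox (v + c) (v + p) ↔ InBox c p := by
  unfold InBox
  rw [Prod.fst_add, Prod.fst_add, Prod.snd_add, Prod.snd_add,
    show v.1 + p.1 - (v.1 + c.1) = p.1 - c.1 by ring,
    show v.2 + p.2 - (v.2 + c.2) = p.2 - c.2 by ring]

/-- A block outside `NTF t k` contains a good index. -/
theorem NTF_block {k m : ℕ} (hm : 1 ≤ m) {l : List (ℤ × ℤ)} (hl : l ∈ NTF t (k + 1)) {q : ℕ}
    (hq2 : 2 ≤ q) (hq3 : q + 3 ≤ l.length / m) (hb : (l.drop (q * m)).take m ∉ NTF t k) :
    ∃ j, q * m ≤ j ∧ j ≤ (q + 1) * m ∧ Good m l j := by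
  obtain ⟨hls, hl0, hlv⟩ := hl
  have hlen : (q + 3) * m ≤ l.length :=
    (Nat.mul_le_mul_right m hq3).trans (Nat.div_mul_le_self _ _)
  have hlen' : q * m + 3 * m ≤ l.length := by rw [← add_mul]; exact hlen
  set b := (l.drop (q * m)).take m with hbdef
  have hbl : b.length = m := by
    rw [hbdef, List.length_take, List.length_drop]; omega
  have hsplit : l = l.take (q * m) ++ (b ++ (l.drop (q * m)).drop m) := by
    rw [hbdef, List.take_append_drop, List.take_append_drop]
  have hbs : b ∈ saws t := by
    rw [hsplit] at hls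
    exact saws_infix hls
  have hb0 : turns t b = 0 := by
    have h := turns_factor_le t (l.take (q * m)) b ((l.drop (q * m)).drop m)
    rw [← hsplit, hl0] at h
    omega
  have hex : ∃ j' ≤ b.length, k ≤ visits b j' := by
    by_contra hcon
    push Not at hcon
    exact hb ⟨hbs, hb0, hcon⟩
  obtain ⟨j', hj', hk⟩ := hex
  rw [hbl] at hj'
  have hqm : 2 * m ≤ q * m := Nat.mul_le_mul_right m hq2
  refine ⟨q * m + j', Nat.le_add_right _ _, by rw [add_mul]; omega, by omega, by omega, ?_⟩
  have hkl : visits l (q * m + j') ≤ k := by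
    have := hlv (q * m + j') (by omega)
    omega
  set Vb := (Finset.range (b.length + 1)).filter (fun i => InBox (pos b j') (pos b i)) with hVb
  set Vl := (Finset.range (l.length + 1)).filter
    (fun i => InBox (pos l (q * m + j')) (pos l i)) with hVl
  have hsub : Vb.image (fun i => q * m + i) ⊆ Vl := by
    intro i hi
    rw [Finset.mem_image] at hi
    obtain ⟨i', hi', rfl⟩ := hi
    rw [hVb, Finset.mem_filter, Finset.mem_range, hbl] at hi'
    rw [hVl, Finset.mem_filter, Finset.mem_range]
    refine ⟨by omega, ?_⟩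
    rw [NTF_pos_block l hj', NTF_pos_block l (by omega : i' ≤ m)]
    exact (NTF_inBox_add _ _ _).2 hi'.2
  have hcard : Vl.card ≤ (Vb.image (fun i => q * m + i)).card := by
    rw [Finset.card_image_of_injective _ (fun x y h => by simpa using h)]
    calc Vl.card = visits l (q * m + j') := rfl
      _ ≤ k := hkl
      _ ≤ visits b j' := hk
      _ = Vb.card := rfl
  have heq := Finset.eq_of_subset_of_card_le hsub hcard
  intro i hi hbox
  have hiV : i ∈ Vl := by
    rw [hVl, Finset.mem_filter, Finset.mem_range]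
    exact ⟨by omega, hbox⟩
  rw [← heq, Finset.mem_image] at hiV
  obtain ⟨i', hi', rfl⟩ := hiV
  rw [hVb, Finset.mem_filter, Finset.mem_range, hbl] at hi'
  omega

theorem NTF_goods {k m : ℕ} (hm : 1 ≤ m) {l : List (ℤ × ℤ)} (hl : l ∈ NTF t (k + 1)) :
    badBlocks (NTF t k) m l ≤ 2 * goods m l + 4 := by
  classical
  set Q := (Finset.range (l.length / m)).filter
    (fun q => (l.drop (q * m)).take m ∉ NTF t k) with hQ
  have hQc : badBlocks (NTF t k) m l = Q.card := by
    unfold badBlocks
    rw [hQ]
  set Q' := Q.filter (fun q => 2 ≤ q ∧ q + 3 ≤ l.length / m) with hQ'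
  have h1 : Q.card ≤ Q'.card + 4 := by
    have hsub : Q ⊆ Q' ∪ ({0, 1, l.length / m - 2, l.length / m - 1} : Finset ℕ) := by
      intro q hq
      rw [Finset.mem_union]
      by_cases hc : 2 ≤ q ∧ q + 3 ≤ l.length / m
      · left
        rw [hQ', Finset.mem_filter]
        exact ⟨hq, hc⟩
      · right
        rw [hQ, Finset.mem_filter, Finset.mem_range] at hq
        have := hq.1
        simp only [Finset.mem_insert, Finset.mem_singleton]
        omega
    calc Q.card ≤ _ := Finset.card_le_card hsub
      _ ≤ Q'.card + ({0, 1, l.length / m - 2, l.length / m - 1} : Finset ℕ).card :=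
          Finset.card_union_le _ _
      _ ≤ Q'.card + 4 := Nat.add_le_add_left Finset.card_le_four _
  have hex : ∀ q, ∃ j, q ∈ Q' → q * m ≤ j ∧ j ≤ (q + 1) * m ∧ Good m l j := by
    intro q
    by_cases hq : q ∈ Q'
    · have hq' := hq
      rw [hQ', Finset.mem_filter, hQ, Finset.mem_filter] at hq'
      obtain ⟨j, hj⟩ := NTF_block hm hl hq'.2.1 hq'.2.2 hq'.1.2
      exact ⟨j, fun _ => hj⟩
    · exact ⟨0, fun h => absurd h hq⟩
  choose f hf using hex
  have h2 : Q'.card ≤ 2 * (Q'.image f).card := by
    refine Finset.card_le_mul_card_image Q' 2 ?_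
    intro j hj
    have hsub : Q'.filter (fun q => f q = j) ⊆ Finset.Icc (j / m - 1) (j / m) := by
      intro q hq
      rw [Finset.mem_filter] at hq
      obtain ⟨hq, hqj⟩ := hq
      obtain ⟨ha, hb, -⟩ := hf q hq
      rw [hqj] at ha hb
      rw [Finset.mem_Icc]
      have h3 : q ≤ j / m := (Nat.le_div_iff_mul_le hm).2 ha
      have h4 : j / m ≤ q + 1 := (Nat.div_le_iff_le_mul_add_pred hm).2 (by
        rw [mul_comm m]; omega)
      omega
    refine (Finset.card_le_card hsub).trans ?_
    rw [Nat.card_Icc]
    omega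
  have h3 : (Q'.image f).card ≤ goods m l := by
    unfold goods
    refine Finset.card_le_card ?_
    intro j hj
    rw [Finset.mem_image] at hj
    obtain ⟨q, hq, rfl⟩ := hj
    obtain ⟨-, -, hg⟩ := hf q hq
    rw [Finset.mem_filter, Finset.mem_range]
    exact ⟨by have := hg.2.1; omega, hg⟩
  rw [hQc]
  omega

theorem NTF_small (t : Bool) (k : ℕ) : Small t (NTF t k) := by
  induction k with
  | zero =>
    have h : NTF t 0 = ∅ := by
      ext l
      simp only [Set.mem_empty_iff_false, iff_false]
      rintro ⟨-, -, h⟩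
      exact absurd (h 0 (Nat.zero_le _)) (Nat.not_lt_zero _)
    rw [h]
    exact small_empty t
  | succ k ih =>
    obtain ⟨m, hm, a, ha, hsm⟩ := block_small (NTF_sub t k) ih
    have h2 := surg_small t m (a := a / 4) (by positivity)
    have hA1 : {l | l ∈ saws t ∧ (badBlocks (NTF t k) m l : ℝ) < a * l.length} ⊆ saws t :=
      fun _ h => h.1
    have hA2 : {l | l ∈ saws t ∧ turns t l = 0 ∧ a / 4 * l.length ≤ goods m l} ⊆ saws t :=
      fun _ h => h.1
    refine small_of_eventually (NTF_sub t (k + 1)) (Set.union_subset hA1 hA2) ⌈8 / a⌉₊ ?_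
      (small_union hA1 hA2 hsm h2)
    intro l hl hN
    by_cases hc : (badBlocks (NTF t k) m l : ℝ) < a * l.length
    · exact Or.inl ⟨hl.1, hc⟩
    · right
      refine ⟨hl.1, hl.2.1, ?_⟩
      push Not at hc
      have hg : (badBlocks (NTF t k) m l : ℝ) ≤ 2 * goods m l + 4 := by
        exact_mod_cast NTF_goods hm hl
      have hN' : 8 / a ≤ l.length := (Nat.le_ceil _).trans (by exact_mod_cast hN)
      rw [div_le_iff₀ ha] at hN'
      linarith

theorem visits_lt {l : List (ℤ × ℤ)} (h : l ∈ saws t) (j : ℕ) : visits l j < 26 := by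
  have h1 : visits l j ≤ (Finset.Icc ((pos l j).1 - 2) ((pos l j).1 + 2) ×ˢ
      Finset.Icc ((pos l j).2 - 2) ((pos l j).2 + 2)).card := by
    unfold visits
    refine Finset.card_le_card_of_injOn (fun i => pos l i) ?_ ?_
    · intro i hi
      rw [Finset.mem_coe, Finset.mem_filter] at hi
      have := hi.2
      unfold InBox at this
      rw [abs_le, abs_le] at this
      rw [Finset.mem_coe, Finset.mem_product, Finset.mem_Icc, Finset.mem_Icc]
      refine ⟨⟨?_, ?_⟩, ?_, ?_⟩ <;> linarith [this.1.1, this.1.2, this.2.1, this.2.2]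
    · intro i hi i' hi' hii
      rw [Finset.mem_coe, Finset.mem_filter, Finset.mem_range] at hi hi'
      exact pos_injOn h (by omega) (by omega) hii
  have h2 : (Finset.Icc ((pos l j).1 - 2) ((pos l j).1 + 2) ×ˢ
      Finset.Icc ((pos l j).2 - 2) ((pos l j).2 + 2)).card = 25 := by
    rw [Finset.card_product, Int.card_Icc, Int.card_Icc,
      show (pos l j).1 + 2 + 1 - ((pos l j).1 - 2) = 5 by ring,
      show (pos l j).2 + 2 + 1 - ((pos l j).2 - 2) = 5 by ring]
    rfl
  omega

theorem noturn_small (t : Bool) : Small t {l | l ∈ saws t ∧ turns t l = 0} := by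
  refine small_subset (NTF_sub t 26) ?_ (NTF_small t 26)
  intro l hl
  exact ⟨hl.1, hl.2, fun j _ => visits_lt hl.1 j⟩

end Pool.Agent.SHK
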