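import Pool.Agent.SHK.Ineq
import Pool.Agent.SHK.KLem

/-!
# The ratio limit theorem for half-plane walks

* `ratio_tl`: `kesten_lemma` with `c = tl t - 1` (`2` for the square, `1` for the triangular lattice).
* `renewal_le`: the words `u ++ v`, `u ∈ irrs t` of length `k ≤ K`, `v ∈ halfs t` of length `n - k`, are
  pairwise different half-plane walks of length `n` (`irr_unique`, `bridge_append_half`).
-/

namespace Pool.Agent.SHK

open Pool.Agent.SHP

private theorem Ratio_mono (t : Bool) (n k : ℕ) : cnt (halfs t) n ≤ cnt (halfs t) (n + k) := by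
  induction k with
  | zero => exact le_rfl
  | succ k ih => exact ih.trans (cnt_halfs_mono t (n + k))

theorem ratio_tl (t : Bool) :
    Filter.Tendsto (fun n => (cnt (halfs t) (n + (tl t - 1)) : ℝ) / (cnt (halfs t) n : ℝ))
      Filter.atTop (nhds (mu t ^ (tl t - 1))) := by
  have hc : 1 ≤ tl t - 1 := by cases t <;> decide
  refine kesten_lemma (fun n => (cnt (halfs t) n : ℝ)) (mu t)
    (lt_of_lt_of_le one_pos (one_le_mu t)) (tl t - 1) hc ?_ ?_ ?_ ?_ ?_
  · intro n
    exact_mod_cast cnt_halfs_pos t n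
  · intro n
    exact_mod_cast Ratio_mono t n (tl t - 1)
  · intro δ hδ
    exact halfs_up t hδ
  · intro δ hδ hδ'
    exact halfs_low t hδ hδ'
  · exact second_order t

theorem renewal_le (t : Bool) (K n : ℕ) (hK : K ≤ n) :
    ∑ k ∈ Finset.range (K + 1), cnt (irrs t) k * cnt (halfs t) (n - k) ≤ cnt (halfs t) n := by
  classical
  have hfA : ∀ k, {l | l ∈ irrs t ∧ l.length = k}.Finite := fun k =>
    finite_words (irrs t) (fun l hl => hl.1.1.1.1) k
  have hfB : ∀ k, {l | l ∈ halfs t ∧ l.length = k}.Finite := fun k =>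
    finite_words (halfs t) (fun l hl => hl.1.1) k
  have hA : ∀ k, cnt (irrs t) k = (hfA k).toFinset.card := fun k =>
    Set.ncard_eq_toFinset_card _ (hfA k)
  have hB : ∀ k, cnt (halfs t) k = (hfB k).toFinset.card := fun k =>
    Set.ncard_eq_toFinset_card _ (hfB k)
  simp only [hA, hB, ← Finset.card_product]
  rw [← Finset.card_sigma]
  refine Finset.card_le_card_of_injOn (fun x => x.2.1 ++ x.2.2) ?_ ?_
  · rintro ⟨k, u, v⟩ hx
    simp only [Finset.mem_coe, Finset.mem_sigma, Finset.mem_range, Finset.mem_product,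
      Set.Finite.mem_toFinset, Set.mem_ofPred_eq] at hx ⊢
    obtain ⟨hk, ⟨hu, hul⟩, hv, hvl⟩ := hx
    refine ⟨bridge_append_half hu.1 hv, ?_⟩
    rw [List.length_append, hul, hvl]
    omega
  · rintro ⟨k, u, v⟩ hx ⟨k', u', v'⟩ hx' h
    simp only [Finset.mem_coe, Finset.mem_sigma, Finset.mem_range, Finset.mem_product,
      Set.Finite.mem_toFinset, Set.mem_ofPred_eq] at hx hx' h
    obtain ⟨hk, ⟨hu, hul⟩, hv, hvl⟩ := hx
    obtain ⟨hk', ⟨hu', hul'⟩, hv', hvl'⟩ := hx'
    obtain ⟨h1, h2⟩ := irr_unique hu hu' hv hv' h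
    subst h1 h2
    have h3 : k = k' := hul.symm.trans hul'
    subst h3
    rfl

end Pool.Agent.SHK
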