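import Pool.Agent.SHK.Ratio

/-!
# The ratio limit for one step

* `ratio_one` for the triangular lattice is `ratio_tl`.  For the square lattice: `h (n+2) / h n → mu^2`.
  Put `r n = mu * h n / h (n+1)`.  `r n * r (n+1) = mu^2 h n / h (n+2) → 1`.  Let
  `λ k = cnt (irrs t) k`; `∑ λ k mu^(-k) = 1` (`kesten`, `gf_eq_cnt`, `zc_mul_mu`).  Given `δ > 0` choose `K`
  with `∑_{k ≤ K} λ k mu^(-k) ≥ 1 - δ`, and let `E`, `O` be the sums over the even and odd `k ≤ K`;
  `O ≥ λ 1 / mu = 1 / mu` (the word `[(1,0)]`).  By `renewal_le` for `n + 1` in place of `n`, divided by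
  `h (n+1)`: even `k`: `h (n+1-k) / h (n+1) → mu^(-k)`; odd `k`:
  `h (n+1-k) / h (n+1) = (h (n - (k-1)) / h n) (h n / h (n+1)) = mu^(-(k-1)) (1 + o(1)) r n / mu`.  So
  `1 ≥ E + r n O (1 - o(1)) - o(1)` (`r n ≤ mu` is bounded), hence
  `limsup r n ≤ (1 - E) / O ≤ (O + δ) / O ≤ 1 + δ mu`.  So `limsup r n ≤ 1`, and `r n r (n+1) → 1`
  gives `liminf r n ≥ 1`.
* `ratio_shift`: `h (n - k) / h n → mu^(-k) = zc^k` for fixed `k` (iterate `ratio_one`).
-/

namespace Pool.Agent.SHK

open Pool.Agent.SHP Filter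

open scoped ENNReal NNReal

private theorem RatioB_ne {h : ℕ → ℝ} {d : ℕ} {M : ℝ} (hM : M ≠ 0)
    (hl : Tendsto (fun n => h (n + d) / h n) atTop (nhds M)) : ∀ᶠ n in atTop, h n ≠ 0 := by
  have h1 := hl.eventually_ne hM
  filter_upwards [h1] with n hn h0
  rw [h0, div_zero] at hn
  exact hn rfl

private theorem RatioB_shift {h : ℕ → ℝ} {d : ℕ} {M : ℝ} (hM : M ≠ 0)
    (hl : Tendsto (fun n => h (n + d) / h n) atTop (nhds M)) (j : ℕ) :
    Tendsto (fun n => h (n - d * j) / h n) atTop (nhds ((M⁻¹) ^ j)) := by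
  have hne := RatioB_ne hM hl
  induction j with
  | zero =>
    rw [pow_zero]
    refine tendsto_const_nhds.congr' ?_
    filter_upwards [hne] with n hn
    rw [Nat.mul_zero, Nat.sub_zero, div_self hn]
  | succ j ih =>
    have hs : Tendsto (fun n : ℕ => n - d) atTop atTop := tendsto_sub_atTop_nat d
    have h1 := ih.comp hs
    have h2 := (hl.inv₀ hM).comp hs
    have h3 := h1.mul h2
    rw [← pow_succ] at h3
    refine h3.congr' ?_
    filter_upwards [hs.eventually hne, eventually_ge_atTop d] with n hn hd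
    simp only [Function.comp]
    have h4 : n - d * (j + 1) = n - d - d * j := by
      rw [Nat.mul_succ]
      omega
    rw [Nat.sub_add_cancel hd, h4, inv_div]
    field_simp

private theorem RatioB_irr_one (t : Bool) : 1 ≤ cnt (irrs t) 1 := by
  have hsteps : ∀ l ∈ irrs t, ∀ s ∈ l, s ∈ steps t := fun l hl => hl.1.1.1.1
  have hne : ∀ u v : List (ℤ × ℤ), [((1, 0) : ℤ × ℤ)] = u ++ v →
      (u = [] ∧ v = [(1, 0)]) ∨ (u = [(1, 0)] ∧ v = []) := by
    intro u v h
    cases u with
    | nil => exact Or.inl ⟨rfl, by simpa using h.symm⟩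
    | cons a u =>
      right
      rw [List.cons_append, List.cons.injEq] at h
      obtain ⟨h1, h2⟩ := h
      have h3 := List.append_eq_nil_iff.1 h2.symm
      exact ⟨by rw [← h1, h3.1], h3.2⟩
  have hmem : [((1, 0) : ℤ × ℤ)] ∈ irrs t := by
    refine ⟨⟨⟨⟨?_, ?_⟩, ?_⟩, ?_⟩, ?_, ?_⟩
    · intro s hs
      rw [List.mem_singleton] at hs
      rw [hs]
      cases t <;> decide
    · intro u v w h hv
      rcases hne _ _ h with ⟨_, h2⟩ | ⟨_, h2⟩
      · rcases hne _ _ h2.symm with ⟨h3, _⟩ | ⟨h3, _⟩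
        · exact h3
        · rw [h3] at hv
          exact absurd (congrArg Prod.fst hv) (by simp)
      · exact (List.append_eq_nil_iff.1 h2).1
    · intro u v h hu
      rcases hne _ _ h with ⟨h1, _⟩ | ⟨h1, _⟩
      · exact absurd h1 hu
      · rw [h1]
        simp
    · intro u v h
      rcases hne _ _ h with ⟨_, h1⟩ | ⟨_, h1⟩
      · rw [h1]
        simp
      · rw [h1]
        simp
    · simp
    · intro u v h _ _
      rcases hne _ _ h with ⟨h1, _⟩ | ⟨_, h1⟩
      · exact Or.inl h1
      · exact Or.inr h1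
  unfold cnt
  exact (Set.ncard_pos (finite_words (t := t) (irrs t) hsteps 1)).2 ⟨_, hmem, rfl⟩

private theorem RatioB_kesten (t : Bool) :
    Tendsto (fun K : ℕ => ∑ k ∈ Finset.range K, (cnt (irrs t) k : ℝ) * (zc t : ℝ) ^ k) atTop
      (nhds 1) := by
  have hsteps : ∀ l ∈ irrs t, ∀ s ∈ l, s ∈ steps t := fun l hl => hl.1.1.1.1
  have h1 := ENNReal.tendsto_nat_tsum
    (fun n : ℕ => (cnt (irrs t) n : ℝ≥0∞) * (zc t : ℝ≥0∞) ^ n)
  rw [← gf_eq_cnt hsteps, kesten] at h1
  have h2 := (ENNReal.tendsto_toReal ENNReal.one_ne_top).comp h1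
  rw [ENNReal.toReal_one] at h2
  refine h2.congr fun K => ?_
  simp only [Function.comp]
  rw [ENNReal.toReal_sum]
  · refine Finset.sum_congr rfl fun k _ => ?_
    rw [ENNReal.toReal_mul, ENNReal.toReal_pow, ENNReal.toReal_natCast, ENNReal.coe_toReal]
  · intro k _
    exact ENNReal.mul_ne_top (ENNReal.natCast_ne_top _) (ENNReal.pow_ne_top ENNReal.coe_ne_top)

private theorem RatioB_mu_pos (t : Bool) : 0 < mu t := lt_of_lt_of_le one_pos (one_le_mu t)

private theorem RatioB_zc (t : Bool) : (zc t : ℝ) = (mu t)⁻¹ :=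
  eq_inv_of_mul_eq_one_left (zc_mul_mu t)

/-- the main step for the square lattice -/
private theorem RatioB_upper {δ : ℝ} (hδ : 0 < δ) :
    ∀ᶠ n in atTop, (cnt (halfs false) n : ℝ) / (cnt (halfs false) (n + 1) : ℝ) <
      (zc false : ℝ) + 2 * δ := by
  set h : ℕ → ℝ := fun n => (cnt (halfs false) n : ℝ) with hh
  set q : ℝ := (zc false : ℝ) with hq
  set lam : ℕ → ℝ := fun k => (cnt (irrs false) k : ℝ) with hlam
  have hq0 : 0 < q := by
    have := zc_pos false
    exact_mod_cast this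
  have hmu := RatioB_mu_pos false
  have hqmu : q = (mu false)⁻¹ := RatioB_zc false
  have h2 : Tendsto (fun n => h (n + 2) / h n) atTop (nhds (mu false ^ 2)) := by
    have := ratio_tl false
    simpa [tl] using this
  have hM : (mu false ^ 2) ≠ 0 := by positivity
  have hne := RatioB_ne hM h2
  have hsh : ∀ j, Tendsto (fun n => h (n - 2 * j) / h n) atTop (nhds (q ^ (2 * j))) := by
    intro j
    have h3 := RatioB_shift hM h2 j
    rwa [show ((mu false ^ 2)⁻¹) ^ j = q ^ (2 * j) by
      rw [hqmu, inv_pow, inv_pow, ← pow_mul]] at h3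
  -- choose K
  obtain ⟨K, hK2, hK⟩ : ∃ K : ℕ, 1 ≤ K ∧
      1 - δ < ∑ k ∈ Finset.range (K + 1), lam k * q ^ k := by
    have h3 := (RatioB_kesten false).eventually (lt_mem_nhds (show (1 - δ : ℝ) < 1 by linarith))
    obtain ⟨N, hN⟩ := eventually_atTop.1 h3
    exact ⟨N + 1, by omega, hN (N + 1 + 1) (by omega)⟩
  set S := Finset.range (K + 1) with hS
  set Ev := S.filter (fun k => Even k) with hEv
  set Od := S.filter (fun k => ¬ Even k) with hOd
  have hE : Tendsto (fun n => ∑ k ∈ Ev, lam k * (h (n + 1 - k) / h (n + 1))) atTop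
      (nhds (∑ k ∈ Ev, lam k * q ^ k)) := by
    refine tendsto_finsetSum _ fun k hk => ?_
    rw [hEv, Finset.mem_filter] at hk
    obtain ⟨j, hj⟩ := hk.2
    have hj' : k = 2 * j := by omega
    rw [hj']
    exact ((hsh j).comp (tendsto_add_atTop_nat 1)).const_mul _
  have hO : Tendsto (fun n => ∑ k ∈ Od, lam k * (h (n - (k - 1)) / h n)) atTop
      (nhds (∑ k ∈ Od, lam k * q ^ (k - 1))) := by
    refine tendsto_finsetSum _ fun k hk => ?_
    rw [hOd, Finset.mem_filter, Nat.not_even_iff_odd] at hk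
    obtain ⟨j, hj⟩ := hk.2
    have hj' : k - 1 = 2 * j := by omega
    rw [hj']
    exact (hsh j).const_mul _
  set E := ∑ k ∈ Ev, lam k * q ^ k with hEdef
  set O := ∑ k ∈ Od, lam k * q ^ (k - 1) with hOdef
  have hEO : 1 - δ < E + q * O := by
    have h3 : E + q * O = ∑ k ∈ S, lam k * q ^ k := by
      rw [← Finset.sum_filter_add_sum_filter_not S (fun k => Even k), hOdef, Finset.mul_sum]
      congr 1
      refine Finset.sum_congr rfl fun k hk => ?_
      rw [Finset.mem_filter, Nat.not_even_iff_odd] at hk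
      obtain ⟨j, hj⟩ := hk.2
      rw [hj, show 2 * j + 1 - 1 = 2 * j by omega, pow_succ]
      ring
    rw [h3]
    exact hK
  have hO1 : 1 ≤ O := by
    have h3 : (1 : ℕ) ∈ Od := by
      rw [hOd, hS, Finset.mem_filter, Finset.mem_range]
      exact ⟨by omega, by decide⟩
    have h4 : lam 1 * q ^ (1 - 1) ≤ O :=
      Finset.single_le_sum (f := fun k => lam k * q ^ (k - 1)) (fun k _ => by positivity) h3
    have h5 : (1 : ℝ) ≤ lam 1 := by
      have h6 : ((1 : ℕ) : ℝ) ≤ ((cnt (irrs false) 1 : ℕ) : ℝ) :=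
        Nat.cast_le.2 (RatioB_irr_one false)
      rw [Nat.cast_one] at h6
      exact h6
    simpa using h5.trans (by simpa using h4)
  have hlim : Tendsto (fun n => (1 - ∑ k ∈ Ev, lam k * (h (n + 1 - k) / h (n + 1))) /
      (∑ k ∈ Od, lam k * (h (n - (k - 1)) / h n))) atTop (nhds ((1 - E) / O)) :=
    (tendsto_const_nhds.sub hE).div hO (by linarith)
  have hlt : (1 - E) / O < q + 2 * δ := by
    rw [div_lt_iff₀ (by linarith)]
    nlinarith
  have hev := hlim.eventually (gt_mem_nhds hlt)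
  have hOpos := hO.eventually (lt_mem_nhds (show (0 : ℝ) < O by linarith))
  filter_upwards [hev, hOpos, hne, (tendsto_add_atTop_nat 1).eventually hne,
    eventually_ge_atTop K] with n h3 h4 h5 h6 h7
  have h8 := renewal_le false K (n + 1) (by omega)
  have h9 : ∑ k ∈ S, lam k * h (n + 1 - k) ≤ h (n + 1) := by
    have := h8
    have h10 : ((∑ k ∈ Finset.range (K + 1), cnt (irrs false) k * cnt (halfs false) (n + 1 - k) : ℕ)
      : ℝ) ≤ (cnt (halfs false) (n + 1) : ℝ) := by exact_mod_cast this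
    push_cast at h10
    exact h10
  have hpos : 0 < h (n + 1) := lt_of_le_of_ne (by positivity) (Ne.symm h6)
  rw [← Finset.sum_filter_add_sum_filter_not S (fun k => Even k)] at h9
  have h11 : (∑ k ∈ Ev, lam k * (h (n + 1 - k) / h (n + 1))) +
      (h n / h (n + 1)) * ∑ k ∈ Od, lam k * (h (n - (k - 1)) / h n) ≤ 1 := by
    have h12 : (∑ k ∈ Ev, lam k * (h (n + 1 - k) / h (n + 1))) +
      (h n / h (n + 1)) * ∑ k ∈ Od, lam k * (h (n - (k - 1)) / h n) =
      (∑ k ∈ Ev, lam k * h (n + 1 - k) + ∑ k ∈ Od, lam k * h (n + 1 - k)) / h (n + 1) := by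
      rw [add_div, Finset.sum_div, Finset.sum_div, Finset.mul_sum]
      congr 1
      · refine Finset.sum_congr rfl fun k _ => ?_
        rw [mul_div_assoc]
      · refine Finset.sum_congr rfl fun k hk => ?_
        rw [hOd, Finset.mem_filter, Nat.not_even_iff_odd] at hk
        obtain ⟨j, hj⟩ := hk.2
        rw [show n - (k - 1) = n + 1 - k by omega]
        field_simp
    rw [h12, div_le_one hpos]
    exact h9
  have h13 : h n / h (n + 1) ≤ (1 - ∑ k ∈ Ev, lam k * (h (n + 1 - k) / h (n + 1))) /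
      (∑ k ∈ Od, lam k * (h (n - (k - 1)) / h n)) := by
    rw [le_div_iff₀ h4]
    linarith
  exact lt_of_le_of_lt h13 h3

private theorem RatioB_false :
    Tendsto (fun n => (cnt (halfs false) n : ℝ) / (cnt (halfs false) (n + 1) : ℝ)) atTop
      (nhds (zc false : ℝ)) := by
  set h : ℕ → ℝ := fun n => (cnt (halfs false) n : ℝ) with hh
  set q : ℝ := (zc false : ℝ) with hq
  have hq0 : 0 < q := by
    have := zc_pos false
    exact_mod_cast this
  have hmu := RatioB_mu_pos false
  have hqmu : q = (mu false)⁻¹ := RatioB_zc false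
  have h2 : Tendsto (fun n => h (n + 2) / h n) atTop (nhds (mu false ^ 2)) := by
    have := ratio_tl false
    simpa [tl] using this
  have hM : (mu false ^ 2) ≠ 0 := by positivity
  have hne := RatioB_ne hM h2
  have hprod : Tendsto (fun n => (h n / h (n + 1)) * (h (n + 1) / h (n + 2))) atTop
      (nhds (q ^ 2)) := by
    have h3 := h2.inv₀ hM
    rw [show (mu false ^ 2)⁻¹ = q ^ 2 by rw [hqmu, inv_pow]] at h3
    refine h3.congr' ?_
    filter_upwards [(tendsto_add_atTop_nat 1).eventually hne] with n hn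
    rw [inv_div, div_mul_div_cancel₀ hn]
  refine tendsto_order.2 ⟨fun a ha => ?_, fun a ha => ?_⟩
  · -- lower bound
    by_cases ha0 : a < 0
    · exact Eventually.of_forall fun n => lt_of_lt_of_le ha0 (by positivity)
    push Not at ha0
    have h3 : a * q < q ^ 2 := by nlinarith
    -- choose δ with a (q + 2δ) < q^2
    obtain ⟨δ, hδ, hδ2⟩ : ∃ δ : ℝ, 0 < δ ∧ a * (q + 2 * δ) < q ^ 2 := by
      refine ⟨(q ^ 2 - a * q) / (4 * (a + 1)), by apply div_pos <;> linarith, ?_⟩
      have h4 : a * (2 * ((q ^ 2 - a * q) / (4 * (a + 1)))) < q ^ 2 - a * q := by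
        have h5 : a * (2 * ((q ^ 2 - a * q) / (4 * (a + 1)))) =
            (q ^ 2 - a * q) * (a / (2 * (a + 1))) := by
          field_simp
          ring
        rw [h5]
        have h6 : a / (2 * (a + 1)) < 1 := by
          rw [div_lt_one (by linarith)]
          linarith
        have h7 : 0 < q ^ 2 - a * q := by linarith
        nlinarith
      linarith
    have h4 := hprod.eventually (lt_mem_nhds hδ2)
    have h5 := RatioB_upper hδ
    have h6 : ∀ᶠ n in atTop, a < h (n + 1) / h (n + 2) := by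
      filter_upwards [h4, h5] with n h7 h8
      by_contra hcon
      push Not at hcon
      have h9 : 0 ≤ h n / h (n + 1) := by positivity
      have h10 : 0 ≤ h (n + 1) / h (n + 2) := by positivity
      have h11 : (h n / h (n + 1)) * (h (n + 1) / h (n + 2)) ≤ (q + 2 * δ) * a :=
        mul_le_mul h8.le hcon h10 (by linarith)
      linarith
    rw [← map_add_atTop_eq_nat 1, eventually_map]
    exact h6
  · have h3 := RatioB_upper (show 0 < (a - q) / 2 by linarith)
    filter_upwards [h3] with n h4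
    linarith

theorem ratio_one (t : Bool) :
    Filter.Tendsto (fun n => (cnt (halfs t) (n + 1) : ℝ) / (cnt (halfs t) n : ℝ))
      Filter.atTop (nhds (mu t)) := by
  cases t with
  | true =>
    have := ratio_tl true
    simpa [tl] using this
  | false =>
    have h1 := RatioB_false.inv₀ (by
      have := zc_pos false
      exact_mod_cast this.ne')
    rw [RatioB_zc, inv_inv] at h1
    refine h1.congr fun n => ?_
    rw [inv_div]

theorem ratio_shift (t : Bool) (k : ℕ) :
    Filter.Tendsto (fun n => (cnt (halfs t) (n - k) : ℝ) / (cnt (halfs t) n : ℝ))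
      Filter.atTop (nhds ((zc t : ℝ) ^ k)) := by
  have h1 := RatioB_shift (h := fun n => (cnt (halfs t) n : ℝ)) (RatioB_mu_pos t).ne'
    (ratio_one t) k
  rw [← RatioB_zc] at h1
  simpa using h1

end Pool.Agent.SHK
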