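import Pool.Agent.SHK.Defs

/-!
# A path with a turn inside the box of radius two between two given boundary points

Paper proof.  By translation `c = 0`.  The `16` points of the ring `max(|x|,|y|) = 2` form a cycle
`R_0, ..., R_15` (consecutive ones adjacent in the square lattice, which is a subgraph of the
triangular lattice).  Given `x = R_i ≠ y = R_j`, walk along the ring from `x` to `y` in the direction
in which the walk has at least `8` steps.  Among any three consecutive edges of the ring at least one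
is not at a corner; replace such an edge `p q` by the detour inside the box: square lattice
`p, p', q', q` with `p', q'` the inner neighbours of `p, q`; triangular lattice `p, r, q` with `r` the
inner vertex of a triangle with the edge `p q`.  The inner vertices lie on the ring of radius one.
Length at most `17 + 2` vertices.  Suggested: an explicit table / function of `(i, j)` and
`decide` (or `native`-free `Fin` case bashing) for `c = 0`, then translate.
-/

namespace Pool.Agent.SHK

open Pool.Agent.SHP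

variable {t : Bool}

/-- The boundary of the box of radius two. -/
def OnRing (c p : ℤ × ℤ) : Prop :=
  InBox c p ∧ ¬ (|p.1 - c.1| ≤ 1 ∧ |p.2 - c.2| ≤ 1)

/-- The points of the ring around the origin. -/
def Ring_pt (i : ℕ) : ℤ × ℤ :=
  match i with
  | 0 => (2, 0) | 1 => (2, 1) | 2 => (2, 2) | 3 => (1, 2)
  | 4 => (0, 2) | 5 => (-1, 2) | 6 => (-2, 2) | 7 => (-2, 1)
  | 8 => (-2, 0) | 9 => (-2, -1) | 10 => (-2, -2) | 11 => (-1, -2)
  | 12 => (0, -2) | 13 => (1, -2) | 14 => (2, -2) | _ => (2, -1)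

/-- The steps, numbered. -/
def Ring_dir (i : ℕ) (p : ℤ × ℤ) : ℤ × ℤ :=
  match i with
  | 1 => (p.1 + 1, p.2) | 2 => (p.1 - 1, p.2) | 3 => (p.1, p.2 + 1) | 4 => (p.1, p.2 - 1)
  | 5 => (p.1 + 1, p.2 - 1) | _ => (p.1 - 1, p.2 + 1)

/-- Decoding of a path: the digits to the base 8 are the numbers of the steps. -/
def Ring_dec : ℕ → ℕ → ℤ × ℤ → List (ℤ × ℤ)
  | 0, _, p => [p]
  | f + 1, N, p => if N = 0 then [p] else p :: Ring_dec f (N / 8) (Ring_dir (N % 8) p)

/-- The codes of the paths in the square lattice. -/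
def Ring_tabF : List ℕ := [
    0, 90, 1626, 13010, 104082, 832658, 5026962, 1128082, 140946, 1189522, 5293202, 1098898, 137362, 17170, 2146, 98,
    98, 0, 90, 722, 5778, 46226, 895122, 140946, 1189522, 5293202, 72402066, 9487506, 1185938, 148242, 18530, 2146,
    2146, 98, 0, 212, 1698, 13586, 108690, 870546, 5293202, 72402066, 609272978, 76596370, 9574546, 1196818, 149602, 18530,
    6305, 610, 204, 0, 212, 1698, 13586, 74913, 1123489, 9512097, 76620961, 9577633, 1197217, 149665, 1185953, 137377,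
    50441, 13089, 1633, 204, 0, 212, 1698, 9377, 140449, 1189025, 9577633, 1197217, 149665, 1197321, 9487625, 1099017,
    403529, 104713, 13065, 1633, 204, 0, 212, 1185, 17569, 148641, 1197217, 149665, 1197321, 9578569, 75901001, 8792137,
    3228233, 837705, 104521, 13065, 1633, 204, 0, 161, 2209, 18593, 149665, 1197321, 9578569, 76628553, 607208009, 70337097,
    1185353, 136777, 890953, 78409, 9801, 1225, 153, 0, 161, 2209, 18593, 148745, 1189961, 9519689, 70337097, 3228233,
    136777, 1095241, 2961993, 864841, 108105, 13513, 1689, 153, 0, 161, 2209, 17673, 141385, 1131081, 3228233, 1185353,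
    1095241, 2961993, 53293641, 7156297, 894537, 111817, 13977, 1689, 153, 0, 161, 1289, 10313, 82505, 1185353, 136777,
    2961993, 53293641, 455946825, 57487945, 7185993, 898249, 112281, 13977, 1689, 153, 0, 267, 2137, 17097, 136777, 1095241,
    370249, 6661705, 56993353, 7185993, 898249, 112281, 898201, 111769, 13465, 1177, 275, 0, 267, 2137, 17097, 136905,
    46281, 832713, 7124169, 898249, 112281, 898201, 7185561, 894105, 107673, 9369, 2202, 275, 0, 267, 2137, 17113,
    5785, 104089, 890521, 112281, 898201, 7185561, 57484441, 7152793, 861337, 74905, 17618, 2202, 275, 0, 267, 602,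
    1626, 13914, 112218, 897746, 7181970, 57455762, 458011794, 55358610, 5026962, 1128082, 140946, 17618, 2202, 275, 0, 90,
    90, 1626, 13914, 111314, 890514, 7124114, 55358610, 5026962, 1128082, 140946, 1189522, 50322, 6290, 786, 98, 0]

/-- The codes of the paths in the triangular lattice. -/
def Ring_tabT : List ℕ := [
    0, 14, 115, 218, 410, 3282, 26258, 13458, 26770, 87186, 705682, 152722, 19090, 2386, 298, 42,
    42, 0, 14, 26, 210, 1682, 13458, 26770, 87186, 705682, 5653650, 1201298, 150162, 18770, 2346, 298,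
    298, 42, 0, 52, 418, 3346, 26770, 87186, 705682, 5653650, 45237394, 9589906, 1198738, 149842, 18730, 2346,
    289, 33, 29, 0, 52, 418, 3346, 10898, 88210, 706706, 5654674, 1198738, 149842, 18730, 18721, 2337,
    353, 265, 233, 29, 0, 52, 418, 1362, 11026, 88338, 706834, 149842, 18730, 18721, 22817, 2849,
    2825, 2121, 1865, 233, 29, 0, 52, 170, 1378, 11042, 88354, 18730, 18721, 22817, 23329, 2913,
    22601, 16969, 14921, 1865, 233, 29, 0, 21, 172, 1380, 11044, 18721, 22817, 23329, 23393, 23305,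
    16969, 22089, 57929, 25161, 3145, 393, 49, 0, 21, 172, 1380, 2337, 2849, 2913, 23305, 22601,
    22089, 57929, 471625, 123465, 15433, 1929, 241, 49, 0, 21, 172, 289, 353, 2825, 22601, 16969,
    57929, 471625, 3781193, 909897, 113737, 14217, 1777, 241, 49, 0, 21, 33, 265, 2121, 16969, 22089,
    471625, 3781193, 30257737, 7201353, 900169, 112521, 14065, 1777, 241, 49, 0, 43, 345, 2761, 22089, 57929,
    58953, 472649, 3782217, 900169, 112521, 14065, 26353, 3313, 433, 26, 38, 0, 43, 345, 2761, 7241,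
    7369, 59081, 472777, 112521, 14065, 26353, 27889, 3505, 410, 210, 306, 38, 0, 43, 345, 905,
    921, 7385, 59097, 14065, 26353, 27889, 28081, 3482, 3282, 1682, 2450, 306, 38, 0, 43, 113,
    115, 923, 7387, 14042, 26330, 27866, 28058, 27858, 26258, 13458, 19602, 2450, 306, 38, 0, 14,
    14, 115, 923, 1754, 3290, 3482, 27858, 26258, 13458, 26770, 87186, 21650, 2706, 338, 42, 0]

/-- The path from the `i`-th to the `j`-th point of the ring. -/
def Ring_path (t : Bool) (i j : ℕ) : List (ℤ × ℤ) :=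
  Ring_dec 12 ((if t then Ring_tabT else Ring_tabF).getD (16 * i + j) 0) (Ring_pt i)

/-- Boolean adjacency. -/
def Ring_adj (t : Bool) (p q : ℤ × ℤ) : Bool :=
  let a := q.1 - p.1
  let b := q.2 - p.2
  (a == 1 && b == 0) || (a == -1 && b == 0) || (a == 0 && b == 1) || (a == 0 && b == -1) ||
    (t && ((a == 1 && b == -1) || (a == -1 && b == 1)))

/-- Boolean chain test. -/
def Ring_chain (t : Bool) : List (ℤ × ℤ) → Bool
  | [] => true
  | [_] => true
  | p :: q :: l => Ring_adj t p q && Ring_chain t (q :: l)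

/-- Boolean equality of points. -/
def Ring_eq (p q : ℤ × ℤ) : Bool := p.1 == q.1 && p.2 == q.2

/-- Boolean test for repetitions. -/
def Ring_nodup : List (ℤ × ℤ) → Bool
  | [] => true
  | p :: l => l.all (fun q => !Ring_eq p q) && Ring_nodup l

/-- Boolean test for the box. -/
def Ring_box (p : ℤ × ℤ) : Bool :=
  decide (-2 ≤ p.1) && decide (p.1 ≤ 2) && decide (-2 ≤ p.2) && decide (p.2 ≤ 2)

/-- The complete test. -/
def Ring_test (t : Bool) (i j : ℕ) : Bool :=
  let B := Ring_path t i j
  (match B.head? with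
    | some p => Ring_eq p (Ring_pt i)
    | none => false) &&
  (match B.getLast? with
    | some p => Ring_eq p (Ring_pt j)
    | none => false) &&
  Ring_chain t B && Ring_nodup B && B.all Ring_box &&
  (B.zip (B.drop (tl t))).any (fun pq => Ring_adj t pq.1 pq.2) && decide (B.length ≤ 25)

theorem Ring_adj_iff (t : Bool) (p q : ℤ × ℤ) : Ring_adj t p q = true ↔ Adj t p q := by
  rcases p with ⟨p1, p2⟩
  rcases q with ⟨q1, q2⟩
  cases t <;>
    simp [Ring_adj, Adj, steps, Prod.ext_iff]
  all_goals tauto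

theorem Ring_chain_iff (t : Bool) (L : List (ℤ × ℤ)) (h : Ring_chain t L = true) :
    L.IsChain (Adj t) := by
  induction L with
  | nil => exact List.IsChain.nil
  | cons p L ih =>
    cases L with
    | nil => exact List.IsChain.singleton p
    | cons q l =>
      simp only [Ring_chain, Bool.and_eq_true] at h
      exact List.IsChain.cons_cons ((Ring_adj_iff t p q).1 h.1) (ih h.2)

theorem Ring_eq_iff (p q : ℤ × ℤ) : Ring_eq p q = true ↔ p = q := by
  rcases p with ⟨p1, p2⟩
  rcases q with ⟨q1, q2⟩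
  simp [Ring_eq]

theorem Ring_nodup_iff (L : List (ℤ × ℤ)) (h : Ring_nodup L = true) : L.Nodup := by
  induction L with
  | nil => exact List.nodup_nil
  | cons p L ih =>
    simp only [Ring_nodup, Bool.and_eq_true, List.all_eq_true, Bool.not_eq_true'] at h
    refine List.nodup_cons.2 ⟨fun hp => ?_, ih h.2⟩
    have h1 := h.1 p hp
    rw [(Ring_eq_iff p p).2 rfl] at h1
    exact absurd h1 (by decide)

set_option maxRecDepth 100000 in
theorem Ring_test_all : ∀ t : Bool, ∀ i : Fin 16, ∀ j : Fin 16, i ≠ j →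
    Ring_test t (i : ℕ) (j : ℕ) = true := by
  decide +kernel

theorem Ring_pt_surj {p : ℤ × ℤ} (h : OnRing 0 p) : ∃ i : Fin 16, Ring_pt (i : ℕ) = p := by
  rcases p with ⟨a, b⟩
  obtain ⟨⟨h1, h2⟩, h3⟩ := h
  simp only [Prod.fst_zero, Prod.snd_zero, sub_zero] at h1 h2 h3
  rw [abs_le] at h1 h2
  obtain ⟨h1a, h1b⟩ := h1
  obtain ⟨h2a, h2b⟩ := h2
  have key : ∀ a ∈ Finset.Icc (-2 : ℤ) 2, ∀ b ∈ Finset.Icc (-2 : ℤ) 2, ¬ (|a| ≤ 1 ∧ |b| ≤ 1) →
      ∃ i : Fin 16, Ring_pt (i : ℕ) = (a, b) := by
    decide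
  exact key a (Finset.mem_Icc.2 ⟨h1a, h1b⟩) b (Finset.mem_Icc.2 ⟨h2a, h2b⟩) h3

theorem Ring_zero (t : Bool) {x y : ℤ × ℤ} (hx : OnRing 0 x) (hy : OnRing 0 y) (hxy : x ≠ y) :
    ∃ B : List (ℤ × ℤ), B.head? = some x ∧ B.getLast? = some y ∧ B.IsChain (Adj t) ∧
      B.Nodup ∧ (∀ p ∈ B, InBox 0 p) ∧ 0 < turnsV t B ∧ B.length ≤ 25 := by
  obtain ⟨i, rfl⟩ := Ring_pt_surj hx
  obtain ⟨j, rfl⟩ := Ring_pt_surj hy
  have hij : i ≠ j := by
    rintro rfl
    exact hxy rfl
  have h := Ring_test_all t i j hij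
  refine ⟨Ring_path t i j, ?_⟩
  simp only [Ring_test, Bool.and_eq_true, List.all_eq_true, List.any_eq_true,
    decide_eq_true_eq] at h
  obtain ⟨⟨⟨⟨⟨⟨h1, h2⟩, h3⟩, h4⟩, h5⟩, h6⟩, h7⟩ := h
  refine ⟨?_, ?_, Ring_chain_iff t _ h3, Ring_nodup_iff _ h4, ?_, ?_, h7⟩
  · cases hh : (Ring_path t i j).head? with
    | none => rw [hh] at h1; exact absurd h1 Bool.false_ne_true
    | some p =>
      rw [hh] at h1
      rw [(Ring_eq_iff _ _).1 h1]
  · cases hh : (Ring_path t i j).getLast? with
    | none => rw [hh] at h2; exact absurd h2 Bool.false_ne_true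
    | some p =>
      rw [hh] at h2
      rw [(Ring_eq_iff _ _).1 h2]
  · intro p hp
    have := h5 p hp
    simp only [Ring_box, Bool.and_eq_true, decide_eq_true_eq] at this
    obtain ⟨⟨⟨g1, g2⟩, g3⟩, g4⟩ := this
    unfold InBox
    simp only [Prod.fst_zero, Prod.snd_zero, sub_zero]
    exact ⟨abs_le.2 ⟨g1, g2⟩, abs_le.2 ⟨g3, g4⟩⟩
  · obtain ⟨pq, hpq, ha⟩ := h6
    unfold turnsV
    rw [List.countP_pos_iff]
    exact ⟨pq, hpq, by simpa using (Ring_adj_iff t pq.1 pq.2).1 ha⟩

theorem Ring_adj_add (t : Bool) (c p q : ℤ × ℤ) : Adj t (p + c) (q + c) ↔ Adj t p q := by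
  unfold Adj
  rw [add_sub_add_right_eq_sub]

theorem Ring_turnsV_map (t : Bool) (c : ℤ × ℤ) (B : List (ℤ × ℤ)) :
    turnsV t (B.map (· + c)) = turnsV t B := by
  unfold turnsV
  rw [← List.map_drop, List.zip_map, List.countP_map]
  congr 1
  funext pq
  simp [Ring_adj_add]

theorem ring_path (t : Bool) {c x y : ℤ × ℤ} (hx : OnRing c x) (hy : OnRing c y) (hxy : x ≠ y) :
    ∃ B : List (ℤ × ℤ), B.head? = some x ∧ B.getLast? = some y ∧ B.IsChain (Adj t) ∧
      B.Nodup ∧ (∀ p ∈ B, InBox c p) ∧ 0 < turnsV t B ∧ B.length ≤ 25 := by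
  have hx' : OnRing 0 (x - c) := by
    simpa [OnRing, InBox] using hx
  have hy' : OnRing 0 (y - c) := by
    simpa [OnRing, InBox] using hy
  obtain ⟨B, h1, h2, h3, h4, h5, h6, h7⟩ := Ring_zero t hx' hy' (fun h => hxy (sub_left_injective h))
  refine ⟨B.map (· + c), ?_, ?_, ?_, ?_, ?_, ?_, ?_⟩
  · rw [List.head?_map, h1]
    simp
  · rw [List.getLast?_map, h2]
    simp
  · rw [List.isChain_map]
    exact h3.imp (fun a b hab => (Ring_adj_add t c a b).2 hab)
  · exact h4.map (add_left_injective c)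
  · intro p hp
    obtain ⟨q, hq, rfl⟩ := List.mem_map.1 hp
    have := h5 q hq
    unfold InBox at this ⊢
    simpa using this
  · rw [Ring_turnsV_map]
    exact h6
  · rw [List.length_map]
    exact h7

/-- A vertex of the box with a neighbour outside the box is on its boundary. -/
theorem onRing_of_adj {c p q : ℤ × ℤ} (hp : InBox c p) (hq : ¬ InBox c q)
    (h : Adj t p q ∨ Adj t q p) : OnRing c p := by
  refine ⟨hp, fun h1 => hq ?_⟩
  obtain ⟨h2, h3⟩ := h1
  have key : |q.1 - p.1| ≤ 1 ∧ |q.2 - p.2| ≤ 1 := by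
    have aux : ∀ s ∈ steps t, |s.1| ≤ 1 ∧ |s.2| ≤ 1 := by
      cases t <;> decide
    rcases h with h | h
    · have := aux _ h
      simpa using this
    · have := aux _ h
      simp only [Prod.fst_sub, Prod.snd_sub] at this
      rw [abs_sub_comm q.1, abs_sub_comm q.2]
      exact this
  unfold InBox
  rw [abs_le] at h2 h3 key ⊢
  rw [abs_le] at key ⊢
  constructor <;> constructor <;> linarith [key.1.1, key.1.2, key.2.1, key.2.2, h2.1, h2.2, h3.1, h3.2]

end Pool.Agent.SHK
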