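import Pool.Agent.SHK.Verts

/-!
# Turns of factors

`turnsV t L` counts the `i` with `L[i + tl t] - L[i] ∈ steps t`; it does not change under translation,
does not decrease under adding entries in front or at the end, and is superadditive for a split of
the list.  The difference of the entries `i + tl t` and `i` of `verts 0 l` is
`((l.drop i).take (tl t)).sum`.
-/

namespace Pool.Agent.SHK

open Pool.Agent.SHP

variable {t : Bool}

private theorem Turn_tl_pos (t : Bool) : 0 < tl t := by
  unfold tl
  split_ifs <;> norm_num

open Classical in
private theorem Turn_countP {α : Type*} (P : α → Bool) (Z : List α) (n : ℕ) (hn : Z.length ≤ n) :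
    Z.countP P = ∑ i ∈ Finset.range n, if (∃ z, Z[i]? = some z ∧ P z = true) then 1 else 0 := by
  induction Z generalizing n with
  | nil => simp
  | cons z Z ih =>
    cases n with
    | zero => simp at hn
    | succ n =>
      rw [Finset.sum_range_succ', List.countP_cons, ih n (by simpa using hn)]
      congr 1
      by_cases h : P z = true
      · rw [if_pos h, if_pos ⟨z, by simp, h⟩]
      · rw [if_neg h, if_neg]
        rintro ⟨z', h1, h2⟩
        have h3 : z = z' := by simpa using h1
        exact h (h3 ▸ h2)

/-- the indicator of a turn at `i` -/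
private def Turn_P (t : Bool) (L : List (ℤ × ℤ)) (i : ℕ) : Prop :=
  ∃ p q : ℤ × ℤ, L[i]? = some p ∧ L[i + tl t]? = some q ∧ Adj t p q

open Classical in
private theorem Turn_turnsV (t : Bool) (L : List (ℤ × ℤ)) (n : ℕ) (hn : L.length ≤ n) :
    turnsV t L = ∑ i ∈ Finset.range n, if Turn_P t L i then 1 else 0 := by
  unfold turnsV
  rw [Turn_countP _ _ n (by rw [List.length_zip]; omega)]
  apply Finset.sum_congr rfl
  intro i _
  congr 1
  apply propext
  unfold Turn_P
  constructor
  · rintro ⟨⟨p, q⟩, h1, h2⟩
    rw [List.getElem?_zip_eq_some] at h1
    refine ⟨p, q, h1.1, ?_, by simpa using h2⟩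
    have h3 := h1.2
    rw [List.getElem?_drop, add_comm] at h3
    exact h3
  · rintro ⟨p, q, h1, h2, h3⟩
    refine ⟨(p, q), ?_, by simpa using h3⟩
    rw [List.getElem?_zip_eq_some, List.getElem?_drop, add_comm]
    exact ⟨h1, h2⟩

private theorem Turn_pos_sub (l : List (ℤ × ℤ)) (i k : ℕ) :
    pos l (i + k) - pos l i = ((l.drop i).take k).sum := by
  unfold pos
  rw [List.take_add, List.sum_append, add_sub_cancel_left]

/-- The turns of a word as indices of steps. -/
theorem turns_eq (t : Bool) (l : List (ℤ × ℤ)) :
    turns t l = ((Finset.range l.length).filter (fun i => i + tl t ≤ l.length ∧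
      ((l.drop i).take (tl t)).sum ∈ steps t)).card := by
  classical
  unfold turns
  rw [Turn_turnsV t _ (l.length + 1) (length_verts 0 l).le, Finset.card_filter,
    Finset.sum_range_succ]
  have hk := Turn_tl_pos t
  have hlast : ¬ Turn_P t (verts 0 l) l.length := by
    rintro ⟨p, q, _, h2, _⟩
    have h3 := (List.getElem?_eq_some_iff.1 h2).1
    rw [length_verts] at h3
    omega
  rw [if_neg hlast, add_zero]
  apply Finset.sum_congr rfl
  intro i hi
  have hi' := Finset.mem_range.1 hi
  congr 1
  apply propext
  constructor
  · rintro ⟨p, q, h1, h2, h3⟩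
    have h4 := (List.getElem?_eq_some_iff.1 h2).1
    rw [length_verts] at h4
    have h5 : i + tl t ≤ l.length := by omega
    refine ⟨h5, ?_⟩
    rw [getElem?_verts 0 l hi'.le] at h1
    rw [getElem?_verts 0 l h5] at h2
    rw [← Turn_pos_sub]
    unfold Adj at h3
    rw [← Option.some.inj h1, ← Option.some.inj h2, zero_add, zero_add] at h3
    exact h3
  · rintro ⟨h5, h3⟩
    refine ⟨_, _, getElem?_verts 0 l hi'.le, getElem?_verts 0 l h5, ?_⟩
    unfold Adj
    rw [zero_add, zero_add, Turn_pos_sub]
    exact h3

private theorem Turn_drop (u v w : List (ℤ × ℤ)) (i k : ℕ) (h : i + k ≤ v.length) :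
    ((u ++ (v ++ w)).drop (u.length + i)).take k = (v.drop i).take k := by
  rw [List.drop_append, List.drop_eq_nil_of_le (by omega), List.nil_append,
    Nat.add_sub_cancel_left, List.drop_append, List.take_append, List.length_drop]
  have : k - (v.length - i) = 0 := by omega
  rw [this, List.take_zero, List.append_nil]

/-- A factor has at most as many turns. -/
theorem turns_factor_le (t : Bool) (u v w : List (ℤ × ℤ)) : turns t v ≤ turns t (u ++ (v ++ w)) := by
  rw [turns_eq, turns_eq]
  apply Finset.card_le_card_of_injOn (fun i => u.length + i)
  · intro i hi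
    simp only [Finset.coe_filter, Finset.mem_range, Set.mem_ofPred_eq] at hi ⊢
    obtain ⟨h1, h2, h3⟩ := hi
    refine ⟨?_, ?_, ?_⟩
    · rw [List.length_append, List.length_append]
      omega
    · rw [List.length_append, List.length_append]
      omega
    · rw [Turn_drop u v w i (tl t) h2]
      exact h3
  · intro i _ j _ h
    exact Nat.add_left_cancel h

/-- Superadditivity over a concatenation. -/
theorem turns_append_ge (t : Bool) (u v : List (ℤ × ℤ)) :
    turns t u + turns t v ≤ turns t (u ++ v) := by
  classical
  rw [turns_eq, turns_eq, turns_eq, Finset.card_filter, Finset.card_filter, Finset.card_filter,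
    List.length_append, Finset.sum_range_add]
  apply add_le_add
  · apply Finset.sum_le_sum
    intro i _
    split_ifs with h1 h2
    · exact le_rfl
    · exfalso
      apply h2
      refine ⟨by omega, ?_⟩
      have h3 := Turn_drop [] u v i (tl t) h1.1
      rw [List.nil_append, List.length_nil, zero_add] at h3
      rw [h3]
      exact h1.2
    · exact Nat.zero_le _
    · exact le_rfl
  · apply Finset.sum_le_sum
    intro i _
    split_ifs with h1 h2
    · exact le_rfl
    · exfalso
      apply h2
      refine ⟨by omega, ?_⟩
      have h3 := Turn_drop u v [] i (tl t) h1.1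
      rw [List.append_nil] at h3
      rw [h3]
      exact h1.2
    · exact Nat.zero_le _
    · exact le_rfl

theorem turnsV_append_ge (t : Bool) (L M : List (ℤ × ℤ)) :
    turnsV t L + turnsV t M ≤ turnsV t (L ++ M) := by
  classical
  rw [Turn_turnsV t L L.length le_rfl, Turn_turnsV t M M.length le_rfl,
    Turn_turnsV t (L ++ M) (L.length + M.length) (List.length_append).le, Finset.sum_range_add]
  apply add_le_add
  · apply Finset.sum_le_sum
    intro i _
    split_ifs with h1 h2
    · exact le_rfl
    · exfalso
      apply h2
      obtain ⟨p, q, h3, h4, h5⟩ := h1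
      have h6 := (List.getElem?_eq_some_iff.1 h3).1
      have h7 := (List.getElem?_eq_some_iff.1 h4).1
      exact ⟨p, q, by rw [List.getElem?_append_left h6]; exact h3,
        by rw [List.getElem?_append_left h7]; exact h4, h5⟩
    · exact Nat.zero_le _
    · exact le_rfl
  · apply Finset.sum_le_sum
    intro i _
    split_ifs with h1 h2
    · exact le_rfl
    · exfalso
      apply h2
      obtain ⟨p, q, h3, h4, h5⟩ := h1
      refine ⟨p, q, ?_, ?_, h5⟩
      · rw [List.getElem?_append_right (by omega)]
        simpa using h3
      · rw [List.getElem?_append_right (by omega)]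
        rw [← h4]
        congr 1
        omega
    · exact Nat.zero_le _
    · exact le_rfl

/-- Subadditivity up to the turns across the joint: a turn of `L ++ M` which is not inside `L` and
not inside `M` starts in the last `tl t` entries of `L`. -/
theorem turnsV_append_le (t : Bool) (L M : List (ℤ × ℤ)) :
    turnsV t (L ++ M) ≤ turnsV t L + turnsV t M + tl t := by
  classical
  rw [Turn_turnsV t L L.length le_rfl, Turn_turnsV t M M.length le_rfl,
    Turn_turnsV t (L ++ M) (L.length + M.length) (List.length_append).le, Finset.sum_range_add]
  have h1 : ∑ i ∈ Finset.range L.length, (if Turn_P t (L ++ M) i then 1 else 0) ≤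
      ∑ i ∈ Finset.range L.length, (if Turn_P t L i then 1 else 0) + tl t := by
    have h2 : ∑ i ∈ Finset.range L.length, (if Turn_P t (L ++ M) i then 1 else 0) ≤
        ∑ i ∈ Finset.range L.length, ((if Turn_P t L i then 1 else 0) +
          if L.length ≤ i + tl t then 1 else 0) := by
      apply Finset.sum_le_sum
      intro i hi
      have hi' := Finset.mem_range.1 hi
      by_cases h3 : L.length ≤ i + tl t
      · rw [if_pos h3]
        split_ifs <;> omega
      · rw [if_neg h3, add_zero]
        have h4 : Turn_P t (L ++ M) i ↔ Turn_P t L i := by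
          unfold Turn_P
          rw [List.getElem?_append_left hi', List.getElem?_append_left (by omega)]
        simp only [h4, le_refl]
    refine h2.trans ?_
    rw [Finset.sum_add_distrib]
    apply Nat.add_le_add_left
    rw [← Finset.card_filter]
    have h3 : (Finset.range L.length).filter (fun i => L.length ≤ i + tl t) ⊆
        Finset.Ico (L.length - tl t) L.length := by
      intro i hi
      rw [Finset.mem_filter, Finset.mem_range] at hi
      rw [Finset.mem_Ico]
      omega
    refine (Finset.card_le_card h3).trans ?_
    rw [Nat.card_Ico]
    omega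
  have h2 : ∑ i ∈ Finset.range M.length, (if Turn_P t (L ++ M) (L.length + i) then 1 else 0) =
      ∑ i ∈ Finset.range M.length, (if Turn_P t M i then 1 else 0) := by
    apply Finset.sum_congr rfl
    intro i _
    have h4 : Turn_P t (L ++ M) (L.length + i) ↔ Turn_P t M i := by
      unfold Turn_P
      rw [List.getElem?_append_right (by omega), List.getElem?_append_right (by omega)]
      have e1 : L.length + i - L.length = i := by omega
      have e2 : L.length + i + tl t - L.length = i + tl t := by omega
      rw [e1, e2]
    simp only [h4]
  rw [h2]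
  omega

end Pool.Agent.SHK
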