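import Pool.Agent.SHK.Ring
import Pool.Agent.SHK.Indep
import Pool.Agent.SHK.Turn

/-!
# Surgeries at a set of independent good places

For vertex lists: `GoodV m L j` is the condition that the box around `L[j]` is visited only by entries
of `L` with index in `[j - m, j + m]`, with `m < j` and `j + m + 1 < L.length`.

Paper proof of `surgery`.  Induction on the cardinality of `S`, for all lists `L` at once.  `S = ∅`:
`D = []`, `C = L`.  Otherwise let `j = min S`, `c = L[j]`, `s` the least and `e` the largest index `i` with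
`InBox c L[i]`; `j - m ≤ s ≤ j ≤ e ≤ j + m`, and `s < e` since `L[j+1]` is a neighbour of `c`, so in the
box.  Since `s ≥ j - m ≥ 1` the entry `L[s-1]` exists and is outside the box, so `L[s]` is on the ring of
the box (`onRing_of_adj`); the same for `L[e]` (`e + 1 < L.length`).  Let `A = L.take s`,
`B = (L.drop s).take (e - s + 1)`, `L₁ = L.drop (e + 1)` (nonempty), and let `B'` be the path of
`ring_path` from `L[s]` to `L[e]`.  The indices `j' - (e+1)`, `j' ∈ S \ {j}`, are `GoodV` for `L₁`
(`j' > j + 2m + 2 ≥ e + 1 + m + 1`), are independent, and `L₁` is a nonempty nodup chain.  By induction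
there are `D₁, C`, and `D = (A, B, B') :: D₁`.
 - `turnsV t B = 0`, `B` chain of at most `2m+1` entries, `B.head? = B'.head?`: `Adm`.
 - nodup of `tgt`: the entries of `A` are not in any of the boxes (visits only in the windows) and
   not in `L₁`; the entries of `B'` are in the box of `j`, those of `tgt D₁ C` are in `L₁` or in a box
   of `S \ {j}`; `L₁` has no entry in the box of `j`, and the boxes are disjoint.
 - chain: `B'` starts and ends at the same vertices as `B`, `tgt D₁ C` starts at the first vertex of
   `L₁` (for the head: `A` is nonempty, as `s ≥ 1`; for a nonempty list with `D₁ ≠ []` the first piece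
   `A₁` is nonempty).
 - turns: for every vertex `p` such that `p :: L` has no turn, `turnsV t (p :: tgt D C) ≤ 27 |S|`:
   the turns of `p :: (A ++ B' ++ tgt D₁ C)` are: turns inside `p :: (A ++ [first of B'])`, a factor
   of `p :: L`: none; those inside `B'`: at most `25`; those across the joints with at least one step
   in `B'`: at most `2 * (tl t - 1) ≤ 4`, but in total at most one turn for each step of `B'` and the two
   positions before it: a turn index `i` covers the steps `i, .., i + tl t - 1`, and if one of them is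
   a step of `B'` then there are at most `24 + 2 = 26` possible `i`; all others are turns inside
   `(last of B') :: tgt D₁ C`, at most `27 (|S| - 1)` by induction, since
   `(last of B) :: L₁` is a factor of `L`.
 - lengths: `|B'| ≤ 25` and `|B| ≥ 2`, so `|tgt D C| ≤ |src D C| + 24 |S|`.
 - `starts`: the start index of the piece of `j` is `s`, which is in `[j - m, j]`; these intervals are
   disjoint for different `j ∈ S`, so the list of starts determines `S`.
-/

namespace Pool.Agent.SHK

open Pool.Agent.SHP

variable {t : Bool}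

/-- Good index of a vertex list. -/
def GoodV (m : ℕ) (L : List (ℤ × ℤ)) (j : ℕ) : Prop :=
  m < j ∧ j + m + 1 < L.length ∧
    ∀ i, ∀ p ∈ L[i]?, ∀ c ∈ L[j]?, InBox c p → j ≤ i + m ∧ i ≤ j + m

/-- Independent set of places of a vertex list. -/
def IndepV (m : ℕ) (L : List (ℤ × ℤ)) (S : Finset ℕ) : Prop :=
  ∀ j ∈ S, ∀ j' ∈ S, j < j' → j + (2 * m + 2) < j' ∧
    ∀ c ∈ L[j]?, ∀ c' ∈ L[j']?, FarPts c c'

private theorem Surgery_tl (t : Bool) : ∃ k, tl t = k + 1 ∧ k ≤ 2 := by
  unfold tl
  cases t
  · exact ⟨2, rfl, le_rfl⟩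
  · exact ⟨1, rfl, by norm_num⟩

private theorem Surgery_cons (t : Bool) {k : ℕ} (hk : tl t = k + 1) (u : ℤ × ℤ)
    (L : List (ℤ × ℤ)) :
    turnsV t (u :: L) = turnsV t L + (L[k]?).elim 0 (fun q => if Adj t u q then 1 else 0) := by
  unfold turnsV
  rw [hk, List.drop_succ_cons]
  rcases lt_or_ge k L.length with h | h
  · rw [List.getElem?_eq_getElem h, List.drop_eq_getElem_cons h, List.zip_cons_cons,
      List.countP_cons]
    simp only [Option.elim, decide_eq_true_eq]
  · rw [List.getElem?_eq_none h, List.drop_eq_nil_of_le h, List.drop_eq_nil_of_le (by omega)]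
    simp

private theorem Surgery_elim_le (t : Bool) (u : ℤ × ℤ) (o : Option (ℤ × ℤ)) :
    o.elim 0 (fun q => if Adj t u q then 1 else 0) ≤ 1 := by
  cases o with
  | none => simp
  | some q =>
    simp only [Option.elim]
    split_ifs <;> omega

private theorem Surgery_overlap (t : Bool) {k : ℕ} (hk : tl t = k + 1) (a : ℤ × ℤ)
    (V : List (ℤ × ℤ)) : ∀ U : List (ℤ × ℤ),
    turnsV t (U ++ a :: V) ≤ turnsV t (U ++ [a]) + turnsV t (a :: V) + min U.length k := by
  intro U
  induction U with
  | nil =>
    rw [List.nil_append, List.nil_append]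
    omega
  | cons u U ih =>
    rw [List.cons_append, List.cons_append, Surgery_cons t hk, Surgery_cons t hk u (U ++ [a])]
    rcases lt_or_ge U.length k with h | h
    · have h1 := Surgery_elim_le t u ((U ++ a :: V)[k]?)
      rw [List.length_cons, min_eq_left (by omega)]
      rw [min_eq_left h.le] at ih
      omega
    · have h1 : (U ++ a :: V)[k]? = (U ++ [a])[k]? := by
        rcases lt_or_eq_of_le h with h2 | h2
        · rw [List.getElem?_append_left h2, List.getElem?_append_left h2]
        · rw [List.getElem?_append_right (by omega), List.getElem?_append_right (by omega), h2]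
          simp
      rw [h1, List.length_cons, min_eq_right (by omega)]
      rw [min_eq_right h] at ih
      omega

private theorem Surgery_le_length (t : Bool) (L : List (ℤ × ℤ)) :
    turnsV t L ≤ L.length - tl t := by
  unfold turnsV
  refine List.countP_le_length.trans ?_
  rw [List.length_zip, List.length_drop]
  exact min_le_right _ _

private theorem Surgery_sum (t : Bool) (U V T : List (ℤ × ℤ)) (a b : ℤ × ℤ) {r : ℕ}
    (h1 : turnsV t (U ++ [a]) = 0) (h2 : (a :: (V ++ [b])).length ≤ 25)
    (h3 : turnsV t (b :: T) ≤ 27 * r) :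
    turnsV t (U ++ a :: (V ++ b :: T)) ≤ 27 * (r + 1) := by
  obtain ⟨k, hk, hk2⟩ := Surgery_tl t
  have e1 := Surgery_overlap t hk a (V ++ b :: T) U
  have e2 := Surgery_overlap t hk b T (a :: V)
  have e3 := Surgery_le_length t (a :: (V ++ [b]))
  rw [List.cons_append, List.cons_append] at e2
  have e4 : min U.length k ≤ k := min_le_right _ _
  have e5 : min (a :: V).length k ≤ k := min_le_right _ _
  rw [hk] at e3
  omega

private theorem Surgery_prefix (t : Bool) {X Y : List (ℤ × ℤ)} (h : turnsV t (X ++ Y) = 0) :
    turnsV t X = 0 ∧ turnsV t Y = 0 := by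
  have := turnsV_append_ge t X Y
  omega

private theorem Surgery_inBox_self (c : ℤ × ℤ) : InBox c c := by
  unfold InBox
  rw [sub_self, sub_self]
  norm_num

private theorem Surgery_inBox_adj {c q : ℤ × ℤ} (h : Adj t c q) : InBox c q := by
  unfold Adj steps at h
  have h1 : (q - c).1 = q.1 - c.1 := rfl
  have h2 : (q - c).2 = q.2 - c.2 := rfl
  unfold InBox
  rw [← h1, ← h2]
  cases t
  · simp only [Bool.false_eq_true, if_false, Finset.mem_insert, Finset.mem_singleton] at h
    rcases h with h | h | h | h <;> rw [h] <;> norm_num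
  · simp only [if_true, Finset.mem_insert, Finset.mem_singleton] at h
    rcases h with h | h | h | h | h | h <;> rw [h] <;> norm_num

private theorem Surgery_chain_get {L : List (ℤ × ℤ)} (hc : L.IsChain (Adj t)) {i : ℕ}
    (h : i + 1 < L.length) : Adj t (L[i]'(by omega)) L[i + 1] :=
  List.isChain_iff_getElem.1 hc i (by omega)

private theorem Surgery_window (m : ℕ) {L : List (ℤ × ℤ)} (hc : L.IsChain (Adj t))
    (hn : L.Nodup) {j : ℕ} (hj : GoodV m L j) :
    ∃ (c : ℤ × ℤ) (A : List (ℤ × ℤ)) (a b : ℤ × ℤ) (M V L₁ : List (ℤ × ℤ)),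
      L = A ++ ((a :: (M ++ [b])) ++ L₁) ∧ L[j]? = some c ∧ A ≠ [] ∧ L₁ ≠ [] ∧
      A.length ≤ j ∧ j ≤ A.length + m ∧ A.length + M.length + 1 ≤ j + m ∧
      (∀ p ∈ A, ¬ InBox c p) ∧ (∀ p ∈ L₁, ¬ InBox c p) ∧
      (a :: (V ++ [b])).IsChain (Adj t) ∧ (a :: (V ++ [b])).Nodup ∧
      (∀ p ∈ a :: (V ++ [b]), InBox c p) ∧ 0 < turnsV t (a :: (V ++ [b])) ∧
      (a :: (V ++ [b])).length ≤ 25 := by
  classical
  obtain ⟨h1, h2, h3⟩ := hj
  have hjl : j < L.length := by omega
  set c := L[j] with hcdef
  have hcj : L[j]? = some c := List.getElem?_eq_getElem hjl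
  let P : ℕ → Prop := fun i => ∃ p, L[i]? = some p ∧ InBox c p
  have hPj : P j := ⟨c, hcj, Surgery_inBox_self c⟩
  have hP : ∀ i, P i → j ≤ i + m ∧ i ≤ j + m := by
    rintro i ⟨p, hp, hb⟩
    exact h3 i p hp c hcj hb
  have hPj1 : P (j + 1) :=
    ⟨L[j + 1], List.getElem?_eq_getElem (by omega),
      Surgery_inBox_adj (Surgery_chain_get hc (by omega))⟩
  have hm1 := (hP _ hPj1).2
  have hex : ∃ i, P i := ⟨j, hPj⟩
  set s := Nat.find hex with hs
  have hPs : P s := Nat.find_spec hex
  have hsj : s ≤ j := Nat.find_min' hex hPj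
  have hsm := (hP _ hPs).1
  set e := Nat.findGreatest P (j + m) with he
  have hPe : P e := Nat.findGreatest_spec hm1 hPj1
  have hej : j + 1 ≤ e := Nat.le_findGreatest hm1 hPj1
  have hem : e ≤ j + m := Nat.findGreatest_le _
  have hsl : s < L.length := by omega
  have hel : e + 1 < L.length := by omega
  obtain ⟨q, hq⟩ : ∃ q, s = q + 1 := ⟨s - 1, by omega⟩
  have hna : ∀ i, i < s → ∀ p, L[i]? = some p → ¬ InBox c p := by
    intro i hi p hp hb
    exact Nat.find_min hex hi ⟨p, hp, hb⟩
  have hnb : ∀ i, e < i → ∀ p, L[i]? = some p → ¬ InBox c p := by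
    intro i hi p hp hb
    have h4 : P i := ⟨p, hp, hb⟩
    exact Nat.findGreatest_is_greatest hi (hP _ h4).2 h4
  obtain ⟨x, hx, hxb⟩ := hPs
  obtain ⟨y, hy, hyb⟩ := hPe
  have hx' : L[s] = x := by
    rw [List.getElem?_eq_getElem hsl] at hx
    exact Option.some.inj hx
  have hy' : L[e] = y := by
    rw [List.getElem?_eq_getElem (by omega)] at hy
    exact Option.some.inj hy
  have hxy : x ≠ y := by
    rw [← hx', ← hy']
    intro h4
    have h5 := (List.Nodup.getElem_inj_iff hn).1 h4
    omega
  have hxr : OnRing c x := by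
    have h4 : Adj t (L[q]'(by omega)) (L[q + 1]'(by omega)) :=
      Surgery_chain_get hc (by omega)
    have h5 : Adj t (L[q]'(by omega)) x := by
      rw [← hx']
      simp only [hq]
      exact h4
    exact onRing_of_adj (t := t) hxb
      (hna q (by omega) _ (List.getElem?_eq_getElem (by omega))) (Or.inr h5)
  have hyr : OnRing c y := by
    have h4 : Adj t (L[e]'(by omega)) (L[e + 1]'(by omega)) :=
      Surgery_chain_get hc (by omega)
    have h5 : Adj t y (L[e + 1]'(by omega)) := by
      rw [← hy']
      exact h4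
    exact onRing_of_adj (t := t) hyb
      (hnb (e + 1) (by omega) _ (List.getElem?_eq_getElem (by omega))) (Or.inl h5)
  obtain ⟨B, hB1, hB2, hB3, hB4, hB5, hB6, hB7⟩ := ring_path t hxr hyr hxy
  obtain ⟨V, hV⟩ : ∃ V, B = x :: (V ++ [y]) := by
    cases B with
    | nil => simp at hB1
    | cons b B =>
      have hbx : b = x := by simpa using hB1
      subst hbx
      cases hBn : B with
      | nil =>
        rw [hBn] at hB2
        exact absurd (by simpa using hB2) hxy
      | cons b' B' =>
        refine ⟨B.dropLast, ?_⟩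
        have h4 : B.getLast? = some y := by
          rw [hBn] at hB2 ⊢
          rw [← hB2, List.getLast?_cons_cons]
        rw [← hBn]
        congr 1
        have hne : B ≠ [] := by rw [hBn]; exact List.cons_ne_nil _ _
        rw [List.getLast?_eq_some_getLast hne] at h4
        rw [← Option.some.inj h4, List.dropLast_append_getLast]
  subst hV
  refine ⟨c, L.take s, x, y, (L.drop (s + 1)).take (e - s - 1), V, L.drop (e + 1), ?_, hcj, ?_, ?_,
    ?_, ?_, ?_, ?_, ?_, hB3, hB4, hB5, hB6, hB7⟩
  · have e1 : L.drop (s + 1) = (L.drop (s + 1)).take (e - s - 1) ++ (y :: L.drop (e + 1)) := by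
      conv_lhs => rw [← List.take_append_drop (e - s - 1) (L.drop (s + 1))]
      congr 1
      rw [List.drop_drop]
      have e2 : s + 1 + (e - s - 1) = e := by omega
      rw [e2, List.drop_eq_getElem_cons (by omega), hy']
    have e3 : L = L.take s ++ (x :: L.drop (s + 1)) := by
      conv_lhs => rw [← List.take_append_drop s L]
      congr 1
      rw [List.drop_eq_getElem_cons hsl, hx']
    rw [List.cons_append, List.append_assoc, List.singleton_append, ← e1, ← e3]
  · intro h4
    have h5 := congrArg List.length h4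
    rw [List.length_take, List.length_nil] at h5
    omega
  · intro h4
    have h5 := congrArg List.length h4
    rw [List.length_drop, List.length_nil] at h5
    omega
  · rw [List.length_take]
    omega
  · rw [List.length_take]
    omega
  · rw [List.length_take, List.length_take, List.length_drop]
    omega
  · intro p hp
    obtain ⟨i, hi, hpi⟩ := List.mem_iff_getElem.1 hp
    rw [List.length_take] at hi
    rw [List.getElem_take] at hpi
    exact hna i (by omega) p (by rw [List.getElem?_eq_getElem (by omega), hpi])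
  · intro p hp
    obtain ⟨i, hi, hpi⟩ := List.mem_iff_getElem.1 hp
    rw [List.length_drop] at hi
    rw [List.getElem_drop] at hpi
    exact hnb (e + 1 + i) (by omega) p (by rw [List.getElem?_eq_getElem (by omega), hpi])

private theorem Surgery_list (t : Bool) (m : ℕ) : ∀ (n : ℕ) (J : List ℕ) (L : List (ℤ × ℤ)),
    J.length = n → L.IsChain (Adj t) → L.Nodup → (∀ j ∈ J, GoodV m L j) →
    J.Pairwise (fun j j' => j + (2 * m + 2) < j' ∧
      ∀ c ∈ L[j]?, ∀ c' ∈ L[j']?, FarPts c c') →
    ∃ (D : List Mark) (C : List (ℤ × ℤ)), src D C = L ∧ D.length = n ∧ (∀ x ∈ D, Adm t m x) ∧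
      (tgt D C).head? = L.head? ∧ (tgt D C).IsChain (Adj t) ∧ (tgt D C).Nodup ∧
      (∀ p ∈ tgt D C, p ∈ L ∨ ∃ j ∈ J, ∃ c ∈ L[j]?, InBox c p) ∧
      (∀ p, turnsV t (p :: L) = 0 → turnsV t (p :: tgt D C) ≤ 27 * n) ∧
      (turnsV t L = 0 → turnsV t (tgt D C) ≤ 27 * n) ∧
      (tgt D C).length ≤ L.length + 24 * n ∧
      (∀ o, List.Forall₂ (fun a j => a ≤ o + j ∧ o + j ≤ a + m) (starts o D) J) := by
  intro n
  induction n with
  | zero =>
    intro J L hJ hc hn _ _
    have hJ' : J = [] := List.length_eq_zero_iff.1 hJ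
    subst hJ'
    refine ⟨[], L, rfl, rfl, by simp, rfl, hc, hn, fun p hp => Or.inl hp, ?_, ?_, ?_, ?_⟩
    · intro p hp
      exact hp.le
    · intro h
      exact h.le
    · show L.length ≤ _
      omega
    · intro o
      exact List.Forall₂.nil
  | succ n ih =>
    intro J L hJ hc hn hg hind
    cases J with
    | nil => simp at hJ
    | cons j J =>
      rw [List.length_cons] at hJ
      obtain ⟨c, A, a, b, M, V, L₁, hL, hcj, hA, hL₁, hAj, hjA, hAM, hAbox, hLbox, hV1, hV2, hV3,
        hV4, hV5⟩ := Surgery_window m hc hn (hg j List.mem_cons_self)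
      rw [List.pairwise_cons] at hind
      obtain ⟨hind1, hind2⟩ := hind
      set E := A.length + M.length + 2 with hE
      have hget : ∀ i, L₁[i]? = L[E + i]? := by
        intro i
        rw [hL, ← List.append_assoc, List.getElem?_append_right]
        · congr 1
          rw [List.length_append, List.length_cons, List.length_append, List.length_singleton]
          omega
        · rw [List.length_append, List.length_cons, List.length_append, List.length_singleton]
          omega
      have hlen : L.length = E + L₁.length := by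
        rw [hL, List.length_append, List.length_append, List.length_cons, List.length_append,
          List.length_singleton]
        omega
      have hsh : ∀ j' ∈ J, E + (j' - E) = j' ∧ j + (2 * m + 2) < j' := by
        intro j' hj'
        have h1 := (hind1 j' hj').1
        omega
      -- the remaining list
      have hcn : (A ++ (a :: (M ++ [b]))).IsChain (Adj t) ∧ L₁.IsChain (Adj t) ∧
          ∀ x ∈ (A ++ (a :: (M ++ [b]))).getLast?, ∀ y ∈ L₁.head?, Adj t x y := by
        rw [← List.isChain_append, List.append_assoc, ← hL]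
        exact hc
      obtain ⟨hc1, hc2, hc3⟩ := hcn
      have hnn := hn
      rw [hL, ← List.append_assoc, List.nodup_append] at hnn
      obtain ⟨hn1, hn2, hn3⟩ := hnn
      have hg' : ∀ j' ∈ J.map (fun i => i - E), GoodV m L₁ j' := by
        intro j'' hj''
        obtain ⟨j', hj', rfl⟩ := List.mem_map.1 hj''
        obtain ⟨h1, h2⟩ := hsh j' hj'
        obtain ⟨h3, h4, h5⟩ := hg j' (List.mem_cons_of_mem _ hj')
        refine ⟨by omega, by omega, ?_⟩
        intro i p hp c' hc' hb
        rw [hget] at hp hc'
        rw [h1] at hc'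
        have := h5 (E + i) p hp c' hc' hb
        omega
      have hind' : (J.map (fun i => i - E)).Pairwise (fun j j' => j + (2 * m + 2) < j' ∧
          ∀ c ∈ L₁[j]?, ∀ c' ∈ L₁[j']?, FarPts c c') := by
        rw [List.pairwise_map]
        refine List.Pairwise.imp_of_mem ?_ hind2
        intro j₁ j₂ hj₁ hj₂ hjj
        have h1 := hsh j₁ hj₁
        have h2 := hsh j₂ hj₂
        refine ⟨by omega, ?_⟩
        intro c₁ hc₁ c₂ hc₂
        rw [hget, h1.1] at hc₁
        rw [hget, h2.1] at hc₂
        exact hjj.2 c₁ hc₁ c₂ hc₂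
      obtain ⟨D, C, hD1, hD2, hD3, hD4, hD5, hD6, hD7, hD8, hD9, hD10, hD11⟩ :=
        ih (J.map (fun i => i - E)) L₁ (by rw [List.length_map]; omega) hc2 hn2 hg' hind'
      have htgt : tgt ((A, a :: (M ++ [b]), a :: (V ++ [b])) :: D) C =
          A ++ ((a :: (V ++ [b])) ++ tgt D C) := rfl
      have htgt2 : A ++ ((a :: (V ++ [b])) ++ tgt D C) = A ++ a :: (V ++ b :: tgt D C) := by
        rw [List.cons_append, List.append_assoc, List.singleton_append]
      -- the turns
      have hturn : ∀ U X : List (ℤ × ℤ), turnsV t (U ++ ((a :: (M ++ [b])) ++ L₁)) = 0 →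
          turnsV t (U ++ a :: (V ++ b :: tgt D C)) ≤ 27 * (n + 1) := by
        intro U X hU
        refine Surgery_sum t U V (tgt D C) a b ?_ hV5 ?_
        · have e1 : U ++ ((a :: (M ++ [b])) ++ L₁) = (U ++ [a]) ++ ((M ++ [b]) ++ L₁) := by
            rw [List.cons_append, List.append_assoc U [a], List.singleton_append]
          rw [e1] at hU
          exact (Surgery_prefix t hU).1
        · apply hD8
          have e1 : U ++ ((a :: (M ++ [b])) ++ L₁) = (U ++ (a :: M)) ++ (b :: L₁) := by
            rw [List.cons_append, List.append_assoc, List.append_assoc, List.singleton_append,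
              List.cons_append]
          rw [e1] at hU
          exact (Surgery_prefix t hU).2
      refine ⟨(A, a :: (M ++ [b]), a :: (V ++ [b])) :: D, C, ?_, ?_, ?_, ?_, ?_, ?_, ?_, ?_, ?_, ?_,
        ?_⟩
      · show A ++ ((a :: (M ++ [b])) ++ src D C) = L
        rw [hD1, ← hL]
      · rw [List.length_cons, hD2]
      · intro x hx
        rcases List.mem_cons.1 hx with h | h
        · subst h
          refine ⟨List.cons_ne_nil _ _, ?_, ?_, hV5, rfl, hV4⟩
          · show (a :: (M ++ [b])).length ≤ _
            rw [List.length_cons, List.length_append, List.length_singleton]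
            omega
          · exact (List.isChain_append.1 hc1).2.1
        · exact hD3 x h
      · rw [htgt, hL, List.head?_append, List.head?_append]
        obtain ⟨x, A', rfl⟩ := List.exists_cons_of_ne_nil hA
        rfl
      · rw [htgt]
        have h1 := List.isChain_append.1 hc1
        refine List.isChain_append.2 ⟨h1.1, ?_, ?_⟩
        · refine List.isChain_append.2 ⟨hV1, hD5, ?_⟩
          intro x hx y hy
          rw [hD4] at hy
          refine hc3 x ?_ y hy
          have e1 : (a :: (V ++ [b])).getLast? = some b := by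
            rw [← List.cons_append, List.getLast?_append]
            rfl
          have e2 : (A ++ (a :: (M ++ [b]))).getLast? = some b := by
            rw [← List.cons_append, ← List.append_assoc, List.getLast?_append]
            rfl
          rw [e2]
          rw [e1] at hx
          exact hx
        · intro x hx y hy
          exact h1.2.2 x hx y hy
      · rw [htgt]
        rw [List.nodup_append] at hn1
        refine List.nodup_append.2 ⟨hn1.1, ?_, ?_⟩
        · refine List.nodup_append.2 ⟨hV2, hD6, ?_⟩
          intro x hx y hy hxy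
          subst hxy
          have hxb := hV3 x hx
          rcases hD7 x hy with h | ⟨j'', hj'', c', hc', hb⟩
          · exact hLbox x h hxb
          · obtain ⟨j', hj', rfl⟩ := List.mem_map.1 hj''
            rw [hget, (hsh j' hj').1] at hc'
            exact (hind1 j' hj').2 c hcj c' hc' x ⟨hxb, hb⟩
        · intro x hx y hy hxy
          subst hxy
          rcases List.mem_append.1 hy with h | h
          · exact hAbox x hx (hV3 x h)
          · rcases hD7 x h with h | ⟨j'', hj'', c', hc', hb⟩
            · exact hn3 x (List.mem_append_left _ hx) x h rfl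
            · obtain ⟨j', hj', rfl⟩ := List.mem_map.1 hj''
              rw [hget, (hsh j' hj').1] at hc'
              obtain ⟨i, hi, hxi⟩ := List.mem_iff_getElem.1 hx
              have h2 : L[i]? = some x := by
                rw [hL, List.getElem?_append_left hi, List.getElem?_eq_getElem hi, hxi]
              have h3 := (hg j' (List.mem_cons_of_mem _ hj')).2.2 i x h2 c' hc' hb
              have h4 := (hsh j' hj').2
              omega
      · intro p hp
        rw [htgt] at hp
        rcases List.mem_append.1 hp with h | h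
        · left
          rw [hL]
          exact List.mem_append_left _ h
        · rcases List.mem_append.1 h with h | h
          · right
            exact ⟨j, List.mem_cons_self, c, hcj, hV3 p h⟩
          · rcases hD7 p h with h | ⟨j'', hj'', c', hc', hb⟩
            · left
              rw [hL]
              exact List.mem_append_right _ (List.mem_append_right _ h)
            · right
              obtain ⟨j', hj', rfl⟩ := List.mem_map.1 hj''
              rw [hget, (hsh j' hj').1] at hc'
              exact ⟨j', List.mem_cons_of_mem _ hj', c', hc', hb⟩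
      · intro p hp
        rw [htgt, htgt2, ← List.cons_append]
        rw [hL, ← List.cons_append] at hp
        exact hturn (p :: A) [] hp
      · intro hp
        rw [htgt, htgt2]
        rw [hL] at hp
        exact hturn A [] hp
      · rw [htgt, List.length_append, List.length_append]
        omega
      · intro o
        have h1 : starts o ((A, a :: (M ++ [b]), a :: (V ++ [b])) :: D) =
            (o + A.length) :: starts (o + A.length + (a :: (M ++ [b])).length) D := rfl
        rw [h1]
        refine List.Forall₂.cons ⟨by omega, by omega⟩ ?_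
        have h2 := hD11 (o + A.length + (a :: (M ++ [b])).length)
        rw [List.forall₂_map_right_iff] at h2
        have h3 : (a :: (M ++ [b])).length = M.length + 2 := by
          rw [List.length_cons, List.length_append, List.length_singleton]
        rw [h3] at h2 ⊢
        have h4 : ∀ (X : List ℕ) (Y : List ℕ), (∀ y ∈ Y, E + (y - E) = y) →
            List.Forall₂ (fun a c => a ≤ o + A.length + (M.length + 2) + (c - E) ∧
              o + A.length + (M.length + 2) + (c - E) ≤ a + m) X Y →
            List.Forall₂ (fun a j => a ≤ o + j ∧ o + j ≤ a + m) X Y := by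
          intro X Y hY hXY
          induction hXY with
          | nil => exact List.Forall₂.nil
          | cons hab _ ih2 =>
            refine List.Forall₂.cons ?_ (ih2 (fun y hy => hY y (List.mem_cons_of_mem _ hy)))
            have h5 := hY _ List.mem_cons_self
            omega
        exact h4 _ _ (fun y hy => (hsh y hy).1) h2

theorem surgery (m : ℕ) : ∀ (n : ℕ) (L : List (ℤ × ℤ)) (S : Finset ℕ), S.card = n →
    L.IsChain (Adj t) → L.Nodup → (∀ j ∈ S, GoodV m L j) → IndepV m L S →
    ∃ (D : List Mark) (C : List (ℤ × ℤ)), src D C = L ∧ D.length = n ∧ (∀ x ∈ D, Adm t m x) ∧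
      (tgt D C).head? = L.head? ∧ (tgt D C).IsChain (Adj t) ∧ (tgt D C).Nodup ∧
      (∀ p ∈ tgt D C, p ∈ L ∨ ∃ j ∈ S, ∃ c ∈ L[j]?, InBox c p) ∧
      (∀ p, turnsV t (p :: L) = 0 → turnsV t (p :: tgt D C) ≤ 27 * n) ∧
      (turnsV t L = 0 → turnsV t (tgt D C) ≤ 27 * n) ∧
      (tgt D C).length ≤ L.length + 24 * n ∧
      (∀ o, List.Forall₂ (fun a j => a ≤ o + j ∧ o + j ≤ a + m) (starts o D) (S.sort (· ≤ ·))) := by
  intro n L S hS hc hn hg hind
  have hmem : ∀ j, j ∈ S.sort (· ≤ ·) ↔ j ∈ S := fun j => Finset.mem_sort _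
  have hpw : (S.sort (· ≤ ·)).Pairwise (fun j j' => j + (2 * m + 2) < j' ∧
      ∀ c ∈ L[j]?, ∀ c' ∈ L[j']?, FarPts c c') := by
    have h1 : (S.sort (· ≤ ·)).Pairwise (fun a b => a < b) := Finset.sortedLT_sort S |>.pairwise
    refine List.Pairwise.imp_of_mem ?_ h1
    intro a b ha hb hab
    exact hind a ((hmem a).1 ha) b ((hmem b).1 hb) hab
  obtain ⟨D, C, h1, h2, h3, h4, h5, h6, h7, h8, h9, h10, h11⟩ :=
    Surgery_list t m n (S.sort (· ≤ ·)) L (by rw [Finset.length_sort, hS]) hc hn
      (fun j hj => hg j ((hmem j).1 hj)) hpw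
  refine ⟨D, C, h1, h2, h3, h4, h5, h6, ?_, h8, h9, h10, h11⟩
  intro p hp
  rcases h7 p hp with h | ⟨j, hj, c, hc, hb⟩
  · exact Or.inl h
  · exact Or.inr ⟨j, (hmem j).1 hj, c, hc, hb⟩

private theorem Surgery_inj (m : ℕ) (P : Finset ℕ)
    (hind : ∀ j ∈ P, ∀ j' ∈ P, j < j' → j + (2 * m + 2) < j') :
    ∀ (X Y Z : List ℕ), (∀ y ∈ Y, y ∈ P) → (∀ z ∈ Z, z ∈ P) →
      List.Forall₂ (fun a j => a ≤ 0 + j ∧ 0 + j ≤ a + m) X Y →
      List.Forall₂ (fun a j => a ≤ 0 + j ∧ 0 + j ≤ a + m) X Z → Y = Z := by
  intro X
  induction X with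
  | nil =>
    intro Y Z _ _ hY hZ
    rw [List.forall₂_nil_left_iff] at hY hZ
    rw [hY, hZ]
  | cons x X ih =>
    intro Y Z hYP hZP hY hZ
    rw [List.forall₂_cons_left_iff] at hY hZ
    obtain ⟨y, Y', h1, h2, rfl⟩ := hY
    obtain ⟨z, Z', h3, h4, rfl⟩ := hZ
    have h5 : Y' = Z' := ih Y' Z' (fun w hw => hYP w (List.mem_cons_of_mem _ hw))
      (fun w hw => hZP w (List.mem_cons_of_mem _ hw)) h2 h4
    have hy := hYP y List.mem_cons_self
    have hz := hZP z List.mem_cons_self
    have h6 : y = z := by
      rcases lt_trichotomy y z with h | h | h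
      · have := hind y hy z hz h
        omega
      · exact h
      · have := hind z hz y hy h
        omega
    rw [h5, h6]

/-- The version for words, with the injectivity in the set of places. -/
theorem surgery_word (m : ℕ) {l : List (ℤ × ℤ)} (hl : l ∈ saws t) (h0 : turns t l = 0)
    (P : Finset ℕ) (hP : ∀ j ∈ P, Good m l j)
    (hind : ∀ j ∈ P, ∀ j' ∈ P, j < j' → j + (2 * m + 2) < j' ∧ FarPts (pos l j) (pos l j')) :
    ∃ f : Finset ℕ → List Mark × List (ℤ × ℤ), Set.InjOn f {S | S ⊆ P} ∧
      ∀ S ⊆ P, src (f S).1 (f S).2 = verts 0 l ∧ (f S).1.length = S.card ∧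
        (∀ x ∈ (f S).1, Adm t m x) ∧ tgt (f S).1 (f S).2 ∈ VS t ∧
        turnsV t (tgt (f S).1 (f S).2) ≤ 27 * S.card ∧
        (tgt (f S).1 (f S).2).length ≤ (verts 0 l).length + 24 * S.card := by
  classical
  obtain ⟨hh, hc, hn⟩ := verts_mem_VS hl
  have hget : ∀ {i : ℕ} {p : ℤ × ℤ}, p ∈ (verts 0 l)[i]? → i ≤ l.length ∧ p = pos l i := by
    intro i p hp
    have h1 : (verts 0 l)[i]? = some p := hp
    have h2 := (List.getElem?_eq_some_iff.1 h1).1
    rw [length_verts] at h2
    have h3 : i ≤ l.length := by omega
    refine ⟨h3, ?_⟩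
    rw [getElem?_verts 0 l h3, zero_add] at h1
    exact (Option.some.inj h1).symm
  have key : ∀ S : Finset ℕ, S ⊆ P → ∃ d : List Mark × List (ℤ × ℤ),
      src d.1 d.2 = verts 0 l ∧ d.1.length = S.card ∧
        (∀ x ∈ d.1, Adm t m x) ∧ tgt d.1 d.2 ∈ VS t ∧
        turnsV t (tgt d.1 d.2) ≤ 27 * S.card ∧
        (tgt d.1 d.2).length ≤ (verts 0 l).length + 24 * S.card ∧
        List.Forall₂ (fun a j => a ≤ 0 + j ∧ 0 + j ≤ a + m) (starts 0 d.1)
          (S.sort (· ≤ ·)) := by
    intro S hS
    obtain ⟨D, C, h1, h2, h3, h4, h5, h6, h7, h8, h9, h10, h11⟩ :=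
      surgery (t := t) m S.card (verts 0 l) S rfl hc hn
        (by
          intro j hj
          obtain ⟨g1, g2, g3⟩ := hP j (hS hj)
          refine ⟨g1, by rw [length_verts]; omega, ?_⟩
          intro i p hp c hc hb
          obtain ⟨e1, rfl⟩ := hget hp
          obtain ⟨e2, rfl⟩ := hget hc
          exact g3 i e1 hb)
        (by
          intro j hj j' hj' hjj
          obtain ⟨g1, g2⟩ := hind j (hS hj) j' (hS hj') hjj
          refine ⟨g1, ?_⟩
          intro c hc c' hc'
          obtain ⟨e1, rfl⟩ := hget hc
          obtain ⟨e2, rfl⟩ := hget hc'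
          exact g2)
    exact ⟨(D, C), h1, h2, h3, ⟨h4.trans hh, h5, h6⟩, h9 h0, h10, h11 0⟩
  choose! f hf using key
  refine ⟨f, ?_, fun S hS => ?_⟩
  · intro S hS S' hS' hSS
    have h1 := (hf S hS).2.2.2.2.2.2
    have h2 := (hf S' hS').2.2.2.2.2.2
    rw [hSS] at h1
    have h3 := Surgery_inj m P (fun j hj j' hj' h => (hind j hj j' hj' h).1) _ _ _
      (fun y hy => hS ((Finset.mem_sort _).1 hy)) (fun y hy => hS' ((Finset.mem_sort _).1 hy)) h1 h2
    have h4 : (S.sort (· ≤ ·)).toFinset = (S'.sort (· ≤ ·)).toFinset := by rw [h3]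
    rwa [Finset.sort_toFinset, Finset.sort_toFinset] at h4
  · obtain ⟨h1, h2, h3, h4, h5, h6, _⟩ := hf S hS
    exact ⟨h1, h2, h3, h4, h5, h6⟩

end Pool.Agent.SHK
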