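import Pool.Agent.SHK.Block
import Pool.Agent.SHK.Count
import Pool.Agent.SHK.Surgery

/-!
# Walks without turns and with many good places are rare

`surg_small`: paper proof.  Let `B` be the set in the statement and `y` from `count_der'`.  For
`0 < z < zc`, `z ≤ 1`, let `x = y * z^24`.  For `l ∈ B` let `P l` be the set of `exists_places`, so
`|P l| ≥ goods m l / (4m + 90) ≥ a' |l|` with `a' = a / (4m + 90)`.  Then
`∑_{l ∈ B} (1 + x)^|P l| z^|l| = ∑_{l ∈ B} ∑_{S ⊆ P l} x^|S| z^|l|`, and by `surgery_word` the map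
`(l, S) ↦ (D, C) = f_l S` is injective (`src D C = verts 0 l` determines `l`), with
`z^|l| = z^(|src D C| - 1) ≤ z^(|tgt D C| - 1 - 24 |S|)`.  So the sum is at most
`∑_{(D,C)} (x z^(-24))^|D| z^(|tgt D C| - 1)`, over all pairs with admissible marks, `tgt D C ∈ VS t` and
`turnsV t (tgt D C) ≤ 27 |D|`; grouping by `L' = tgt D C` and using `count_der'` it is at most
`∑_{L' ∈ VS t} z^(|L'| - 1) = gf (saws t) z < ∞` (`exists_verts`, `verts_injective`).  Hence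
`cnt B n * ((1 + x)^a' z)^n ≤ G := gf (saws t) z` for all `n`.  As `z ↑ zc`, `(1 + x)^a' z` tends to
`(1 + y zc^24)^a' zc > zc = 1 / mu`; so for suitable `z < zc` `θ := 1 / ((1 + x)^a' z) < mu`, and
`cnt B n ≤ G θ^n`.
-/

namespace Pool.Agent.SHK

open Pool.Agent.SHP
open scoped ENNReal NNReal

variable {t : Bool}

private theorem SurgSmall_data (t : Bool) (m : ℕ) (l : List (ℤ × ℤ)) (hl : l ∈ saws t)
    (h0 : turns t l = 0) :
    ∃ P : Finset ℕ, ∃ f : Finset ℕ → List Mark × List (ℤ × ℤ),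
      goods m l ≤ (4 * m + 90) * P.card ∧ Set.InjOn f {S | S ⊆ P} ∧
      ∀ S ⊆ P, src (f S).1 (f S).2 = verts 0 l ∧ (f S).1.length = S.card ∧
        (∀ x ∈ (f S).1, Adm t m x) ∧ tgt (f S).1 (f S).2 ∈ VS t ∧
        turnsV t (tgt (f S).1 (f S).2) ≤ 27 * S.card ∧
        (tgt (f S).1 (f S).2).length ≤ l.length + 1 + 24 * S.card := by
  obtain ⟨P, hP1, hP2, hP3⟩ := exists_places m hl
  obtain ⟨f, hf1, hf2⟩ := surgery_word m hl h0 P hP1 hP2
  refine ⟨P, f, hP3, hf1, fun S hS => ?_⟩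
  have := hf2 S hS
  rw [length_verts] at this
  exact this

private theorem SurgSmall_sum (t : Bool) (m : ℕ) {y z : ℝ≥0} (hz : z ≤ 1)
    (hy : ∀ L' : List (ℤ × ℤ), ∑' d : {d | d ∈ DerOver t m L' ∧ turnsV t L' ≤ 27 * d.1.length},
      (y : ℝ≥0∞) ^ (d : List Mark × List (ℤ × ℤ)).1.length ≤ 1)
    (B : Set (List (ℤ × ℤ))) (P : B → Finset ℕ) (f : B → Finset ℕ → List Mark × List (ℤ × ℤ))
    (hinj : ∀ l, Set.InjOn (f l) {S | S ⊆ P l})
    (hf : ∀ l : B, ∀ S ⊆ P l, src (f l S).1 (f l S).2 = verts 0 l ∧ (f l S).1.length = S.card ∧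
        (∀ x ∈ (f l S).1, Adm t m x) ∧ tgt (f l S).1 (f l S).2 ∈ VS t ∧
        turnsV t (tgt (f l S).1 (f l S).2) ≤ 27 * S.card ∧
        (tgt (f l S).1 (f l S).2).length ≤ (l : List (ℤ × ℤ)).length + 1 + 24 * S.card) :
    ∑' l : B, ((y * z ^ 24 : ℝ≥0) + 1 : ℝ≥0∞) ^ (P l).card *
      (z : ℝ≥0∞) ^ (l : List (ℤ × ℤ)).length ≤ gf (saws t) z := by
  classical
  have h1 : ∀ l : B, ((y * z ^ 24 : ℝ≥0) + 1 : ℝ≥0∞) ^ (P l).card *
      (z : ℝ≥0∞) ^ (l : List (ℤ × ℤ)).length =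
      ∑' S : {S // S ∈ (P l).powerset}, ((y * z ^ 24 : ℝ≥0) : ℝ≥0∞) ^ (S : Finset ℕ).card *
        (z : ℝ≥0∞) ^ (l : List (ℤ × ℤ)).length := by
    intro l
    rw [Finset.tsum_subtype (P l).powerset
      (fun S => ((y * z ^ 24 : ℝ≥0) : ℝ≥0∞) ^ S.card * (z : ℝ≥0∞) ^ (l : List (ℤ × ℤ)).length),
      ← Finset.sum_mul]
    congr 1
    have := Finset.sum_pow_mul_eq_add_pow ((y * z ^ 24 : ℝ≥0) : ℝ≥0∞) 1 (P l)
    rw [← this]
    simp
  have h2 : ∑' l : B, ((y * z ^ 24 : ℝ≥0) + 1 : ℝ≥0∞) ^ (P l).card *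
      (z : ℝ≥0∞) ^ (l : List (ℤ × ℤ)).length =
      ∑' q : (Σ l : B, {S // S ∈ (P l).powerset}),
        ((y * z ^ 24 : ℝ≥0) : ℝ≥0∞) ^ (q.2 : Finset ℕ).card *
        (z : ℝ≥0∞) ^ (q.1 : List (ℤ × ℤ)).length := by
    rw [ENNReal.tsum_sigma (fun (l : B) (S : {S // S ∈ (P l).powerset}) =>
      ((y * z ^ 24 : ℝ≥0) : ℝ≥0∞) ^ (S : Finset ℕ).card *
        (z : ℝ≥0∞) ^ (l : List (ℤ × ℤ)).length)]
    exact tsum_congr h1
  rw [h2]
  -- the map
  let Φ : (Σ l : B, {S // S ∈ (P l).powerset}) →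
      Σ L' : VS t, {d | d ∈ DerOver t m L' ∧ turnsV t L' ≤ 27 * d.1.length} := fun q =>
    have hS : (q.2 : Finset ℕ) ⊆ P q.1 := Finset.mem_powerset.1 q.2.2
    ⟨⟨tgt (f q.1 q.2).1 (f q.1 q.2).2, (hf q.1 q.2 hS).2.2.2.1⟩,
      ⟨f q.1 q.2, ⟨⟨(hf q.1 q.2 hS).2.2.1, rfl⟩,
        le_of_le_of_eq (hf q.1 q.2 hS).2.2.2.2.1
          (congrArg (fun k => 27 * k) (hf q.1 q.2 hS).2.1.symm)⟩⟩⟩
  have hΦ : Function.Injective Φ := by
    rintro ⟨l, S, hS⟩ ⟨l', S', hS'⟩ h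
    have hS1 : S ⊆ P l := Finset.mem_powerset.1 hS
    have hS1' : S' ⊆ P l' := Finset.mem_powerset.1 hS'
    have h3 : f l S = f l' S' := by
      have h4 : ∀ p q : (Σ L' : VS t, {d | d ∈ DerOver t m L' ∧ turnsV t L' ≤ 27 * d.1.length}),
          p = q → (p.2 : List Mark × List (ℤ × ℤ)) = (q.2 : List Mark × List (ℤ × ℤ)) := by
        rintro p q rfl
        rfl
      exact h4 _ _ h
    have h5 : l = l' := by
      apply Subtype.ext
      apply verts_injective 0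
      rw [← (hf l S hS1).1, ← (hf l' S' hS1').1, h3]
    subst h5
    have h6 : S = S' := hinj l hS1 hS1' h3
    subst h6
    rfl
  let g : (Σ L' : VS t, {d | d ∈ DerOver t m L' ∧ turnsV t L' ≤ 27 * d.1.length}) → ℝ≥0∞ :=
    fun r => (y : ℝ≥0∞) ^ (r.2 : List Mark × List (ℤ × ℤ)).1.length *
      (z : ℝ≥0∞) ^ ((r.1 : List (ℤ × ℤ)).length - 1)
  have hz' : (z : ℝ≥0∞) ≤ 1 := by exact_mod_cast hz
  have h3 : ∀ q, ((y * z ^ 24 : ℝ≥0) : ℝ≥0∞) ^ (q.2 : Finset ℕ).card *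
        (z : ℝ≥0∞) ^ (q.1 : List (ℤ × ℤ)).length ≤ g (Φ q) := by
    intro q
    have hS : (q.2 : Finset ℕ) ⊆ P q.1 := Finset.mem_powerset.1 q.2.2
    have h4 := hf q.1 q.2 hS
    show _ ≤ (y : ℝ≥0∞) ^ (f q.1 q.2).1.length *
      (z : ℝ≥0∞) ^ ((tgt (f q.1 q.2).1 (f q.1 q.2).2).length - 1)
    rw [h4.2.1]
    push_cast
    rw [mul_pow, mul_assoc, ← pow_mul, ← pow_add]
    refine mul_le_mul_right ?_ _
    refine pow_le_pow_right_of_le_one' hz' ?_
    have := h4.2.2.2.2.2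
    omega
  calc _ ≤ ∑' q, g (Φ q) := ENNReal.tsum_le_tsum h3
    _ ≤ ∑' r, g r := ENNReal.tsum_comp_le_tsum_of_injective hΦ g
    _ = ∑' L' : VS t, ∑' d : {d | d ∈ DerOver t m L' ∧ turnsV t L' ≤ 27 * d.1.length},
          (y : ℝ≥0∞) ^ (d : List Mark × List (ℤ × ℤ)).1.length *
            (z : ℝ≥0∞) ^ ((L' : List (ℤ × ℤ)).length - 1) := ENNReal.tsum_sigma' g
    _ ≤ ∑' L' : VS t, (z : ℝ≥0∞) ^ ((L' : List (ℤ × ℤ)).length - 1) := by
        refine ENNReal.tsum_le_tsum fun L' => ?_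
        rw [ENNReal.tsum_mul_right]
        calc _ ≤ 1 * (z : ℝ≥0∞) ^ ((L' : List (ℤ × ℤ)).length - 1) :=
              mul_le_mul_left (hy L') _
          _ = _ := one_mul _
    _ ≤ gf (saws t) z := by
        unfold gf
        choose! w hw1 hw2 using fun L' (h : L' ∈ VS t) => exists_verts h
        let Ψ : VS t → saws t := fun L' => ⟨w L', hw1 L' L'.2⟩
        have hΨ : Function.Injective Ψ := by
          intro L L' h
          have h5 : w L = w L' := congrArg Subtype.val h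
          apply Subtype.ext
          rw [← hw2 L L.2, ← hw2 L' L'.2, h5]
        calc _ = ∑' L' : VS t, (fun l : saws t => (z : ℝ≥0∞) ^ (l : List (ℤ × ℤ)).length) (Ψ L') := by
              refine tsum_congr fun L' => ?_
              show _ = (z : ℝ≥0∞) ^ (w L').length
              congr 1
              have := congrArg List.length (hw2 L' L'.2)
              rw [length_verts] at this
              omega
          _ ≤ _ := ENNReal.tsum_comp_le_tsum_of_injective hΨ _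

private theorem SurgSmall_choice (t : Bool) {y : ℝ≥0} (hy : 0 < y) {b : ℝ} (hb : 0 < b) :
    ∃ z : ℝ≥0, 0 < z ∧ z < zc t ∧ 1 / mu t < ((y : ℝ) * z ^ 24 + 1) ^ b * z := by
  have hzc := zc_pos t
  have hmu := one_le_mu t
  have hcont : Continuous (fun z : ℝ≥0 => ((y : ℝ) * z ^ 24 + 1) ^ b * (z : ℝ)) := by
    refine Continuous.mul ?_ NNReal.continuous_coe
    refine Continuous.rpow_const ?_ ?_
    · fun_prop
    · intro z
      right
      exact hb.le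
  have h1 : 1 / mu t < ((y : ℝ) * zc t ^ 24 + 1) ^ b * (zc t : ℝ) := by
    have h2 : 1 / mu t = (zc t : ℝ) := by
      have := zc_mul_mu t
      field_simp
      linarith
    rw [h2]
    have h3 : 1 < ((y : ℝ) * (zc t : ℝ) ^ 24 + 1) ^ b := by
      apply Real.one_lt_rpow _ hb
      have : 0 < (y : ℝ) * (zc t : ℝ) ^ 24 := by positivity
      linarith
    have h4 : (0 : ℝ) < zc t := by exact_mod_cast hzc
    nlinarith
  have h2 := (hcont.tendsto (zc t)).eventually (lt_mem_nhds h1)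
  have h3 : ∀ᶠ z : ℝ≥0 in nhdsWithin (zc t) (Set.Iio (zc t)),
      1 / mu t < ((y : ℝ) * z ^ 24 + 1) ^ b * (z : ℝ) :=
    h2.filter_mono nhdsWithin_le_nhds
  have h4 : ∀ᶠ z in nhdsWithin (zc t) (Set.Iio (zc t)), z ∈ Set.Ioo 0 (zc t) :=
    Ioo_mem_nhdsLT hzc
  have : (nhdsWithin (zc t) (Set.Iio (zc t))).NeBot := nhdsLT_neBot_of_exists_lt ⟨0, hzc⟩
  obtain ⟨z, hz1, hz2⟩ := (h3.and h4).exists
  exact ⟨z, hz2.1, hz2.2, hz1⟩

theorem surg_small (t : Bool) (m : ℕ) {a : ℝ} (ha : 0 < a) :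
    Small t {l | l ∈ saws t ∧ turns t l = 0 ∧ a * l.length ≤ goods m l} := by
  classical
  obtain ⟨y, hy0, hy⟩ := count_der' t m
  set B : Set (List (ℤ × ℤ)) := {l | l ∈ saws t ∧ turns t l = 0 ∧ a * l.length ≤ goods m l} with hB
  set b : ℝ := a / (4 * m + 90) with hb
  have hb0 : 0 < b := by positivity
  obtain ⟨z, hz0, hzc, hz⟩ := SurgSmall_choice t hy0 hb0
  have hmu := one_le_mu t
  have hex : ∀ l : B, _ := fun l : B => SurgSmall_data t m l l.2.1 l.2.2.1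
  choose P f hP hinj hf using hex
  have hsum := SurgSmall_sum t m (hzc.le.trans (zc_le_one t)) hy B P f hinj hf
  set r : ℝ≥0 := (y * z ^ 24 + 1) ^ b * z with hr
  have hrr : (r : ℝ) = ((y : ℝ) * z ^ 24 + 1) ^ b * z := by
    rw [hr]; push_cast; rfl
  have hr0 : 0 < (r : ℝ) := by
    rw [hrr]; have : (0 : ℝ) < z := by exact_mod_cast hz0
    positivity
  have h1 : gf B r ≤ gf (saws t) z := by
    refine le_trans ?_ hsum
    unfold gf
    refine ENNReal.tsum_le_tsum fun l => ?_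
    have h2 : r ^ (l : List (ℤ × ℤ)).length ≤ (y * z ^ 24 + 1) ^ (P l).card *
        z ^ (l : List (ℤ × ℤ)).length := by
      rw [hr, mul_pow]
      refine mul_le_mul_left ?_ _
      have e1 : ((y * z ^ 24 + 1) ^ b) ^ (l : List (ℤ × ℤ)).length =
          (y * z ^ 24 + 1) ^ (b * ((l : List (ℤ × ℤ)).length : ℝ)) := by
        rw [NNReal.rpow_mul, NNReal.rpow_natCast]
      have e2 : (y * z ^ 24 + 1) ^ (P l).card = (y * z ^ 24 + 1) ^ ((P l).card : ℝ) := by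
        rw [NNReal.rpow_natCast]
      rw [e1, e2]
      refine NNReal.rpow_le_rpow_of_exponent_le ?_ ?_
      · exact le_add_self
      · rw [hb, div_mul_eq_mul_div, div_le_iff₀ (by positivity)]
        refine l.2.2.2.trans ?_
        have := hP l
        calc ((goods m l : ℕ) : ℝ) ≤ (((4 * m + 90) * (P l).card : ℕ) : ℝ) := by exact_mod_cast this
          _ = _ := by push_cast; ring
    have h3 : ((r ^ (l : List (ℤ × ℤ)).length : ℝ≥0) : ℝ≥0∞) ≤
        (((y * z ^ 24 + 1) ^ (P l).card * z ^ (l : List (ℤ × ℤ)).length : ℝ≥0) : ℝ≥0∞) := by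
      exact_mod_cast h2
    push_cast at h3 ⊢
    exact h3
  have h2 : gf B r ≠ ⊤ := ne_top_of_le_ne_top (gf_saws_ne_top t hzc) h1
  have h3 := gf_eq_cnt (t := t) (A := B) (fun l hl => hl.1.1) r
  refine ⟨1 / r, by positivity, ?_, (gf B r).toReal + 1, by positivity, fun n => ?_⟩
  · rw [div_lt_iff₀ hr0, ← div_lt_iff₀' (by linarith), hrr]
    exact hz
  · have h4 : (cnt B n : ℝ≥0∞) * (r : ℝ≥0∞) ^ n ≤ gf B r := by
      rw [h3]
      exact ENNReal.le_tsum n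
    have h5 : (cnt B n : ℝ) * (r : ℝ) ^ n ≤ (gf B r).toReal := by
      have := ENNReal.toReal_mono h2 h4
      simpa using this
    rw [one_div, inv_pow, ← div_eq_mul_inv, le_div_iff₀ (by positivity)]
    linarith

end Pool.Agent.SHK
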